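import Pool.Agent.Helper46.M8.St.A6
import Pool.Agent.Helper46.M8.Ns

/-!
# M9, piece A5
-/

open Filter Metric Module Set
open scoped Topology ContDiff Matrix Matrix.Norms.Elementwise ComplexConjugate

set_option maxSynthPendingDepth 3

namespace Pool.Agent.Helper81.M9
open Pool.Agent.Helper20.PC Pool.Agent.Helper20.HP Pool.Agent.Helper20.M8 Pool.Agent.Helper20.MB
open Pool.Agent.Helper46.M8

/-! ### A5 : the Fubini-Study connection -/
private lemma A5_GamL (z u v : V) : GamL h0 z u v = Gam h0 z u v :=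
  GamL_eq ((contDiff_infty.1 contDiff_h0 2).contDiffAt) u v

private lemma A5_eq (z u v : V) :
    GamL h0 z u v = - ((nz z : ℂ)⁻¹ • (hip z u • v + hip z v • u)) := by
  rw [A5_GamL, Gam_h0]

theorem contDiff_GamL_h0 : ContDiff ℝ ∞ (GamL h0 : V → V →L[ℝ] V →L[ℝ] V) := by
  rw [contDiff_clm_apply_iff]
  intro u
  rw [contDiff_clm_apply_iff]
  intro v
  simp only [A5_eq]
  have h1 : ContDiff ℝ ∞ (fun z : V => (nz z : ℂ)) := Complex.ofRealCLM.contDiff.comp contDiff_nz
  have h2 : ContDiff ℝ ∞ (fun z : V => (nz z : ℂ)⁻¹) :=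
    h1.inv fun z => by exact_mod_cast (nz_pos z).ne'
  exact (h2.smul (((contDiff_hip_left u).smul contDiff_const).add
    ((contDiff_hip_left v).smul contDiff_const))).neg

theorem GamL_h0_eq (z u v : V) :
    GamL h0 z u v = - ((nz z : ℂ)⁻¹ • (hip z u • v + hip z v • u)) := A5_eq z u v

theorem GamL_h0_symm (z u v : V) : GamL h0 z u v = GamL h0 z v u := by
  rw [A5_eq, A5_eq, add_comm (hip z u • v)]

theorem GamL_h0_iL (z u v : V) : GamL h0 z u (iL v) = iL (GamL h0 z u v) := by
  rw [A5_eq, A5_eq, iL_apply, iL_apply]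
  have : hip z (Complex.I • v) = Complex.I * hip z v := by
    simp only [hip, Fin.sum_univ_two, Pi.smul_apply, smul_eq_mul]
    ring
  rw [this]
  ext k
  simp only [Pi.neg_apply, Pi.smul_apply, Pi.add_apply, smul_eq_mul]
  ring

theorem fderiv_h0 (z w u v : V) :
    fderiv ℝ h0 z w u v = h0 z (GamL h0 z w u) v + h0 z u (GamL h0 z w v) := by
  have hM := h0_metAt z
  have e : fderiv ℝ h0 z w u v = dG h0 z w u v := by
    have h1 := (((hM.smooth.differentiableAt (by norm_num)).hasFDerivAt.clm_apply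
      (hasFDerivAt_const u z)).clm_apply (hasFDerivAt_const v z)).fderiv
    rw [dG, h1]
    simp
  rw [e, dG_eq_chr hM, ← G_Gam hM, ← G_Gam hM, A5_GamL, A5_GamL, h0_symm z (Gam h0 z w v)]

end Pool.Agent.Helper81.M9
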