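import Pool.Agent.Helper81.M9.Basic
import Pool.Agent.Helper46.M8.St.C1
import Pool.Agent.Helper81.M9.St.A5
import Pool.Agent.Helper46.M8.Ns

/-!
# M9, piece C1
-/

open Filter Metric Module Set
open scoped Topology ContDiff Matrix Matrix.Norms.Elementwise ComplexConjugate

set_option maxSynthPendingDepth 3

namespace Pool.Agent.Helper81.M9
open Pool.Agent.Helper20.PC Pool.Agent.Helper20.HP Pool.Agent.Helper20.M8 Pool.Agent.Helper20.MB
open Pool.Agent.Helper46.M8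

/-- smoothness of a family of continuous linear maps can be tested on vectors. -/
private lemma C1_clm {Q W E : Type*} [NormedAddCommGroup Q] [NormedSpace ℝ Q]
    [NormedAddCommGroup W] [NormedSpace ℝ W] [FiniteDimensional ℝ W] [NormedAddCommGroup E]
    [NormedSpace ℝ E] {f : Q → W →L[ℝ] E}
    (h : ∀ y, ContDiff ℝ ∞ (fun q => f q y)) : ContDiff ℝ ∞ f := by
  have e : f = fun q => ∑ i, (LinearMap.toContinuousLinearMap
      ((Module.finBasis ℝ W).coord i)).smulRight (f q (Module.finBasis ℝ W i)) := by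
    funext q'
    ext y
    conv_lhs => rw [← (Module.finBasis ℝ W).sum_repr y, map_sum]
    rw [sum_apply]
    refine Finset.sum_congr rfl fun i _ => ?_
    rw [map_smul]
    rfl
  rw [e]
  refine ContDiff.sum fun i _ => ?_
  exact contDiff_const.smulRight (h _)

private lemma C1_DK (i : Fin 8) : ContDiff ℝ ∞ (fun q : Pm × V => DK q.1.1 i q.2) := by
  rw [contDiff_iff_contDiffAt]
  intro q
  exact contDiffAt_fderiv_param (F := fun q : Pm × V => Kf q.1.1 i q.2) (p := q.1) (z := q.2)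
    (contDiff_Kf i).contDiffAt

private lemma C1_cpx {Q : Type*} [NormedAddCommGroup Q] [NormedSpace ℝ Q] {f g : Q → ℝ}
    (hf : ContDiff ℝ ∞ f) (hg : ContDiff ℝ ∞ g) : ContDiff ℝ ∞ (fun q => (⟨f q, g q⟩ : ℂ)) := by
  have h1 : ContDiff ℝ ∞ (fun q => Complex.equivRealProdCLM.symm (f q, g q)) :=
    Complex.equivRealProdCLM.symm.contDiff.comp (hf.prodMk hg)
  exact h1

/-! ### C1 : smoothness in the parameters -/
theorem contDiff_MK (i : Fin 8) : ContDiff ℝ ∞ (fun q : Pm × V => MK q.1.1 i q.2) := by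
  rw [contDiff_iff_contDiffAt]
  intro q
  have h1 : ContDiffAt ℝ ∞ (fun q : Pm × V => DK q.1.1 i q.2) q := (C1_DK i).contDiffAt
  have h2 : ContDiffAt ℝ ∞ (fun q : Pm × V => GamL h0 q.2) q :=
    (contDiff_GamL_h0.comp contDiff_snd).contDiffAt
  have h3 : ContDiffAt ℝ ∞ (fun q : Pm × V => (GamL h0 q.2).flip) q :=
    ContDiffAt.comp (g := fun B : V →L[ℝ] V →L[ℝ] V => B.flip) q
      (ContinuousLinearMap.flipₗᵢ ℝ V V V).contDiff.contDiffAt h2
  exact h1.add (h3.clm_apply (contDiff_Kf i).contDiffAt)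

theorem contDiffAt_hatL {q : Pm × V} (hU : q.1.1ᴴ * q.1.1 = 1) (hδ : |q.1.2.1| ≤ 1/100) :
    ContDiffAt ℝ ∞ (fun q : Pm × V => hatL q.1.1 q.1.2.1 q.2) q := by
  have h1 := contDiffAt_hm hU hδ
  have h2 : ContDiff ℝ ∞ (fun q : Pm × V => (((q.1.1, (0 : ℝ), (0 : ℝ)), q.2) : Pm × V)) :=
    ((contDiff_fst.comp contDiff_fst).prodMk contDiff_const).prodMk contDiff_snd
  have h3 : ContDiffAt ℝ ∞ (fun q : Pm × V => CC q.1.1 0 q.2) q :=
    (contDiff_CC.comp h2).contDiffAt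
  exact h3.clm_comp h1

theorem contDiffAt_BL {q : Pm × V} (hU : q.1.1ᴴ * q.1.1 = 1) (hδ : |q.1.2.1| ≤ 1/100) :
    ContDiffAt ℝ ∞ (fun q : Pm × V => BL q.1.1 q.1.2.1 q.1.2.2 q.2) q := by
  have hε : ContDiffAt ℝ ∞ (fun q : Pm × V => q.1.2.2) q :=
    (contDiff_snd.comp (contDiff_snd.comp contDiff_fst)).contDiffAt
  have hd : ContDiffAt ℝ ∞ (fun q : Pm × V => q.1.2.1) q :=
    (contDiff_fst.comp (contDiff_snd.comp contDiff_fst)).contDiffAt
  have hM := fun i => contDiffAt_momL hU hδ i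
  have h1 : ContDiffAt ℝ ∞ (fun q : Pm × V => q.1.2.2 •
      (momL q.1.1 q.1.2.1 q.2 6).smulRight iL) q :=
    hε.smul ((hM 6).smulRight contDiffAt_const)
  have h2 : ContDiffAt ℝ ∞ (fun q : Pm × V => ∑ i, ∑ j, Ii i j •
      (momL q.1.1 q.1.2.1 q.2 j).smulRight (MK q.1.1 i q.2)) q := by
    refine ContDiffAt.sum fun i _ => ContDiffAt.sum fun j _ => ?_
    exact ContDiffAt.const_smul _ ((hM j).smulRight (contDiff_MK i).contDiffAt)
  exact h1.sub (hd.smul h2)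

theorem contDiff_LamL : ContDiff ℝ ∞ (LamL : V → V →L[ℝ] Y9 →L[ℝ] Y9) := by
  refine C1_clm fun v => C1_clm fun y => ?_
  have e : (fun z : V => LamL z v y) = fun z : V =>
      ((((⟨-(1/2) * h0 z v y.2, -(1/4) * h0 z (iL v) y.2⟩ : ℂ),
      (1/2 * y.1.re) • v + (1/4 * y.1.im) • iL v)) : Y9) := by
    funext z
    exact LamL_apply _ _ _
  rw [e]
  refine ContDiff.prodMk (C1_cpx ?_ ?_) contDiff_const
  · exact contDiff_const.mul ((contDiff_h0.clm_apply contDiff_const).clm_apply contDiff_const)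
  · exact contDiff_const.mul ((contDiff_h0.clm_apply contDiff_const).clm_apply contDiff_const)

private lemma C1_prA : ContDiff ℝ ∞ (fun q : Pm × V × V => ((q.1, q.2.1) : Pm × V)) :=
  contDiff_fst.prodMk (contDiff_fst.comp contDiff_snd)

private lemma C1_comp {E : Type*} [NormedAddCommGroup E] [NormedSpace ℝ E] {g : Pm × V → E}
    {q : Pm × V × V} (h : ContDiffAt ℝ ∞ g (q.1, q.2.1)) :
    ContDiffAt ℝ ∞ (fun q : Pm × V × V => g (q.1, q.2.1)) q :=
  ContDiffAt.comp (g := g) q h C1_prA.contDiffAt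

private lemma C1_DK3 (i : Fin 8) (q : Pm × V × V) :
    ContDiffAt ℝ ∞ (fun q : Pm × V × V => DK q.1.1 i q.2.1) q :=
  C1_comp (g := fun q : Pm × V => DK q.1.1 i q.2) (C1_DK i).contDiffAt

private lemma C1_mom3 {q : Pm × V × V} (hU : q.1.1ᴴ * q.1.1 = 1) (hδ : |q.1.2.1| ≤ 1/100)
    (j : Fin 8) :
    ContDiffAt ℝ ∞ (fun q : Pm × V × V => momL q.1.1 q.1.2.1 q.2.1 j q.2.2) q := by
  have h1 := contDiffAt_momL (q := ((q.1, q.2.1) : Pm × V)) hU hδ j
  have h2 : ContDiffAt ℝ ∞ (fun q : Pm × V × V => momL q.1.1 q.1.2.1 q.2.1 j) q :=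
    C1_comp (g := fun q : Pm × V => momL q.1.1 q.1.2.1 q.2 j) h1
  have h3 : ContDiffAt ℝ ∞ (fun q : Pm × V × V => q.2.2) q :=
    (contDiff_snd.comp contDiff_snd).contDiffAt
  exact h2.clm_apply h3

theorem contDiffAt_DKc {q : Pm × V × V} (hU : q.1.1ᴴ * q.1.1 = 1) (hδ : |q.1.2.1| ≤ 1/100) :
    ContDiffAt ℝ ∞ (fun q : Pm × V × V => DKc q.1.1 q.1.2.1 q.2.1 q.2.2) q := by
  unfold DKc
  refine ContDiffAt.sum fun i _ => ContDiffAt.sum fun j _ => ?_
  have h0 : ContDiff ℝ ∞ (fun q : Pm × V × V => Cm q.1.2.1 i j) := by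
    unfold Cm
    exact contDiff_const.add ((contDiff_fst.comp (contDiff_snd.comp contDiff_fst)).mul contDiff_const)
  exact (h0.contDiffAt.mul (C1_mom3 hU hδ j)).smul (C1_DK3 i q)

theorem contDiffAt_DKa {q : Pm × V × V} (hU : q.1.1ᴴ * q.1.1 = 1) (hδ : |q.1.2.1| ≤ 1/100) :
    ContDiffAt ℝ ∞ (fun q : Pm × V × V => DKa q.1.1 q.1.2.1 q.2.1 q.2.2) q := by
  unfold DKa
  refine ContDiffAt.sum fun i _ => ?_
  exact (contDiffAt_const.mul (C1_mom3 hU hδ i)).smul (C1_DK3 i q)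

end Pool.Agent.Helper81.M9
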