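import Pool.Agent.Helper81.M9.Frame
import Pool.Agent.Helper46.M8.St.D1
import Pool.Agent.Helper81.M9.St.C1
import Pool.Agent.Helper46.M8.Ns

/-!
# M9, piece C4
-/

open Filter Metric Module Set
open scoped Topology ContDiff Matrix Matrix.Norms.Elementwise ComplexConjugate

set_option maxSynthPendingDepth 3

namespace Pool.Agent.Helper81.M9
open Pool.Agent.Helper20.PC Pool.Agent.Helper20.HP Pool.Agent.Helper20.M8 Pool.Agent.Helper20.MB
open Pool.Agent.Helper46.M8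

private theorem C4_W (a : Fin 4) : ContDiff ℝ ∞ (fun q : Pm × Fr9 => q.2.2.1 a) :=
  contDiff_pi.1 ((contDiff_fst.comp contDiff_snd).comp contDiff_snd) a

private theorem C4_Y : ContDiff ℝ ∞ (fun q : Pm × Fr9 => q.2.2.2) :=
  (contDiff_snd.comp contDiff_snd).comp contDiff_snd

private theorem C4_base : ContDiff ℝ ∞ (fun q : Pm × Fr9 => (q.1, q.2.1)) :=
  contDiff_fst.prodMk (contDiff_fst.comp contDiff_snd)

private theorem C4_base3 : ContDiff ℝ ∞ (fun q : Pm × Fr9 => (q.1, q.2.1, q.2.2.1 0)) :=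
  contDiff_fst.prodMk ((contDiff_fst.comp contDiff_snd).prodMk (C4_W 0))

/-! ### C4 : smoothness of the flow on frames and of the frames -/
theorem contDiffAt_XF9 {q : Pm × Fr9} (hU : q.1.1ᴴ * q.1.1 = 1) (hδ : |q.1.2.1| ≤ 1/100) :
    ContDiffAt ℝ ∞ (fun q : Pm × Fr9 => XF9 q.1.1 q.1.2.1 q.2) q := by
  have h1 : ContDiffAt ℝ ∞ (fun q : Pm × Fr9 => GamL (hm q.1.1 q.1.2.1) q.2.1) q := by
    have h := contDiffAt_GamL (q := (q.1, q.2.1)) hU hδ
    exact h.comp q C4_base.contDiffAt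
  have h0 : ContDiffAt ℝ ∞ (fun q : Pm × Fr9 => DKc q.1.1 q.1.2.1 q.2.1 (q.2.2.1 0)) q := by
    have h := contDiffAt_DKc (q := (q.1, q.2.1, q.2.2.1 0)) hU hδ
    exact ContDiffAt.comp (g := fun q : Pm × V × V => DKc q.1.1 q.1.2.1 q.2.1 q.2.2)
      (f := fun q : Pm × Fr9 => (q.1, q.2.1, q.2.2.1 0)) q h C4_base3.contDiffAt
  have h2 : ContDiffAt ℝ ∞ (fun q : Pm × Fr9 => ((q.2.2.1 0, fun a =>
      - GamL (hm q.1.1 q.1.2.1) q.2.1 (q.2.2.1 0) (q.2.2.1 a),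
      DKc q.1.1 q.1.2.1 q.2.1 (q.2.2.1 0) q.2.2.2) : Fr9)) q := by
    refine (C4_W 0).contDiffAt.prodMk (ContDiffAt.prodMk ?_ ?_)
    · rw [contDiffAt_pi]
      intro a
      exact ((h1.clm_apply (C4_W 0).contDiffAt).clm_apply (C4_W a).contDiffAt).neg
    · exact h0.clm_apply C4_Y.contDiffAt
  refine h2.congr_of_eventuallyEq ?_
  have h3 := Gam_eq_near (q := (q.1, q.2.1)) hU hδ
  have h4 : Tendsto (fun q : Pm × Fr9 => (q.1, q.2.1)) (𝓝 q) (𝓝 (q.1, q.2.1)) :=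
    C4_base.continuous.tendsto q
  filter_upwards [h4.eventually h3] with q' hq'
  unfold XF9
  refine Prod.ext rfl (Prod.ext ?_ rfl)
  funext a
  simp only
  rw [hq']

theorem contDiffAt_vF {q : Pm × Fr9} (hU : q.1.1ᴴ * q.1.1 = 1) (hδ : |q.1.2.1| ≤ 1/100) :
    ContDiffAt ℝ ∞ (fun q : Pm × Fr9 => vF q.1.1 q.1.2.1 q.2) q := by
  have h1 : ContDiffAt ℝ ∞ (fun q : Pm × Fr9 => hatL q.1.1 q.1.2.1 q.2.1) q := by
    have h := contDiffAt_hatL (q := (q.1, q.2.1)) hU hδ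
    exact h.comp q C4_base.contDiffAt
  exact h1.clm_apply (C4_W 0).contDiffAt

theorem contDiffAt_fF {q : Pm × Fr9} (hU : q.1.1ᴴ * q.1.1 = 1) (hδ : |q.1.2.1| ≤ 1/100)
    (j : Fin 4) : ContDiffAt ℝ ∞ (fun q : Pm × Fr9 => fF q.1.1 q.1.2.1 q.2 j) q := by
  have h1 := contDiffAt_vF hU hδ
  fin_cases j
  · exact h1
  · exact iL.contDiff.contDiffAt.comp q h1
  · exact C4_Y.contDiffAt
  · exact iL.contDiff.contDiffAt.comp q C4_Y.contDiffAt

theorem contDiffAt_fE {q : Pm × Fr9} (hU : q.1.1ᴴ * q.1.1 = 1) (hδ : |q.1.2.1| ≤ 1/100)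
    (j : Fin 6) : ContDiffAt ℝ ∞ (fun q : Pm × Fr9 => fE q.1.1 q.1.2.1 q.2 j) q := by
  have h1 := contDiffAt_vF hU hδ
  fin_cases j
  · exact contDiffAt_const
  · exact contDiffAt_const
  · exact contDiffAt_const.prodMk h1
  · exact contDiffAt_const.prodMk (iL.contDiff.contDiffAt.comp q h1)
  · exact contDiffAt_const.prodMk C4_Y.contDiffAt
  · exact contDiffAt_const.prodMk (iL.contDiff.contDiffAt.comp q C4_Y.contDiffAt)

end Pool.Agent.Helper81.M9
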