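import Pool.Agent.Helper81.M9.St.C2
import Pool.Agent.Helper81.M9.St.C4

/-!
# M9, piece C6
-/

open Filter Metric Module Set
open scoped Topology ContDiff Matrix Matrix.Norms.Elementwise ComplexConjugate

set_option maxSynthPendingDepth 3

namespace Pool.Agent.Helper81.M9
open Pool.Agent.Helper20.PC Pool.Agent.Helper20.HP Pool.Agent.Helper20.M8 Pool.Agent.Helper20.MB
open Pool.Agent.Helper46.M8

/-- the curvature of a smooth family of connections is smooth -/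
private theorem C6_gen {Q B W X : Type*} [NormedAddCommGroup Q] [NormedSpace ℝ Q]
    [NormedAddCommGroup B] [NormedSpace ℝ B] [NormedAddCommGroup W] [NormedSpace ℝ W]
    [NormedAddCommGroup X] [NormedSpace ℝ X] {F : Q × B → B →L[ℝ] W →L[ℝ] W}
    {pq : X → Q} {x u v : X → B} {w : X → W} {t : X} (hF : ContDiffAt ℝ ∞ F (pq t, x t))
    (hp : ContDiffAt ℝ ∞ pq t) (hx : ContDiffAt ℝ ∞ x t) (hu : ContDiffAt ℝ ∞ u t)
    (hv : ContDiffAt ℝ ∞ v t) (hw : ContDiffAt ℝ ∞ w t) :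
    ContDiffAt ℝ ∞ (fun s => OmV (fun z' => F (pq s, z')) (x s) (u s) (v s) (w s)) t := by
  have h1 : ContDiffAt ℝ ∞ (fun s => F (pq s, x s)) t :=
    ContDiffAt.comp (g := F) (f := fun s => (pq s, x s)) t hF (hp.prodMk hx)
  have h2 : ContDiffAt ℝ ∞ (fun s => fderiv ℝ (fun z' => F (pq s, z')) (x s)) t :=
    ContDiffAt.comp (g := fun q : Q × B => fderiv ℝ (fun z' => F (q.1, z')) q.2)
      (f := fun s => (pq s, x s)) t (contDiffAt_fderiv_param (F := F) hF) (hp.prodMk hx)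
  unfold OmV
  refine ContDiffAt.clm_apply (ContDiffAt.sub (ContDiffAt.add (ContDiffAt.sub ?_ ?_) ?_) ?_) hw
  · exact (h2.clm_apply hu).clm_apply hv
  · exact (h2.clm_apply hv).clm_apply hu
  · exact (h1.clm_apply hu).clm_comp (h1.clm_apply hv)
  · exact (h1.clm_apply hv).clm_comp (h1.clm_apply hu)

/-- the fibre metric of smooth sections is smooth -/
private theorem C6_k {X : Type*} [NormedAddCommGroup X] [NormedSpace ℝ X] {x : X → V}
    {f g : X → Y9} {t : X} (hx : ContDiffAt ℝ ∞ x t) (hf : ContDiffAt ℝ ∞ f t)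
    (hg : ContDiffAt ℝ ∞ g t) : ContDiffAt ℝ ∞ (fun s => kL9 (x s) (f s) (g s)) t := by
  have hh : ContDiffAt ℝ ∞ (fun s => h0 (x s)) t :=
    ContDiffAt.comp (g := h0) t contDiff_h0.contDiffAt hx
  have re : ∀ {f : X → Y9}, ContDiffAt ℝ ∞ f t → ContDiffAt ℝ ∞ (fun s => (f s).1.re) t :=
    fun hf => Complex.reCLM.contDiff.contDiffAt.comp t hf.fst
  have im : ∀ {f : X → Y9}, ContDiffAt ℝ ∞ f t → ContDiffAt ℝ ∞ (fun s => (f s).1.im) t :=
    fun hf => Complex.imCLM.contDiff.contDiffAt.comp t hf.fst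
  have h1 : (fun s => kL9 (x s) (f s) (g s)) = fun s => (f s).1.re * (g s).1.re +
      (f s).1.im * (g s).1.im + h0 (x s) (f s).2 (g s).2 := funext fun s => kL9_apply _ _ _
  rw [h1]
  exact (((re hf).mul (re hg)).add ((im hf).mul (im hg))).add
    ((hh.clm_apply hf.snd).clm_apply hg.snd)

private theorem C6_Om {q : Pm × Fr9} (k : Fin 4) (F : Pm × V → V →L[ℝ] Y9 →L[ℝ] Y9)
    (g : Pm × Fr9 → Y9) (hF : ContDiffAt ℝ ∞ F (q.1, q.2.1)) (hg : ContDiffAt ℝ ∞ g q) :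
    ContDiffAt ℝ ∞ (fun s : Pm × Fr9 => OmV (fun z' => F (s.1, z')) s.2.1 (s.2.2.1 0) (s.2.2.1 k)
      (g s)) q := by
  have hT1 : ∀ c : Fin 4, ContDiffAt ℝ ∞ (fun q : Pm × Fr9 => q.2.2.1 c) q := fun c =>
    (contDiff_pi.1 (contDiff_fst.comp (contDiff_snd.comp contDiff_snd)) c).contDiffAt
  have hT2 : ContDiffAt ℝ ∞ (fun q : Pm × Fr9 => q.2.1) q :=
    (contDiff_fst.comp contDiff_snd).contDiffAt
  exact C6_gen (F := F)
      (pq := fun q : Pm × Fr9 => q.1) (x := fun q : Pm × Fr9 => q.2.1)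
      (u := fun q : Pm × Fr9 => q.2.2.1 0) (v := fun q : Pm × Fr9 => q.2.2.1 k)
      (w := g) (t := q) hF contDiffAt_fst hT2 (hT1 0) (hT1 k) hg

private theorem C6_ex {q : Pm × V} (hU : q.1.1ᴴ * q.1.1 = 1) (hδ : |q.1.2.1| ≤ 1/100) :
    ∃ F : Pm × V → V →L[ℝ] Y9 →L[ℝ] Y9,
      ContDiffAt ℝ ∞ F q ∧ ∀ q, F q = AL9 q.1.1 q.1.2.1 q.1.2.2 q.2 :=
  ⟨fun q : Pm × V => AL9 q.1.1 q.1.2.1 q.1.2.2 q.2, contDiffAt_AL9 hU hδ, fun _ => rfl⟩

/-! ### C6 : smoothness of the curvature in frames -/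
theorem contDiffAt_sR9 {q : Pm × Fr9} (hU : q.1.1ᴴ * q.1.1 = 1) (hδ : |q.1.2.1| ≤ 1/100)
    (k : Fin 4) (i j : Fin 6) :
    ContDiffAt ℝ ∞ (fun q : Pm × Fr9 => sR9 q.1.1 q.1.2.1 q.1.2.2 k i j q.2) q := by
  obtain ⟨F, hF, hF'⟩ := C6_ex (q := (q.1, q.2.1)) hU hδ
  have hi := contDiffAt_fE (q := q) hU hδ i
  have hj := contDiffAt_fE (q := q) hU hδ j
  have hx : ContDiffAt ℝ ∞ (fun q : Pm × Fr9 => q.2.1) q :=
    (contDiff_fst.comp contDiff_snd).contDiffAt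
  have h1 := C6_k hx hi (C6_Om k F _ hF hj)
  have h2 : (fun q : Pm × Fr9 => sR9 q.1.1 q.1.2.1 q.1.2.2 k i j q.2) =
      fun q : Pm × Fr9 => kL9 q.2.1 (fE q.1.1 q.1.2.1 q.2 i)
        (OmV (fun z' => F (q.1, z')) q.2.1 (q.2.2.1 0) (q.2.2.1 k) (fE q.1.1 q.1.2.1 q.2 j)) := by
    funext q
    have h3 : (fun z' => F (q.1, z')) = AL9 q.1.1 q.1.2.1 q.1.2.2 := funext fun z' => hF' _
    rw [h3, sR9]
  rw [h2]
  exact h1

end Pool.Agent.Helper81.M9
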