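import Pool.Agent.Helper81.M9.St.B2
import Pool.Agent.Helper46.M8.Ns

/-!
# M9, piece B3
-/

open Filter Metric Module Set
open scoped Topology ContDiff Matrix Matrix.Norms.Elementwise ComplexConjugate

set_option maxSynthPendingDepth 3

namespace Pool.Agent.Helper81.M9
open Pool.Agent.Helper20.PC Pool.Agent.Helper20.HP Pool.Agent.Helper20.M8 Pool.Agent.Helper20.MB
open Pool.Agent.Helper46.M8

/-- pull back of a bilinear form to the fibre, as a continuous linear map. -/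
private noncomputable def B3_pull :
    (V →L[ℝ] V →L[ℝ] ℝ) →L[ℝ] (Y9 →L[ℝ] Y9 →L[ℝ] ℝ) :=
  ((ContinuousLinearMap.compL ℝ Y9 (V →L[ℝ] ℝ) (Y9 →L[ℝ] ℝ))
    ((ContinuousLinearMap.compL ℝ Y9 V ℝ).flip (ContinuousLinearMap.snd ℝ ℂ V))) ∘L
    ((ContinuousLinearMap.compL ℝ Y9 V (V →L[ℝ] ℝ)).flip (ContinuousLinearMap.snd ℝ ℂ V))

private lemma B3_pull_apply (b : V →L[ℝ] V →L[ℝ] ℝ) (y p : Y9) :
    B3_pull b y p = b y.2 p.2 := rfl

private lemma B3_eq (z : V) : kL9 z = kL9 0 - B3_pull (h0 0) + B3_pull (h0 z) := by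
  refine ContinuousLinearMap.ext fun y => ContinuousLinearMap.ext fun p => ?_
  simp only [_root_.add_apply, _root_.sub_apply, B3_pull_apply, kL9_apply]
  ring

/-! ### B3 : the fibre metric -/
theorem kL9_symm (z : V) (y p : Y9) : kL9 z y p = kL9 z p y := by
  rw [kL9_apply, kL9_apply, h0_symm z y.2 p.2]
  ring

theorem kL9_pos (z : V) (y : Y9) (hy : y ≠ 0) : 0 < kL9 z y y := by
  rw [kL9_apply]
  by_cases h2 : y.2 = 0
  · have h1 : y.1 ≠ 0 := fun h => hy (Prod.ext h h2)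
    rw [h2, map_zero]
    have h3 : 0 < Complex.normSq y.1 := Complex.normSq_pos.mpr h1
    rw [Complex.normSq_apply] at h3
    linarith
  · have h3 := h0_pos z y.2 h2
    nlinarith [mul_self_nonneg y.1.re, mul_self_nonneg y.1.im]

theorem contDiff_kL9 : ContDiff ℝ ∞ (kL9 : V → Y9 →L[ℝ] Y9 →L[ℝ] ℝ) := by
  have h : (kL9 : V → Y9 →L[ℝ] Y9 →L[ℝ] ℝ) =
      fun z => kL9 0 - B3_pull (h0 0) + B3_pull (h0 z) := funext B3_eq
  rw [h]
  exact contDiff_const.add (B3_pull.contDiff.comp contDiff_h0)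

theorem LamL_skew (z v : V) (y p : Y9) : kL9 z (LamL z v y) p = - kL9 z y (LamL z v p) := by
  rw [kL9_apply, kL9_apply, LamL_apply, LamL_apply]
  simp only [map_add, map_smul, _root_.add_apply, _root_.smul_apply, smul_eq_mul]
  rw [h0_symm z y.2 v, h0_symm z y.2 (iL v)]
  ring

theorem kL9_par {U : Mat} (hU : Uᴴ * U = 1) (δ ε : ℝ) (z u : V) (p q : Y9) :
    fderiv ℝ kL9 z u p q = kL9 z (AL9 U δ ε z u p) q + kL9 z p (AL9 U δ ε z u q) := by
  have hd : DifferentiableAt ℝ h0 z := (contDiff_h0.differentiable (by norm_num)) z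
  have hk : (kL9 : V → Y9 →L[ℝ] Y9 →L[ℝ] ℝ) =
      fun z => kL9 0 - B3_pull (h0 0) + B3_pull (h0 z) := funext B3_eq
  have h1 : HasFDerivAt kL9 (B3_pull ∘L fderiv ℝ h0 z) z := by
    rw [hk]
    exact (B3_pull.hasFDerivAt.comp z hd.hasFDerivAt).const_add _
  have h2 : fderiv ℝ kL9 z u p q = fderiv ℝ h0 z u p.2 q.2 := by
    rw [h1.fderiv]
    rfl
  have hs := LamL_skew z (hatL U δ z u) p q
  have hb := BL_skew hU δ ε z u p.2 q.2
  have e : ∀ (a : V) (b : Y9), kL9 z ((0, a) : Y9) b = h0 z a b.2 := by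
    intro a b
    rw [kL9_apply]
    simp
  have e' : ∀ (a : V) (b : Y9), kL9 z b ((0, a) : Y9) = h0 z b.2 a := by
    intro a b
    rw [kL9_apply]
    simp
  rw [h2, fderiv_h0, AL9_apply, AL9_apply]
  rw [map_add, map_add, _root_.add_apply, e, e', map_add, map_add, _root_.add_apply, hs, hb]
  ring

end Pool.Agent.Helper81.M9
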