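import Pool.Agent.Helper81.M9.St.C1

/-!
# M9, piece C2
-/

open Filter Metric Module Set
open scoped Topology ContDiff Matrix Matrix.Norms.Elementwise ComplexConjugate

set_option maxSynthPendingDepth 3

namespace Pool.Agent.Helper81.M9
open Pool.Agent.Helper20.PC Pool.Agent.Helper20.HP Pool.Agent.Helper20.M8 Pool.Agent.Helper20.MB
open Pool.Agent.Helper46.M8

/-- smoothness of a family of continuous linear maps is tested on vectors. -/
private lemma C2_clm {D E F : Type*} [NormedAddCommGroup D] [NormedSpace ℝ D]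
    [NormedAddCommGroup E] [NormedSpace ℝ E] [NormedAddCommGroup F] [NormedSpace ℝ F]
    [FiniteDimensional ℝ E] {f : D → E →L[ℝ] F} {q : D}
    (h : ∀ y, ContDiffAt ℝ ∞ (fun x => f x y) q) : ContDiffAt ℝ ∞ f q := by
  let d := finrank ℝ E
  have hd : d = finrank ℝ (Fin d → ℝ) := (finrank_fin_fun ℝ).symm
  let e₁ := ContinuousLinearEquiv.ofFinrankEq hd
  let e₂ := (e₁.arrowCongr (1 : F ≃L[ℝ] F)).trans (ContinuousLinearEquiv.piRing (Fin d))
  rw [← Function.id_comp f, ← e₂.symm_comp_self]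
  exact e₂.symm.contDiff.contDiffAt.comp q (contDiffAt_pi.2 fun i => h _)

/-! ### C2 : smoothness of the bundle data -/
theorem contDiffAt_AL9 {q : Pm × V} (hU : q.1.1ᴴ * q.1.1 = 1) (hδ : |q.1.2.1| ≤ 1/100) :
    ContDiffAt ℝ ∞ (fun q : Pm × V => AL9 q.1.1 q.1.2.1 q.1.2.2 q.2) q := by
  have h1 : ContDiffAt ℝ ∞ (fun q : Pm × V => LamL q.2) q :=
    (contDiff_LamL.comp contDiff_snd).contDiffAt
  have h2 : ContDiffAt ℝ ∞ (fun q : Pm × V => GamL h0 q.2) q :=
    (contDiff_GamL_h0.comp contDiff_snd).contDiffAt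
  unfold AL9
  exact (h1.clm_comp (contDiffAt_hatL hU hδ)).add
    (contDiffAt_const.clm_comp (h2.add (contDiffAt_BL hU hδ)))

theorem contDiffAt_SL9 (lam : ℝ) {q : Pm × V} (hU : q.1.1ᴴ * q.1.1 = 1) (hδ : |q.1.2.1| ≤ 1/100) :
    @ContDiffAt ℝ _ (Pm × V) _ _ (Y9 →L[ℝ] Y9 →L[ℝ] Y9 →L[ℝ] Y9 →L[ℝ] ℝ)
      (ngk4 Y9) (nsk4 Y9) ∞ (fun q : Pm × V => SL9 q.1.1 q.1.2.1 q.1.2.2 lam q.2) q := by
  have h0' : ContDiffAt ℝ ∞ (fun q : Pm × V => h0 q.2) q :=
    contDiff_h0.contDiffAt.comp q contDiffAt_snd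
  have hh : ∀ a b : V, ContDiffAt ℝ ∞ (fun q : Pm × V => h0 q.2 a b) q := fun a b =>
    (h0'.clm_apply contDiffAt_const).clm_apply contDiffAt_const
  have hg : ∀ a b : V, ContDiffAt ℝ ∞ (fun q : Pm × V => hm q.1.1 q.1.2.1 q.2 a b) q := fun a b =>
    ((contDiffAt_hm hU hδ).clm_apply contDiffAt_const).clm_apply contDiffAt_const
  have hB : ∀ a b c : V, ContDiffAt ℝ ∞ (fun q : Pm × V =>
      h0 q.2 (BL q.1.1 q.1.2.1 q.1.2.2 q.2 a b) c) q := fun a b c =>
    (h0'.clm_apply (((contDiffAt_BL hU hδ).clm_apply contDiffAt_const).clm_apply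
      contDiffAt_const)).clm_apply contDiffAt_const
  have ho : ∀ a b : V, ContDiffAt ℝ ∞ (fun q : Pm × V => omL q.2 a b) q := fun a b =>
    (((contDiff_omL.contDiffAt.comp q contDiffAt_snd).clm_apply contDiffAt_const).clm_apply
      contDiffAt_const)
  have hm' : ∀ (i : Fin 8) (a : V),
      ContDiffAt ℝ ∞ (fun q : Pm × V => mu0 q.1.1 q.2 i a) q := fun i a =>
    (h0'.clm_apply (contDiff_Kf i).contDiffAt).clm_apply contDiffAt_const
  have hF : ∀ a b : V, ContDiffAt ℝ ∞ (fun q : Pm × V => FF q.1.1 q.2 a b) q := fun a b => by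
    simp only [FF_apply]
    refine ContDiffAt.sum fun i _ => ContDiffAt.sum fun j _ => ?_
    exact contDiffAt_const.mul ((hm' _ _).mul (hm' _ _))
  have he : ContDiffAt ℝ ∞ (fun q : Pm × V => q.1.2.2) q :=
    (contDiffAt_snd.comp q (contDiffAt_snd.comp q contDiffAt_fst))
  refine C2_clm fun y => C2_clm fun p => C2_clm fun y' => C2_clm fun p' => ?_
  simp only [SL9_apply, S9]
  refine (((((((hg _ _).neg.add ((hB _ _ _).add (hB _ _ _))).sub
    (contDiffAt_const.mul (hh _ _))).add (contDiffAt_const.mul ((ho _ _).mul (ho _ _)))).sub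
    contDiffAt_const).add (contDiffAt_const.mul ((contDiffAt_const.mul (ho _ _)).add
      ((ho _ _).mul contDiffAt_const)))).add (he.mul ?_)).add
    (((he.pow 2).mul contDiffAt_const).mul ((hF _ _).add (hF _ _)))
  exact ((((hm' _ _).mul (contDiffAt_const.add (contDiffAt_const.mul (ho _ _)))).add
    ((hm' _ _).mul (contDiffAt_const.add (contDiffAt_const.mul (ho _ _))))).sub
    ((hm' _ _).mul (contDiffAt_const.add (contDiffAt_const.mul (ho _ _))))).sub
    ((hm' _ _).mul (contDiffAt_const.add (contDiffAt_const.mul (ho _ _))))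

end Pool.Agent.Helper81.M9
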