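import Pool.Agent.Helper46.M8.St.A1
import Pool.Agent.Helper46.M8.St.A7
import Pool.Agent.Helper46.M8.Ns

/-!
# M9, piece A3
-/

open Filter Metric Module Set
open scoped Topology ContDiff Matrix Matrix.Norms.Elementwise ComplexConjugate

set_option maxSynthPendingDepth 3

namespace Pool.Agent.Helper81.M9
open Pool.Agent.Helper20.PC Pool.Agent.Helper20.HP Pool.Agent.Helper20.M8 Pool.Agent.Helper20.MB
open Pool.Agent.Helper46.M8

/-! ### A3 : invariance of the scalar product -/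

/-- three times the diagonal of `C0`. -/
private def A3_a : Fin 8 → ℤ := ![3, 3, 3, 3, 3, 3, 3, 1]

private lemma A3_C0 (i : Fin 8) : C0 i i = (A3_a i : ℝ) / 3 := by
  fin_cases i <;> simp [C0, A3_a]

private lemma A3_key (j : Fin 8) (i m : Fin 8) :
    A3_a i * A1_cs i j m + A3_a m * A1_cs m j i = 0 := by
  revert i m j
  decide +kernel

private lemma A3_coef (j i m : Fin 8) :
    C0 i i * (A1_cs i j m : ℝ) + C0 m m * (A1_cs m j i : ℝ) = 0 := by
  have h := congrArg (Int.cast : ℤ → ℝ) (A3_key j i m)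
  push_cast at h
  rw [A3_C0, A3_C0]
  linarith

theorem C0_inv_alg (j : Fin 8) (l : Mat →ₗ[ℝ] ℝ) :
    ∑ i, C0 i i • (l (Bs i) • (Bs i * Bs j - Bs j * Bs i)
      + l (Bs i * Bs j - Bs j * Bs i) • Bs i) = 0 := by
  have h1 : ∀ i : Fin 8, C0 i i • (l (Bs i) • (Bs i * Bs j - Bs j * Bs i)
      + l (Bs i * Bs j - Bs j * Bs i) • Bs i)
      = ∑ m, (C0 i i * (A1_cs i j m : ℝ) * l (Bs i)) • Bs m
        + ∑ m, (C0 i i * (A1_cs i j m : ℝ) * l (Bs m)) • Bs i := by
    intro i
    rw [A1_br, map_sum, Finset.smul_sum, Finset.sum_smul, smul_add, Finset.smul_sum,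
      Finset.smul_sum]
    congr 1
    · refine Finset.sum_congr rfl fun m _ => ?_
      rw [smul_smul, smul_smul]
      congr 1
      ring
    · refine Finset.sum_congr rfl fun m _ => ?_
      rw [map_smul, smul_smul, smul_eq_mul]
      congr 1
      ring
  rw [Finset.sum_congr rfl fun i _ => h1 i, Finset.sum_add_distrib]
  rw [Finset.sum_comm (f := fun i m : Fin 8 => (C0 i i * (A1_cs i j m : ℝ) * l (Bs m)) • Bs i),
    ← Finset.sum_add_distrib]
  refine Finset.sum_eq_zero fun i _ => ?_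
  rw [← Finset.sum_add_distrib]
  refine Finset.sum_eq_zero fun m _ => ?_
  rw [← add_smul]
  have h2 := A3_coef j i m
  have h3 : C0 i i * (A1_cs i j m : ℝ) * l (Bs i) + C0 m m * (A1_cs m j i : ℝ) * l (Bs i) = 0 := by
    rw [← add_mul, h2, zero_mul]
  rw [h3, zero_smul]

/-- the linear map `A ↦ KA (Uᴴ A U) z`. -/
private noncomputable def A3_T (U : Mat) (z : V) : Mat →ₗ[ℝ] V where
  toFun A := KA (Uᴴ * A * U) z
  map_add' A B := by rw [Matrix.mul_add, Matrix.add_mul, KA_add]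
  map_smul' r A := by rw [Matrix.mul_smul, Matrix.smul_mul, KA_smul, RingHom.id_apply]

private lemma A3_T_apply (U A : Mat) (z : V) : A3_T U z A = KA (Uᴴ * A * U) z := rfl

theorem C0_inv (U : Mat) (j : Fin 8) (z : V) (ξ : V →L[ℝ] ℝ) :
    ∑ i, C0 i i • (ξ (Kf U i z) • KA (Uᴴ * (Bs i * Bs j - Bs j * Bs i) * U) z
      + ξ (KA (Uᴴ * (Bs i * Bs j - Bs j * Bs i) * U) z) • Kf U i z) = 0 := by
  have h := congrArg (A3_T U z) (C0_inv_alg j ((ξ : V →ₗ[ℝ] ℝ).comp (A3_T U z)))
  rw [map_sum, map_zero] at h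
  rw [← h]
  refine Finset.sum_congr rfl fun i _ => ?_
  rw [map_smul, map_add, map_smul, map_smul]
  rfl

end Pool.Agent.Helper81.M9
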