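import Pool.Agent.Helper81.M9.Basic
import Pool.Agent.Helper46.M8.St.B1
import Pool.Agent.Helper46.M8.Ns

/-!
# M9, piece B1
-/

open Filter Metric Module Set
open scoped Topology ContDiff Matrix Matrix.Norms.Elementwise ComplexConjugate

set_option maxSynthPendingDepth 3

namespace Pool.Agent.Helper81.M9
open Pool.Agent.Helper20.PC Pool.Agent.Helper20.HP Pool.Agent.Helper20.M8 Pool.Agent.Helper20.MB
open Pool.Agent.Helper46.M8

/-! ### B1 : the endomorphism `hatL` -/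
private lemma B1_zero : |(0 : ℝ)| ≤ 1/100 := by norm_num

theorem h0_hatL {U : Mat} {δ : ℝ} (hU : Uᴴ * U = 1) (hδ : |δ| ≤ 1/100) (z u v : V) :
    h0 z (hatL U δ z u) v = hm U δ z u v := by
  show h0 z (CC U 0 z (hm U δ z u)) v = hm U δ z u v
  exact h0_CC hU z _ v

theorem hatL_eq (U : Mat) (δ : ℝ) (z u : V) :
    hatL U δ z u = ∑ i, (C0 i i * momL U δ z i u) • Kf U i z := by
  show CC U 0 z (hm U δ z u) = _
  rw [CC_apply]
  refine Finset.sum_congr rfl fun i _ => ?_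
  rw [Finset.sum_eq_single i]
  · congr 1
    congr 1
    unfold Cm
    ring
  · intro j _ hj
    unfold Cm C0
    rw [if_neg (Ne.symm hj)]
    simp
  · intro h
    exact absurd (Finset.mem_univ i) h

theorem hatL_zero {U : Mat} (hU : Uᴴ * U = 1) (z u : V) : hatL U 0 z u = u := by
  show CC U 0 z (hm U 0 z u) = u
  exact CC_hm hU B1_zero z u

theorem mu0_hatL {U : Mat} {δ : ℝ} (hU : Uᴴ * U = 1) (hδ : |δ| ≤ 1/100) (z u : V) (i : Fin 8) :
    mu0 U z i (hatL U δ z u) = momL U δ z i u := by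
  show h0 z (Kf U i z) (hatL U δ z u) = hm U δ z u (Kf U i z)
  rw [h0_symm, h0_hatL hU hδ]

theorem hatL_symm {U : Mat} {δ : ℝ} (hU : Uᴴ * U = 1) (hδ : |δ| ≤ 1/100) (z u v : V) :
    hm U δ z (hatL U δ z u) v = hm U δ z u (hatL U δ z v) := by
  rw [hm_symm hU hδ z (hatL U δ z u) v, ← h0_hatL hU hδ z v (hatL U δ z u),
    ← h0_hatL hU hδ z u (hatL U δ z v), h0_symm]

theorem hatL_ne {U : Mat} {δ : ℝ} (hU : Uᴴ * U = 1) (hδ : |δ| ≤ 1/100) (z u : V) (hu : u ≠ 0) : hatL U δ z u ≠ 0 := by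
  intro h
  have h1 := h0_hatL hU hδ z u u
  have h2 := hm_pos hU hδ z u hu
  rw [h, map_zero] at h1
  rw [← h1] at h2
  exact lt_irrefl _ h2

end Pool.Agent.Helper81.M9
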