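import Pool.Agent.Helper81.M9.Defs2
import Pool.Agent.Helper46.M8.St.D4
import Pool.Agent.Helper46.M8.Ns

/-!
# M9, piece D1
-/

open Filter Metric Module Set
open scoped Topology ContDiff Matrix Matrix.Norms.Elementwise ComplexConjugate

set_option maxSynthPendingDepth 3

namespace Pool.Agent.Helper81.M9
open Pool.Agent.Helper20.PC Pool.Agent.Helper20.HP Pool.Agent.Helper20.M8 Pool.Agent.Helper20.MB
open Pool.Agent.Helper46.M8

/-- the derivative along a vector field related to another one by a linear map. -/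
private lemma D1_lin {E W₁ W₂ : Type*} [NormedAddCommGroup E] [NormedSpace ℝ E]
    [NormedAddCommGroup W₁] [NormedSpace ℝ W₁] [NormedAddCommGroup W₂] [NormedSpace ℝ W₂]
    (P : W₁ →L[ℝ] W₂) (X : W₁ → W₁) (Z : W₂ → W₂) {f : W₂ → E} {s : W₁}
    (hf : DifferentiableAt ℝ f (P s)) (hX : P (X s) = Z (P s)) :
    lie X (fun s => f (P s)) s = lie Z f (P s) := by
  have h1 : HasFDerivAt (fun s => f (P s)) ((fderiv ℝ f (P s)).comp P) s :=
    hf.hasFDerivAt.comp s P.hasFDerivAt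
  unfold lie
  rw [h1.fderiv, ContinuousLinearMap.comp_apply, hX]

/-! ### D1 : derivatives along the flows -/
/-- functions of the frame of the base. -/
theorem lie_frB {E : Type*} [NormedAddCommGroup E] [NormedSpace ℝ E] (U : Mat) (δ : ℝ) {f : Fr → E}
    {s : Fr9} (hf : DifferentiableAt ℝ f (frB s)) :
    lie (XF9 U δ) (fun s => f (frB s)) s = lie (XF U δ) f (frB s) :=
  D1_lin ((ContinuousLinearMap.fst ℝ V ((Fin 4 → V) × V)).prod
    ((ContinuousLinearMap.fst ℝ (Fin 4 → V) V).comp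
      (ContinuousLinearMap.snd ℝ V ((Fin 4 → V) × V)))) (XF9 U δ) (XF U δ) (f := f) (s := s) hf rfl

/-- functions of `(x, W₀)`. -/
theorem lie_TV {E : Type*} [NormedAddCommGroup E] [NormedSpace ℝ E] (U : Mat) (δ : ℝ)
    {f : V × V → E} {s : Fr9} (hf : DifferentiableAt ℝ f (s.1, s.2.1 0)) :
    lie (XF9 U δ) (fun s => f (s.1, s.2.1 0)) s = lie (XHt U δ) f (s.1, s.2.1 0) :=
  D1_lin ((ContinuousLinearMap.fst ℝ V ((Fin 4 → V) × V)).prod
    ((ContinuousLinearMap.proj (R := ℝ) (φ := fun _ : Fin 4 => V) 0).comp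
      ((ContinuousLinearMap.fst ℝ (Fin 4 → V) V).comp
        (ContinuousLinearMap.snd ℝ V ((Fin 4 → V) × V))))) (XF9 U δ) (XHt U δ) (f := f) (s := s)
    hf rfl

/-- the momenta along the geodesic flow. -/
theorem lie_mom_H {U : Mat} {δ : ℝ} (hU : Uᴴ * U = 1) (hδ : |δ| ≤ 1/100) (i : Fin 8) (s : V × V) :
    lie (XHt U δ) (fun s => momL U δ s.1 i s.2) s
      = ∑ j, ∑ k, Cm δ j k * momL U δ s.1 k s.2
        * hm U δ s.1 s.2 (KA (Uᴴ * (Bs i * Bs j - Bs j * Bs i) * U) s.1) := by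
  obtain ⟨x, w⟩ := s
  have hd : DifferentiableAt ℝ (fun s : V × V => momL U δ s.1 i s.2) (x, w) := by
    have h1 : ContDiffAt ℝ ∞ (fun q : Pm × V => momL q.1.1 q.1.2.1 q.2 i) ((U, δ, 0), x) :=
      contDiffAt_momL (q := ((U, δ, 0), x)) hU hδ i
    have h2 : ContDiffAt ℝ ∞ (fun s : V × V => (((U, δ, 0), s.1) : Pm × V)) (x, w) :=
      contDiffAt_const.prodMk contDiffAt_fst
    have h3 : ContDiffAt ℝ ∞ ((fun q : Pm × V => momL q.1.1 q.1.2.1 q.2 i) ∘
      (fun s : V × V => (((U, δ, 0), s.1) : Pm × V))) (x, w) := h1.comp (x, w) h2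
    have h4 : ContDiffAt ℝ ∞ (fun s : V × V => momL U δ s.1 i) (x, w) := h3
    exact (h4.clm_apply contDiffAt_snd).differentiableAt (by simp)
  have h1 := D1_lin ((ContinuousLinearMap.fst ℝ V (Fin 4 → V)).prod
    ((ContinuousLinearMap.proj (R := ℝ) (φ := fun _ : Fin 4 => V) 0).comp
      (ContinuousLinearMap.snd ℝ V (Fin 4 → V)))) (XF U δ) (XHt U δ)
    (f := fun s : V × V => momL U δ s.1 i s.2) (s := (x, fun _ => w)) hd rfl
  have h2 := lie_sM0 hU hδ i (x, fun _ => w)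
  exact h1.symm.trans h2

end Pool.Agent.Helper81.M9
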