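import Pool.Agent.Helper81.M9.St.A2
import Pool.Agent.Helper81.M9.St.A3
import Pool.Agent.Helper81.M9.St.B1
import Pool.Agent.Helper81.M9.St.D1
import Pool.Agent.Helper46.M8.Ns

/-!
# M9, piece D2
-/

open Filter Metric Module Set
open scoped Topology ContDiff Matrix Matrix.Norms.Elementwise ComplexConjugate

set_option maxSynthPendingDepth 3

namespace Pool.Agent.Helper81.M9
open Pool.Agent.Helper20.PC Pool.Agent.Helper20.HP Pool.Agent.Helper20.M8 Pool.Agent.Helper20.MB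
open Pool.Agent.Helper46.M8

/-! ### D2 : the vector `V = Ŵ₀` along the geodesic flow -/

private lemma D2_diff_mom {U : Mat} {δ : ℝ} (hU : Uᴴ * U = 1) (hδ : |δ| ≤ 1/100) (i : Fin 8)
    (s : V × V) : DifferentiableAt ℝ (fun s : V × V => momL U δ s.1 i s.2) s := by
  have h1 : ContDiffAt ℝ ∞ (fun q : Pm × V => momL q.1.1 q.1.2.1 q.2 i) ((U, δ, 0), s.1) :=
    contDiffAt_momL (q := ((U, δ, 0), s.1)) hU hδ i
  have h2 : ContDiffAt ℝ ∞ (fun s : V × V => (((U, δ, 0), s.1) : Pm × V)) s :=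
    contDiffAt_const.prodMk contDiffAt_fst
  have h3 : ContDiffAt ℝ ∞ (fun s : V × V => momL U δ s.1 i) s :=
    ContDiffAt.comp (g := fun q : Pm × V => momL q.1.1 q.1.2.1 q.2 i)
      (f := fun s : V × V => (((U, δ, 0), s.1) : Pm × V)) s h1 h2
  exact (h3.clm_apply contDiffAt_snd).differentiableAt (by simp)

private lemma D2_hasFDerivAt {U : Mat} {δ : ℝ} (hU : Uᴴ * U = 1) (hδ : |δ| ≤ 1/100)
    (s : V × V) : HasFDerivAt (fun s : V × V => hatL U δ s.1 s.2)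
      (∑ i, ((C0 i i * momL U δ s.1 i s.2) • (DK U i s.1 ∘L ContinuousLinearMap.fst ℝ V V)
        + (C0 i i • fderiv ℝ (fun s : V × V => momL U δ s.1 i s.2) s).smulRight (Kf U i s.1))) s := by
  have h1 : ∀ i : Fin 8, HasFDerivAt
      (fun s : V × V => (C0 i i * momL U δ s.1 i s.2) • Kf U i s.1)
      ((C0 i i * momL U δ s.1 i s.2) • (DK U i s.1 ∘L ContinuousLinearMap.fst ℝ V V)
        + (C0 i i • fderiv ℝ (fun s : V × V => momL U δ s.1 i s.2) s).smulRight (Kf U i s.1)) s := by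
    intro i
    have ha : HasFDerivAt (fun s : V × V => C0 i i * momL U δ s.1 i s.2)
        (C0 i i • fderiv ℝ (fun s : V × V => momL U δ s.1 i s.2) s) s :=
      (D2_diff_mom hU hδ i s).hasFDerivAt.const_mul (C0 i i)
    have hb : HasFDerivAt (fun s : V × V => Kf U i s.1)
        (DK U i s.1 ∘L ContinuousLinearMap.fst ℝ V V) s :=
      HasFDerivAt.comp (g := Kf U i) (f := Prod.fst) s (hasFDerivAt_Kf U i s.1) hasFDerivAt_fst
    exact ha.smul hb
  have h2 := HasFDerivAt.fun_sum (u := Finset.univ) (fun i _ => h1 i)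
  refine h2.congr_of_eventuallyEq (Eventually.of_forall fun s' => ?_)
  exact hatL_eq U δ s'.1 s'.2

private lemma D2_alg {E : Type*} [AddCommGroup E] [Module ℝ E] (c0 m : Fin 8 → ℝ)
    (C x : Fin 8 → Fin 8 → ℝ) (K : Fin 8 → E) (KK : Fin 8 → Fin 8 → E)
    (D : Fin 8 → (E →ₗ[ℝ] E)) (hC : ∀ i j, C i j = C j i)
    (hb : ∀ i j, D i (K j) - D j (K i) = KK i j)
    (hinv : ∀ j, ∑ i, c0 i • (m i • KK i j + x i j • K i) = 0) (w : E)
    (hw : ∑ i, ∑ j, (C i j * m i) • K j = w) :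
    ∑ i, ((c0 i * m i) • D i w + (c0 i * ∑ j, ∑ k, C j k * m k * x i j) • K i)
      = ∑ i, ∑ j, (C i j * m j) • D i (∑ l, (c0 l * m l) • K l) := by
  have hw2 : w = ∑ j, (∑ k, C j k * m k) • K j := by
    rw [← hw, Finset.sum_comm]
    refine Finset.sum_congr rfl fun j _ => ?_
    rw [Finset.sum_smul]
    exact Finset.sum_congr rfl fun k _ => by rw [hC]
  have hx : ∀ i, ∑ j, ∑ k, C j k * m k * x i j = ∑ j, (∑ k, C j k * m k) * x i j := fun i =>
    Finset.sum_congr rfl fun j _ => by rw [Finset.sum_mul]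
  have hr : ∀ i, ∑ j, (C i j * m j) • D i (∑ l, (c0 l * m l) • K l)
      = (∑ k, C i k * m k) • ∑ l, (c0 l * m l) • D i (K l) := by
    intro i
    rw [Finset.sum_smul, map_sum]
    refine Finset.sum_congr rfl fun j _ => ?_
    congr 1
    exact Finset.sum_congr rfl fun l _ => map_smul _ _ _
  rw [Finset.sum_congr rfl fun i _ => hr i]
  have hl : ∀ i, ((c0 i * m i) • D i w + (c0 i * ∑ j, ∑ k, C j k * m k * x i j) • K i)
      = ∑ j, (∑ k, C j k * m k) • ((c0 i * m i) • D j (K i)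
        + c0 i • (m i • KK i j + x i j • K i)) := by
    intro i
    rw [hx i, hw2, map_sum, Finset.smul_sum, Finset.mul_sum, Finset.sum_smul,
      ← Finset.sum_add_distrib]
    refine Finset.sum_congr rfl fun j _ => ?_
    rw [map_smul, ← hb i j]
    module
  rw [Finset.sum_congr rfl fun i _ => hl i, Finset.sum_comm]
  refine Finset.sum_congr rfl fun j _ => ?_
  rw [← Finset.smul_sum, Finset.sum_add_distrib, hinv j, add_zero]

theorem lie_hat_H {U : Mat} {δ : ℝ} (hU : Uᴴ * U = 1) (hδ : |δ| ≤ 1/100) (s : V × V) :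
    lie (XHt U δ) (fun s => hatL U δ s.1 s.2) s
      = DKc U δ s.1 s.2 (hatL U δ s.1 s.2) := by
  have h1 : lie (XHt U δ) (fun s => hatL U δ s.1 s.2) s
      = ∑ i, ((C0 i i * momL U δ s.1 i s.2) • DK U i s.1 s.2
        + (C0 i i * lie (XHt U δ) (fun s => momL U δ s.1 i s.2) s) • Kf U i s.1) := by
    unfold lie
    rw [(D2_hasFDerivAt hU hδ s).fderiv, _root_.sum_apply]
    rfl
  rw [h1]
  have h2 := D2_alg (E := V) (fun i => C0 i i) (fun i => momL U δ s.1 i s.2)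
    (fun i j => Cm δ i j)
    (fun i j => hm U δ s.1 s.2 (KA (Uᴴ * (Bs i * Bs j - Bs j * Bs i) * U) s.1))
    (fun i => Kf U i s.1) (fun i j => KA (Uᴴ * (Bs i * Bs j - Bs j * Bs i) * U) s.1)
    (fun i => (DK U i s.1 : V →ₗ[ℝ] V)) (fun i j => Cm_symm δ i j)
    (fun i j => Kf_bracket hU i j s.1)
    (fun j => C0_inv U j s.1 (hm U δ s.1 s.2)) s.2 (sum_mom hU hδ s.1 s.2)
  have h3 : DKc U δ s.1 s.2 (hatL U δ s.1 s.2)
      = ∑ i, ∑ j, (Cm δ i j * momL U δ s.1 j s.2)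
        • DK U i s.1 (∑ l, (C0 l l * momL U δ s.1 l s.2) • Kf U l s.1) := by
    rw [hatL_eq, DKc, _root_.sum_apply]
    refine Finset.sum_congr rfl fun i _ => ?_
    rw [_root_.sum_apply]
    rfl
  have h4 : ∑ i, ((C0 i i * momL U δ s.1 i s.2) • DK U i s.1 s.2
        + (C0 i i * lie (XHt U δ) (fun s => momL U δ s.1 i s.2) s) • Kf U i s.1)
      = ∑ i, ((C0 i i * momL U δ s.1 i s.2) • DK U i s.1 s.2
        + (C0 i i * ∑ j, ∑ k, Cm δ j k * momL U δ s.1 k s.2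
          * hm U δ s.1 s.2 (KA (Uᴴ * (Bs i * Bs j - Bs j * Bs i) * U) s.1)) • Kf U i s.1) := by
    refine Finset.sum_congr rfl fun i _ => ?_
    rw [lie_mom_H hU hδ i s]
  rw [h3, h4]
  exact h2

private lemma D2_diff {U : Mat} {δ : ℝ} (hU : Uᴴ * U = 1) (hδ : |δ| ≤ 1/100) (s : V × V) :
    DifferentiableAt ℝ (fun s : V × V => hatL U δ s.1 s.2) s :=
  (D2_hasFDerivAt hU hδ s).differentiableAt

private lemma D2_lie {U : Mat} {δ : ℝ} (hU : Uᴴ * U = 1) (hδ : |δ| ≤ 1/100) (s : Fr9) :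
    lie (XF9 U δ) (fun s : Fr9 => hatL U δ s.1 (s.2.1 0)) s
      = lie (XHt U δ) (fun s : V × V => hatL U δ s.1 s.2) (s.1, s.2.1 0) :=
  lie_TV U δ (D2_diff hU hδ (s.1, s.2.1 0))

private lemma D2_hat {U : Mat} {δ : ℝ} (hU : Uᴴ * U = 1) (hδ : |δ| ≤ 1/100) (z w : V) :
    lie (XHt U δ) (fun s : V × V => hatL U δ s.1 s.2) (z, w) = DKc U δ z w (hatL U δ z w) := by
  rw [lie_hat_H hU hδ (z, w)]

private lemma D2_vF (U : Mat) (δ : ℝ) : vF U δ = fun s : Fr9 => hatL U δ s.1 (s.2.1 0) := rfl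

theorem lie_vF {U : Mat} {δ : ℝ} (hU : Uᴴ * U = 1) (hδ : |δ| ≤ 1/100) (s : Fr9) :
    lie (XF9 U δ) (vF U δ) s = DKc U δ s.1 (s.2.1 0) (vF U δ s) := by
  rw [D2_vF, D2_lie hU hδ s, D2_hat hU hδ]

end Pool.Agent.Helper81.M9
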