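import Pool.Agent.Helper81.M9.St.A4
import Pool.Agent.Helper81.M9.St.C4
import Pool.Agent.Helper81.M9.St.D2
import Pool.Agent.Helper46.M8.Ns

/-!
# M9, piece D4
-/

open Filter Metric Module Set
open scoped Topology ContDiff Matrix Matrix.Norms.Elementwise ComplexConjugate

set_option maxSynthPendingDepth 3

namespace Pool.Agent.Helper81.M9
open Pool.Agent.Helper20.PC Pool.Agent.Helper20.HP Pool.Agent.Helper20.M8 Pool.Agent.Helper20.MB
open Pool.Agent.Helper46.M8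

/-! ### D4 : the frame `(V, iV, Y, iY)` along the flow -/
theorem DKc_iL (U : Mat) (δ : ℝ) (z w v : V) :
    DKc U δ z w (iL v) = iL (DKc U δ z w v) := by
  simp only [DKc, _root_.sum_apply, _root_.smul_apply, DK_iL, map_sum, map_smul]

theorem DKc_killing {U : Mat} {δ : ℝ} (hU : Uᴴ * U = 1) (hδ : |δ| ≤ 1/100) (z w u v : V) :
    fderiv ℝ h0 z w u v = - h0 z (DKc U δ z w u) v - h0 z u (DKc U δ z w v) := by
  have hw : w = ∑ i, ∑ j, (Cm δ i j * momL U δ z j w) • Kf U i z := by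
    conv_lhs => rw [← sum_mom hU hδ z w]
    rw [Finset.sum_comm]
    refine Finset.sum_congr rfl fun i _ => Finset.sum_congr rfl fun j _ => ?_
    rw [Cm_symm δ j i]
  have h1 : fderiv ℝ h0 z w u v = ∑ i, ∑ j, (Cm δ i j * momL U δ z j w) *
      fderiv ℝ h0 z (Kf U i z) u v := by
    conv_lhs => rw [hw]
    simp only [map_sum, map_smul, _root_.sum_apply, _root_.smul_apply, smul_eq_mul]
  rw [h1]
  simp only [h0_killing hU, DKc, _root_.sum_apply, _root_.smul_apply, map_sum, map_smul,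
    smul_eq_mul]
  rw [← Finset.sum_neg_distrib, ← Finset.sum_sub_distrib]
  refine Finset.sum_congr rfl fun i _ => ?_
  rw [← Finset.sum_neg_distrib, ← Finset.sum_sub_distrib]
  refine Finset.sum_congr rfl fun j _ => ?_
  ring

theorem DKa_killing {U : Mat} {δ : ℝ} (hU : Uᴴ * U = 1) (hδ : |δ| ≤ 1/100) (z w u v : V) :
    fderiv ℝ h0 z (hatL U δ z w) u v = - h0 z (DKa U δ z w u) v - h0 z u (DKa U δ z w v) := by
  rw [hatL_eq]
  simp only [h0_killing hU, DKa, _root_.sum_apply, _root_.smul_apply, map_sum, map_smul,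
    smul_eq_mul]
  rw [← Finset.sum_neg_distrib, ← Finset.sum_sub_distrib]
  refine Finset.sum_congr rfl fun i _ => ?_
  ring

private lemma D4_slice (U : Mat) (δ : ℝ) (s : Fr9) :
    ContDiffAt ℝ ∞ (fun s : Fr9 => (((U, δ, 0), s) : Pm × Fr9)) s :=
  contDiffAt_const.prodMk contDiffAt_id

private lemma D4_fF {U : Mat} {δ : ℝ} (hU : Uᴴ * U = 1) (hδ : |δ| ≤ 1/100) (s : Fr9)
    (j : Fin 4) : DifferentiableAt ℝ (fun s : Fr9 => fF U δ s j) s := by
  have h1 := contDiffAt_fF (q := (((U, δ, 0), s) : Pm × Fr9)) hU hδ j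
  have h3 : ContDiffAt ℝ ∞ ((fun q : Pm × Fr9 => fF q.1.1 q.1.2.1 q.2 j) ∘
      (fun s : Fr9 => (((U, δ, 0), s) : Pm × Fr9))) s := h1.comp s (D4_slice U δ s)
  exact h3.differentiableAt (by simp)

private lemma D4_vF {U : Mat} {δ : ℝ} (hU : Uᴴ * U = 1) (hδ : |δ| ≤ 1/100) (s : Fr9) :
    DifferentiableAt ℝ (fun s : Fr9 => vF U δ s) s := D4_fF hU hδ s 0

theorem lie_fF {U : Mat} {δ : ℝ} (hU : Uᴴ * U = 1) (hδ : |δ| ≤ 1/100) (s : Fr9) (j : Fin 4) :
    lie (XF9 U δ) (fun s => fF U δ s j) s = DKc U δ s.1 (s.2.1 0) (fF U δ s j) := by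
  have hY : HasFDerivAt (fun s : Fr9 => s.2.2)
      ((ContinuousLinearMap.snd ℝ (Fin 4 → V) V).comp
        (ContinuousLinearMap.snd ℝ V ((Fin 4 → V) × V))) s :=
    ((ContinuousLinearMap.snd ℝ (Fin 4 → V) V).comp
        (ContinuousLinearMap.snd ℝ V ((Fin 4 → V) × V))).hasFDerivAt
  fin_cases j
  · exact lie_vF hU hδ s
  · show lie (XF9 U δ) (fun s => iL (vF U δ s)) s = DKc U δ s.1 (s.2.1 0) (iL (vF U δ s))
    have h1 : HasFDerivAt (fun s : Fr9 => iL (vF U δ s)) (iL.comp (fderiv ℝ (vF U δ) s)) s :=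
      iL.hasFDerivAt.comp s (D4_vF hU hδ s).hasFDerivAt
    rw [DKc_iL, ← lie_vF hU hδ s]
    unfold lie
    rw [h1.fderiv]
    rfl
  · show lie (XF9 U δ) (fun s => s.2.2) s = DKc U δ s.1 (s.2.1 0) s.2.2
    unfold lie
    rw [hY.fderiv]
    rfl
  · show lie (XF9 U δ) (fun s => iL s.2.2) s = DKc U δ s.1 (s.2.1 0) (iL s.2.2)
    have h1 : HasFDerivAt (fun s : Fr9 => iL s.2.2) (iL.comp
        ((ContinuousLinearMap.snd ℝ (Fin 4 → V) V).comp
        (ContinuousLinearMap.snd ℝ V ((Fin 4 → V) × V)))) s :=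
      iL.hasFDerivAt.comp s hY
    rw [DKc_iL]
    unfold lie
    rw [h1.fderiv]
    rfl

theorem lie_h0_fF {U : Mat} {δ : ℝ} (hU : Uᴴ * U = 1) (hδ : |δ| ≤ 1/100) (s : Fr9) (i j : Fin 4) :
    lie (XF9 U δ) (fun s => h0 s.1 (fF U δ s i) (fF U δ s j)) s = 0 := by
  have h0' : HasFDerivAt (fun s : Fr9 => h0 s.1)
      ((fderiv ℝ h0 s.1).comp (ContinuousLinearMap.fst ℝ V ((Fin 4 → V) × V))) s :=
    ((contDiff_h0.differentiable (by simp)) s.1).hasFDerivAt.comp s hasFDerivAt_fst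
  have h1 := (h0'.clm_apply (D4_fF hU hδ s i).hasFDerivAt).clm_apply
    (D4_fF hU hδ s j).hasFDerivAt
  have e1 := lie_fF hU hδ s i
  have e2 := lie_fF hU hδ s j
  have e3 := DKc_killing hU hδ s.1 (s.2.1 0) (fF U δ s i) (fF U δ s j)
  unfold lie at e1 e2 ⊢
  rw [h1.fderiv]
  simp only [_root_.add_apply, ContinuousLinearMap.comp_apply,
    ContinuousLinearMap.flip_apply, ContinuousLinearMap.coe_fst']
  rw [e1, e2]
  have e4 : (XF9 U δ s).1 = s.2.1 0 := rfl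
  rw [e4, e3]
  ring

end Pool.Agent.Helper81.M9
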