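import Pool.Agent.Helper46.M8.St.D3b
import Pool.Agent.Helper81.M9.St.D4
import Pool.Agent.Helper46.M8.Ns

/-!
# M9, piece D5
-/

open Filter Metric Module Set
open scoped Topology ContDiff Matrix Matrix.Norms.Elementwise ComplexConjugate

set_option maxSynthPendingDepth 3

namespace Pool.Agent.Helper81.M9
open Pool.Agent.Helper20.PC Pool.Agent.Helper20.HP Pool.Agent.Helper20.M8 Pool.Agent.Helper20.MB
open Pool.Agent.Helper46.M8

/-! ### D5 : the frames stay admissible -/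

private lemma D5_diff_hm {U : Mat} {δ : ℝ} (hU : Uᴴ * U = 1) (hδ : |δ| ≤ 1/100) (a b : Fin 4)
    (s : Fr) : DifferentiableAt ℝ (fun s : Fr => hm U δ s.1 (s.2 a) (s.2 b)) s := by
  have h0 : DifferentiableAt ℝ (hm U δ) s.1 :=
    (hm_metAt hU hδ s.1).smooth.differentiableAt (by norm_num)
  have h1 : DifferentiableAt ℝ (fun s : Fr => hm U δ s.1) s := h0.comp s differentiableAt_fst
  have h2 : ∀ a : Fin 4, DifferentiableAt ℝ (fun s : Fr => s.2 a) s := fun a =>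
    (differentiableAt_pi.1 (differentiableAt_snd (𝕜 := ℝ) (p := s))) a
  exact (h1.clm_apply (h2 a)).clm_apply (h2 b)

private lemma D5_diff_frB (s : Fr9) : DifferentiableAt ℝ (fun s : Fr9 => frB s) s :=
  differentiableAt_fst.prodMk (differentiableAt_fst.comp s differentiableAt_snd)

private lemma D5_diff_h0 {U : Mat} {δ : ℝ} (hU : Uᴴ * U = 1) (hδ : |δ| ≤ 1/100) (i j : Fin 4)
    (s : Fr9) : DifferentiableAt ℝ (fun s : Fr9 => h0 s.1 (fF U δ s i) (fF U δ s j)) s := by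
  have hF : ∀ i : Fin 4, DifferentiableAt ℝ (fun s : Fr9 => fF U δ s i) s := fun i => by
    have h := contDiffAt_fF (q := ((U, δ, (0 : ℝ)), s)) hU hδ i
    have h2 : ContDiffAt ℝ ∞ (fun s : Fr9 => fF U δ s i) s :=
      h.comp s (contDiffAt_const.prodMk contDiffAt_id)
    exact h2.differentiableAt (by simp)
  have h1 : DifferentiableAt ℝ (fun s : Fr9 => h0 s.1) s :=
    (contDiff_h0.contDiffAt.differentiableAt (by simp)).comp s differentiableAt_fst
  exact (h1.clm_apply (hF i)).clm_apply (hF j)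

private lemma D5_const {U : Mat} {δ : ℝ} {ε r : ℝ} {γ : ℝ → Fs9} (hr : 0 < r)
    (hball : ∀ t ∈ ball (0 : ℝ) r, HasDerivAt γ (XB9 U δ ε (γ t)) t) {f : Fr9 → ℝ}
    (hf : ∀ s, DifferentiableAt ℝ f s) (hl : ∀ s, lie (XF9 U δ) f s = 0) :
    ∀ t ∈ ball (0 : ℝ) r, f (γ t).1 = f (γ 0).1 := by
  have hd : ∀ t ∈ ball (0 : ℝ) r, HasDerivAt (fun t => f (γ t).1) 0 t := by
    intro t ht
    have h1 : HasDerivAt (fun t => (γ t).1) (XF9 U δ (γ t).1) t := (hball t ht).fst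
    have h2 := (hf (γ t).1).hasFDerivAt.comp_hasDerivAt t h1
    have h3 := hl (γ t).1
    rw [lie] at h3
    rw [h3] at h2
    exact h2
  intro t ht
  exact IsOpen.is_const_of_deriv_eq_zero isOpen_ball (convex_ball (0 : ℝ) r).isPreconnected
    (f := fun t => f (γ t).1)
    (fun t ht => (hd t ht).differentiableAt.differentiableWithinAt)
    (fun t ht => (hd t ht).deriv) ht (mem_ball_self hr)

theorem curve_ON9 {U : Mat} {δ : ℝ} (hU : Uᴴ * U = 1) (hδ : |δ| ≤ 1/100) (ε : ℝ) {γ : ℝ → Fs9}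
    (hγ : ∀ᶠ t in 𝓝 (0 : ℝ), HasDerivAt γ (XB9 U δ ε (γ t)) t) (h0 : ON9 U δ (γ 0).1) :
    ∀ᶠ t in 𝓝 (0 : ℝ), ON9 U δ (γ t).1 ∧ sC U δ (γ t).1 = sC U δ (γ 0).1 := by
  obtain ⟨r, hr, hball⟩ := Metric.eventually_nhds_iff_ball.1 hγ
  obtain ⟨hW, hY, hVY, hiVY⟩ := h0
  filter_upwards [ball_mem_nhds (0 : ℝ) hr] with t ht
  have hk : ∀ i j : Fin 4, Pool.Agent.Helper46.M8.h0 (γ t).1.1 (fF U δ (γ t).1 i) (fF U δ (γ t).1 j)
      = Pool.Agent.Helper46.M8.h0 (γ 0).1.1 (fF U δ (γ 0).1 i) (fF U δ (γ 0).1 j) := fun i j =>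
    D5_const hr hball (f := fun s : Fr9 => Pool.Agent.Helper46.M8.h0 s.1 (fF U δ s i) (fF U δ s j))
      (D5_diff_h0 hU hδ i j) (fun s => lie_h0_fF hU hδ s i j) t ht
  refine ⟨⟨?_, ?_, ?_, ?_⟩, ?_⟩
  · intro a b
    rw [← hW a b]
    exact D5_const hr hball (f := fun s : Fr9 => hm U δ s.1 (s.2.1 a) (s.2.1 b))
      (fun s => (D5_diff_hm hU hδ a b (frB s)).comp s (D5_diff_frB s))
      (fun s => by
        have h := lie_frB U δ (f := fun s : Fr => hm U δ s.1 (s.2 a) (s.2 b)) (s := s)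
          (D5_diff_hm hU hδ a b (frB s))
        rw [lie_hm hU hδ a b (frB s)] at h
        exact h) t ht
  · exact (hk 2 2).trans hY
  · exact (hk 0 2).trans hVY
  · exact (hk 1 2).trans hiVY
  · exact hk 0 0

end Pool.Agent.Helper81.M9
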