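import Pool.Agent.Helper81.M9.St.A1
import Pool.Agent.Helper81.M9.St.B1
import Pool.Agent.Helper46.M8.Ns

/-!
# M9, piece B5
-/

open Filter Metric Module Set
open scoped Topology ContDiff Matrix Matrix.Norms.Elementwise ComplexConjugate

set_option maxSynthPendingDepth 3

namespace Pool.Agent.Helper81.M9
open Pool.Agent.Helper20.PC Pool.Agent.Helper20.HP Pool.Agent.Helper20.M8 Pool.Agent.Helper20.MB
open Pool.Agent.Helper46.M8

/-! ### B5 : bounds -/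
private lemma B5_quad (U : Mat) (δ : ℝ) (z : V) (ξ : V →L[ℝ] ℝ) :
    ξ (CC U δ z ξ) = ∑ i, ∑ j, Cm δ i j * ξ (Kf U i z) * ξ (Kf U j z) := by
  rw [CC_apply, map_sum]
  refine Finset.sum_congr rfl fun i _ => ?_
  rw [map_sum]
  refine Finset.sum_congr rfl fun j _ => ?_
  rw [map_smul, smul_eq_mul]

private lemma B5_quad0 (U : Mat) (z : V) (ξ : V →L[ℝ] ℝ) :
    ξ (CC U 0 z ξ) = ∑ i, C0 i i * ξ (Kf U i z) ^ 2 := by
  rw [B5_quad]
  refine Finset.sum_congr rfl fun i _ => ?_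
  rw [Finset.sum_eq_single i]
  · unfold Cm
    ring
  · intro j _ hj
    unfold Cm C0
    rw [if_neg (Ne.symm hj)]
    ring
  · intro h
    exact absurd (Finset.mem_univ i) h

private lemma B5_hm {U : Mat} {δ : ℝ} (hU : Uᴴ * U = 1) (hδ : |δ| ≤ 1/100) (z v : V) :
    hm U δ z v v = ∑ i, ∑ j, Cm δ i j * hm U δ z v (Kf U i z) * hm U δ z v (Kf U j z) := by
  have h1 := B5_quad U δ z (hm U δ z v)
  rw [CC_hm hU hδ] at h1
  exact h1

private lemma B5_hatL {U : Mat} (δ : ℝ) (hU : Uᴴ * U = 1) (z v : V) :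
    h0 z (hatL U δ z v) (hatL U δ z v) = ∑ i, C0 i i * hm U δ z v (Kf U i z) ^ 2 := by
  show h0 z (CC U 0 z (hm U δ z v)) (CC U 0 z (hm U δ z v)) = _
  rw [h0_CC hU, B5_quad0]

theorem hatL_le {U : Mat} {δ : ℝ} (hU : Uᴴ * U = 1) (hδ : |δ| ≤ 1/100) (z v : V) :
    h0 z (hatL U δ z v) (hatL U δ z v) ≤ 2 * hm U δ z v v := by
  rw [B5_hatL δ hU, B5_hm hU hδ]
  have h1 := Cm_pos hδ (fun i => hm U δ z v (Kf U i z))
  linarith

theorem hm_le {U : Mat} {δ : ℝ} (hU : Uᴴ * U = 1) (hδ : |δ| ≤ 1/100) (z v : V) :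
    hm U δ z v v ≤ 2 * h0 z v v := by
  have h1 := hatL_le hU hδ z v
  have h2 := h0_hatL hU hδ z v v
  have h3 : 0 ≤ h0 z (hatL U δ z v - (2 : ℝ) • v) (hatL U δ z v - (2 : ℝ) • v) := by
    by_cases h : hatL U δ z v - (2 : ℝ) • v = 0
    · rw [h, map_zero]
    · exact (h0_pos z _ h).le
  have h4 : h0 z (hatL U δ z v - (2 : ℝ) • v) (hatL U δ z v - (2 : ℝ) • v)
      = h0 z (hatL U δ z v) (hatL U δ z v) - 4 * h0 z (hatL U δ z v) v + 4 * h0 z v v := by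
    have h5 := h0_symm z v (hatL U δ z v)
    simp only [map_sub, map_smul, _root_.sub_apply, _root_.smul_apply, smul_eq_mul]
    rw [h5]
    ring
  rw [h4, h2] at h3
  linarith

theorem le_hatL {U : Mat} {δ : ℝ} (hU : Uᴴ * U = 1) (hδ : |δ| ≤ 1/100) (z v : V) :
    (1/2) * hm U δ z v v ≤ h0 z (hatL U δ z v) (hatL U δ z v) := by
  rw [B5_hatL δ hU, B5_hm hU hδ]
  have h1 := Cm_le hδ (fun i => hm U δ z v (Kf U i z))
  linarith

end Pool.Agent.Helper81.M9
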