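import Pool.Agent.Helper81.M9.Defs2
import Pool.Agent.Helper46.M8.St.E7
import Pool.Agent.Helper81.M9.St.B5
import Pool.Agent.Helper46.M8.Ns

/-!
# M9, piece D7
-/

open Filter Metric Module Set
open scoped Topology ContDiff Matrix Matrix.Norms.Elementwise ComplexConjugate

set_option maxSynthPendingDepth 3

namespace Pool.Agent.Helper81.M9
open Pool.Agent.Helper20.PC Pool.Agent.Helper20.HP Pool.Agent.Helper20.M8 Pool.Agent.Helper20.MB
open Pool.Agent.Helper46.M8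

/-- expansion in an orthogonal frame. -/
private theorem D7_gen {E : Type*} [AddCommGroup E] [Module ℝ E] {n : ℕ} [NeZero n]
    (hn : finrank ℝ E = n) (B : E →ₗ[ℝ] E →ₗ[ℝ] ℝ) (W : Fin n → E) (c : Fin n → ℝ)
    (hc : ∀ a, c a ≠ 0)
    (hW : ∀ a b, B (W a) (W b) = if a = b then (c a)⁻¹ else 0) (v : E) :
    v = ∑ a, (c a * B (W a) v) • W a := by
  classical
  have hfin : FiniteDimensional ℝ E :=
    FiniteDimensional.of_finrank_pos (by rw [hn]; exact Nat.pos_of_ne_zero (NeZero.ne n))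
  have hsum : ∀ (g : Fin n → ℝ) (b : Fin n), B (W b) (∑ a, g a • W a) = g b * (c b)⁻¹ := by
    intro g b
    rw [map_sum, Finset.sum_eq_single b]
    · rw [map_smul, hW, if_pos rfl, smul_eq_mul]
    · intro a _ hab
      rw [map_smul, hW, if_neg (Ne.symm hab), smul_zero]
    · intro h
      exact absurd (Finset.mem_univ b) h
  have hli : LinearIndependent ℝ W := by
    rw [Fintype.linearIndependent_iff]
    intro g hg b
    have := hsum g b
    rw [hg, map_zero] at this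
    rcases mul_eq_zero.1 this.symm with h | h
    · exact h
    · exact absurd h (inv_ne_zero (hc b))
  have htop : Submodule.span ℝ (Set.range W) = ⊤ :=
    hli.span_eq_top_of_card_eq_finrank (by simpa using hn.symm)
  have hv : v ∈ Submodule.span ℝ (Set.range W) := by rw [htop]; trivial
  obtain ⟨g, hg⟩ := (Submodule.mem_span_range_iff_exists_fun ℝ).mp hv
  have : ∀ b, c b * B (W b) v = g b := fun b => by
    rw [← hg, hsum, mul_comm (g b), ← mul_assoc, mul_inv_cancel₀ (hc b), one_mul]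
  simp only [this]
  exact hg.symm

private theorem D7_finrank_V : finrank ℝ V = 4 := by
  have h : finrank ℝ (Fin 2 → ℂ) = 4 := by
    rw [Module.finrank_pi_fintype]
    simp [Complex.finrank_real_complex]
  exact h

private theorem D7_finrank_Y : finrank ℝ Y9 = 6 := by
  have h : finrank ℝ (ℂ × V) = 6 := by
    rw [Module.finrank_prod, Complex.finrank_real_complex, D7_finrank_V]
  exact h

private noncomputable def D7_bil {E : Type*} [NormedAddCommGroup E] [NormedSpace ℝ E]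
    (G : E →L[ℝ] E →L[ℝ] ℝ) : E →ₗ[ℝ] E →ₗ[ℝ] ℝ :=
  LinearMap.mk₂ ℝ (fun x y => G x y) (fun x y z => by simp) (fun c x y => by simp)
    (fun x y z => by simp) (fun c x y => by simp)

private theorem D7_self (z v : V) : h0 z (iL v) v = 0 := by
  have h : omL z v v = - omL z v v := omL_skew z v v
  have h2 : omL z v v = h0 z (iL v) v := rfl
  rw [h2] at h
  linarith

private theorem D7_self' (z v : V) : h0 z v (iL v) = 0 := by
  rw [h0_symm]; exact D7_self z v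

private theorem D7_sw (z u v : V) : h0 z (iL u) v = - h0 z (iL v) u := omL_skew z u v

/-! ### D7 : existence of frames -/
theorem exists_frame9 {U : Mat} {δ : ℝ} (hU : Uᴴ * U = 1) (hδ : |δ| ≤ 1/100) (X Z : V)
    (hX : hm U δ 0 X X = 1) (hXZ : hm U δ 0 X Z = 0) :
    ∃ (W : Fin 4 → V) (Y : V) (u : ℝ), ON9 U δ (0, W, Y) ∧ W 0 = X ∧ Z = u • W 1 := by
  obtain ⟨W, u, hW, hW0, hZ⟩ := exists_frame hU hδ 0 X Z hX hXZ
  set v := hatL U δ 0 (W 0) with hv
  let φ : V →ₗ[ℝ] ℝ × ℝ :=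
    LinearMap.prod (D7_bil (h0 0) v) (D7_bil (h0 0) (iL v))
  have hker : LinearMap.ker φ ≠ ⊥ := by
    apply LinearMap.ker_ne_bot_of_finrank_lt
    rw [D7_finrank_V, Module.finrank_prod, Module.finrank_self]
    norm_num
  obtain ⟨Y, hY, hY0⟩ := (Submodule.ne_bot_iff _).1 hker
  have h1 : h0 0 v Y = 0 := congrArg Prod.fst (LinearMap.mem_ker.1 hY)
  have h2 : h0 0 (iL v) Y = 0 := congrArg Prod.snd (LinearMap.mem_ker.1 hY)
  have hq : 0 < h0 0 Y Y := h0_pos 0 Y hY0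
  set q : ℝ := h0 0 Y Y with hqd
  have hsq : 0 < √q := Real.sqrt_pos.mpr hq
  have hsq2 : √q * √q = q := Real.mul_self_sqrt hq.le
  refine ⟨W, (√q)⁻¹ • Y, u, ⟨hW, ?_, ?_, ?_⟩, hW0, hZ⟩
  · show h0 0 ((√q)⁻¹ • Y) ((√q)⁻¹ • Y) = 1
    rw [map_smul, map_smul, _root_.smul_apply, ← hqd, smul_eq_mul, smul_eq_mul]
    field_simp
    nlinarith
  · show h0 0 v ((√q)⁻¹ • Y) = 0
    rw [map_smul, h1, smul_zero]
  · show h0 0 (iL v) ((√q)⁻¹ • Y) = 0
    rw [map_smul, h2, smul_zero]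

private theorem D7_sC {U : Mat} {δ : ℝ} (hU : Uᴴ * U = 1) (hδ : |δ| ≤ 1/100) {s : Fr9}
    (hs : ON9 U δ s) :
    1/2 ≤ sC U δ s ∧ sC U δ s ≤ 2 ∧ sV U δ 0 s = sC U δ s := by
  have h1 : hm U δ s.1 (s.2.1 0) (s.2.1 0) = 1 := by
    have := hs.1 0 0
    rwa [if_pos rfl] at this
  refine ⟨?_, ?_, ?_⟩
  · have := le_hatL hU hδ s.1 (s.2.1 0)
    rw [h1] at this
    show 1/2 ≤ h0 s.1 (hatL U δ s.1 (s.2.1 0)) (hatL U δ s.1 (s.2.1 0))
    linarith
  · have := hatL_le hU hδ s.1 (s.2.1 0)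
    rw [h1] at this
    show h0 s.1 (hatL U δ s.1 (s.2.1 0)) (hatL U δ s.1 (s.2.1 0)) ≤ 2
    linarith
  · show hm U δ s.1 (hatL U δ s.1 (s.2.1 0)) (s.2.1 0)
      = h0 s.1 (hatL U δ s.1 (s.2.1 0)) (hatL U δ s.1 (s.2.1 0))
    rw [h0_hatL hU hδ, hm_symm hU hδ]

private theorem D7_gramF {U : Mat} {δ : ℝ} {s : Fr9}
    (hs : ON9 U δ s) (i j : Fin 4) :
    h0 s.1 (fF U δ s i) (fF U δ s j) = if i = j then (nn6 (sC U δ s) (i.natAdd 2))⁻¹ else 0 := by
  obtain ⟨-, hY, hVY, hiVY⟩ := hs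
  have e1 : h0 s.1 s.2.2 (vF U δ s) = 0 := by rw [h0_symm]; exact hVY
  have e2 : h0 s.1 s.2.2 (iL (vF U δ s)) = 0 := by rw [h0_symm]; exact hiVY
  have e3 : h0 s.1 (iL s.2.2) (vF U δ s) = 0 := by rw [D7_sw, hiVY, neg_zero]
  have e4 : h0 s.1 (vF U δ s) (iL s.2.2) = 0 := by rw [h0_symm]; exact e3
  have e5 : h0 s.1 (iL (vF U δ s)) (iL s.2.2) = 0 := by rw [h0_iL]; exact hVY
  have e6 : h0 s.1 (iL s.2.2) (iL (vF U δ s)) = 0 := by rw [h0_iL]; exact e1
  have e7 : h0 s.1 (iL (vF U δ s)) (iL (vF U δ s)) = sC U δ s := by rw [h0_iL]; rfl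
  have e8 : h0 s.1 (iL s.2.2) (iL s.2.2) = 1 := by rw [h0_iL]; exact hY
  have e9 : h0 s.1 (vF U δ s) (vF U δ s) = sC U δ s := rfl
  have a1 := D7_self s.1 (vF U δ s)
  have a2 := D7_self' s.1 (vF U δ s)
  have a3 := D7_self s.1 s.2.2
  have a4 := D7_self' s.1 s.2.2
  have hn0 : nn6 (sC U δ s) ((0 : Fin 4).natAdd 2) = (sC U δ s)⁻¹ := rfl
  have hn1 : nn6 (sC U δ s) ((1 : Fin 4).natAdd 2) = (sC U δ s)⁻¹ := rfl
  have hn2 : nn6 (sC U δ s) ((2 : Fin 4).natAdd 2) = 1 := rfl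
  have hn3 : nn6 (sC U δ s) ((3 : Fin 4).natAdd 2) = 1 := rfl
  have f0 : fF U δ s 0 = vF U δ s := rfl
  have f1 : fF U δ s 1 = iL (vF U δ s) := rfl
  have f2 : fF U δ s 2 = s.2.2 := rfl
  have f3 : fF U δ s 3 = iL s.2.2 := rfl
  have hcase : ∀ i : Fin 4, i = 0 ∨ i = 1 ∨ i = 2 ∨ i = 3 := by decide
  rcases hcase i with rfl | rfl | rfl | rfl <;> rcases hcase j with rfl | rfl | rfl | rfl
  all_goals
    first
    | (rw [if_pos rfl]
       first
       | (refine e9.trans ?_; exact (inv_inv _).symm)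
       | (refine e7.trans ?_; exact (inv_inv _).symm)
       | (refine hY.trans ?_; exact inv_one.symm)
       | (refine e8.trans ?_; exact inv_one.symm))
    | (rw [if_neg (by decide)]
       first
       | exact hVY | exact hiVY | exact e1 | exact e2 | exact e3 | exact e4 | exact e5
       | exact e6 | exact a1 | exact a2 | exact a3 | exact a4)

private theorem D7_nn {c : ℝ} (hc : 0 < c) (i : Fin 6) : nn6 c i ≠ 0 := by
  have h : c⁻¹ ≠ 0 := inv_ne_zero hc.ne'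
  fin_cases i
  · exact one_ne_zero
  · exact one_ne_zero
  · exact h
  · exact h
  · exact one_ne_zero
  · exact one_ne_zero

/-- expansion in the frame `(V, iV, Y, iY)`. -/
theorem fF_sum {U : Mat} {δ : ℝ} (hU : Uᴴ * U = 1) (hδ : |δ| ≤ 1/100) {s : Fr9} (hs : ON9 U δ s) (v : V) :
    v = ∑ j : Fin 4, (nn6 (sC U δ s) (j.natAdd 2) * h0 s.1 (fF U δ s j) v) • fF U δ s j := by
  have hc : 0 < sC U δ s := by have := (D7_sC hU hδ hs).1; linarith
  exact D7_gen D7_finrank_V (D7_bil (h0 s.1)) (fF U δ s)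
    (fun j => nn6 (sC U δ s) (j.natAdd 2)) (fun a => D7_nn hc _) (fun a b => D7_gramF hs a b) v

/-- the Gram matrix of the frame of the fibre. -/
theorem fE_gram {U : Mat} {δ : ℝ} (hU : Uᴴ * U = 1) (hδ : |δ| ≤ 1/100) {s : Fr9} (hs : ON9 U δ s) (i j : Fin 6) :
    kL9 s.1 (fE U δ s i) (fE U δ s j) = if i = j then (nn6 (sC U δ s) i)⁻¹ else 0 := by
  have hg := D7_gramF hs
  have hE : ∀ k : Fin 4, fE U δ s (k.natAdd 2) = (0, fF U δ s k) := by
    intro k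
    fin_cases k <;> rfl
  have h00 : fE U δ s 0 = (1, 0) := rfl
  have h01 : fE U δ s 1 = (Complex.I, 0) := rfl
  have hTT : ∀ k l : Fin 4, kL9 s.1 (fE U δ s (k.natAdd 2)) (fE U δ s (l.natAdd 2)) =
      if (k.natAdd 2 : Fin 6) = l.natAdd 2 then (nn6 (sC U δ s) (k.natAdd 2))⁻¹ else 0 := by
    intro k l
    rw [hE, hE, kL9_apply]
    simp only [Complex.zero_re, Complex.zero_im, mul_zero, zero_add]
    rw [hg k l]
    by_cases h : k = l
    · rw [if_pos h, if_pos (by rw [h])]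
    · rw [if_neg h, if_neg (fun hh => h ((Fin.natAdd_inj 2).1 hh))]
  have h0T : ∀ (a : ℂ) (l : Fin 4), kL9 s.1 (a, 0) (fE U δ s (l.natAdd 2)) = 0 := by
    intro a l
    rw [hE, kL9_apply]
    simp [-h0_apply]
  have hT0 : ∀ (a : ℂ) (l : Fin 4), kL9 s.1 (fE U δ s (l.natAdd 2)) (a, 0) = 0 := by
    intro a l
    rw [hE, kL9_apply]
    simp [-h0_apply]
  have hne0 : ∀ l : Fin 4, (0 : Fin 6) ≠ l.natAdd 2 := by decide
  have hne1 : ∀ l : Fin 4, (1 : Fin 6) ≠ l.natAdd 2 := by decide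
  have hcase : ∀ i : Fin 6, i = 0 ∨ i = 1 ∨ ∃ k : Fin 4, i = k.natAdd 2 := by decide
  rcases hcase i with rfl | rfl | ⟨k, rfl⟩ <;> rcases hcase j with rfl | rfl | ⟨l, rfl⟩
  · rw [if_pos rfl, h00, kL9_apply]; simp [nn6]
  · rw [if_neg (by decide), h00, h01, kL9_apply]; simp
  · rw [if_neg (hne0 l), h00, h0T]
  · rw [if_neg (by decide), h00, h01, kL9_apply]; simp
  · rw [if_pos rfl, h01, kL9_apply]; simp [nn6]
  · rw [if_neg (hne1 l), h01, h0T]
  · rw [if_neg (hne0 k).symm, h00, hT0]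
  · rw [if_neg (hne1 k).symm, h01, hT0]
  · exact hTT k l

/-- expansion in the frame of the fibre. -/
theorem fE_sum {U : Mat} {δ : ℝ} (hU : Uᴴ * U = 1) (hδ : |δ| ≤ 1/100) {s : Fr9} (hs : ON9 U δ s) (y : Y9) :
    y = ∑ i, (nn6 (sC U δ s) i * cmp U δ s y i) • fE U δ s i := by
  have hc : 0 < sC U δ s := by have := (D7_sC hU hδ hs).1; linarith
  exact D7_gen D7_finrank_Y (D7_bil (kL9 s.1)) (fE U δ s)
    (fun j => nn6 (sC U δ s) j) (fun a => D7_nn hc _) (fun a b => fE_gram hU hδ hs a b) y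

theorem sC_pos {U : Mat} {δ : ℝ} (hU : Uᴴ * U = 1) (hδ : |δ| ≤ 1/100) {s : Fr9} (hs : ON9 U δ s) :
    1/2 ≤ sC U δ s ∧ sC U δ s ≤ 2 ∧ sV U δ 0 s = sC U δ s := D7_sC hU hδ hs

end Pool.Agent.Helper81.M9
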