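import Pool.Agent.Helper81.M9.Basic
import Pool.Agent.Helper46.M8.St.A2
import Pool.Agent.Helper46.M8.St.A7
import Pool.Agent.Helper81.M9.St.A5
import Pool.Agent.Helper46.M8.Ns

/-!
# M9, piece A7
-/

open Filter Metric Module Set
open scoped Topology ContDiff Matrix Matrix.Norms.Elementwise ComplexConjugate

set_option maxSynthPendingDepth 3

namespace Pool.Agent.Helper81.M9
open Pool.Agent.Helper20.PC Pool.Agent.Helper20.HP Pool.Agent.Helper20.M8 Pool.Agent.Helper20.MB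
open Pool.Agent.Helper46.M8

/-- `∇_y K_A` at `z`, as a linear function of the matrix `A` -/
private noncomputable def A7_T (z y : V) (p : Fin 2) : Mat →ₗ[ℂ] ℂ where
  toFun A := ((A p.succ 1 * y 0 + A p.succ 2 * y 1) -
      (z p * (A 0 1 * y 0 + A 0 2 * y 1) + (A 0 0 + (A 0 1 * z 0 + A 0 2 * z 1)) * y p)) -
      (nz z : ℂ)⁻¹ * (hip z y * KA A z p + hip z (KA A z) * y p)
  map_add' A B := by
    simp only [hip, A7_KA, Fin.sum_univ_two, Matrix.add_apply]
    ring
  map_smul' c A := by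
    simp only [hip, A7_KA, Fin.sum_univ_two, Matrix.smul_apply, smul_eq_mul, RingHom.id_apply]
    ring

private lemma A7_T_apply (z y : V) (p : Fin 2) (A : Mat) :
    A7_T z y p A = ((A p.succ 1 * y 0 + A p.succ 2 * y 1) -
      (z p * (A 0 1 * y 0 + A 0 2 * y 1) + (A 0 0 + (A 0 1 * z 0 + A 0 2 * z 1)) * y p)) -
      (nz z : ℂ)⁻¹ * (hip z y * KA A z p + hip z (KA A z) * y p) := rfl

private lemma A7_MK (U : Mat) (i : Fin 8) (z y : V) (p : Fin 2) :
    MK U i z y p = A7_T z y p (Uᴴ * Bs i * U) := by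
  have h1 : DK U i z y p = fderiv ℝ (KA (Uᴴ * Bs i * U)) z y p := rfl
  rw [MK_apply, GamL_h0_eq, Pi.add_apply, h1, A7_fderiv, A7_T_apply]
  simp only [Pi.neg_apply, Pi.smul_apply, Pi.add_apply, smul_eq_mul]
  rw [← sub_eq_add_neg]
  rfl

/-- the covector gives an endomorphism whose Killing field is parallel at `z` -/
private lemma A7_zero (z y : V) (a : Fin 2 → ℂ) (p : Fin 2) :
    A7_T z y p (A2_Y z a - (A2_Y z a)ᴴ) = 0 := by
  have hn : (nz z : ℂ) = 1 + conj (z 0) * z 0 + conj (z 1) * z 1 := by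
    unfold nz
    push_cast
    rw [Fin.sum_univ_two, Complex.normSq_eq_conj_mul_self, Complex.normSq_eq_conj_mul_self]
    ring
  have hn0 : (nz z : ℂ) ≠ 0 := by exact_mod_cast (nz_pos z).ne'
  have e1 : A7_T z y p (A2_Y z a) = 0 := by
    rw [A7_T_apply]
    fin_cases p <;>
      simp [hip, A7_KA, A2_Y, A2_Z, Fin.sum_univ_two] <;> ring
  have e2 : A7_T z y p (A2_Y z a)ᴴ = 0 := by
    rw [A7_T_apply, sub_eq_zero, eq_comm, inv_mul_eq_iff_eq_mul₀ hn0, hn]
    fin_cases p <;>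
      simp [hip, A7_KA, A2_Y, A2_Z, Fin.sum_univ_two, Matrix.conjTranspose_apply] <;> ring
  rw [map_sub, e1, e2, sub_zero]

/-! ### A7 : `∇K_a = 0` at `z` for the vector `a` dual to a covector at `z` -/
theorem sum_C0_MK {U : Mat} (hU : Uᴴ * U = 1) (z y : V) (ξ : V →L[ℝ] ℝ) :
    ∑ i, (C0 i i * ξ (Kf U i z)) • MK U i z y = 0 := by
  funext p
  set X : Mat := A2_Y z (A2_a ξ) - (A2_Y z (A2_a ξ))ᴴ with hX
  have htr : (A2_Y z (A2_a ξ)).trace = 0 := by
    simp [A2_Y, A2_Z, Matrix.trace_fin_three]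
    ring
  have htr' : X.trace = 0 := by
    rw [hX, Matrix.trace_sub, Matrix.trace_conjTranspose, htr]
    simp
  have h1 := congrArg (A7_T z y p) (A2_complU hU X)
  rw [htr', mul_zero, zero_smul, add_zero, map_smul, hX, A7_zero, smul_zero, ← hX, map_sum] at h1
  have h2 : ∀ i : Fin 8, A7_T z y p ((C0 i i : ℂ) • ((Uᴴ * Bs i * U * X).trace • (Uᴴ * Bs i * U))) =
      2 * (((C0 i i * ξ (Kf U i z)) • MK U i z y) p) := by
    intro i
    rw [map_smul, map_smul, ← A7_MK, hX, ← A2_real, Pi.smul_apply, Complex.real_smul,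
      smul_eq_mul, smul_eq_mul]
    push_cast
    ring
  rw [Finset.sum_congr rfl fun i _ => h2 i, ← Finset.mul_sum] at h1
  rw [Finset.sum_apply, Pi.zero_apply]
  rcases mul_eq_zero.mp h1 with h | h
  · exact absurd h two_ne_zero
  · exact h

end Pool.Agent.Helper81.M9
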