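import Pool.Agent.Helper81.M9.Defs2
import Pool.Agent.Helper81.M9.St.A7
import Pool.Agent.Helper81.M9.St.B1
import Pool.Agent.Helper46.M8.Ns

/-!
# M9, piece D3
-/

open Filter Metric Module Set
open scoped Topology ContDiff Matrix Matrix.Norms.Elementwise ComplexConjugate

set_option maxSynthPendingDepth 3

namespace Pool.Agent.Helper81.M9
open Pool.Agent.Helper20.PC Pool.Agent.Helper20.HP Pool.Agent.Helper20.M8 Pool.Agent.Helper20.MB
open Pool.Agent.Helper46.M8

/-- `∑ C0_i m_i M_i y = DKa y + G₀(ŵ, y) = 0`. -/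
private lemma D3_DKa {U : Mat} {δ : ℝ} (hU : Uᴴ * U = 1) (z w y : V) :
    DKa U δ z w y + GamL h0 z (hatL U δ z w) y = 0 := by
  have h := sum_C0_MK hU z y (hm U δ z w)
  have e1 : DKa U δ z w y = ∑ i, (C0 i i * momL U δ z i w) • DK U i z y := by
    simp [DKa]
  have e2 : GamL h0 z (hatL U δ z w) y = ∑ i, (C0 i i * momL U δ z i w) • GamL h0 z y (Kf U i z) := by
    rw [GamL_h0_symm, hatL_eq, map_sum]
    exact Finset.sum_congr rfl fun i _ => by rw [map_smul]
  rw [e1, e2, ← Finset.sum_add_distrib, ← h]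
  refine Finset.sum_congr rfl fun i _ => ?_
  rw [MK_apply, smul_add]
  rfl

/-- `DKc y + G₀(w, y) = δ ∑ I_ij m_j M_i y`. -/
private lemma D3_DKc {U : Mat} {δ : ℝ} (hU : Uᴴ * U = 1) (hδ : |δ| ≤ 1/100) (z w y : V) :
    DKc U δ z w y + GamL h0 z w y = δ • ∑ i, ∑ j, (Ii i j * momL U δ z j w) • MK U i z y := by
  have h := sum_C0_MK hU z y (hm U δ z w)
  have e1 : DKc U δ z w y = ∑ i, ∑ j, (Cm δ i j * momL U δ z j w) • DK U i z y := by
    simp [DKc]
  have hw : w = ∑ i, ∑ j, (Cm δ i j * momL U δ z j w) • Kf U i z := by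
    conv_lhs => rw [← sum_mom hU hδ z w]
    rw [Finset.sum_comm]
    exact Finset.sum_congr rfl fun i _ => Finset.sum_congr rfl fun j _ => by rw [Cm_symm δ j i]
  have e2 : GamL h0 z w y = ∑ i, ∑ j, (Cm δ i j * momL U δ z j w) • GamL h0 z y (Kf U i z) := by
    rw [GamL_h0_symm]
    conv_lhs => rw [hw]
    rw [map_sum]
    refine Finset.sum_congr rfl fun i _ => ?_
    rw [map_sum]
    exact Finset.sum_congr rfl fun j _ => by rw [map_smul]
  have e3 : DKc U δ z w y + GamL h0 z w y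
      = ∑ i, ∑ j, (Cm δ i j * momL U δ z j w) • MK U i z y := by
    rw [e1, e2, ← Finset.sum_add_distrib]
    refine Finset.sum_congr rfl fun i _ => ?_
    rw [← Finset.sum_add_distrib]
    exact Finset.sum_congr rfl fun j _ => by rw [MK_apply, smul_add]
  have e4 : ∀ i, ∑ j, (Cm δ i j * momL U δ z j w) • MK U i z y
      = (C0 i i * momL U δ z i w) • MK U i z y
        + δ • ∑ j, (Ii i j * momL U δ z j w) • MK U i z y := by
    intro i
    have h1 : ∀ j, (Cm δ i j * momL U δ z j w) • MK U i z y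
        = (C0 i j * momL U δ z j w) • MK U i z y
          + δ • ((Ii i j * momL U δ z j w) • MK U i z y) := by
      intro j
      rw [smul_smul, ← add_smul]
      congr 1
      unfold Cm
      ring
    rw [Finset.sum_congr rfl fun j _ => h1 j, Finset.sum_add_distrib, ← Finset.smul_sum]
    congr 1
    rw [Finset.sum_eq_single i]
    · intro j _ hj
      unfold C0
      rw [if_neg (Ne.symm hj)]
      simp
    · intro hi
      exact absurd (Finset.mem_univ i) hi
  rw [e3, Finset.sum_congr rfl fun i _ => e4 i, Finset.sum_add_distrib, ← Finset.smul_sum]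
  have h' : ∑ i, (C0 i i * momL U δ z i w) • MK U i z y = 0 := h
  rw [h', zero_add]

/-! ### D3 : the connection in the directions `W₀` and `V` -/
theorem GamB_W {U : Mat} {δ : ℝ} (hU : Uᴴ * U = 1) (hδ : |δ| ≤ 1/100) (ε : ℝ) (z w y : V) :
    GamL h0 z w y + BL U δ ε z w y = (ε * momL U δ z 6 w) • iL y - DKc U δ z w y := by
  rw [BL_apply, ← D3_DKc hU hδ z w y]
  abel

theorem AL9_W {U : Mat} {δ : ℝ} (hU : Uᴴ * U = 1) (hδ : |δ| ≤ 1/100) (ε : ℝ) (z w : V) (y : Y9) :
    AL9 U δ ε z w y = LamL z (hatL U δ z w) y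
      + (0, (ε * momL U δ z 6 w) • iL y.2 - DKc U δ z w y.2) := by
  rw [AL9_apply, GamB_W hU hδ]

theorem UpL_eq {U : Mat} {δ : ℝ} (hU : Uᴴ * U = 1) (hδ : |δ| ≤ 1/100) (ε : ℝ) (z w : V) (y : Y9) :
    UpL U δ ε z w y = AL9 U δ ε z (hatL U δ z w) y + (0, DKa U δ z w y.2) := by
  have h := D3_DKa (δ := δ) hU z w y.2
  have h2 : BL U δ ε z (hatL U δ z w) y.2
      = GamL h0 z (hatL U δ z w) y.2 + BL U δ ε z (hatL U δ z w) y.2 + DKa U δ z w y.2 := by
    calc BL U δ ε z (hatL U δ z w) y.2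
        = (DKa U δ z w y.2 + GamL h0 z (hatL U δ z w) y.2) + BL U δ ε z (hatL U δ z w) y.2 := by
          rw [h, zero_add]
      _ = GamL h0 z (hatL U δ z w) y.2 + BL U δ ε z (hatL U δ z w) y.2 + DKa U δ z w y.2 := by
          abel
  rw [AL9_apply, UpL, add_assoc]
  congr 1
  refine Prod.ext ?_ ?_
  · simp
  · exact h2

end Pool.Agent.Helper81.M9
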