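import Pool.Agent.Helper81.M9.St.B3
import Pool.Agent.Helper81.M9.St.D3
import Pool.Agent.Helper81.M9.St.D4
import Pool.Agent.Helper46.M8.Ns

/-!
# M9, piece F1
-/

open Filter Metric Module Set
open scoped Topology ContDiff Matrix Matrix.Norms.Elementwise ComplexConjugate

set_option maxSynthPendingDepth 3

namespace Pool.Agent.Helper81.M9
open Pool.Agent.Helper20.PC Pool.Agent.Helper20.HP Pool.Agent.Helper20.M8 Pool.Agent.Helper20.MB
open Pool.Agent.Helper46.M8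

/-! ### F1 : evolution of the components -/
private theorem F1_fstD {E F : Type*} [NormedAddCommGroup E] [NormedSpace ℝ E] [NormedAddCommGroup F]
    [NormedSpace ℝ F] {g : ℝ → E × F} {g' : E × F} {t : ℝ} (h : HasDerivAt g g' t) :
    HasDerivAt (fun t => (g t).1) g'.1 t :=
  (hasFDerivAt_fst (𝕜 := ℝ) (p := g t)).comp_hasDerivAt t h

private theorem F1_sndD {E F : Type*} [NormedAddCommGroup E] [NormedSpace ℝ E] [NormedAddCommGroup F]
    [NormedSpace ℝ F] {g : ℝ → E × F} {g' : E × F} {t : ℝ} (h : HasDerivAt g g' t) :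
    HasDerivAt (fun t => (g t).2) g'.2 t :=
  (hasFDerivAt_snd (𝕜 := ℝ) (p := g t)).comp_hasDerivAt t h

private theorem F1_iL2 (v : V) : iL (iL v) = -v := by
  simp only [iL_apply, smul_smul, Complex.I_mul_I, neg_smul, one_smul]

private theorem F1_diff_fF {U : Mat} {δ : ℝ} (hU : Uᴴ * U = 1) (hδ : |δ| ≤ 1/100) (s : Fr9)
    (j : Fin 4) : DifferentiableAt ℝ (fun s : Fr9 => fF U δ s j) s := by
  have h := (contDiffAt_fF (q := (((U, δ, 0) : Pm), s)) hU hδ j).differentiableAt (by norm_num)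
  have h2 : DifferentiableAt ℝ (fun s : Fr9 => (((U, δ, 0) : Pm), s)) s :=
    (differentiableAt_const _).prodMk differentiableAt_id
  exact DifferentiableAt.comp (𝕜 := ℝ) (g := fun q : Pm × Fr9 => fF q.1.1 q.1.2.1 q.2 j)
    (f := fun s : Fr9 => (((U, δ, 0) : Pm), s)) s h h2

/-- the derivative of the frame of the fibre. -/
private theorem F1_derivE {U : Mat} {δ : ℝ} (hU : Uᴴ * U = 1) (hδ : |δ| ≤ 1/100) {s : ℝ → Fr9} {t : ℝ}
    (hs : HasDerivAt s (XF9 U δ (s t)) t) (i : Fin 6) :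
    HasDerivAt (fun t => fE U δ (s t) i)
      ((0, DKc U δ (s t).1 ((s t).2.1 0) (fE U δ (s t) i).2) : Y9) t := by
  have hF : ∀ j : Fin 4, HasDerivAt (fun t => fF U δ (s t) j)
      (DKc U δ (s t).1 ((s t).2.1 0) (fF U δ (s t) j)) t := by
    intro j
    have h2 := (F1_diff_fF hU hδ (s t) j).hasFDerivAt.comp_hasDerivAt t hs
    have h3 := lie_fF hU hδ (s t) j
    rw [lie] at h3
    rw [h3] at h2
    exact h2
  have hG : ∀ j : Fin 4, HasDerivAt (fun t => (((0 : ℂ), fF U δ (s t) j) : Y9))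
      ((0, DKc U δ (s t).1 ((s t).2.1 0) (fF U δ (s t) j)) : Y9) t := fun j =>
    (hasDerivAt_const t (0 : ℂ)).prodMk (hF j)
  have hC : ∀ c : ℂ, HasDerivAt (fun _ : ℝ => ((c, (0 : V)) : Y9))
      ((0, DKc U δ (s t).1 ((s t).2.1 0) (0 : V)) : Y9) t := by
    intro c
    rw [map_zero]
    exact hasDerivAt_const t _
  fin_cases i
  · exact hC 1
  · exact hC Complex.I
  · exact hG 0
  · exact hG 1
  · exact hG 2
  · exact hG 3

/-- `Λ_V E_i + εθ i E_i`. -/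
private theorem F1_frame {U : Mat} {δ : ℝ} (a : ℝ) {s : Fr9} (hs : ON9 U δ s) (i : Fin 6) :
    LamL s.1 (vF U δ s) (fE U δ s i) + ((0, a • iL (fE U δ s i).2) : Y9)
      = ∑ k, (N0 (sC U δ s) i k + a * J6 i k) • fE U δ s k := by
  obtain ⟨-, h1, h2, h3⟩ := hs
  have hC : h0 s.1 (vF U δ s) (vF U δ s) = sC U δ s := rfl
  have hCi : h0 s.1 (iL (vF U δ s)) (iL (vF U δ s)) = sC U δ s := by rw [h0_iL]; rfl
  have hsk : h0 s.1 (iL (vF U δ s)) (vF U δ s) = 0 := by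
    have := omL_skew s.1 (vF U δ s) (vF U δ s)
    have e : omL s.1 (vF U δ s) (vF U δ s) = h0 s.1 (iL (vF U δ s)) (vF U δ s) := rfl
    rw [e] at this
    linarith
  have hsk2 : h0 s.1 (vF U δ s) (iL (vF U δ s)) = 0 := by rw [h0_symm]; exact hsk
  have h4 : h0 s.1 (vF U δ s) (iL s.2.2) = 0 := by
    have := omL_skew s.1 (vF U δ s) s.2.2
    have e : omL s.1 (vF U δ s) s.2.2 = h0 s.1 (iL (vF U δ s)) s.2.2 := rfl
    have e2 : omL s.1 s.2.2 (vF U δ s) = h0 s.1 (iL s.2.2) (vF U δ s) := rfl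
    rw [e, e2, h3] at this
    rw [h0_symm]
    linarith
  have h5 : h0 s.1 (iL (vF U δ s)) (iL s.2.2) = 0 := by rw [h0_iL]; exact h2
  rw [LamL_apply, Fin.sum_univ_six]
  fin_cases i
  · refine Prod.ext (Complex.ext ?_ ?_) ?_ <;>
    simp [N0, J6, fE, -h0_apply, -iL_apply]
  · refine Prod.ext (Complex.ext ?_ ?_) ?_ <;>
    simp [N0, J6, fE, -h0_apply, -iL_apply]
  · refine Prod.ext (Complex.ext ?_ ?_) ?_ <;>
    simp [N0, J6, fE, -h0_apply, -iL_apply, hC, hsk]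
  · refine Prod.ext (Complex.ext ?_ ?_) ?_ <;>
    simp [N0, J6, fE, -h0_apply, -iL_apply, hCi, hsk2, F1_iL2]
  · refine Prod.ext (Complex.ext ?_ ?_) ?_ <;>
    simp [N0, J6, fE, -h0_apply, -iL_apply, h2, h3]
  · refine Prod.ext (Complex.ext ?_ ?_) ?_ <;>
    simp [N0, J6, fE, -h0_apply, -iL_apply, h4, h5, F1_iL2]

private theorem F1_core {U : Mat} {δ : ℝ} (hU : Uᴴ * U = 1) (hδ : |δ| ≤ 1/100) (ε : ℝ) {s : ℝ → Fr9}
    {y : ℝ → Y9} {t : ℝ}
    (hs : HasDerivAt s (XF9 U δ (s t)) t)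
    (hy : HasDerivAt y (- AL9 U δ ε (s t).1 ((s t).2.1 0) (y t)) t)
    (hON : ON9 U δ (s t)) (i : Fin 6) :
    HasDerivAt (fun t => cmp U δ (s t) (y t) i)
      (∑ k, (N0 (sC U δ (s t)) i k + ε * sT U δ (s t) * J6 i k)
        * cmp U δ (s t) (y t) k) t := by
  have hx : HasDerivAt (fun t => (s t).1) ((s t).2.1 0) t := F1_fstD hs
  have hE := F1_derivE hU hδ hs i
  have hk0 : HasFDerivAt kL9 (fderiv ℝ kL9 (s t).1) (s t).1 :=
    ((contDiff_kL9.contDiffAt (x := (s t).1)).differentiableAt (by norm_num)).hasFDerivAt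
  have hk : HasDerivAt (fun t => kL9 (s t).1) (fderiv ℝ kL9 (s t).1 ((s t).2.1 0)) t :=
    hk0.comp_hasDerivAt (f := fun t => (s t).1) t hx
  have h3 := (hk.clm_apply hE).clm_apply hy
  refine h3.congr_deriv ?_
  have hf := F1_frame (ε * sT U δ (s t)) hON i
  have hsum : (∑ k, (N0 (sC U δ (s t)) i k + ε * sT U δ (s t) * J6 i k)
        * cmp U δ (s t) (y t) k)
      = kL9 (s t).1 (∑ k, (N0 (sC U δ (s t)) i k + (ε * sT U δ (s t)) * J6 i k)
        • fE U δ (s t) k) (y t) := by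
    rw [map_sum]
    simp only [map_smul, cmp, _root_.sum_apply, _root_.smul_apply, smul_eq_mul]
  rw [hsum, ← hf]
  have hW := AL9_W hU hδ ε (s t).1 ((s t).2.1 0) (fE U δ (s t) i)
  have e1 : hatL U δ (s t).1 ((s t).2.1 0) = vF U δ (s t) := rfl
  have e2 : momL U δ (s t).1 6 ((s t).2.1 0) = sT U δ (s t) := rfl
  rw [e1, e2] at hW
  have hW' : LamL (s t).1 (vF U δ (s t)) (fE U δ (s t) i)
      + ((0, (ε * sT U δ (s t)) • iL (fE U δ (s t) i).2) : Y9)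
      = AL9 U δ ε (s t).1 ((s t).2.1 0) (fE U δ (s t) i)
        + ((0, DKc U δ (s t).1 ((s t).2.1 0) (fE U δ (s t) i).2) : Y9) := by
    rw [hW, add_assoc]
    congr 1
    refine Prod.ext ?_ ?_
    · simp
    · simp only [Prod.snd_add, sub_add_cancel]
  rw [hW']
  have hp := kL9_par hU δ ε (s t).1 ((s t).2.1 0) (fE U δ (s t) i) (y t)
  simp only [map_add, map_neg, _root_.add_apply, hp]
  ring

theorem deriv_cmp {U : Mat} {δ : ℝ} (hU : Uᴴ * U = 1) (hδ : |δ| ≤ 1/100) (ε : ℝ) {γ : ℝ → Fs9} {t : ℝ}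
    (hγ : HasDerivAt γ (XB9 U δ ε (γ t)) t) (hON : ON9 U δ (γ t).1) (i : Fin 6) :
    HasDerivAt (fun t => cmp U δ (γ t).1 (γ t).2.1 i)
      (∑ k, (N0 (sC U δ (γ t).1) i k + ε * sT U δ (γ t).1 * J6 i k)
        * cmp U δ (γ t).1 (γ t).2.1 k) t ∧
    HasDerivAt (fun t => cmp U δ (γ t).1 (γ t).2.2 i)
      (∑ k, (N0 (sC U δ (γ t).1) i k + ε * sT U δ (γ t).1 * J6 i k)
        * cmp U δ (γ t).1 (γ t).2.2 k) t := by
  have h1 : HasDerivAt (fun t => (γ t).1) (XF9 U δ (γ t).1) t := F1_fstD hγ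
  have h2 : HasDerivAt (fun t => (γ t).2)
      ((- AL9 U δ ε (γ t).1.1 ((γ t).1.2.1 0) (γ t).2.1,
        - AL9 U δ ε (γ t).1.1 ((γ t).1.2.1 0) (γ t).2.2) : Y9 × Y9) t := F1_sndD hγ
  exact ⟨F1_core hU hδ ε (s := fun t => (γ t).1) (y := fun t => (γ t).2.1) h1 (F1_fstD h2) hON i,
    F1_core hU hδ ε (s := fun t => (γ t).1) (y := fun t => (γ t).2.2) h1 (F1_sndD h2) hON i⟩

end Pool.Agent.Helper81.M9
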