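import Pool.Agent.Helper81.M9.St.C5
import Pool.Agent.Helper81.M9.St.D7
import Pool.Agent.Helper81.M9.St.F1
import Pool.Agent.Helper46.M8.Ns

/-!
# M9, piece F2
-/

open Filter Metric Module Set
open scoped Topology ContDiff Matrix Matrix.Norms.Elementwise ComplexConjugate

set_option maxSynthPendingDepth 3

namespace Pool.Agent.Helper81.M9
open Pool.Agent.Helper20.PC Pool.Agent.Helper20.HP Pool.Agent.Helper20.M8 Pool.Agent.Helper20.MB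
open Pool.Agent.Helper46.M8

/-! ### F2 : evolution of `c₁`, `c₂`, `B`, `τ` -/
private lemma F2_bF {U : Mat} {δ : ℝ} (hU : Uᴴ * U = 1) (hδ : |δ| ≤ 1/100) (ε : ℝ) {γ : ℝ → Fs9} {t : ℝ}
    (hγ : HasDerivAt γ (XB9 U δ ε (γ t)) t) (hON : ON9 U δ (γ t).1) (i j : Fin 6) :
    HasDerivAt (fun t => bF U δ (γ t) i j)
      (∑ k, ((N0 (sC U δ (γ t).1) i k + ε * sT U δ (γ t).1 * J6 i k) * bF U δ (γ t) k j
        + (N0 (sC U δ (γ t).1) j k + ε * sT U δ (γ t).1 * J6 j k) * bF U δ (γ t) i k)) t := by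
  obtain ⟨yi, pi⟩ := deriv_cmp hU hδ ε hγ hON i
  obtain ⟨yj, pj⟩ := deriv_cmp hU hδ ε hγ hON j
  have h := (yi.mul pj).sub (yj.mul pi)
  refine HasDerivAt.congr_deriv (f := fun t => bF U δ (γ t) i j) h ?_
  simp only [bF, Finset.sum_mul, Finset.mul_sum, ← Finset.sum_add_distrib, ← Finset.sum_sub_distrib]
  exact Finset.sum_congr rfl fun k _ => by ring

private lemma F2_sC {U : Mat} {δ : ℝ} (hU : Uᴴ * U = 1) (hδ : |δ| ≤ 1/100) (ε : ℝ) {γ : ℝ → Fs9} {t : ℝ}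
    (hγ : HasDerivAt γ (XB9 U δ ε (γ t)) t) :
    HasDerivAt (fun t => sC U δ (γ t).1) 0 t := by
  have h1 : DifferentiableAt ℝ (sC U δ) (γ t).1 := by
    have h := contDiffAt_sC (q := ((U, δ, ε), (γ t).1)) hU hδ
    have h2 : ContDiffAt ℝ ∞ (fun s : Fr9 => (((U, δ, ε), s) : Pm × Fr9)) (γ t).1 :=
      contDiffAt_const.prodMk contDiffAt_id
    exact (ContDiffAt.comp (γ t).1 (g := fun q : Pm × Fr9 => sC q.1.1 q.1.2.1 q.2)
      (f := fun s : Fr9 => (((U, δ, ε), s) : Pm × Fr9)) h h2).differentiableAt (by simp)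
  have h2 : HasDerivAt (fun t => (γ t).1) (XF9 U δ (γ t).1) t := by
    have := (hasFDerivAt_fst (𝕜 := ℝ) (p := γ t)).comp_hasDerivAt t hγ
    exact this
  have h3 := h1.hasFDerivAt.comp_hasDerivAt t h2
  have h4 : fderiv ℝ (sC U δ) (γ t).1 (XF9 U δ (γ t).1) = 0 := by
    have := lie_h0_fF hU hδ (γ t).1 0 0
    exact this
  rw [h4] at h3
  exact h3

theorem deriv_c1S {U : Mat} {δ : ℝ} (hU : Uᴴ * U = 1) (hδ : |δ| ≤ 1/100) (ε : ℝ) {γ : ℝ → Fs9} {t : ℝ}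
    (hγ : HasDerivAt γ (XB9 U δ ε (γ t)) t) (hON : ON9 U δ (γ t).1) :
    HasDerivAt (fun t => c1S U δ ε (γ t)) (d1 ε (sT U δ (γ t).1) (BS U δ (γ t))) t := by
  have h := (F2_bF hU hδ ε hγ hON 0 2).const_mul ε
  refine HasDerivAt.congr_deriv (f := fun t => c1S U δ ε (γ t)) h ?_
  simp [Fin.sum_univ_succ, N0, J6, d1, BS, exc, bF]
  ring

theorem deriv_c2S {U : Mat} {δ : ℝ} (hU : Uᴴ * U = 1) (hδ : |δ| ≤ 1/100) (ε : ℝ) {γ : ℝ → Fs9} {t : ℝ}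
    (hγ : HasDerivAt γ (XB9 U δ ε (γ t)) t) (hON : ON9 U δ (γ t).1) :
    HasDerivAt (fun t => c2S U δ ε (γ t)) (d2 ε (sT U δ (γ t).1) (BS U δ (γ t))) t := by
  have h := (F2_bF hU hδ ε hγ hON 1 3).const_mul ε
  refine HasDerivAt.congr_deriv (f := fun t => c2S U δ ε (γ t)) h ?_
  simp [Fin.sum_univ_succ, N0, J6, d2, BS, exc, bF]
  ring

theorem deriv_b13 {U : Mat} {δ : ℝ} (hU : Uᴴ * U = 1) (hδ : |δ| ≤ 1/100) (ε : ℝ) {γ : ℝ → Fs9} {t : ℝ}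
    (hγ : HasDerivAt γ (XB9 U δ ε (γ t)) t) (hON : ON9 U δ (γ t).1) :
    HasDerivAt (fun t => bF U δ (γ t) 1 3) (- (ε * (sT U δ (γ t).1 * BS U δ (γ t) 1 2))) t := by
  have h := F2_bF hU hδ ε hγ hON 1 3
  refine HasDerivAt.congr_deriv (f := fun t => bF U δ (γ t) 1 3) h ?_
  simp [Fin.sum_univ_succ, N0, J6, BS, exc, bF]
  ring

theorem deriv_BS {U : Mat} {δ : ℝ} (hU : Uᴴ * U = 1) (hδ : |δ| ≤ 1/100) (ε : ℝ) {γ : ℝ → Fs9} {t : ℝ}
    (hγ : HasDerivAt γ (XB9 U δ ε (γ t)) t) (hON : ON9 U δ (γ t).1) (i j : Fin 6) :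
    HasDerivAt (fun t => BS U δ (γ t) i j)
      (dB (sC U δ (γ t).1) ε (sT U δ (γ t).1) (c1S U δ ε (γ t)) (c2S U δ ε (γ t))
        (BS U δ (γ t)) i j) t := by
  by_cases he : exc i j
  · have e1 : (fun t => BS U δ (γ t) i j) = fun _ => (0 : ℝ) := by
      funext t; simp [BS, he]
    rw [e1]
    have e2 : dB (sC U δ (γ t).1) ε (sT U δ (γ t).1) (c1S U δ ε (γ t)) (c2S U δ ε (γ t))
        (BS U δ (γ t)) i j = 0 := by simp [dB, he]
    rw [e2]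
    exact hasDerivAt_const t 0
  · have e1 : (fun t => BS U δ (γ t) i j) = fun t => bF U δ (γ t) i j := by
      funext t; simp [BS, he]
    rw [e1]
    have h := F2_bF hU hδ ε hγ hON i j
    refine HasDerivAt.congr_deriv (f := fun t => bF U δ (γ t) i j) h ?_
    clear h e1
    revert he
    fin_cases i <;> fin_cases j <;> simp [exc, Fin.sum_univ_succ, N0, J6, dB, BS, c1S, c2S, bF] <;> ring

theorem deriv_tauS {U : Mat} {δ : ℝ} (hU : Uᴴ * U = 1) (hδ : |δ| ≤ 1/100) (ε : ℝ) {γ : ℝ → Fs9} {t : ℝ}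
    (hγ : HasDerivAt γ (XB9 U δ ε (γ t)) t) (hON : ON9 U δ (γ t).1) :
    HasDerivAt (fun t => tauS U δ (γ t))
      (td (sC U δ (γ t).1) ε (sT U δ (γ t).1) (BS U δ (γ t))) t := by
  have hC : sC U δ (γ t).1 ≠ 0 := by
    have := (sC_pos hU hδ hON).1
    linarith
  have h1 := (F2_sC hU hδ ε hγ).inv hC
  have h2 := ((F2_bF hU hδ ε hγ hON 0 2).const_mul (1/2)).add
    ((F2_bF hU hδ ε hγ hON 1 3).const_mul (1/4))
  have h := h1.mul h2
  refine HasDerivAt.congr_deriv (f := fun t => tauS U δ (γ t)) h ?_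
  simp [Fin.sum_univ_succ, N0, J6, BS, exc, bF, td, qv]
  field_simp
  ring

end Pool.Agent.Helper81.M9
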