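import Pool.Agent.Helper46.M8.Defs2
import Pool.Agent.Helper81.M9.Frame
import Pool.Agent.Helper46.M8.Ns

/-!
# M9, piece F3
-/

open Filter Metric Module Set
open scoped Topology ContDiff Matrix Matrix.Norms.Elementwise ComplexConjugate

set_option maxSynthPendingDepth 3

namespace Pool.Agent.Helper81.M9
open Pool.Agent.Helper20.PC Pool.Agent.Helper20.HP Pool.Agent.Helper20.M8 Pool.Agent.Helper20.MB
open Pool.Agent.Helper46.M8

/-! ### F3 : from the evolution to the jets -/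
private theorem F3_of {f : ℝ → ℝ} {j : J2} (h : HasJet f j) : HasJ1 f j := by
  obtain ⟨h0, f', h1, h2, _⟩ := h
  exact ⟨h0, h2 ▸ h1.self_of_nhds⟩

private theorem F3_add {f g : ℝ → ℝ} {j k : J2} (hf : HasJ1 f j) (hg : HasJ1 g k) :
    HasJ1 (fun t => f t + g t) (j + k) :=
  ⟨by simp [hf.1, hg.1], hf.2.add hg.2⟩

private theorem F3_mul {f g : ℝ → ℝ} {j k : J2} (hf : HasJ1 f j) (hg : HasJ1 g k) :
    HasJ1 (fun t => f t * g t) (j * k) := by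
  refine ⟨by simp [hf.1, hg.1], (hf.2.mul hg.2).congr_deriv ?_⟩
  rw [hf.1, hg.1, J2.mul_b]
  ring

private theorem F3_smul (r : ℝ) {f : ℝ → ℝ} {j : J2} (hf : HasJ1 f j) :
    HasJ1 (fun t => r • f t) (r • j) := by
  refine ⟨by simp [hf.1], ?_⟩
  have h := hf.2.const_mul r
  simpa using h

private theorem F3_neg {f : ℝ → ℝ} {j : J2} (hf : HasJ1 f j) :
    HasJ1 (fun t => - f t) (-j) :=
  ⟨by simp [hf.1], hf.2.neg⟩

private theorem F3_zero : HasJ1 (fun _ => 0) 0 :=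
  ⟨rfl, hasDerivAt_const 0 (0 : ℝ)⟩

private theorem F3_sum6 {f : Fin 6 → ℝ → ℝ} {j : Fin 6 → J2} (h : ∀ i, HasJ1 (f i) (j i)) :
    HasJ1 (fun t => ∑ i, f i t) (∑ i, j i) := by
  simp only [Fin.sum_univ_six]
  exact F3_add (F3_add (F3_add (F3_add (F3_add (h 0) (h 1)) (h 2)) (h 3)) (h 4)) (h 5)

private theorem F3_d1 (ε : ℝ) {th : ℝ → ℝ} {B : ℝ → Fin 6 → Fin 6 → ℝ}
    {jth : J2} {jB' : Fin 6 → Fin 6 → J2}
    (hth : HasJ1 th jth) (hB : ∀ i j, HasJ1 (fun t => B t i j) (jB' i j)) :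
    HasJ1 (fun t => d1 ε (th t) (B t)) (d1 ε jth jB') :=
  F3_smul _ (F3_mul hth (hB 0 3))

private theorem F3_d2 (ε : ℝ) {th : ℝ → ℝ} {B : ℝ → Fin 6 → Fin 6 → ℝ}
    {jth : J2} {jB' : Fin 6 → Fin 6 → J2}
    (hth : HasJ1 th jth) (hB : ∀ i j, HasJ1 (fun t => B t i j) (jB' i j)) :
    HasJ1 (fun t => d2 ε (th t) (B t)) (d2 ε jth jB') :=
  F3_neg (F3_smul _ (F3_mul hth (hB 1 2)))

private theorem F3_dB (cC ε : ℝ) {th c₁ c₂ : ℝ → ℝ} {B : ℝ → Fin 6 → Fin 6 → ℝ}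
    {jth jc₁ jc₂ : J2} {jB' : Fin 6 → Fin 6 → J2}
    (hth : HasJ1 th jth) (h1 : HasJ1 c₁ jc₁) (h2 : HasJ1 c₂ jc₂)
    (hB : ∀ i j, HasJ1 (fun t => B t i j) (jB' i j)) (i j : Fin 6) :
    HasJ1 (fun t => dB cC ε (th t) (c₁ t) (c₂ t) (B t) i j) (dB cC ε jth jc₁ jc₂ jB' i j) := by
  unfold dB
  by_cases he : exc i j = true
  · simp only [he, if_true]
    exact F3_zero
  · simp only [he, if_false, Bool.false_eq_true]
    refine F3_add (F3_add (F3_sum6 fun k => F3_add (F3_smul _ (hB k j)) (F3_smul _ (hB i k)))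
      (F3_smul _ (F3_mul hth (F3_sum6 fun k =>
        F3_add (F3_smul _ (hB k j)) (F3_smul _ (hB i k)))))) ?_
    by_cases ha : (i, j) = (0, 3)
    · simp only [if_pos ha]
      exact F3_neg (F3_mul hth h1)
    simp only [if_neg ha]
    by_cases hb : (i, j) = (3, 0)
    · simp only [if_pos hb]
      exact F3_mul hth h1
    simp only [if_neg hb]
    by_cases hc : (i, j) = (1, 2)
    · simp only [if_pos hc]
      exact F3_mul hth h2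
    simp only [if_neg hc]
    by_cases hd : (i, j) = (2, 1)
    · simp only [if_pos hd]
      exact F3_neg (F3_mul hth h2)
    simp only [if_neg hd]
    exact F3_zero

theorem hasJet_cB9 (cC ε : ℝ) (th : ℝ → ℝ) (c₁ c₂ : ℝ → ℝ) (B : ℝ → Fin 6 → Fin 6 → ℝ) (jth : J2)
    (hth : HasJet th jth)
    (h1 : ∀ᶠ t in 𝓝 (0 : ℝ), HasDerivAt c₁ (d1 ε (th t) (B t)) t)
    (h2 : ∀ᶠ t in 𝓝 (0 : ℝ), HasDerivAt c₂ (d2 ε (th t) (B t)) t)
    (hB : ∀ᶠ t in 𝓝 (0 : ℝ), ∀ i j,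
      HasDerivAt (fun t => B t i j) (dB cC ε (th t) (c₁ t) (c₂ t) (B t) i j) t) :
    HasJet c₁ (j1 cC ε jth (c₁ 0) (c₂ 0) (B 0)) ∧ HasJet c₂ (j2 cC ε jth (c₁ 0) (c₂ 0) (B 0)) ∧
    ∀ i j, HasJet (fun t => B t i j) (jB cC ε jth (c₁ 0) (c₂ 0) (B 0) i j) := by
  have hth0 : th 0 = jth.a := hth.1
  have hth1 : HasJ1 th jth := F3_of hth
  have hc1 : HasJ1 c₁ ⟨c₁ 0, d1 ε jth.a (B 0), 0⟩ := by
    refine ⟨rfl, ?_⟩
    have h := h1.self_of_nhds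
    rw [hth0] at h
    exact h
  have hc2 : HasJ1 c₂ ⟨c₂ 0, d2 ε jth.a (B 0), 0⟩ := by
    refine ⟨rfl, ?_⟩
    have h := h2.self_of_nhds
    rw [hth0] at h
    exact h
  have hB1 : ∀ i j, HasJ1 (fun t => B t i j)
      ⟨B 0 i j, dB cC ε jth.a (c₁ 0) (c₂ 0) (B 0) i j, 0⟩ := by
    intro i j
    refine ⟨rfl, ?_⟩
    have h := hB.self_of_nhds i j
    rw [hth0] at h
    exact h
  refine ⟨⟨rfl, fun t => d1 ε (th t) (B t), h1, ?_, ?_⟩,
    ⟨rfl, fun t => d2 ε (th t) (B t), h2, ?_, ?_⟩, fun i j =>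
    ⟨rfl, fun t => dB cC ε (th t) (c₁ t) (c₂ t) (B t) i j, hB.mono fun t h => h i j, ?_, ?_⟩⟩
  · simp only [hth0, j1]
  · exact (F3_d1 ε hth1 hB1).2
  · simp only [hth0, j2]
  · exact (F3_d2 ε hth1 hB1).2
  · simp only [hth0, jB]
  · exact (F3_dB cC ε hth1 hc1 hc2 hB1 i j).2

end Pool.Agent.Helper81.M9
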