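import Pool.Agent.Helper81.M9.Frame
import Pool.Agent.Helper46.M8.Ns

/-!
# M9, piece F4
-/

open Filter Metric Module Set
open scoped Topology ContDiff Matrix Matrix.Norms.Elementwise ComplexConjugate

set_option maxSynthPendingDepth 3

namespace Pool.Agent.Helper81.M9
open Pool.Agent.Helper20.PC Pool.Agent.Helper20.HP Pool.Agent.Helper20.M8 Pool.Agent.Helper20.MB
open Pool.Agent.Helper46.M8

/-! ### F4 : jets of the regular forms -/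

private lemma F4_smul (r : ℝ) {f : ℝ → ℝ} {j : J2} (hf : HasJet f j) :
    HasJet (fun t => r • f t) (r • j) := by
  simpa using hf.smul r

private lemma F4_neg {f : ℝ → ℝ} {j : J2} (hf : HasJet f j) :
    HasJet (fun t => - f t) (- j) := by
  have h := F4_smul (-1) hf
  simpa using h

private lemma F4_sq {f : ℝ → ℝ} {j : J2} (hf : HasJet f j) :
    HasJet (fun t => f t ^ 2) (j ^ 2) := by
  simpa [sq] using hf.mul hf

private lemma F4_num (n : ℕ) [n.AtLeastTwo] :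
    HasJet (fun _ => (OfNat.ofNat n : ℝ)) (OfNat.ofNat n : J2) := by
  have h := HasJet.const ((n : ℕ) : ℝ)
  have e : (J2.C ((n : ℕ) : ℝ)) = (OfNat.ofNat n : J2) := map_natCast J2.C n
  rw [e] at h
  exact h

private lemma F4_zero : HasJet (fun _ => (0 : ℝ)) 0 := by
  have h := HasJet.const 0
  rwa [map_zero] at h

private lemma F4_sum {ι : Type*} (s : Finset ι) {f : ι → ℝ → ℝ} {j : ι → J2}
    (h : ∀ i, HasJet (f i) (j i)) : HasJet (fun t => ∑ i ∈ s, f i t) (∑ i ∈ s, j i) := by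
  classical
  induction s using Finset.induction_on with
  | empty => simpa using F4_zero
  | insert a s ha ih =>
    simp only [Finset.sum_insert ha]
    exact (h a).add ih

private lemma F4_xc {m : ℝ → Fin 8 → ℝ} {jm : Fin 8 → J2}
    (h : ∀ i, HasJet (fun t => m t i) (jm i)) (i : Fin 8) :
    HasJet (fun t => xc (m t) i) (xc jm i) := by
  unfold xc
  by_cases hi : i = 7
  · simp only [if_pos hi]
    exact F4_smul _ (h 7)
  · simp only [if_neg hi]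
    exact h i

private lemma F4_Fx {x : ℝ → Fin 8 → ℝ} {jx : Fin 8 → J2}
    (h : ∀ i, HasJet (fun t => x t i) (jx i)) :
    HasJet (fun t => Fx (x t)) (Fx jx) := by
  unfold Fx
  repeat' first
    | with_reducible exact h _
    | with_reducible exact F4_num _
    | with_reducible refine F4_sq ?_
    | with_reducible refine HasJet.sub ?_ ?_
    | with_reducible refine HasJet.add ?_ ?_
    | with_reducible refine HasJet.mul ?_ ?_

private lemma F4_qv (cC : ℝ) {B : ℝ → Fin 6 → Fin 6 → ℝ} {jB' : Fin 6 → Fin 6 → J2}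
    (h6 : ∀ i j, HasJet (fun t => B t i j) (jB' i j)) (i : Fin 4) :
    HasJet (fun t => qv cC (B t) i) (qv cC jB' i) := by
  fin_cases i
  · exact F4_zero
  · exact F4_smul _ ((F4_smul _ (h6 0 3)).sub (F4_smul _ (h6 1 2)))
  · exact (F4_smul _ (h6 0 4)).add (F4_smul _ (h6 1 5))
  · exact (F4_smul _ (h6 0 5)).sub (F4_smul _ (h6 1 4))

private lemma F4_bb (cC : ℝ) {B : ℝ → Fin 6 → Fin 6 → ℝ} {jB' : Fin 6 → Fin 6 → J2}
    (h6 : ∀ i j, HasJet (fun t => B t i j) (jB' i j)) {r : ℝ → Fin 4 → Fin 4 → ℝ}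
    {jr : Fin 4 → Fin 4 → J2} (h : ∀ i j, HasJet (fun t => r t i j) (jr i j)) :
    HasJet (fun t => bb cC (B t) (r t)) (bb cC jB' jr) := by
  unfold bb
  exact F4_smul _ (F4_sum _ fun k => F4_sum _ fun l => F4_smul _ ((h6 _ _).mul (h k l)))

private lemma F4_con (cC : ℝ) {B : ℝ → Fin 6 → Fin 6 → ℝ} {jB' : Fin 6 → Fin 6 → J2}
    (h6 : ∀ i j, HasJet (fun t => B t i j) (jB' i j)) {r : ℝ → Fin 6 → Fin 6 → ℝ}
    {jr : Fin 6 → Fin 6 → J2} (h : ∀ i j, HasJet (fun t => r t i j) (jr i j)) :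
    HasJet (fun t => con cC (B t) (r t)) (con cC jB' jr) := by
  unfold con
  exact F4_smul _ (F4_sum _ fun k => F4_sum _ fun l => F4_smul _ ((h6 _ _).mul (h k l)))

private lemma F4_omb (cC : ℝ) {B : ℝ → Fin 6 → Fin 6 → ℝ} {jB' : Fin 6 → Fin 6 → J2}
    (h6 : ∀ i j, HasJet (fun t => B t i j) (jB' i j)) :
    HasJet (fun t => omb cC (B t)) (omb cC jB') := by
  unfold omb
  exact (F4_smul _ (h6 2 3)).add (h6 4 5)

private lemma F4_me (cC ε : ℝ) {μ : ℝ → Fin 4 → Fin 8 → ℝ} {c₁ : ℝ → ℝ}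
    {B : ℝ → Fin 6 → Fin 6 → ℝ} {jμ : Fin 4 → Fin 8 → J2} {jc₁ : J2}
    {jB' : Fin 6 → Fin 6 → J2} (h1 : ∀ j i, HasJet (fun t => μ t j i) (jμ j i))
    (h4 : HasJet c₁ jc₁) (h6 : ∀ i j, HasJet (fun t => B t i j) (jB' i j)) (i : Fin 8) :
    HasJet (fun t => me cC ε (μ t) (c₁ t) (B t) i) (me cC ε jμ jc₁ jB' i) := by
  unfold me
  exact (F4_smul _ (h4.mul (h1 0 i))).add (F4_smul _ (((F4_smul _ ((h6 0 3).mul (h1 1 i))).add
    ((h6 0 4).mul (h1 2 i))).add ((h6 0 5).mul (h1 3 i))))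

private lemma F4_mf (cC ε : ℝ) {μ : ℝ → Fin 4 → Fin 8 → ℝ} {c₂ : ℝ → ℝ}
    {B : ℝ → Fin 6 → Fin 6 → ℝ} {jμ : Fin 4 → Fin 8 → J2} {jc₂ : J2}
    {jB' : Fin 6 → Fin 6 → J2} (h1 : ∀ j i, HasJet (fun t => μ t j i) (jμ j i))
    (h5 : HasJet c₂ jc₂) (h6 : ∀ i j, HasJet (fun t => B t i j) (jB' i j)) (i : Fin 8) :
    HasJet (fun t => mf cC ε (μ t) (c₂ t) (B t) i) (mf cC ε jμ jc₂ jB' i) := by
  unfold mf
  exact (F4_smul _ (h5.mul (h1 0 i))).add (F4_smul _ (((F4_neg (F4_smul _ ((h6 1 2).mul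
    (h1 1 i)))).add ((h6 1 5).mul (h1 2 i))).sub ((h6 1 4).mul (h1 3 i))))

theorem hasJet_OG9 (cC : ℝ) {th Z : ℝ → ℝ} {ρ : ℝ → Fin 6 → Fin 6 → ℝ} {c₁ c₂ : ℝ → ℝ}
    {B : ℝ → Fin 6 → Fin 6 → ℝ} {jth jZ : J2} {jρ : Fin 6 → Fin 6 → J2} {jc₁ jc₂ : J2}
    {jB' : Fin 6 → Fin 6 → J2} (h1 : HasJet th jth) (h2 : HasJet Z jZ)
    (h3 : ∀ i j, HasJet (fun t => ρ t i j) (jρ i j)) (h4 : HasJet c₁ jc₁) (h5 : HasJet c₂ jc₂)
    (h6 : ∀ i j, HasJet (fun t => B t i j) (jB' i j)) :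
    HasJet (fun t => OG9 cC (th t) (Z t) (ρ t) (c₁ t) (c₂ t) (B t))
      (OG9 cC jth jZ jρ jc₁ jc₂ jB') := by
  unfold OG9
  exact (F4_smul _ (((F4_smul _ h4).add (F4_smul _ h5)).mul (h1.mul h2))).add
    (F4_con cC h6 h3)

theorem hasJet_SG9 (cC ε lam : ℝ) {μ : ℝ → Fin 4 → Fin 8 → ℝ} {H : ℝ → Fin 4 → Fin 4 → ℝ}
    {bB : ℝ → Fin 4 → Fin 4 → Fin 4 → ℝ} {c₁ c₂ : ℝ → ℝ} {B : ℝ → Fin 6 → Fin 6 → ℝ}
    {jμ : Fin 4 → Fin 8 → J2} {jH : Fin 4 → Fin 4 → J2} {jbB : Fin 4 → Fin 4 → Fin 4 → J2}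
    {jc₁ jc₂ : J2} {jB' : Fin 6 → Fin 6 → J2} (h1 : ∀ j i, HasJet (fun t => μ t j i) (jμ j i))
    (h2 : ∀ i j, HasJet (fun t => H t i j) (jH i j))
    (h3 : ∀ i k l, HasJet (fun t => bB t i k l) (jbB i k l)) (h4 : HasJet c₁ jc₁)
    (h5 : HasJet c₂ jc₂) (h6 : ∀ i j, HasJet (fun t => B t i j) (jB' i j)) :
    HasJet (fun t => SG9 cC ε lam (μ t) (H t) (bB t) (c₁ t) (c₂ t) (B t))
      (SG9 cC ε lam jμ jH jbB jc₁ jc₂ jB') := by
  unfold SG9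
  have hq := F4_qv cC h6
  have ho := F4_omb cC h6
  have he := F4_me cC ε h1 h4 h6
  have hf := F4_mf cC ε h1 h5 h6
  refine HasJet.add (HasJet.sub (HasJet.add (HasJet.add (HasJet.sub (HasJet.add (HasJet.sub
    (HasJet.sub ?_ ?_) ?_) ?_) ?_) ?_) ?_) ?_) ?_
  · exact F4_smul _ (F4_sum _ fun i => (hq i).mul (F4_bb cC h6 (h3 i)))
  · exact F4_sum _ fun i => F4_sum _ fun j => ((hq i).mul (hq j)).mul (h2 i j)
  · exact F4_smul _ (((F4_smul _ (F4_sq (h6 1 2))).add (F4_sq (h6 1 4))).add (F4_sq (h6 1 5)))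
  · exact F4_smul _ (F4_sq ho)
  · exact F4_smul _ (F4_sq (h6 0 1))
  · exact F4_smul _ ((h6 0 1).mul ho)
  · exact F4_smul _ ((he 6).mul ((F4_smul _ (h6 0 1)).add (F4_smul _ ho)))
  · exact F4_smul _ ((hf 6).mul ((F4_smul _ (h6 0 1)).add (F4_smul _ ho)))
  · exact F4_smul _ ((F4_Fx fun i => F4_xc he i).add (F4_Fx fun i => F4_xc hf i))

theorem hasJet_up (cC : ℝ) {H : ℝ → Fin 4 → Fin 4 → ℝ} {bB : ℝ → Fin 4 → Fin 4 → Fin 4 → ℝ}
    {B : ℝ → Fin 6 → Fin 6 → ℝ} {jH : Fin 4 → Fin 4 → J2} {jbB : Fin 4 → Fin 4 → Fin 4 → J2}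
    {jB' : Fin 6 → Fin 6 → J2} (h2 : ∀ i j, HasJet (fun t => H t i j) (jH i j))
    (h3 : ∀ i k l, HasJet (fun t => bB t i k l) (jbB i k l))
    (h6 : ∀ i j, HasJet (fun t => B t i j) (jB' i j)) :
    HasJet (fun t => up cC (H t) (bB t) (B t)) (up cC jH jbB jB') := by
  unfold up
  exact (F4_bb cC h6 (h3 0)).sub (F4_sum _ fun j => (F4_qv cC h6 j).mul (h2 0 j))

theorem hasJet_td (cC ε : ℝ) {th : ℝ → ℝ} {B : ℝ → Fin 6 → Fin 6 → ℝ} {jth : J2}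
    {jB' : Fin 6 → Fin 6 → J2} (h1 : HasJet th jth)
    (h6 : ∀ i j, HasJet (fun t => B t i j) (jB' i j)) :
    HasJet (fun t => td cC ε (th t) (B t)) (td cC ε jth jB') := by
  unfold td
  exact F4_smul _ (h1.mul (F4_qv cC h6 1))

end Pool.Agent.Helper81.M9
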