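import Pool.Agent.Helper81.M9.Basic
import Pool.Agent.Helper46.M8.St.A4b
import Pool.Agent.Helper46.M8.St.A7
import Pool.Agent.Helper46.M8.Ns

/-!
# M9, piece A2
-/

open Filter Metric Module Set
open scoped Topology ContDiff Matrix Matrix.Norms.Elementwise ComplexConjugate

set_option maxSynthPendingDepth 3

namespace Pool.Agent.Helper81.M9
open Pool.Agent.Helper20.PC Pool.Agent.Helper20.HP Pool.Agent.Helper20.M8 Pool.Agent.Helper20.MB
open Pool.Agent.Helper46.M8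

/-! ### A2 : calculus of the Killing fields -/
theorem hasFDerivAt_Kf (U : Mat) (i : Fin 8) (z : V) : HasFDerivAt (Kf U i) (DK U i z) z := by
  have h := (A7_has (Uᴴ * Bs i * U) z).differentiableAt.hasFDerivAt
  exact h

theorem contDiff_DK (i : Fin 8) : ContDiff ℝ ∞ (fun q : Pm × V => DK q.1.1 i q.2) := by
  have h1 : ContDiff ℝ ∞ (Function.uncurry fun (q : Pm × V) (z : V) => Kf q.1.1 i z) :=
    (contDiff_Kf i).comp ((contDiff_fst.comp contDiff_fst).prodMk contDiff_snd)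
  exact ContDiff.fderiv h1 contDiff_snd (by simp)

private theorem A2_slice (U : Mat) : ContDiff ℝ ∞ (fun z : V => (((U, 0, 0), z) : Pm × V)) :=
  contDiff_const.prodMk contDiff_id

private theorem A2_Kf (U : Mat) (i : Fin 8) : ContDiff ℝ ∞ ((fun q : Pm × V => Kf q.1.1 i q.2) ∘
      (fun z : V => (((U, 0, 0), z) : Pm × V))) := (contDiff_Kf i).comp (A2_slice U)

private theorem A2_DK (U : Mat) (i : Fin 8) : ContDiff ℝ ∞ ((fun q : Pm × V => DK q.1.1 i q.2) ∘
      (fun z : V => (((U, 0, 0), z) : Pm × V))) := (contDiff_DK i).comp (A2_slice U)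

theorem hasFDerivAt_DK (U : Mat) (i : Fin 8) (z : V) :
    HasFDerivAt (DK U i) (fderiv ℝ (DK U i) z) z := by
  have h1 : ContDiff ℝ ∞ (DK U i) := A2_DK U i
  exact (h1.differentiable (by simp) z).hasFDerivAt

theorem DK_iL (U : Mat) (i : Fin 8) (z v : V) : DK U i z (iL v) = iL (DK U i z v) := by
  funext j
  have h1 : DK U i z (iL v) j = _ := A7_fderiv (Uᴴ * Bs i * U) z (iL v) j
  have h2 : DK U i z v j = _ := A7_fderiv (Uᴴ * Bs i * U) z v j
  rw [iL_apply (DK U i z v), Pi.smul_apply, h1, h2]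
  simp only [iL_apply, Pi.smul_apply, smul_eq_mul]
  ring

theorem D2K_symm (U : Mat) (i : Fin 8) (z v w : V) :
    fderiv ℝ (DK U i) z v w = fderiv ℝ (DK U i) z w v := by
  have h1 : ContDiff ℝ ∞ (Kf U i) := A2_Kf U i
  have h2 : minSmoothness ℝ 2 ≤ (∞ : WithTop ℕ∞) := by
    rw [minSmoothness_of_isRCLikeNormedField]
    have : ((2 : ℕ∞) : WithTop ℕ∞) ≤ ((⊤ : ℕ∞) : WithTop ℕ∞) := WithTop.coe_le_coe.2 le_top
    exact this
  exact (h1.contDiffAt.isSymmSndFDerivAt h2) v w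

theorem Kf_bracket {U : Mat} (hU : Uᴴ * U = 1) (i j : Fin 8) (z : V) :
    DK U i z (Kf U j z) - DK U j z (Kf U i z)
      = KA (Uᴴ * (Bs i * Bs j - Bs j * Bs i) * U) z := by
  have hUU : U * Uᴴ = 1 := mul_eq_one_comm.1 hU
  have e1 : Uᴴ * (Bs i * Bs j - Bs j * Bs i) * U =
      (Uᴴ * Bs i * U) * (Uᴴ * Bs j * U) - (Uᴴ * Bs j * U) * (Uᴴ * Bs i * U) := by
    have e2 : ∀ A B : Mat, (Uᴴ * A * U) * (Uᴴ * B * U) = Uᴴ * (A * B) * U := by
      intro A B
      calc (Uᴴ * A * U) * (Uᴴ * B * U) = Uᴴ * A * (U * Uᴴ) * B * U := by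
            simp only [Matrix.mul_assoc]
        _ = Uᴴ * (A * B) * U := by rw [hUU, Matrix.mul_one]; simp only [Matrix.mul_assoc]
    rw [e2, e2, Matrix.mul_sub, Matrix.sub_mul]
  rw [e1]
  exact KA_bracket (Uᴴ * Bs i * U) (Uᴴ * Bs j * U) z

end Pool.Agent.Helper81.M9
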