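import Pool.Agent.Helper81.M9.Defs2
import Pool.Agent.Helper46.M8.St.C1
import Pool.Agent.Helper81.M9.St.A2
import Pool.Agent.Helper81.M9.St.A3
import Pool.Agent.Helper81.M9.St.B1
import Pool.Agent.Helper46.M8.Ns

/-!
# M9, piece E1
-/

open Filter Metric Module Set
open scoped Topology ContDiff Matrix Matrix.Norms.Elementwise ComplexConjugate

set_option maxSynthPendingDepth 3

namespace Pool.Agent.Helper81.M9
open Pool.Agent.Helper20.PC Pool.Agent.Helper20.HP Pool.Agent.Helper20.M8 Pool.Agent.Helper20.MB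
open Pool.Agent.Helper46.M8

/-! ### E1 : the Casimir flow preserves the momenta -/

private lemma E1_neg (A : Mat) (z : V) : KA (-A) z = - KA A z := by
  have h := KA_smul (-1) A z
  simpa using h

/-- `p(DK_i V) = p(DK_a K_i)` for the vector `V` dual to the covector `p`. -/
private lemma E1_key {U : Mat} (hU : Uᴴ * U = 1) (i : Fin 8) (z : V) (p : V →L[ℝ] ℝ) :
    p (DK U i z (∑ l, (C0 l l * p (Kf U l z)) • Kf U l z))
      = ∑ l, C0 l l * p (Kf U l z) * p (DK U l z (Kf U i z)) := by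
  have h1 := congrArg p (C0_inv U i z p)
  rw [map_sum, map_zero] at h1
  have h2 : ∀ l, p (DK U i z (Kf U l z)) = p (DK U l z (Kf U i z))
      - p (KA (Uᴴ * (Bs l * Bs i - Bs i * Bs l) * U) z) := by
    intro l
    have h3 := congrArg p (Kf_bracket hU l i z)
    rw [map_sub] at h3
    linarith
  rw [map_sum, map_sum]
  have h4 : ∀ l, p (DK U i z ((C0 l l * p (Kf U l z)) • Kf U l z))
      = C0 l l * p (Kf U l z) * p (DK U l z (Kf U i z))
        - 1/2 * p (C0 l l • (p (Kf U l z) • KA (Uᴴ * (Bs l * Bs i - Bs i * Bs l) * U) z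
      + p (KA (Uᴴ * (Bs l * Bs i - Bs i * Bs l) * U) z) • Kf U l z)) := by
    intro l
    rw [map_smul, map_smul, map_smul, map_add, map_smul, map_smul, h2]
    simp only [smul_eq_mul]
    ring
  rw [Finset.sum_congr rfl fun l _ => h4 l, Finset.sum_sub_distrib, ← Finset.mul_sum, h1]
  ring

private theorem E1_hm {U : Mat} {δ : ℝ} (hU : Uᴴ * U = 1) (hδ : |δ| ≤ 1/100) (z : V) :
    HasFDerivAt (hm U δ) (fderiv ℝ (hm U δ) z) z :=
  ((hm_metAt hU hδ z).smooth.differentiableAt (by norm_num)).hasFDerivAt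

/-- derivative of the cometric -/
private theorem E1_DCC (U : Mat) (δ : ℝ) (z : V) (ξ : V →L[ℝ] ℝ) :
    HasFDerivAt (fun z => CC U δ z ξ) (∑ i, ∑ j, ((Cm δ i j * ξ (Kf U i z)) • DK U j z
      + (Cm δ i j • (ξ ∘L DK U i z)).smulRight (Kf U j z))) z := by
  have h2 : (fun z => CC U δ z ξ) =
      fun z => ∑ i, ∑ j, (Cm δ i j * ξ (Kf U i z)) • Kf U j z := by
    funext z
    rw [CC_apply]
  rw [h2]
  refine HasFDerivAt.fun_sum fun j _ => ?_
  refine HasFDerivAt.fun_sum fun k _ => ?_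
  have a1 : HasFDerivAt (fun z => ξ (Kf U j z)) (ξ.comp (DK U j z)) z :=
    ξ.hasFDerivAt.comp z (hasFDerivAt_Kf U j z)
  exact (a1.const_mul (Cm δ j k)).smul (hasFDerivAt_Kf U k z)

theorem star_id {U : Mat} {δ : ℝ} (hU : Uᴴ * U = 1) (hδ : |δ| ≤ 1/100) (z w u : V) :
    hm U δ z (DKc U δ z w (hatL U δ z w)) u + fderiv ℝ (hm U δ) z (hatL U δ z w) w u
      = - hm U δ z w (DKa U δ z w u) := by
  set p : V →L[ℝ] ℝ := hm U δ z w with hp
  set v : V := hatL U δ z w with hv
  have hv' : v = ∑ l, (C0 l l * p (Kf U l z)) • Kf U l z := hatL_eq U δ z w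
  -- derivative of `CC z (hm z w) = w`
  have h1 : HasFDerivAt (fun z => CC U δ z (hm U δ z w)) (0 : V →L[ℝ] V) z := by
    have e : (fun z => CC U δ z (hm U δ z w)) = fun _ => w := funext fun z => CC_hm hU hδ z w
    rw [e]
    exact hasFDerivAt_const w z
  have h2 : HasFDerivAt (fun z => hm U δ z w) ((fderiv ℝ (hm U δ) z).flip w) z := by
    have := (E1_hm hU hδ z).clm_apply (hasFDerivAt_const w z)
    refine this.congr_fderiv ?_
    ext a b
    simp
  have hCd : DifferentiableAt ℝ (CC U δ) z := by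
    have h1 : ContDiffAt ℝ ∞ (fun q : Pm × V => CC q.1.1 q.1.2.1 q.2) (((U, δ, 0) : Pm), z) :=
      contDiff_CC.contDiffAt
    have h2 : ContDiffAt ℝ ∞ (fun z' : V => ((((U, δ, 0) : Pm), z') : Pm × V)) z :=
      contDiffAt_const.prodMk contDiffAt_id
    have h3 := h1.comp z h2
    exact h3.differentiableAt (by simp)
  have h3 := hCd.hasFDerivAt.clm_apply h2
  have h4 := h3.unique h1
  have h5 := congrArg (fun L : V →L[ℝ] V => L v) h4
  simp only [_root_.add_apply, ContinuousLinearMap.comp_apply, ContinuousLinearMap.flip_apply,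
    _root_.zero_apply] at h5
  -- the derivative of `CC`
  have h6 : fderiv ℝ (CC U δ) z v p = ∑ i, ∑ j, ((Cm δ i j * p (Kf U i z)) • DK U j z v
      + (Cm δ i j * p (DK U i z v)) • Kf U j z) := by
    have a1 := hCd.hasFDerivAt.clm_apply (hasFDerivAt_const p z)
    have a2 := congrArg (fun L : V →L[ℝ] V => L v) (a1.unique (E1_DCC U δ z p))
    simp only [_root_.add_apply, ContinuousLinearMap.comp_apply, ContinuousLinearMap.flip_apply,
      _root_.zero_apply, map_zero, zero_add, ContinuousLinearMap.sum_apply, _root_.smul_apply,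
      ContinuousLinearMap.smulRight_apply, smul_eq_mul] at a2
    exact a2
  have h7 : DKc U δ z w v = ∑ i, ∑ j, (Cm δ i j * p (Kf U i z)) • DK U j z v := by
    rw [Finset.sum_comm, DKc]
    simp only [ContinuousLinearMap.sum_apply, _root_.smul_apply, momL_apply]
    refine Finset.sum_congr rfl fun i _ => Finset.sum_congr rfl fun j _ => ?_
    rw [Cm_symm]
  have h8 : CC U δ z (p ∘L DKa U δ z w) = ∑ i, ∑ j, (Cm δ i j * p (DK U i z v)) • Kf U j z := by
    rw [CC_apply]
    refine Finset.sum_congr rfl fun i _ => Finset.sum_congr rfl fun j _ => ?_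
    congr 2
    rw [hv', E1_key hU i z p, ContinuousLinearMap.comp_apply, DKa]
    simp only [ContinuousLinearMap.sum_apply, _root_.smul_apply, momL_apply, map_sum, map_smul,
      smul_eq_mul]
    rfl
  have h9 : CC U δ z (hm U δ z (DKc U δ z w v) + fderiv ℝ (hm U δ) z v w)
      = CC U δ z (-(p ∘L DKa U δ z w)) := by
    rw [map_add, map_neg, CC_hm hU hδ, h8]
    have h10 : CC U δ z (fderiv ℝ (hm U δ) z v w) = - fderiv ℝ (CC U δ) z v p := by
      rw [eq_neg_iff_add_eq_zero]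
      exact h5
    rw [h10, h6, h7]
    simp only [Finset.sum_add_distrib]
    abel
  have h10 := congrArg (hm U δ z) h9
  rw [hm_CC hU hδ, hm_CC hU hδ] at h10
  have h11 := congrArg (fun L : V →L[ℝ] ℝ => L u) h10
  simpa using h11

theorem lie_C_mom {U : Mat} {δ : ℝ} (hU : Uᴴ * U = 1) (hδ : |δ| ≤ 1/100) (i : Fin 8) (s : V × V) :
    lie (XCt U δ) (fun s => momL U δ s.1 i s.2) s = 0 := by
  have h1 : HasFDerivAt (fun s : V × V => hm U δ s.1)
      ((fderiv ℝ (hm U δ) s.1).comp (ContinuousLinearMap.fst ℝ V V)) s :=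
    (E1_hm hU hδ s.1).comp s hasFDerivAt_fst
  have h3 : HasFDerivAt (fun s : V × V => Kf U i s.1)
      ((DK U i s.1).comp (ContinuousLinearMap.fst ℝ V V)) s :=
    (hasFDerivAt_Kf U i s.1).comp s hasFDerivAt_fst
  have h4 := (h1.clm_apply hasFDerivAt_snd).clm_apply h3
  have h5 : HasFDerivAt (fun s : V × V => momL U δ s.1 i s.2) _ s := h4
  unfold lie
  rw [h5.fderiv]
  have e := star_id hU hδ s.1 s.2 (Kf U i s.1)
  have e2 := E1_key hU i s.1 (hm U δ s.1 s.2)
  have e3 : hatL U δ s.1 s.2 = ∑ l, (C0 l l * hm U δ s.1 s.2 (Kf U l s.1)) • Kf U l s.1 :=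
    hatL_eq U δ s.1 s.2
  rw [← e3] at e2
  have e4 : hm U δ s.1 s.2 (DKa U δ s.1 s.2 (Kf U i s.1))
      = ∑ l, C0 l l * hm U δ s.1 s.2 (Kf U l s.1) * hm U δ s.1 s.2 (DK U l s.1 (Kf U i s.1)) := by
    rw [DKa]
    simp only [ContinuousLinearMap.sum_apply, _root_.smul_apply, momL_apply, map_sum, map_smul,
      smul_eq_mul]
  simp only [XCt, _root_.add_apply, ContinuousLinearMap.comp_apply,
    ContinuousLinearMap.flip_apply, ContinuousLinearMap.coe_fst', ContinuousLinearMap.coe_snd']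
  rw [e2, ← e4]
  linarith

theorem lie_C_hat {U : Mat} {δ : ℝ} (hU : Uᴴ * U = 1) (hδ : |δ| ≤ 1/100) (s : V × V) :
    lie (XCt U δ) (fun s => hatL U δ s.1 s.2) s = DKa U δ s.1 s.2 (hatL U δ s.1 s.2) := by
  have e : (fun s : V × V => hatL U δ s.1 s.2)
      = fun s => ∑ i, (C0 i i * momL U δ s.1 i s.2) • Kf U i s.1 :=
    funext fun s => hatL_eq U δ s.1 s.2
  have hm' : ∀ i, HasFDerivAt (fun s : V × V => momL U δ s.1 i s.2)
      (fderiv ℝ (fun s : V × V => momL U δ s.1 i s.2) s) s := by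
    intro i
    have h1 : HasFDerivAt (fun s : V × V => hm U δ s.1)
        ((fderiv ℝ (hm U δ) s.1).comp (ContinuousLinearMap.fst ℝ V V)) s :=
      (E1_hm hU hδ s.1).comp s hasFDerivAt_fst
    have h3 : HasFDerivAt (fun s : V × V => Kf U i s.1)
        ((DK U i s.1).comp (ContinuousLinearMap.fst ℝ V V)) s :=
      (hasFDerivAt_Kf U i s.1).comp s hasFDerivAt_fst
    have h4 := (h1.clm_apply hasFDerivAt_snd).clm_apply h3
    have h5 : HasFDerivAt (fun s : V × V => momL U δ s.1 i s.2) _ s := h4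
    exact h5.differentiableAt.hasFDerivAt
  have h3 : ∀ i, HasFDerivAt (fun s : V × V => Kf U i s.1)
      ((DK U i s.1).comp (ContinuousLinearMap.fst ℝ V V)) s := fun i =>
    (hasFDerivAt_Kf U i s.1).comp s hasFDerivAt_fst
  have h4 : HasFDerivAt (fun s : V × V => ∑ i, (C0 i i * momL U δ s.1 i s.2) • Kf U i s.1)
      (∑ i, ((C0 i i * momL U δ s.1 i s.2) • ((DK U i s.1).comp (ContinuousLinearMap.fst ℝ V V))
        + (C0 i i • fderiv ℝ (fun s : V × V => momL U δ s.1 i s.2) s).smulRight (Kf U i s.1))) s :=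
    HasFDerivAt.fun_sum fun i _ => ((hm' i).const_mul (C0 i i)).smul (h3 i)
  have h5 : ∀ i, fderiv ℝ (fun s : V × V => momL U δ s.1 i s.2) s (XCt U δ s) = 0 :=
    fun i => lie_C_mom hU hδ i s
  rw [e, lie, h4.fderiv, DKa]
  simp only [ContinuousLinearMap.sum_apply, _root_.add_apply, _root_.smul_apply,
    ContinuousLinearMap.smulRight_apply, h5, smul_eq_mul, mul_zero, zero_smul, add_zero,
    ContinuousLinearMap.comp_apply, ContinuousLinearMap.coe_fst']
  rfl

end Pool.Agent.Helper81.M9
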