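import Pool.Agent.Helper46.M8.St.E1
import Pool.Agent.Helper81.M9.St.C1
import Pool.Agent.Helper81.M9.St.D2
import Pool.Agent.Helper81.M9.St.E1
import Pool.Agent.Helper46.M8.Ns

/-!
# M9, piece E2
-/

open Filter Metric Module Set
open scoped Topology ContDiff Matrix Matrix.Norms.Elementwise ComplexConjugate

set_option maxSynthPendingDepth 3

namespace Pool.Agent.Helper81.M9
open Pool.Agent.Helper20.PC Pool.Agent.Helper20.HP Pool.Agent.Helper20.M8 Pool.Agent.Helper20.MB
open Pool.Agent.Helper46.M8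

private theorem E2_slice (U : Mat) (δ : ℝ) (z : V) :
    ContDiffAt ℝ ∞ (fun z : V => (((U, δ, 0), z) : Pm × V)) z :=
  contDiffAt_const.prodMk contDiffAt_id

private theorem E2_hm {U : Mat} {δ : ℝ} (hU : Uᴴ * U = 1) (hδ : |δ| ≤ 1/100) (z : V) :
    DifferentiableAt ℝ (hm U δ) z := by
  have h1 : ContDiffAt ℝ ∞ (fun q : Pm × V => hm q.1.1 q.1.2.1 q.2) ((U, δ, 0), z) :=
    contDiffAt_hm (q := ((U, δ, 0), z)) hU hδ
  have h3 : ContDiffAt ℝ ∞ ((fun q : Pm × V => hm q.1.1 q.1.2.1 q.2) ∘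
      (fun z : V => (((U, δ, 0), z) : Pm × V))) z := h1.comp z (E2_slice U δ z)
  exact h3.differentiableAt (by simp)

private theorem E2_hat {U : Mat} {δ : ℝ} (hU : Uᴴ * U = 1) (hδ : |δ| ≤ 1/100) (z : V) :
    DifferentiableAt ℝ (hatL U δ) z := by
  have h1 : ContDiffAt ℝ ∞ (fun q : Pm × V => hatL q.1.1 q.1.2.1 q.2) ((U, δ, 0), z) :=
    contDiffAt_hatL (q := ((U, δ, 0), z)) hU hδ
  have h3 : ContDiffAt ℝ ∞ ((fun q : Pm × V => hatL q.1.1 q.1.2.1 q.2) ∘
      (fun z : V => (((U, δ, 0), z) : Pm × V))) z := h1.comp z (E2_slice U δ z)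
  exact h3.differentiableAt (by simp)

private theorem E2_dmom {U : Mat} {δ : ℝ} (hU : Uᴴ * U = 1) (hδ : |δ| ≤ 1/100) (i : Fin 8)
    (s : V × V) : DifferentiableAt ℝ (fun s : V × V => momL U δ s.1 i s.2) s := by
  have h1 : DifferentiableAt ℝ (fun s : V × V => hm U δ s.1) s :=
    (E2_hm hU hδ s.1).comp s differentiableAt_fst
  have h2 : DifferentiableAt ℝ (fun s : V × V => Kf U i s.1) s :=
    (hasFDerivAt_Kf U i s.1).differentiableAt.comp s differentiableAt_fst
  exact (h1.clm_apply differentiableAt_snd).clm_apply h2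

private theorem E2_dhat {U : Mat} {δ : ℝ} (hU : Uᴴ * U = 1) (hδ : |δ| ≤ 1/100)
    (s : V × V) : DifferentiableAt ℝ (fun s : V × V => hatL U δ s.1 s.2) s := by
  have h1 : DifferentiableAt ℝ (fun s : V × V => hatL U δ s.1) s :=
    (E2_hat hU hδ s.1).comp s differentiableAt_fst
  exact h1.clm_apply differentiableAt_snd

private theorem E2_dK (U : Mat) (i : Fin 8) (s : V × V) :
    HasFDerivAt (fun s : V × V => Kf U i s.1) ((DK U i s.1).comp (ContinuousLinearMap.fst ℝ V V)) s :=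
  (hasFDerivAt_Kf U i s.1).comp s hasFDerivAt_fst

private theorem E2_dDK (U : Mat) (i : Fin 8) (s : V × V) :
    HasFDerivAt (fun s : V × V => DK U i s.1)
      ((fderiv ℝ (DK U i) s.1).comp (ContinuousLinearMap.fst ℝ V V)) s :=
  (hasFDerivAt_DK U i s.1).comp s hasFDerivAt_fst

private theorem E2_lieK (X : V × V → V × V) (U : Mat) (i : Fin 8) (s : V × V) :
    lie X (fun s : V × V => Kf U i s.1) s = DK U i s.1 (X s).1 := by
  unfold lie; rw [(E2_dK U i s).fderiv]; rfl

private theorem E2_lieDK (X : V × V → V × V) (U : Mat) (i : Fin 8) (s : V × V) :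
    lie X (fun s : V × V => DK U i s.1) s = fderiv ℝ (DK U i) s.1 (X s).1 := by
  unfold lie; rw [(E2_dDK U i s).fderiv]; rfl

private theorem E2_lie_snd (X : V × V → V × V) (s : V × V) :
    lie X (fun s : V × V => s.2) s = (X s).2 := by
  unfold lie
  have : HasFDerivAt (fun s : V × V => s.2) (ContinuousLinearMap.snd ℝ V V) s := hasFDerivAt_snd
  rw [this.fderiv]; rfl

private theorem E2_lie_smul (X : V × V → V × V) {f : V × V → ℝ} {g : V × V → V} {s : V × V}
    (hf : DifferentiableAt ℝ f s) (hg : DifferentiableAt ℝ g s) :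
    lie X (fun s => f s • g s) s = lie X f s • g s + f s • lie X g s := by
  unfold lie
  have h : HasFDerivAt (fun s => f s • g s) _ s := hf.hasFDerivAt.smul hg.hasFDerivAt
  rw [h.fderiv]
  simp only [_root_.add_apply, _root_.smul_apply, ContinuousLinearMap.smulRight_apply]
  abel

private theorem E2_lie_app (X : V × V → V × V) {G : V × V → V →L[ℝ] V} {g : V × V → V} {s : V × V}
    (hG : DifferentiableAt ℝ G s) (hg : DifferentiableAt ℝ g s) :
    lie X (fun s => G s (g s)) s = lie X G s (g s) + G s (lie X g s) := by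
  unfold lie
  have h : HasFDerivAt (fun s => G s (g s)) _ s := hG.hasFDerivAt.clm_apply hg.hasFDerivAt
  rw [h.fderiv]
  simp only [_root_.add_apply, ContinuousLinearMap.comp_apply, ContinuousLinearMap.flip_apply]
  abel

private theorem E2_lie_cmul (X : V × V → V × V) (c : ℝ) {f : V × V → ℝ} {s : V × V}
    (hf : DifferentiableAt ℝ f s) : lie X (fun s => c * f s) s = c * lie X f s := by
  unfold lie
  rw [(hf.hasFDerivAt.const_mul c).fderiv]
  rfl

private theorem E2_lie_sum (X : V × V → V × V) {F : Fin 8 → Fin 8 → V × V → V} {s : V × V}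
    (hF : ∀ i j, DifferentiableAt ℝ (F i j) s) :
    lie X (fun s => ∑ i, ∑ j, F i j s) s = ∑ i, ∑ j, lie X (F i j) s := by
  unfold lie
  have h : HasFDerivAt (fun s => ∑ i, ∑ j, F i j s) (∑ i, ∑ j, fderiv ℝ (F i j) s) s :=
    HasFDerivAt.fun_sum fun i _ => HasFDerivAt.fun_sum fun j _ => (hF i j).hasFDerivAt
  rw [h.fderiv]
  simp only [sum_apply]

/-- `w = ∑ C_ij m_j K_i`. -/
private theorem E2_sum {U : Mat} {δ : ℝ} (hU : Uᴴ * U = 1) (hδ : |δ| ≤ 1/100) (z w : V) :
    ∑ i, ∑ j, (Cm δ i j * momL U δ z j w) • Kf U i z = w := by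
  conv_rhs => rw [← sum_mom hU hδ z w]
  rw [Finset.sum_comm]
  refine Finset.sum_congr rfl fun j _ => Finset.sum_congr rfl fun i _ => ?_
  rw [Cm_symm δ i j]

/-- the derivative of the momenta in terms of the momenta. -/
private noncomputable def E2_E (δ : ℝ) (i : Fin 8) (m : Fin 8 → ℝ) : ℝ :=
  ∑ j, ∑ k, Cm δ j k * (m k * ∑ l, (A1_cs i j l : ℝ) * m l)

private theorem E2_mom_H {U : Mat} {δ : ℝ} (hU : Uᴴ * U = 1) (hδ : |δ| ≤ 1/100) (i : Fin 8)
    (s : V × V) :
    lie (XHt U δ) (fun s => momL U δ s.1 i s.2) s = E2_E δ i (fun k => momL U δ s.1 k s.2) := by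
  rw [lie_mom_H hU hδ i s]
  unfold E2_E
  refine Finset.sum_congr rfl fun j _ => Finset.sum_congr rfl fun k _ => ?_
  rw [mul_assoc]
  congr 2
  have h := congrArg (E1_momMat U δ s.1 s.2) (A1_br i j)
  rw [map_sum] at h
  simp only [map_smul, smul_eq_mul] at h
  exact h

/-- differentiable with vanishing derivative in the direction `v`. -/
private def E2_Z (s v : V × V) (f : V × V → ℝ) : Prop :=
  DifferentiableAt ℝ f s ∧ fderiv ℝ f s v = 0

private theorem E2_Z_sum {s v : V × V} {f : Fin 8 → V × V → ℝ} (h : ∀ i, E2_Z s v (f i)) :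
    E2_Z s v (fun s => ∑ i, f i s) := by
  have h1 : HasFDerivAt (fun s => ∑ i, f i s) (∑ i, fderiv ℝ (f i) s) s :=
    HasFDerivAt.fun_sum fun i _ => (h i).1.hasFDerivAt
  refine ⟨h1.differentiableAt, ?_⟩
  rw [h1.fderiv, sum_apply]
  exact Finset.sum_eq_zero fun i _ => (h i).2

private theorem E2_Z_cmul {s v : V × V} {f : V × V → ℝ} (c : ℝ) (h : E2_Z s v f) :
    E2_Z s v (fun s => c * f s) := by
  have h1 : HasFDerivAt (fun s => c * f s) (c • fderiv ℝ f s) s := h.1.hasFDerivAt.const_mul c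
  refine ⟨h1.differentiableAt, ?_⟩
  rw [h1.fderiv, _root_.smul_apply, h.2, smul_zero]

private theorem E2_Z_mul {s v : V × V} {f g : V × V → ℝ} (h : E2_Z s v f) (h' : E2_Z s v g) :
    E2_Z s v (fun s => f s * g s) := by
  have h1 : HasFDerivAt (fun s => f s * g s) (f s • fderiv ℝ g s + g s • fderiv ℝ f s) s :=
    h.1.hasFDerivAt.mul h'.1.hasFDerivAt
  refine ⟨h1.differentiableAt, ?_⟩
  rw [h1.fderiv, _root_.add_apply, _root_.smul_apply, _root_.smul_apply, h.2, h'.2, smul_zero,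
    smul_zero, add_zero]

/-- functions of the momenta are constant along the Casimir flow. -/
private theorem E2_E_C {U : Mat} {δ : ℝ} (hU : Uᴴ * U = 1) (hδ : |δ| ≤ 1/100) (i : Fin 8)
    (s : V × V) :
    E2_Z s (XCt U δ s) (fun s : V × V => E2_E δ i (fun k => momL U δ s.1 k s.2)) := by
  have hm : ∀ k, E2_Z s (XCt U δ s) (fun s : V × V => momL U δ s.1 k s.2) := fun k =>
    ⟨E2_dmom hU hδ k s, lie_C_mom hU hδ k s⟩
  exact E2_Z_sum fun j => E2_Z_sum fun k => E2_Z_cmul _ (E2_Z_mul (hm k)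
    (E2_Z_sum fun l => E2_Z_cmul _ (hm l)))

private theorem E2_zero {U : Mat} {δ : ℝ} (hU : Uᴴ * U = 1) (hδ : |δ| ≤ 1/100) (i : Fin 8)
    (s : V × V) :
    lie (XCt U δ) (fun s : V × V => E2_E δ i (fun k => momL U δ s.1 k s.2)) s = 0 :=
  (E2_E_C hU hδ i s).2

/-! ### E2 : the Casimir flow commutes with the geodesic flow -/
theorem comm_HC {U : Mat} {δ : ℝ} (hU : Uᴴ * U = 1) (hδ : |δ| ≤ 1/100) (s : V × V) :
    lie (XHt U δ) (fun s => DKc U δ s.1 s.2 (hatL U δ s.1 s.2)) s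
      = lie (XCt U δ) (fun s => - Gam (hm U δ) s.1 s.2 s.2) s := by
  -- smoothness
  have dm : ∀ (i j : Fin 8) (s : V × V),
      DifferentiableAt ℝ (fun s : V × V => Cm δ i j * momL U δ s.1 j s.2) s := fun i j s =>
    (E2_dmom hU hδ j s).const_mul _
  have dE : ∀ (i j : Fin 8) (s : V × V),
      DifferentiableAt ℝ (fun s : V × V => Cm δ i j * E2_E δ j (fun k => momL U δ s.1 k s.2)) s :=
    fun i j s => (E2_E_C hU hδ j s).1.const_mul _
  -- left hand side
  have hL : (fun s : V × V => DKc U δ s.1 s.2 (hatL U δ s.1 s.2))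
      = fun s => ∑ i, ∑ j, (Cm δ i j * momL U δ s.1 j s.2) • DK U i s.1 (hatL U δ s.1 s.2) := by
    funext s
    simp only [DKc, sum_apply, _root_.smul_apply]
  have dV : ∀ (i : Fin 8), DifferentiableAt ℝ (fun s : V × V => DK U i s.1 (hatL U δ s.1 s.2)) s :=
    fun i => (E2_dDK U i s).differentiableAt.clm_apply (E2_dhat hU hδ s)
  rw [hL, E2_lie_sum (F := fun i j s => (Cm δ i j * momL U δ s.1 j s.2) •
    DK U i s.1 (hatL U δ s.1 s.2)) _ fun i j => (dm i j s).smul (dV i)]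
  -- right hand side
  have hR : (fun s : V × V => - Gam (hm U δ) s.1 s.2 s.2)
      = fun s => ∑ i, ∑ j, ((Cm δ i j * E2_E δ j (fun k => momL U δ s.1 k s.2)) • Kf U i s.1
          + (Cm δ i j * momL U δ s.1 j s.2) • DK U i s.1 s.2) := by
    funext s
    have e1 : - Gam (hm U δ) s.1 s.2 s.2 = lie (XHt U δ) (fun s : V × V => s.2) s := by
      rw [E2_lie_snd]; rfl
    have e2 : (fun s : V × V => s.2)
        = fun s => ∑ i, ∑ j, (Cm δ i j * momL U δ s.1 j s.2) • Kf U i s.1 := by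
      funext s
      exact (E2_sum hU hδ s.1 s.2).symm
    rw [e1, e2, E2_lie_sum (F := fun i j s => (Cm δ i j * momL U δ s.1 j s.2) • Kf U i s.1) _
      fun i j => (dm i j s).smul (E2_dK U i s).differentiableAt]
    refine Finset.sum_congr rfl fun i _ => Finset.sum_congr rfl fun j _ => ?_
    rw [E2_lie_smul _ (dm i j s) (E2_dK U i s).differentiableAt, E2_lieK,
      E2_lie_cmul _ _ (E2_dmom hU hδ j s), E2_mom_H hU hδ]
    rfl
  have dW : ∀ (i : Fin 8), DifferentiableAt ℝ (fun s : V × V => DK U i s.1 s.2) s :=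
    fun i => (E2_dDK U i s).differentiableAt.clm_apply differentiableAt_snd
  rw [hR, E2_lie_sum (F := fun i j s =>
      (Cm δ i j * E2_E δ j (fun k => momL U δ s.1 k s.2)) • Kf U i s.1
          + (Cm δ i j * momL U δ s.1 j s.2) • DK U i s.1 s.2) _ fun i j =>
    ((dE i j s).smul (E2_dK U i s).differentiableAt).add ((dm i j s).smul (dW i))]
  refine Finset.sum_congr rfl fun i _ => Finset.sum_congr rfl fun j _ => ?_
  have hadd : lie (XCt U δ) (fun s : V × V =>
      (Cm δ i j * E2_E δ j (fun k => momL U δ s.1 k s.2)) • Kf U i s.1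
          + (Cm δ i j * momL U δ s.1 j s.2) • DK U i s.1 s.2) s
      = lie (XCt U δ) (fun s : V × V =>
          (Cm δ i j * E2_E δ j (fun k => momL U δ s.1 k s.2)) • Kf U i s.1) s
        + lie (XCt U δ) (fun s : V × V => (Cm δ i j * momL U δ s.1 j s.2) • DK U i s.1 s.2) s := by
    unfold lie
    have h : HasFDerivAt (fun s : V × V =>
      (Cm δ i j * E2_E δ j (fun k => momL U δ s.1 k s.2)) • Kf U i s.1
          + (Cm δ i j * momL U δ s.1 j s.2) • DK U i s.1 s.2) _ s :=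
      (((dE i j s).smul (E2_dK U i s).differentiableAt).hasFDerivAt).add
        (((dm i j s).smul (dW i)).hasFDerivAt)
    rw [h.fderiv]
    rfl
  rw [hadd, E2_lie_smul _ (dm i j s) (dV i), E2_lie_smul _ (dE i j s) (E2_dK U i s).differentiableAt,
    E2_lie_smul _ (dm i j s) (dW i), E2_lie_cmul _ _ (E2_dmom hU hδ j s), E2_mom_H hU hδ,
    E2_lie_cmul _ _ (E2_E_C hU hδ j s).1, E2_zero hU hδ j s,
    E2_lie_cmul _ _ (E2_dmom hU hδ j s), lie_C_mom hU hδ j s, mul_zero, zero_smul, zero_smul,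
    zero_add, zero_add, E2_lieK, E2_lie_app _ (E2_dDK U i s).differentiableAt (E2_dhat hU hδ s),
    E2_lie_app _ (E2_dDK U i s).differentiableAt differentiableAt_snd, E2_lieDK, E2_lieDK,
    lie_hat_H hU hδ s, E2_lie_snd]
  have e1 : (XHt U δ s).1 = s.2 := rfl
  have e2 : (XCt U δ s).1 = hatL U δ s.1 s.2 := rfl
  have e3 : (XCt U δ s).2 = DKc U δ s.1 s.2 (hatL U δ s.1 s.2) := rfl
  rw [e1, e2, e3, D2K_symm U i s.1 s.2 (hatL U δ s.1 s.2)]

end Pool.Agent.Helper81.M9
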