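import Pool.Agent.Helper81.M9.St.C4
import Pool.Agent.Helper81.M9.St.E2
import Pool.Agent.Helper46.M8.Ns

/-!
# M9, piece E3
-/

open Filter Metric Module Set
open scoped Topology ContDiff Matrix Matrix.Norms.Elementwise ComplexConjugate

set_option maxSynthPendingDepth 3

namespace Pool.Agent.Helper81.M9
open Pool.Agent.Helper20.PC Pool.Agent.Helper20.HP Pool.Agent.Helper20.M8 Pool.Agent.Helper20.MB
open Pool.Agent.Helper46.M8

private lemma E3_slice {W : Type*} [NormedAddCommGroup W] [NormedSpace ℝ W] (p : Pm) (z : W) :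
    ContDiffAt ℝ ∞ (fun z' : W => ((p, z') : Pm × W)) z :=
  contDiffAt_const.prodMk contDiffAt_id

private lemma E3_hm {U : Mat} {δ : ℝ} (hU : Uᴴ * U = 1) (hδ : |δ| ≤ 1/100) (z : V) :
    HasFDerivAt (hm U δ) (fderiv ℝ (hm U δ) z) z :=
  ((hm_metAt hU hδ z).smooth.differentiableAt (by norm_num)).hasFDerivAt

private lemma E3_Gam_eq {U : Mat} {δ : ℝ} (hU : Uᴴ * U = 1) (hδ : |δ| ≤ 1/100) (z u v : V) :
    Gam (hm U δ) z u v = GamL (hm U δ) z u v :=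
  (GamL_eq (hm_metAt hU hδ z).smooth u v).symm

private lemma E3_GamL {U : Mat} {δ : ℝ} (hU : Uᴴ * U = 1) (hδ : |δ| ≤ 1/100) (z : V) :
    HasFDerivAt (GamL (hm U δ)) (fderiv ℝ (GamL (hm U δ)) z) z := by
  have h1 : ContDiffAt ℝ ∞ (fun q : Pm × V => GamL (hm q.1.1 q.1.2.1) q.2) (((U, δ, 0) : Pm), z) :=
    contDiffAt_GamL (q := (((U, δ, 0) : Pm), z)) hU hδ
  exact ((h1.comp z (E3_slice _ z)).differentiableAt (by simp)).hasFDerivAt

private lemma E3_fderiv_Gam {U : Mat} {δ : ℝ} (hU : Uᴴ * U = 1) (hδ : |δ| ≤ 1/100)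
    (z t u v : V) : fderiv ℝ (fun z' => Gam (hm U δ) z' u v) z t
      = fderiv ℝ (GamL (hm U δ)) z t u v := by
  have h1 : (fun z' => Gam (hm U δ) z' u v) = fun z' => GamL (hm U δ) z' u v := by
    funext z'
    exact E3_Gam_eq hU hδ z' u v
  have h2 := ((E3_GamL hU hδ z).clm_apply (hasFDerivAt_const u z)).clm_apply (hasFDerivAt_const v z)
  rw [h1, h2.fderiv]
  simp

/-- the geodesic flow differentiates `h(Z, W_k)` covariantly. -/
private lemma E3_lie {U : Mat} {δ : ℝ} (hU : Uᴴ * U = 1) (hδ : |δ| ≤ 1/100) (k : Fin 4) (s : Fr9)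
    {Z : Fr9 → V} (hZ : DifferentiableAt ℝ Z s) :
    lie (XF9 U δ) (fun s => hm U δ s.1 (Z s) (s.2.1 k)) s
      = hm U δ s.1 (lie (XF9 U δ) Z s + Gam (hm U δ) s.1 (s.2.1 0) (Z s)) (s.2.1 k) := by
  have h1 : HasFDerivAt (fun s : Fr9 => hm U δ s.1)
      ((fderiv ℝ (hm U δ) s.1).comp (ContinuousLinearMap.fst ℝ V ((Fin 4 → V) × V))) s :=
    (E3_hm hU hδ s.1).comp s hasFDerivAt_fst
  have h2 : HasFDerivAt (fun s : Fr9 => s.2.1 k)
      ((ContinuousLinearMap.proj k).comp ((ContinuousLinearMap.fst ℝ (Fin 4 → V) V).comp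
        (ContinuousLinearMap.snd ℝ V ((Fin 4 → V) × V)))) s :=
    ContinuousLinearMap.hasFDerivAt ((ContinuousLinearMap.proj k).comp
      ((ContinuousLinearMap.fst ℝ (Fin 4 → V) V).comp
        (ContinuousLinearMap.snd ℝ V ((Fin 4 → V) × V))))
  have h3 := (h1.clm_apply hZ.hasFDerivAt).clm_apply h2
  unfold lie
  rw [h3.fderiv]
  have e := fderiv_hm hU hδ s.1 (s.2.1 0) (Z s) (s.2.1 k)
  simp only [XF9, _root_.add_apply, ContinuousLinearMap.comp_apply,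
    ContinuousLinearMap.flip_apply, ContinuousLinearMap.coe_fst', ContinuousLinearMap.coe_snd',
    ContinuousLinearMap.proj_apply, map_neg, map_add]
  rw [e]
  ring

/-! ### E3 : `V` is a Jacobi field -/
theorem lie_sV {U : Mat} {δ : ℝ} (hU : Uᴴ * U = 1) (hδ : |δ| ≤ 1/100) (k : Fin 4) (s : Fr9) :
    lie (XF9 U δ) (sV U δ k) s = hm U δ s.1 (DV U δ (s.1, s.2.1 0)) (s.2.1 k) := by
  have h1 : ContDiffAt ℝ ∞ (fun q : Pm × Fr9 => vF q.1.1 q.1.2.1 q.2) (((U, δ, 0) : Pm), s) :=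
    contDiffAt_vF (q := (((U, δ, 0) : Pm), s)) hU hδ
  have hv : DifferentiableAt ℝ (vF U δ) s :=
    (h1.comp s (E3_slice _ s)).differentiableAt (by simp)
  have e : sV U δ k = fun s => hm U δ s.1 (vF U δ s) (s.2.1 k) := rfl
  rw [e, E3_lie hU hδ k s hv, lie_vF hU hδ s]
  simp only [DV, vF]

private lemma E3_hatL {U : Mat} {δ : ℝ} (hU : Uᴴ * U = 1) (hδ : |δ| ≤ 1/100) (z : V) :
    DifferentiableAt ℝ (hatL U δ) z := by
  have h1 : ContDiffAt ℝ ∞ (fun q : Pm × V => hatL q.1.1 q.1.2.1 q.2) (((U, δ, 0) : Pm), z) :=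
    contDiffAt_hatL (q := (((U, δ, 0) : Pm), z)) hU hδ
  exact (h1.comp z (E3_slice _ z)).differentiableAt (by simp)

private lemma E3_hatL2 {U : Mat} {δ : ℝ} (hU : Uᴴ * U = 1) (hδ : |δ| ≤ 1/100) (s : V × V) :
    DifferentiableAt ℝ (fun s : V × V => hatL U δ s.1 s.2) s :=
  ((E3_hatL hU hδ s.1).comp s differentiableAt_fst).clm_apply differentiableAt_snd

private lemma E3_DKc {U : Mat} {δ : ℝ} (hU : Uᴴ * U = 1) (hδ : |δ| ≤ 1/100) (s : V × V) :
    DifferentiableAt ℝ (fun s : V × V => DKc U δ s.1 s.2) s := by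
  have h1 : ContDiffAt ℝ ∞ (fun q : Pm × V × V => DKc q.1.1 q.1.2.1 q.2.1 q.2.2)
      (((U, δ, 0) : Pm), s) :=
    contDiffAt_DKc (q := (((U, δ, 0) : Pm), s)) hU hδ
  exact (h1.comp s (E3_slice _ s)).differentiableAt (by simp)

/-- the derivative of `D_t V` along the geodesic flow. -/
private lemma E3_DV {U : Mat} {δ : ℝ} (hU : Uᴴ * U = 1) (hδ : |δ| ≤ 1/100) (s : V × V) :
    DifferentiableAt ℝ (DV U δ) s ∧
    lie (XHt U δ) (DV U δ) s + Gam (hm U δ) s.1 s.2 (DV U δ s)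
      = - Riem (hm U δ) s.1 (hatL U δ s.1 s.2) s.2 s.2 := by
  have hM := hm_metAt hU hδ s.1
  have hG1 : HasFDerivAt (fun s : V × V => GamL (hm U δ) s.1)
      ((fderiv ℝ (GamL (hm U δ)) s.1).comp (ContinuousLinearMap.fst ℝ V V)) s :=
    (E3_GamL hU hδ s.1).comp s hasFDerivAt_fst
  have hh : HasFDerivAt (fun s : V × V => hatL U δ s.1 s.2)
      (fderiv ℝ (fun s : V × V => hatL U δ s.1 s.2) s) s := (E3_hatL2 hU hδ s).hasFDerivAt
  have hA : DifferentiableAt ℝ (fun s : V × V => DKc U δ s.1 s.2 (hatL U δ s.1 s.2)) s :=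
    (E3_DKc hU hδ s).clm_apply (E3_hatL2 hU hδ s)
  have hB := (hG1.clm_apply (hasFDerivAt_snd (𝕜 := ℝ) (p := s))).clm_apply hh
  have hDV : DV U δ = (fun s : V × V => DKc U δ s.1 s.2 (hatL U δ s.1 s.2))
      + fun s : V × V => GamL (hm U δ) s.1 s.2 (hatL U δ s.1 s.2) := by
    funext t
    rw [Pi.add_apply, DV, E3_Gam_eq hU hδ]
  refine ⟨?_, ?_⟩
  · rw [hDV]
    exact hA.add hB.differentiableAt
  have h1 : lie (XHt U δ) (DV U δ) s
      = lie (XHt U δ) (fun s : V × V => DKc U δ s.1 s.2 (hatL U δ s.1 s.2)) s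
        + lie (XHt U δ) (fun s : V × V => GamL (hm U δ) s.1 s.2 (hatL U δ s.1 s.2)) s := by
    unfold lie
    rw [hDV, fderiv_add hA hB.differentiableAt]
    rfl
  have h2 : lie (XCt U δ) (fun s : V × V => - Gam (hm U δ) s.1 s.2 s.2) s
      = - (fderiv ℝ (GamL (hm U δ)) s.1 (hatL U δ s.1 s.2) s.2 s.2
        + GamL (hm U δ) s.1 (DKc U δ s.1 s.2 (hatL U δ s.1 s.2)) s.2
        + GamL (hm U δ) s.1 s.2 (DKc U δ s.1 s.2 (hatL U δ s.1 s.2))) := by
    have e1 : (fun s : V × V => - Gam (hm U δ) s.1 s.2 s.2)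
        = fun s : V × V => - GamL (hm U δ) s.1 s.2 s.2 := by
      funext t
      rw [E3_Gam_eq hU hδ]
    have e2 := ((hG1.clm_apply (hasFDerivAt_snd (𝕜 := ℝ) (p := s))).clm_apply
      (hasFDerivAt_snd (𝕜 := ℝ) (p := s))).neg
    have e3 : HasFDerivAt (fun s : V × V => - GamL (hm U δ) s.1 s.2 s.2) _ s := e2
    unfold lie
    rw [e1, e3.fderiv]
    simp only [XCt, _root_.add_apply, ContinuousLinearMap.comp_apply,
      ContinuousLinearMap.flip_apply, ContinuousLinearMap.coe_fst', ContinuousLinearMap.coe_snd',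
      _root_.neg_apply]
    abel
  have h3 : lie (XHt U δ) (fun s : V × V => GamL (hm U δ) s.1 s.2 (hatL U δ s.1 s.2)) s
      = fderiv ℝ (GamL (hm U δ)) s.1 s.2 s.2 (hatL U δ s.1 s.2)
        - GamL (hm U δ) s.1 (GamL (hm U δ) s.1 s.2 s.2) (hatL U δ s.1 s.2)
        + GamL (hm U δ) s.1 s.2 (DKc U δ s.1 s.2 (hatL U δ s.1 s.2)) := by
    have e4 := lie_hat_H hU hδ s
    unfold lie at e4 ⊢
    have e3 : HasFDerivAt (fun s : V × V => GamL (hm U δ) s.1 s.2 (hatL U δ s.1 s.2)) _ s := hB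
    rw [e3.fderiv, ← e4]
    simp only [XHt, _root_.add_apply, ContinuousLinearMap.comp_apply,
      ContinuousLinearMap.flip_apply, ContinuousLinearMap.coe_fst', ContinuousLinearMap.coe_snd',
      map_neg, _root_.neg_apply, E3_Gam_eq hU hδ]
    abel
  have hsym : ∀ u v, GamL (hm U δ) s.1 u v = GamL (hm U δ) s.1 v u := fun u v => by
    rw [← E3_Gam_eq hU hδ, ← E3_Gam_eq hU hδ, Gam_symm hM]
  have hsymd : fderiv ℝ (GamL (hm U δ)) s.1 s.2 s.2 (hatL U δ s.1 s.2)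
      = fderiv ℝ (GamL (hm U δ)) s.1 s.2 (hatL U δ s.1 s.2) s.2 := by
    rw [← E3_fderiv_Gam hU hδ, ← E3_fderiv_Gam hU hδ]
    congr 2
    funext z'
    rw [Gam_symm (hm_metAt hU hδ z')]
  rw [h1, comm_HC hU hδ s, h2, h3, hsymd]
  simp only [Riem, E3_fderiv_Gam hU hδ]
  rw [DV]
  simp only [E3_Gam_eq hU hδ, map_add]
  rw [hsym (DKc U δ s.1 s.2 (hatL U δ s.1 s.2)) s.2,
    hsym (GamL (hm U δ) s.1 s.2 s.2) (hatL U δ s.1 s.2),
    hsym (hatL U δ s.1 s.2) s.2]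
  abel

private lemma E3_comp {A B C : Type*} [NormedAddCommGroup A] [NormedSpace ℝ A]
    [NormedAddCommGroup B] [NormedSpace ℝ B] [NormedAddCommGroup C] [NormedSpace ℝ C]
    {g : B → C} {f : A → B} {s : A} (hg : DifferentiableAt ℝ g (f s)) (hf : DifferentiableAt ℝ f s) :
    DifferentiableAt ℝ (fun s => g (f s)) s := hg.comp s hf

private lemma E3_base (s : Fr9) : DifferentiableAt ℝ (fun s : Fr9 => ((s.1, s.2.1 0) : V × V)) s :=
  ((ContinuousLinearMap.fst ℝ V ((Fin 4 → V) × V)).prod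
      ((ContinuousLinearMap.proj 0).comp ((ContinuousLinearMap.fst ℝ (Fin 4 → V) V).comp
        (ContinuousLinearMap.snd ℝ V ((Fin 4 → V) × V))))).differentiableAt

theorem lie2_sV {U : Mat} {δ : ℝ} (hU : Uᴴ * U = 1) (hδ : |δ| ≤ 1/100) (k : Fin 4) (s : Fr9) :
    lie (XF9 U δ) (lie (XF9 U δ) (sV U δ k)) s
      = - hm U δ s.1 (Riem (hm U δ) s.1 (vF U δ s) (s.2.1 0) (s.2.1 0)) (s.2.1 k) := by
  have h0 : lie (XF9 U δ) (sV U δ k)
      = fun s : Fr9 => hm U δ s.1 (DV U δ (s.1, s.2.1 0)) (s.2.1 k) :=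
    funext fun s => lie_sV hU hδ k s
  obtain ⟨hd, h1⟩ := E3_DV hU hδ (s.1, s.2.1 0)
  have hZ : DifferentiableAt ℝ (fun s : Fr9 => DV U δ (s.1, s.2.1 0)) s :=
    E3_comp (g := DV U δ) (f := fun s : Fr9 => ((s.1, s.2.1 0) : V × V)) hd (E3_base s)
  rw [h0, E3_lie hU hδ k s hZ, lie_TV U δ hd]
  simp only [vF]
  rw [h1, map_neg, _root_.neg_apply]

end Pool.Agent.Helper81.M9
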