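import Pool.Agent.Helper81.M9.St.A6
import Pool.Agent.Helper46.M8.Ns

/-!
# M9, piece B2
-/

open Filter Metric Module Set
open scoped Topology ContDiff Matrix Matrix.Norms.Elementwise ComplexConjugate

set_option maxSynthPendingDepth 3

namespace Pool.Agent.Helper81.M9
open Pool.Agent.Helper20.PC Pool.Agent.Helper20.HP Pool.Agent.Helper20.M8 Pool.Agent.Helper20.MB
open Pool.Agent.Helper46.M8

/-! ### B2 : the endomorphism `B(ζ)` -/
theorem BL_skew {U : Mat} (hU : Uᴴ * U = 1) (δ ε : ℝ) (z ζ u v : V) :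
    h0 z (BL U δ ε z ζ u) v = - h0 z u (BL U δ ε z ζ v) := by
  have h1 : h0 z (iL u) v = - h0 z u (iL v) := by
    have h := omL_skew z u v
    have h2 : h0 z u (iL v) = omL z v u := by rw [h0_symm]; rfl
    rw [h2, ← h]; rfl
  have h2 : ∀ i, h0 z (MK U i z u) v = - h0 z u (MK U i z v) := fun i => MK_skew hU i z u v
  simp only [BL_apply, map_sub, map_smul, map_sum, _root_.sub_apply, _root_.smul_apply,
    ContinuousLinearMap.sum_apply, smul_eq_mul, h1, h2]
  rw [neg_sub, show (δ * ∑ i, ∑ j, Ii i j * momL U δ z j ζ * -h0 z u (MK U i z v))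
    = - (δ * ∑ i, ∑ j, Ii i j * momL U δ z j ζ * h0 z u (MK U i z v)) by
      simp only [mul_neg, Finset.sum_neg_distrib]]
  ring

theorem BL_iL (U : Mat) (δ ε : ℝ) (z ζ v : V) :
    BL U δ ε z ζ (iL v) = iL (BL U δ ε z ζ v) := by
  simp only [BL_apply, map_sub, map_smul, map_sum, MK_iL]

theorem BL_zero (U : Mat) (z ζ v : V) : BL U 0 0 z ζ v = 0 := by
  simp only [BL_apply, zero_mul, zero_smul, sub_zero]

end Pool.Agent.Helper81.M9
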