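import Pool.Agent.Helper46.M8.St.B1
import Pool.Agent.Helper81.M9.St.B2
import Pool.Agent.Helper46.M8.Ns

/-!
# M9, piece B4
-/

open Filter Metric Module Set
open scoped Topology ContDiff Matrix Matrix.Norms.Elementwise ComplexConjugate

set_option maxSynthPendingDepth 3

namespace Pool.Agent.Helper81.M9
open Pool.Agent.Helper20.PC Pool.Agent.Helper20.HP Pool.Agent.Helper20.M8 Pool.Agent.Helper20.MB
open Pool.Agent.Helper46.M8

private lemma B4_Fsm_symm (i j : Fin 8) : Fsm i j = Fsm j i := by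
  fin_cases i <;> fin_cases j <;> simp [Fsm]

private lemma B4_FF_symm (U : Mat) (z u v : V) : FF U z u v = FF U z v u := by
  rw [FF_apply, FF_apply, Finset.sum_comm]
  refine Finset.sum_congr rfl fun i _ => Finset.sum_congr rfl fun j _ => ?_
  rw [B4_Fsm_symm j i]
  ring

private lemma B4_be (y p : Y9) : be y p = - be p y := by
  simp only [be]; abel

private lemma B4_nf (y p : Y9) : nf y p = - nf p y := by
  simp only [nf, map_sub]; abel

private lemma B4_qq (y p : Y9) : qq y p = - qq p y := by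
  rw [qq, qq, B4_be y p, B4_nf y p, smul_neg, smul_neg]; abel

private lemma B4_ef (y p : Y9) : ef y p = - ef p y := by
  simp only [ef]; ring

/-! ### B4 : symmetries of `S` -/
theorem S9_skew {U : Mat} (hU : Uᴴ * U = 1) (δ ε lam : ℝ) (z : V) (a b c d : Y9) :
    S9 U δ ε lam z a b c d = - S9 U δ ε lam z b a c d := by
  have e1 : h0 z (BL U δ ε z (qq c d) b.2) a.2 = - h0 z (BL U δ ε z (qq c d) a.2) b.2 := by
    rw [BL_skew hU, h0_symm z b.2]
  have e2 := omL_skew z a.2 b.2
  rw [S9, S9, B4_be a b, B4_nf a b, B4_qq a b, B4_ef a b, e1, e2]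
  simp only [map_neg, _root_.neg_apply]
  ring

theorem S9_symm {U : Mat} {δ : ℝ} (hU : Uᴴ * U = 1) (hδ : |δ| ≤ 1/100) (ε lam : ℝ) (z : V) (a b c d : Y9) :
    S9 U δ ε lam z a b c d = S9 U δ ε lam z c d a b := by
  rw [S9, S9, hm_symm hU hδ z (qq a b) (qq c d), h0_symm z (nf a b) (nf c d),
    B4_FF_symm U z (be a b) (be c d), B4_FF_symm U z (nf a b) (nf c d)]
  ring

end Pool.Agent.Helper81.M9
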