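import Pool.Agent.Helper81.M9.Frame
import Pool.Agent.Helper20.MB.Skew
import Pool.Agent.Helper81.M9.St.B3
import Pool.Agent.Helper81.M9.St.B4
import Pool.Agent.Helper81.M9.St.C2
import Pool.Agent.Helper46.M8.Ns

/-!
# M9, piece C3
-/

open Filter Metric Module Set
open scoped Topology ContDiff Matrix Matrix.Norms.Elementwise ComplexConjugate

set_option maxSynthPendingDepth 3

namespace Pool.Agent.Helper81.M9
open Pool.Agent.Helper20.PC Pool.Agent.Helper20.HP Pool.Agent.Helper20.M8 Pool.Agent.Helper20.MB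
open Pool.Agent.Helper46.M8

/-! ### C3 : the data are good, the curvature is skew -/
private lemma C3_incl (p : Pm) : ContDiff ℝ ∞ (fun z' : V => (p, z')) :=
  contDiff_const.prodMk contDiff_id

/-- composition, in the form `fun x => g (f x)`. -/
private lemma C3_cmp {E F G : Type*} [NormedAddCommGroup E] [NormedSpace ℝ E]
    [NormedAddCommGroup F] [NormedSpace ℝ F] [NormedAddCommGroup G] [NormedSpace ℝ G]
    {g : F → G} {f : E → F} {x : E} (hg : ContDiffAt ℝ ∞ g (f x)) (hf : ContDiffAt ℝ ∞ f x) :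
    ContDiffAt ℝ ∞ (fun x => g (f x)) x := hg.comp x hf

private lemma C3_A {U : Mat} {δ : ℝ} (hU : Uᴴ * U = 1) (hδ : |δ| ≤ 1/100) (ε : ℝ) (z : V) :
    ContDiffAt ℝ ∞ (fun x => AL9 U δ ε x) z :=
  C3_cmp (g := fun q : Pm × V => AL9 q.1.1 q.1.2.1 q.1.2.2 q.2)
    (f := fun z : V => (((U, δ, ε) : Pm), z))
    (contDiffAt_AL9 (q := (((U, δ, ε) : Pm), z)) hU hδ) (C3_incl (U, δ, ε)).contDiffAt

private lemma C3_S {U : Mat} {δ : ℝ} (hU : Uᴴ * U = 1) (hδ : |δ| ≤ 1/100) (ε lam : ℝ) (z : V) :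
    @ContDiffAt ℝ _ V _ _ (Y9 →L[ℝ] Y9 →L[ℝ] Y9 →L[ℝ] Y9 →L[ℝ] ℝ) (ngk4 Y9) (nsk4 Y9) ∞
        (fun x => SL9 U δ ε lam x) z :=
  C3_cmp (g := fun q : Pm × V => SL9 q.1.1 q.1.2.1 q.1.2.2 lam q.2)
    (f := fun z : V => (((U, δ, ε) : Pm), z))
    (contDiffAt_SL9 lam (q := (((U, δ, ε) : Pm), z)) hU hδ) (C3_incl (U, δ, ε)).contDiffAt

theorem D9_good {U : Mat} {δ : ℝ} (hU : Uᴴ * U = 1) (hδ : |δ| ≤ 1/100) (ε lam : ℝ) (z : V) :
    (D9 U δ ε lam).Good z := by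
  have hj := (C3_incl (U, δ, ε)).contDiffAt (x := z)
  refine ⟨?_, ?_, ?_, ?_, ?_, ?_, ?_, ?_, ?_, ?_, ?_⟩
  · exact (contDiffAt_hm (q := ((U, δ, ε), z)) hU hδ).comp z hj
  · exact C3_A hU hδ ε z
  · exact contDiff_kL9.contDiffAt
  · exact C3_S hU hδ ε lam z
  · exact Eventually.of_forall fun x' u v => hm_symm hU hδ x' u v
  · exact Eventually.of_forall fun x' u hu => hm_pos hU hδ x' u hu
  · exact Eventually.of_forall fun x' p q => kL9_symm x' p q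
  · exact Eventually.of_forall fun x' p hp => kL9_pos x' p hp
  · exact Eventually.of_forall fun x' u p q => kL9_par hU δ ε x' u p q
  · refine Eventually.of_forall fun x' a b c d => ?_
    show SL9 U δ ε lam x' a b c d = - SL9 U δ ε lam x' b a c d
    rw [SL9_apply, SL9_apply]
    exact S9_skew hU δ ε lam x' a b c d
  · refine Eventually.of_forall fun x' a b c d => ?_
    show SL9 U δ ε lam x' a b c d = SL9 U δ ε lam x' c d a b
    rw [SL9_apply, SL9_apply]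
    exact S9_symm hU hδ ε lam x' a b c d

theorem OmV_skew9 {U : Mat} {δ : ℝ} (hU : Uᴴ * U = 1) (hδ : |δ| ≤ 1/100) (ε : ℝ) (z ζ ζ' : V) (p q : Y9) :
    kL9 z (OmV (AL9 U δ ε) z ζ ζ' p) q = - kL9 z p (OmV (AL9 U δ ε) z ζ ζ' q) := by
  have hg := D9_good hU hδ ε 0 z
  have h1 : ContDiffAt ℝ 2 (kL9 : V → Y9 →L[ℝ] Y9 →L[ℝ] ℝ) z := hg.hk.of_le (by norm_cast)
  have h2 : ContDiffAt ℝ 2 (AL9 U δ ε) z := hg.hA.of_le (by norm_cast)
  have h3 := OmV_skew_of h1 h2 (Eventually.of_forall fun x' u p q => kL9_par hU δ ε x' u p q)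
    ζ ζ' p q
  linarith

end Pool.Agent.Helper81.M9
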