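import Pool.Agent.Helper81.M9.Defs2
import Pool.Agent.Helper81.M9.St.B1
import Pool.Agent.Helper81.M9.St.C3
import Pool.Agent.Helper46.M8.Ns

/-!
# M9, piece E4
-/

open Filter Metric Module Set
open scoped Topology ContDiff Matrix Matrix.Norms.Elementwise ComplexConjugate

set_option maxSynthPendingDepth 3

namespace Pool.Agent.Helper81.M9
open Pool.Agent.Helper20.PC Pool.Agent.Helper20.HP Pool.Agent.Helper20.M8 Pool.Agent.Helper20.MB
open Pool.Agent.Helper46.M8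

private lemma E4_incl (p : Pm) : ContDiff ℝ ∞ (fun z' : V => (p, z')) :=
  contDiff_const.prodMk contDiff_id

private lemma E4_hatL {U : Mat} {δ : ℝ} (hU : Uᴴ * U = 1) (hδ : |δ| ≤ 1/100) (z : V) :
    DifferentiableAt ℝ (hatL U δ) z := by
  have hj := (E4_incl (U, δ, 0)).contDiffAt (x := z)
  have h2 : ContDiffAt ℝ ∞ (hatL U δ) z := (contDiffAt_hatL (q := ((U, δ, 0), z)) hU hδ).comp z hj
  exact h2.differentiableAt (by simp)

private lemma E4_AL9 {U : Mat} {δ : ℝ} (hU : Uᴴ * U = 1) (hδ : |δ| ≤ 1/100) (ε : ℝ) (z : V) :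
    DifferentiableAt ℝ (AL9 U δ ε) z :=
  (D9_good hU hδ ε 0 z).hA.differentiableAt (by simp)

private lemma E4_hm {U : Mat} {δ : ℝ} (hU : Uᴴ * U = 1) (hδ : |δ| ≤ 1/100) (z : V) :
    DifferentiableAt ℝ (hm U δ) z :=
  (D9_good hU hδ 0 0 z).hh.differentiableAt (by simp)

/-- differentiate `h₀(v̂, y) = h(v, y)` in the direction `u` -/
private lemma E4_half {U : Mat} {δ : ℝ} (hU : Uᴴ * U = 1) (hδ : |δ| ≤ 1/100) (ε : ℝ)
    (z u v y : V) :
    h0 z (fderiv ℝ (hatL U δ) z u v + (GamL h0 z u (hatL U δ z v) + BL U δ ε z u (hatL U δ z v))) y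
      = fderiv ℝ (hm U δ) z u v y - hm U δ z v (GamL h0 z u y + BL U δ ε z u y) := by
  have e : (fun z' : V => h0 z' (hatL U δ z' v) y) = fun z' : V => hm U δ z' v y := by
    funext z'
    exact h0_hatL hU hδ z' v y
  have d0 : DifferentiableAt ℝ h0 z := (contDiff_h0.contDiffAt (x := z)).differentiableAt (by norm_num)
  have h1 : HasFDerivAt (fun z' : V => h0 z' (hatL U δ z' v) y) _ z :=
    (d0.hasFDerivAt.clm_apply
      ((E4_hatL hU hδ z).hasFDerivAt.clm_apply (hasFDerivAt_const v z))).clm_apply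
        (hasFDerivAt_const y z)
  have h2 : HasFDerivAt (fun z' : V => hm U δ z' v y) _ z :=
    ((E4_hm hU hδ z).hasFDerivAt.clm_apply (hasFDerivAt_const v z)).clm_apply
        (hasFDerivAt_const y z)
  rw [e] at h1
  have h3 := congrArg (fun L : V →L[ℝ] ℝ => L u) (h1.unique h2)
  have h4 : h0 z (fderiv ℝ (hatL U δ) z u v) y + fderiv ℝ h0 z u (hatL U δ z v) y
      = fderiv ℝ (hm U δ) z u v y := by
    simpa using h3
  rw [fderiv_h0, h0_hatL hU hδ] at h4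
  have h5 : h0 z (BL U δ ε z u (hatL U δ z v)) y = - hm U δ z v (BL U δ ε z u y) := by
    rw [BL_skew hU, h0_hatL hU hδ]
  simp only [map_add, _root_.add_apply]
  rw [h5]
  linarith

/-! ### E4 : the torsion -/
theorem TH_eq {U : Mat} {δ : ℝ} (hU : Uᴴ * U = 1) (hδ : |δ| ≤ 1/100) (ε : ℝ) (z u v y : V) :
    h0 z (TH U δ ε z u v) y
      = fderiv ℝ (hm U δ) z u v y - fderiv ℝ (hm U δ) z v u y
        - hm U δ z v (GamL h0 z u y + BL U δ ε z u y)
        + hm U δ z u (GamL h0 z v y + BL U δ ε z v y) := by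
  have h1 := E4_half hU hδ ε z u v y
  have h2 := E4_half hU hδ ε z v u y
  have e : TH U δ ε z u v =
      (fderiv ℝ (hatL U δ) z u v + (GamL h0 z u (hatL U δ z v) + BL U δ ε z u (hatL U δ z v)))
      - (fderiv ℝ (hatL U δ) z v u + (GamL h0 z v (hatL U δ z u) + BL U δ ε z v (hatL U δ z u))) := by
    rw [TH]; abel
  rw [e, map_sub, _root_.sub_apply, h1, h2]
  ring

private lemma E4_OmV (A : V → V →L[ℝ] Y9 →L[ℝ] Y9) (z ζ ζ' : V) (y : Y9) :
    OmV A z ζ ζ' y = fderiv ℝ A z ζ ζ' y - fderiv ℝ A z ζ' ζ y + A z ζ (A z ζ' y) -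
      A z ζ' (A z ζ y) := by
  simp [OmV]

private lemma E4_e (U : Mat) (δ ε : ℝ) (z v : V) :
    AL9 U δ ε z v (1, 0) = (0, (1/2 : ℝ) • hatL U δ z v) := by
  rw [AL9_apply, LamL_apply]
  refine Prod.ext ?_ ?_
  · refine Complex.ext ?_ ?_ <;> simp only [map_zero, mul_zero] <;> simp
  · simp

private lemma E4_f (U : Mat) (δ ε : ℝ) (z v : V) :
    AL9 U δ ε z v (Complex.I, 0) = (0, (1/4 : ℝ) • iL (hatL U δ z v)) := by
  rw [AL9_apply, LamL_apply]
  refine Prod.ext ?_ ?_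
  · refine Complex.ext ?_ ?_ <;> simp only [map_zero, mul_zero] <;> simp
  · simp

private lemma E4_T (U : Mat) (δ ε : ℝ) (z u x : V) :
    (AL9 U δ ε z u (0, x)).2 = GamL h0 z u x + BL U δ ε z u x := by
  rw [AL9_apply, LamL_apply]
  simp

private lemma E4_fderiv {U : Mat} {δ : ℝ} (hU : Uᴴ * U = 1) (hδ : |δ| ≤ 1/100) (ε : ℝ)
    (z u v : V) (y : Y9) (L : V →L[ℝ] V)
    (hy : ∀ z' : V, AL9 U δ ε z' v y = (0, L (hatL U δ z' v))) :
    (fderiv ℝ (AL9 U δ ε) z u v y).2 = L (fderiv ℝ (hatL U δ) z u v) := by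
  have e : (fun z' : V => (AL9 U δ ε z' v y).2) = fun z' : V => L (hatL U δ z' v) := by
    funext z'
    rw [hy]
  have h1 : HasFDerivAt (fun z' : V => (AL9 U δ ε z' v y).2) _ z :=
    (((E4_AL9 hU hδ ε z).hasFDerivAt.clm_apply (hasFDerivAt_const v z)).clm_apply
        (hasFDerivAt_const y z)).snd
  have h2 : HasFDerivAt (fun z' : V => L (hatL U δ z' v)) _ z :=
    L.hasFDerivAt.comp z ((E4_hatL hU hδ z).hasFDerivAt.clm_apply (hasFDerivAt_const v z))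
  rw [e] at h1
  have h3 := congrArg (fun M : V →L[ℝ] V => M u) (h1.unique h2)
  simpa using h3

theorem OmV_eT (U : Mat) (δ ε : ℝ) (hU : Uᴴ * U = 1) (hδ : |δ| ≤ 1/100) (z u v : V) :
    (OmV (AL9 U δ ε) z u v (1, 0)).2 = (1/2 : ℝ) • TH U δ ε z u v := by
  have h : ∀ u v : V, (fderiv ℝ (AL9 U δ ε) z u v (1, 0)).2
      = (1/2 : ℝ) • fderiv ℝ (hatL U δ) z u v := fun u v =>
    E4_fderiv hU hδ ε z u v (1, 0) ((1/2 : ℝ) • ContinuousLinearMap.id ℝ V)
      (fun z' => by rw [E4_e]; simp)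
  rw [E4_OmV, Prod.snd_sub, Prod.snd_add, Prod.snd_sub, h, h, E4_e, E4_e, E4_T, E4_T, TH]
  simp only [map_smul, smul_sub, smul_add]

theorem OmV_fT (U : Mat) (δ ε : ℝ) (hU : Uᴴ * U = 1) (hδ : |δ| ≤ 1/100) (z u v : V) :
    (OmV (AL9 U δ ε) z u v (Complex.I, 0)).2 = (1/4 : ℝ) • iL (TH U δ ε z u v) := by
  have h : ∀ u v : V, (fderiv ℝ (AL9 U δ ε) z u v (Complex.I, 0)).2
      = (1/4 : ℝ) • iL (fderiv ℝ (hatL U δ) z u v) := fun u v =>
    E4_fderiv hU hδ ε z u v (Complex.I, 0) ((1/4 : ℝ) • iL)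
      (fun z' => by rw [E4_f]; rfl)
  rw [E4_OmV, Prod.snd_sub, Prod.snd_add, Prod.snd_sub, h, h, E4_f, E4_f, E4_T, E4_T, TH]
  simp only [map_smul, GamL_h0_iL, BL_iL, map_add, map_sub, smul_sub, smul_add]

end Pool.Agent.Helper81.M9
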