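import Pool.Agent.Helper46.M8.St.D3a
import Pool.Agent.Helper81.M9.St.D3
import Pool.Agent.Helper81.M9.St.E1
import Pool.Agent.Helper81.M9.St.E4
import Pool.Agent.Helper46.M8.Ns

/-!
# M9, piece E5
-/

open Filter Metric Module Set
open scoped Topology ContDiff Matrix Matrix.Norms.Elementwise ComplexConjugate

set_option maxSynthPendingDepth 3

namespace Pool.Agent.Helper81.M9
open Pool.Agent.Helper20.PC Pool.Agent.Helper20.HP Pool.Agent.Helper20.M8 Pool.Agent.Helper20.MB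
open Pool.Agent.Helper46.M8

/-- `DKa y + G₀(ŵ, y) = 0`. -/
private lemma E5_DKa {U : Mat} {δ : ℝ} (hU : Uᴴ * U = 1) (z w y : V) :
    DKa U δ z w y + GamL h0 z (hatL U δ z w) y = 0 := by
  have h := sum_C0_MK hU z y (hm U δ z w)
  have e1 : DKa U δ z w y = ∑ i, (C0 i i * momL U δ z i w) • DK U i z y := by
    simp [DKa]
  have e2 : GamL h0 z (hatL U δ z w) y = ∑ i, (C0 i i * momL U δ z i w) • GamL h0 z y (Kf U i z) := by
    rw [GamL_h0_symm, hatL_eq, map_sum]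
    exact Finset.sum_congr rfl fun i _ => by rw [map_smul]
  rw [e1, e2, ← Finset.sum_add_distrib, ← h]
  refine Finset.sum_congr rfl fun i _ => ?_
  rw [MK_apply, smul_add]
  rfl

/-- the Koszul formula. -/
private lemma E5_koszul {U : Mat} {δ : ℝ} (hU : Uᴴ * U = 1) (hδ : |δ| ≤ 1/100) (z w v u : V) :
    fderiv ℝ (hm U δ) z w u v - fderiv ℝ (hm U δ) z u w v + fderiv ℝ (hm U δ) z v w u
      = 2 * hm U δ z (Gam (hm U δ) z w v) u := by
  have hM := hm_metAt hU hδ z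
  rw [fderiv_hm hU hδ, fderiv_hm hU hδ, fderiv_hm hU hδ, Gam_symm hM u w, Gam_symm hM v w,
    Gam_symm hM v u, hm_symm hU hδ z u (Gam (hm U δ) z w v)]
  ring

/-! ### E5 : the curvature on `e ∧ V` and `f ∧ iV` -/
theorem TH_W {U : Mat} {δ : ℝ} (hU : Uᴴ * U = 1) (hδ : |δ| ≤ 1/100) (ε : ℝ) (z w u : V) :
    h0 z (TH U δ ε z w u) (hatL U δ z w)
      = 2 * hm U δ z (DV U δ (z, w)) u
        - ε * (momL U δ z 6 w * hm U δ z u (iL (hatL U δ z w))) := by
  have h1 := TH_eq hU hδ ε z w u (hatL U δ z w)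
  have h2 := GamB_W hU hδ ε z w (hatL U δ z w)
  have h3 := star_id hU hδ z w u
  have h4 := E5_koszul hU hδ z w (hatL U δ z w) u
  have h5 : hm U δ z w (GamL h0 z u (hatL U δ z w) + BL U δ ε z u (hatL U δ z w))
      = - hm U δ z w (DKa U δ z w u) := by
    have a1 := BL_skew hU δ ε z u (hatL U δ z w) (hatL U δ z w)
    have a2 := E5_DKa (δ := δ) hU z w u
    have a3 : GamL h0 z u (hatL U δ z w) = - DKa U δ z w u := by
      rw [GamL_h0_symm]
      exact eq_neg_of_add_eq_zero_right a2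
    have a4 := h0_symm z (BL U δ ε z u (hatL U δ z w)) (hatL U δ z w)
    have a5 : h0 z (hatL U δ z w) (BL U δ ε z u (hatL U δ z w)) = 0 := by
      rw [a4] at a1
      exact self_eq_neg.mp a1
    rw [map_add, a3, map_neg, ← h0_hatL hU hδ z w (BL U δ ε z u (hatL U δ z w)), a5, add_zero]
  have h6 : hm U δ z (DV U δ (z, w)) u
      = hm U δ z (DKc U δ z w (hatL U δ z w)) u + hm U δ z (Gam (hm U δ) z w (hatL U δ z w)) u := by
    have hD : DV U δ (z, w) = DKc U δ z w (hatL U δ z w) + Gam (hm U δ) z w (hatL U δ z w) := by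
      simp only [DV]
    rw [hD, map_add, _root_.add_apply]
  have h7 : hm U δ z u (DKc U δ z w (hatL U δ z w)) = hm U δ z (DKc U δ z w (hatL U δ z w)) u :=
    hm_symm hU hδ z _ _
  rw [h1, h2, h5, h6, map_sub, map_smul, h7, smul_eq_mul]
  linarith

theorem OmV_eV {U : Mat} {δ : ℝ} (hU : Uᴴ * U = 1) (hδ : |δ| ≤ 1/100) (ε : ℝ) (z w u : V) :
    kL9 z (1, 0) (OmV (AL9 U δ ε) z w u (0, hatL U δ z w))
      = - hm U δ z (DV U δ (z, w)) u
        + ε / 2 * (momL U δ z 6 w * hm U δ z u (iL (hatL U δ z w))) := by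
  have h1 := OmV_skew9 hU hδ ε z w u (1, 0) (0, hatL U δ z w)
  have h2 := OmV_eT U δ ε hU hδ z w u
  have h3 := TH_W hU hδ ε z w u
  have h4 : kL9 z (OmV (AL9 U δ ε) z w u (1, 0)) (0, hatL U δ z w)
      = (1/2) * h0 z (TH U δ ε z w u) (hatL U δ z w) := by
    rw [kL9_apply, h2, map_smul]
    simp
  linarith

theorem OmV_fV {U : Mat} {δ : ℝ} (hU : Uᴴ * U = 1) (hδ : |δ| ≤ 1/100) (ε : ℝ) (z w u : V) :
    kL9 z (Complex.I, 0) (OmV (AL9 U δ ε) z w u (0, iL (hatL U δ z w)))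
      = - (1/2) * hm U δ z (DV U δ (z, w)) u
        + ε / 4 * (momL U δ z 6 w * hm U δ z u (iL (hatL U δ z w))) := by
  have h1 := OmV_skew9 hU hδ ε z w u (Complex.I, 0) (0, iL (hatL U δ z w))
  have h2 := OmV_fT U δ ε hU hδ z w u
  have h3 := TH_W hU hδ ε z w u
  have h4 : kL9 z (OmV (AL9 U δ ε) z w u (Complex.I, 0)) (0, iL (hatL U δ z w))
      = (1/4) * h0 z (TH U δ ε z w u) (hatL U δ z w) := by
    rw [kL9_apply, h2, map_smul, ← h0_iL z (TH U δ ε z w u) (hatL U δ z w)]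
    simp
  linarith

end Pool.Agent.Helper81.M9
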