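import Pool.Agent.Helper81.M9.St.D7
import Pool.Agent.Helper81.M9.St.E3
import Pool.Agent.Helper81.M9.St.E5
import Pool.Agent.Helper46.M8.Ns

/-!
# M9, piece F5
-/

open Filter Metric Module Set
open scoped Topology ContDiff Matrix Matrix.Norms.Elementwise ComplexConjugate

set_option maxSynthPendingDepth 3

namespace Pool.Agent.Helper81.M9
open Pool.Agent.Helper20.PC Pool.Agent.Helper20.HP Pool.Agent.Helper20.M8 Pool.Agent.Helper20.MB
open Pool.Agent.Helper46.M8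

/-! ### F5 : the curvature in the frame -/
private lemma F5_skew (n a b : Fin 6 → ℝ) (R : Fin 6 → Fin 6 → ℝ) (hR : ∀ i j, R i j = - R j i) :
    ∑ i, ∑ j, n i * n j * (a i * b j) * R i j
      = (1/2) * ∑ i, ∑ j, n i * n j * (a i * b j - a j * b i) * R i j := by
  have h1 : ∑ i, ∑ j, n i * n j * (a i * b j) * R i j
      = ∑ i, ∑ j, - (n i * n j * (a j * b i) * R i j) := by
    rw [Finset.sum_comm]
    refine Finset.sum_congr rfl fun i _ => Finset.sum_congr rfl fun j _ => ?_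
    rw [hR i j]; ring
  have h2 : ∑ i, ∑ j, n i * n j * (a i * b j - a j * b i) * R i j
      = (∑ i, ∑ j, n i * n j * (a i * b j) * R i j)
        + ∑ i, ∑ j, - (n i * n j * (a j * b i) * R i j) := by
    rw [← Finset.sum_add_distrib]
    refine Finset.sum_congr rfl fun i _ => ?_
    rw [← Finset.sum_add_distrib]
    refine Finset.sum_congr rfl fun j _ => ?_
    ring
  rw [h2, ← h1]; ring

private lemma F5_alg (C : ℝ) (a b : Fin 6 → ℝ) (R : Fin 6 → Fin 6 → ℝ)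
    (hR : ∀ i j, R i j = - R j i) (th Z e dv : ℝ)
    (h02 : R 0 2 = - dv + e / 2 * (th * Z)) (h13 : R 1 3 = - (1/2) * dv + e / 4 * (th * Z)) :
    ∑ i, ∑ j, nn6 C i * nn6 C j * (a i * b j) * R i j
        + 2 * (C⁻¹ * ((1/2) * (a 0 * b 2 - a 2 * b 0) + (1/4) * (a 1 * b 3 - a 3 * b 1))) * dv
      = OG9 C th Z R (e * (a 0 * b 2 - a 2 * b 0)) (e * (a 1 * b 3 - a 3 * b 1))
          (fun i j => if exc i j then 0 else a i * b j - a j * b i) := by
  rw [F5_skew (nn6 C) a b R hR]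
  have h1 : ∑ i, ∑ j, nn6 C i * nn6 C j * (a i * b j - a j * b i) * R i j
      = (∑ i, ∑ j, (nn6 C i * nn6 C j)
            • ((if exc i j then 0 else a i * b j - a j * b i) * R i j))
        + ∑ i, ∑ j, (if exc i j then nn6 C i * nn6 C j * (a i * b j - a j * b i) * R i j
            else 0) := by
    rw [← Finset.sum_add_distrib]
    refine Finset.sum_congr rfl fun i _ => ?_
    rw [← Finset.sum_add_distrib]
    refine Finset.sum_congr rfl fun j _ => ?_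
    split_ifs <;> simp [mul_assoc]
  have h20 := hR 2 0
  have h31 := hR 3 1
  have h2 : ∑ i, ∑ j, (if exc i j then nn6 C i * nn6 C j * (a i * b j - a j * b i) * R i j
        else 0)
      = 2 * C⁻¹ * ((a 0 * b 2 - a 2 * b 0) * R 0 2 + (a 1 * b 3 - a 3 * b 1) * R 1 3) := by
    simp [Fin.sum_univ_six, exc, nn6]
    rw [h20, h31]; ring
  rw [h1, h2, h02, h13]
  simp only [OG9, con, smul_eq_mul]
  ring

private lemma F5_expand (f : Y9 → Y9 → ℝ) (E : Fin 6 → Y9) (n a b : Fin 6 → ℝ)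
    (h1 : ∀ (c : Fin 6 → ℝ) (w : Y9), f (∑ i, c i • E i) w = ∑ i, c i * f (E i) w)
    (h2 : ∀ (c : Fin 6 → ℝ) (w : Y9), f w (∑ i, c i • E i) = ∑ i, c i * f w (E i)) :
    f (∑ i, (n i * a i) • E i) (∑ j, (n j * b j) • E j)
      = ∑ i, ∑ j, n i * n j * (a i * b j) * f (E i) (E j) := by
  rw [h1 (fun i => n i * a i)]
  refine Finset.sum_congr rfl fun i _ => ?_
  rw [h2 (fun j => n j * b j), Finset.mul_sum]
  refine Finset.sum_congr rfl fun j _ => ?_
  ring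

theorem OmS_frame9 {U : Mat} {δ : ℝ} (hU : Uᴴ * U = 1) (hδ : |δ| ≤ 1/100) (ε : ℝ) (s : Fs9) (hs : ON9 U δ s.1) (k : Fin 4) :
    kL9 s.1.1 s.2.1 (OmV (AL9 U δ ε) s.1.1 (s.1.2.1 0) (s.1.2.1 k) s.2.2)
        + 2 * tauS U δ s * lie (XF9 U δ) (sV U δ k) s.1
      = OG9 (sC U δ s.1) (sT U δ s.1) (sZ U δ k s.1) (fun i j => sR9 U δ ε k i j s.1)
          (c1S U δ ε s) (c2S U δ ε s) (BS U δ s) := by
  have hy := fE_sum hU hδ hs s.2.1
  have hp := fE_sum hU hδ hs s.2.2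
  have hR : ∀ i j, sR9 U δ ε k i j s.1 = - sR9 U δ ε k j i s.1 := by
    intro i j
    unfold sR9
    rw [kL9_symm, OmV_skew9 hU hδ]
  have hexp : kL9 s.1.1 s.2.1 (OmV (AL9 U δ ε) s.1.1 (s.1.2.1 0) (s.1.2.1 k) s.2.2)
      = ∑ i, ∑ j, nn6 (sC U δ s.1) i * nn6 (sC U δ s.1) j
          * (cmp U δ s.1 s.2.1 i * cmp U δ s.1 s.2.2 j) * sR9 U δ ε k i j s.1 := by
    have h1 := F5_expand
      (fun y p => kL9 s.1.1 y (OmV (AL9 U δ ε) s.1.1 (s.1.2.1 0) (s.1.2.1 k) p))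
      (fE U δ s.1) (nn6 (sC U δ s.1)) (cmp U δ s.1 s.2.1) (cmp U δ s.1 s.2.2)
      (fun c w => by
        simp only [map_sum, map_smul, _root_.sum_apply,
          _root_.smul_apply, smul_eq_mul])
      (fun c w => by
        simp only [map_sum, map_smul, smul_eq_mul])
    rw [← hy, ← hp] at h1
    unfold sR9
    refine Eq.trans h1 ?_
    refine Finset.sum_congr rfl fun i _ => Finset.sum_congr rfl fun j _ => ?_
    congr 1
  have h02 : sR9 U δ ε k 0 2 s.1 = - lie (XF9 U δ) (sV U δ k) s.1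
      + ε / 2 * (sT U δ s.1 * sZ U δ k s.1) := by
    have h1 := OmV_eV hU hδ ε s.1.1 (s.1.2.1 0) (s.1.2.1 k)
    have e0 : fE U δ s.1 0 = ((1, 0) : Y9) := rfl
    have e2 : fE U δ s.1 2 = ((0, hatL U δ s.1.1 (s.1.2.1 0)) : Y9) := rfl
    rw [lie_sV hU hδ k s.1]
    unfold sR9 sT sZ vF
    rw [e0, e2]
    refine Eq.trans ?_ (h1.trans ?_)
    · congr 1
    · congr 1
  have h13 : sR9 U δ ε k 1 3 s.1 = - (1/2) * lie (XF9 U δ) (sV U δ k) s.1
      + ε / 4 * (sT U δ s.1 * sZ U δ k s.1) := by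
    have h1 := OmV_fV hU hδ ε s.1.1 (s.1.2.1 0) (s.1.2.1 k)
    have e1 : fE U δ s.1 1 = ((Complex.I, 0) : Y9) := rfl
    have e3 : fE U δ s.1 3 = ((0, iL (hatL U δ s.1.1 (s.1.2.1 0))) : Y9) := rfl
    rw [lie_sV hU hδ k s.1]
    unfold sR9 sT sZ vF
    rw [e1, e3]
    refine Eq.trans ?_ (h1.trans ?_)
    · congr 1
    · congr 1
  have hfin := F5_alg (sC U δ s.1) (cmp U δ s.1 s.2.1) (cmp U δ s.1 s.2.2)
    (fun i j => sR9 U δ ε k i j s.1) hR (sT U δ s.1) (sZ U δ k s.1) ε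
    (lie (XF9 U δ) (sV U δ k) s.1) h02 h13
  rw [hexp]
  unfold tauS c1S c2S BS bF
  exact hfin

end Pool.Agent.Helper81.M9
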