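import Pool.Agent.Helper81.M9.St.D7
import Pool.Agent.Helper46.M8.Ns

/-!
# M9, piece F6
-/

open Filter Metric Module Set
open scoped Topology ContDiff Matrix Matrix.Norms.Elementwise ComplexConjugate

set_option maxSynthPendingDepth 3

namespace Pool.Agent.Helper81.M9
open Pool.Agent.Helper20.PC Pool.Agent.Helper20.HP Pool.Agent.Helper20.M8 Pool.Agent.Helper20.MB
open Pool.Agent.Helper46.M8

/-! ### F6 : the form `S` in the frame -/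
private lemma F6_iL2 (v : V) : iL (iL v) = -v := by
  simp only [iL_apply, smul_smul, Complex.I_mul_I, neg_smul, one_smul]

private lemma F6_c0 (U : Mat) (δ : ℝ) (s : Fr9) (y : Y9) : cmp U δ s y 0 = y.1.re := by
  simp [cmp, kL9_apply, fE, -h0_apply]

private lemma F6_c1 (U : Mat) (δ : ℝ) (s : Fr9) (y : Y9) : cmp U δ s y 1 = y.1.im := by
  simp [cmp, kL9_apply, fE, -h0_apply]

private lemma F6_cT (U : Mat) (δ : ℝ) (s : Fr9) (y : Y9) (j : Fin 4) :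
    cmp U δ s y (j.natAdd 2) = h0 s.1 (fF U δ s j) y.2 := by
  fin_cases j <;> simp [cmp, kL9_apply, fE, fF, -h0_apply, -iL_apply, Fin.natAdd]

private lemma F6_sum {U : Mat} {δ : ℝ} (hU : Uᴴ * U = 1) (hδ : |δ| ≤ 1/100) {s : Fr9} (hs : ON9 U δ s) (y : Y9) :
    y.2 = ∑ j : Fin 4, (nn6 (sC U δ s) (j.natAdd 2) * cmp U δ s y (j.natAdd 2)) • fF U δ s j := by
  conv_lhs => rw [fF_sum hU hδ hs y.2]
  simp only [F6_cT]

/-- the components of the bivector. -/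
theorem be_frame {U : Mat} {δ : ℝ} (hU : Uᴴ * U = 1) (hδ : |δ| ≤ 1/100) (s : Fs9) (hs : ON9 U δ s.1) :
    be s.2.1 s.2.2 = ∑ j : Fin 4, (nn6 (sC U δ s.1) (j.natAdd 2) * bF U δ s 0 (j.natAdd 2))
      • fF U δ s.1 j := by
  rw [fF_sum hU hδ hs (be s.2.1 s.2.2)]
  refine Finset.sum_congr rfl fun j _ => ?_
  simp only [be, bF, F6_c0, F6_cT, map_sub, map_smul, smul_eq_mul]
  congr 1
  ring

private lemma F6_bf {U : Mat} {δ : ℝ} (hU : Uᴴ * U = 1) (hδ : |δ| ≤ 1/100) (s : Fs9) (hs : ON9 U δ s.1) :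
    s.2.1.1.im • s.2.2.2 - s.2.2.1.im • s.2.1.2
      = ∑ j : Fin 4, (nn6 (sC U δ s.1) (j.natAdd 2) * bF U δ s 1 (j.natAdd 2)) • fF U δ s.1 j := by
  rw [fF_sum hU hδ hs (s.2.1.1.im • s.2.2.2 - s.2.2.1.im • s.2.1.2)]
  refine Finset.sum_congr rfl fun j _ => ?_
  simp only [bF, F6_c1, F6_cT, map_sub, map_smul, smul_eq_mul]
  congr 1
  ring

theorem nf_frame {U : Mat} {δ : ℝ} (hU : Uᴴ * U = 1) (hδ : |δ| ≤ 1/100) (s : Fs9) (hs : ON9 U δ s.1) :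
    nf s.2.1 s.2.2 = ((sC U δ s.1)⁻¹ * bF U δ s 1 3) • fF U δ s.1 0
      - ((sC U δ s.1)⁻¹ * bF U δ s 1 2) • fF U δ s.1 1 + bF U δ s 1 5 • fF U δ s.1 2
      - bF U δ s 1 4 • fF U δ s.1 3 := by
  have h0' : iL (fF U δ s.1 0) = fF U δ s.1 1 := rfl
  have h1' : iL (fF U δ s.1 1) = - fF U δ s.1 0 := F6_iL2 _
  have h2' : iL (fF U δ s.1 2) = fF U δ s.1 3 := rfl
  have h3' : iL (fF U δ s.1 3) = - fF U δ s.1 2 := F6_iL2 _
  have e2 : (Fin.natAdd 2 (0 : Fin 4)) = (2 : Fin 6) := rfl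
  have e3 : (Fin.natAdd 2 (1 : Fin 4)) = (3 : Fin 6) := rfl
  have e4 : (Fin.natAdd 2 (2 : Fin 4)) = (4 : Fin 6) := rfl
  have e5 : (Fin.natAdd 2 (3 : Fin 4)) = (5 : Fin 6) := rfl
  have n2 : nn6 (sC U δ s.1) 2 = (sC U δ s.1)⁻¹ := rfl
  have n3 : nn6 (sC U δ s.1) 3 = (sC U δ s.1)⁻¹ := rfl
  have n4 : nn6 (sC U δ s.1) 4 = 1 := rfl
  have n5 : nn6 (sC U δ s.1) 5 = 1 := rfl
  rw [nf, F6_bf hU hδ s hs]
  simp only [Fin.sum_univ_four, e2, e3, e4, e5, n2, n3, n4, n5, map_add, map_smul, h0', h1', h2', h3', one_mul,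
    smul_neg]
  abel

theorem qq_frame {U : Mat} {δ : ℝ} (hU : Uᴴ * U = 1) (hδ : |δ| ≤ 1/100) (s : Fs9) (hs : ON9 U δ s.1) :
    qq s.2.1 s.2.2 = tauS U δ s • vF U δ s.1
      + ∑ j, qv (sC U δ s.1) (BS U δ s) j • fF U δ s.1 j := by
  have e2 : (Fin.natAdd 2 (0 : Fin 4)) = (2 : Fin 6) := rfl
  have e3 : (Fin.natAdd 2 (1 : Fin 4)) = (3 : Fin 6) := rfl
  have e4 : (Fin.natAdd 2 (2 : Fin 4)) = (4 : Fin 6) := rfl
  have e5 : (Fin.natAdd 2 (3 : Fin 4)) = (5 : Fin 6) := rfl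
  have n2 : nn6 (sC U δ s.1) 2 = (sC U δ s.1)⁻¹ := rfl
  have n3 : nn6 (sC U δ s.1) 3 = (sC U δ s.1)⁻¹ := rfl
  have n4 : nn6 (sC U δ s.1) 4 = 1 := rfl
  have n5 : nn6 (sC U δ s.1) 5 = 1 := rfl
  have hv : vF U δ s.1 = fF U δ s.1 0 := rfl
  have x03 : exc 0 3 = false := by decide
  have x12 : exc 1 2 = false := by decide
  have x04 : exc 0 4 = false := by decide
  have x15 : exc 1 5 = false := by decide
  have x05 : exc 0 5 = false := by decide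
  have x14 : exc 1 4 = false := by decide
  have q0 : qv (sC U δ s.1) (BS U δ s) 0 = 0 := rfl
  have q1 : qv (sC U δ s.1) (BS U δ s) 1
      = (sC U δ s.1)⁻¹ * ((1/2 : ℝ) * bF U δ s 0 3 - (1/4 : ℝ) * bF U δ s 1 2) := by
    simp [qv, BS, x03, x12]
  have q2 : qv (sC U δ s.1) (BS U δ s) 2 = (1/2 : ℝ) * bF U δ s 0 4 + (1/4 : ℝ) * bF U δ s 1 5 := by
    simp [qv, BS, x04, x15]
  have q3 : qv (sC U δ s.1) (BS U δ s) 3 = (1/2 : ℝ) * bF U δ s 0 5 - (1/4 : ℝ) * bF U δ s 1 4 := by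
    simp [qv, BS, x05, x14]
  rw [qq, be_frame hU hδ s hs, nf_frame hU hδ s hs]
  simp only [Fin.sum_univ_four, e2, e3, e4, e5, n2, n3, n4, n5, q0, q1, q2, q3, tauS, hv, one_mul]
  module

theorem om_frame {U : Mat} {δ : ℝ} (hU : Uᴴ * U = 1) (hδ : |δ| ≤ 1/100) (s : Fs9) (hs : ON9 U δ s.1) :
    omL s.1.1 s.2.1.2 s.2.2.2 = omb (sC U δ s.1) (BS U δ s) := by
  have h0' : iL (fF U δ s.1 0) = fF U δ s.1 1 := rfl
  have h1' : iL (fF U δ s.1 1) = - fF U δ s.1 0 := F6_iL2 _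
  have h2' : iL (fF U δ s.1 2) = fF U δ s.1 3 := rfl
  have h3' : iL (fF U δ s.1 3) = - fF U δ s.1 2 := F6_iL2 _
  have e2 : (Fin.natAdd 2 (0 : Fin 4)) = (2 : Fin 6) := rfl
  have e3 : (Fin.natAdd 2 (1 : Fin 4)) = (3 : Fin 6) := rfl
  have e4 : (Fin.natAdd 2 (2 : Fin 4)) = (4 : Fin 6) := rfl
  have e5 : (Fin.natAdd 2 (3 : Fin 4)) = (5 : Fin 6) := rfl
  have n2 : nn6 (sC U δ s.1) 2 = (sC U δ s.1)⁻¹ := rfl
  have n3 : nn6 (sC U δ s.1) 3 = (sC U δ s.1)⁻¹ := rfl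
  have n4 : nn6 (sC U δ s.1) 4 = 1 := rfl
  have n5 : nn6 (sC U δ s.1) 5 = 1 := rfl
  have x23 : exc 2 3 = false := by decide
  have x45 : exc 4 5 = false := by decide
  have c2 (y : Y9) : h0 s.1.1 (fF U δ s.1 0) y.2 = cmp U δ s.1 y 2 := (F6_cT U δ s.1 y 0).symm
  have c3 (y : Y9) : h0 s.1.1 (fF U δ s.1 1) y.2 = cmp U δ s.1 y 3 := (F6_cT U δ s.1 y 1).symm
  have c4 (y : Y9) : h0 s.1.1 (fF U δ s.1 2) y.2 = cmp U δ s.1 y 4 := (F6_cT U δ s.1 y 2).symm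
  have c5 (y : Y9) : h0 s.1.1 (fF U δ s.1 3) y.2 = cmp U δ s.1 y 5 := (F6_cT U δ s.1 y 3).symm
  have ho : omL s.1.1 s.2.1.2 s.2.2.2 = h0 s.1.1 (iL s.2.1.2) s.2.2.2 := rfl
  rw [ho, F6_sum hU hδ hs s.2.1]
  simp only [Fin.sum_univ_four, e2, e3, e4, e5, n2, n3, n4, n5, map_add, map_smul, h0', h1', h2', h3', map_neg,
    _root_.add_apply, _root_.smul_apply, _root_.neg_apply, c2, c3, c4, c5, smul_eq_mul, omb, BS, x23, x45, bF]
  simp only [Bool.false_eq_true, if_false]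
  ring

theorem bb_frame {U : Mat} {δ : ℝ} (hU : Uᴴ * U = 1) (hδ : |δ| ≤ 1/100) (s : Fs9) (hs : ON9 U δ s.1) (T : V →L[ℝ] V)
    (hT : ∀ u v, h0 s.1.1 (T u) v = - h0 s.1.1 u (T v)) :
    h0 s.1.1 (T s.2.2.2) s.2.1.2
      = bb (sC U δ s.1) (BS U δ s) (fun k l => h0 s.1.1 (T (fF U δ s.1 l)) (fF U δ s.1 k)) := by
  set n : Fin 4 → ℝ := fun k => nn6 (sC U δ s.1) (k.natAdd 2) with hn
  set a : Fin 4 → ℝ := fun k => cmp U δ s.1 s.2.1 (k.natAdd 2) with ha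
  set b : Fin 4 → ℝ := fun k => cmp U δ s.1 s.2.2 (k.natAdd 2) with hb
  set r : Fin 4 → Fin 4 → ℝ := fun k l => h0 s.1.1 (T (fF U δ s.1 l)) (fF U δ s.1 k) with hr
  have hskew : ∀ k l, r k l = - r l k := fun k l => by
    simp only [hr]; rw [hT, h0_symm]
  have hexc : ∀ k l : Fin 4, exc (k.natAdd 2) (l.natAdd 2) = false := by decide
  have e1 : h0 s.1.1 (T s.2.2.2) s.2.1.2 = ∑ k, ∑ l, n k * n l * (a k * b l * r k l) := by
    have hy : s.2.1.2 = ∑ k, (n k * a k) • fF U δ s.1 k := F6_sum hU hδ hs s.2.1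
    have hp : s.2.2.2 = ∑ k, (n k * b k) • fF U δ s.1 k := F6_sum hU hδ hs s.2.2
    rw [hy, hp]
    simp only [map_sum, map_smul, _root_.sum_apply, _root_.smul_apply, smul_eq_mul, Finset.mul_sum, hr]
    refine Finset.sum_congr rfl fun k _ => Finset.sum_congr rfl fun l _ => ?_
    ring
  have e2 : bb (sC U δ s.1) (BS U δ s) r
      = (1/2) * ∑ k, ∑ l, n k * n l * ((a k * b l - a l * b k) * r k l) := by
    simp only [bb, BS, hexc, bF, smul_eq_mul, hn, ha, hb]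
    simp only [Bool.false_eq_true, if_false]
  have e3 : ∑ k, ∑ l, n k * n l * (a l * b k * r k l) = - ∑ k, ∑ l, n k * n l * (a k * b l * r k l) := by
    rw [Finset.sum_comm, ← Finset.sum_neg_distrib]
    refine Finset.sum_congr rfl fun k _ => ?_
    rw [← Finset.sum_neg_distrib]
    refine Finset.sum_congr rfl fun l _ => ?_
    rw [hskew k l]; ring
  rw [e1, e2]
  have e4 : ∑ k, ∑ l, n k * n l * ((a k * b l - a l * b k) * r k l)
      = ∑ k, ∑ l, n k * n l * (a k * b l * r k l) - ∑ k, ∑ l, n k * n l * (a l * b k * r k l) := by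
    rw [← Finset.sum_sub_distrib]
    refine Finset.sum_congr rfl fun k _ => ?_
    rw [← Finset.sum_sub_distrib]
    refine Finset.sum_congr rfl fun l _ => ?_
    ring
  rw [e4, e3]; ring

end Pool.Agent.Helper81.M9
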