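import Pool.Agent.Helper81.M9.St.B2
import Pool.Agent.Helper81.M9.St.F6
import Pool.Agent.Helper46.M8.Ns

/-!
# M9, piece F7
-/

open Filter Metric Module Set
open scoped Topology ContDiff Matrix Matrix.Norms.Elementwise ComplexConjugate

set_option maxSynthPendingDepth 3

namespace Pool.Agent.Helper81.M9
open Pool.Agent.Helper20.PC Pool.Agent.Helper20.HP Pool.Agent.Helper20.M8 Pool.Agent.Helper20.MB
open Pool.Agent.Helper46.M8

/-! ### F7 : `S` and `Υ` in the frame -/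

private lemma F7_FF (U : Mat) (z u : V) (ε : ℝ) :
    ε ^ 2 * FF U z u u = Fx (xc (fun i => ε * mu0 U z i u)) := by
  rw [FF_apply, ← Fsm_eq, Finset.mul_sum]
  refine Finset.sum_congr rfl fun i _ => ?_
  rw [Finset.mul_sum]
  refine Finset.sum_congr rfl fun j _ => ?_
  ring

private lemma F7_me {U : Mat} {δ : ℝ} (hU : Uᴴ * U = 1) (hδ : |δ| ≤ 1/100) (ε : ℝ) (s : Fs9)
    (hs : ON9 U δ s.1) (i : Fin 8) :
    ε * mu0 U s.1.1 i (be s.2.1 s.2.2)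
      = me (sC U δ s.1) ε (fun j i => sU U δ j i s.1) (c1S U δ ε s) (BS U δ s) i := by
  rw [be_frame hU hδ s hs, map_sum]
  simp only [map_smul, Fin.sum_univ_four, smul_eq_mul]
  have e0 : (Fin.natAdd 2 (0 : Fin 4) : Fin 6) = 2 := rfl
  have e1 : (Fin.natAdd 2 (1 : Fin 4) : Fin 6) = 3 := rfl
  have e2 : (Fin.natAdd 2 (2 : Fin 4) : Fin 6) = 4 := rfl
  have e3 : (Fin.natAdd 2 (3 : Fin 4) : Fin 6) = 5 := rfl
  have n2 : nn6 (sC U δ s.1) 2 = (sC U δ s.1)⁻¹ := rfl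
  have n3 : nn6 (sC U δ s.1) 3 = (sC U δ s.1)⁻¹ := rfl
  have n4 : nn6 (sC U δ s.1) 4 = 1 := rfl
  have n5 : nn6 (sC U δ s.1) 5 = 1 := rfl
  have b3 : BS U δ s 0 3 = bF U δ s 0 3 := by simp [BS, exc]
  have b4 : BS U δ s 0 4 = bF U δ s 0 4 := by simp [BS, exc]
  have b5 : BS U δ s 0 5 = bF U δ s 0 5 := by simp [BS, exc]
  rw [e0, e1, e2, e3, n2, n3, n4, n5]
  simp only [me, c1S, sU, smul_eq_mul, b3, b4, b5]
  ring

private lemma F7_mf {U : Mat} {δ : ℝ} (hU : Uᴴ * U = 1) (hδ : |δ| ≤ 1/100) (ε : ℝ) (s : Fs9)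
    (hs : ON9 U δ s.1) (i : Fin 8) :
    ε * mu0 U s.1.1 i (nf s.2.1 s.2.2)
      = mf (sC U δ s.1) ε (fun j i => sU U δ j i s.1) (c2S U δ ε s) (BS U δ s) i := by
  rw [nf_frame hU hδ s hs]
  simp only [map_smul, map_sub, map_add, smul_eq_mul]
  have b3 : BS U δ s 1 2 = bF U δ s 1 2 := by simp [BS, exc]
  have b4 : BS U δ s 1 4 = bF U δ s 1 4 := by simp [BS, exc]
  have b5 : BS U δ s 1 5 = bF U δ s 1 5 := by simp [BS, exc]
  simp only [mf, c2S, sU, smul_eq_mul, b3, b4, b5]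
  ring

private lemma F7_gram {U : Mat} {δ : ℝ} (hU : Uᴴ * U = 1) (hδ : |δ| ≤ 1/100) (s : Fr9)
    (hs : ON9 U δ s) (a b : Fin 4) :
    h0 s.1 (fF U δ s a) (fF U δ s b)
      = if a = b then (nn6 (sC U δ s) (a.natAdd 2))⁻¹ else 0 := by
  have h := fE_gram hU hδ hs (a.natAdd 2) (b.natAdd 2)
  have hE : ∀ c : Fin 4, fE U δ s (c.natAdd 2) = (0, fF U δ s c) := by
    intro c; fin_cases c <;> rfl
  rw [hE a, hE b, kL9_apply] at h
  have hab : ((a.natAdd 2 : Fin 6) = b.natAdd 2) ↔ a = b := by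
    fin_cases a <;> fin_cases b <;> simp
  simp only [hab] at h
  simpa using h

private lemma F7_ef {U : Mat} {δ : ℝ} (s : Fs9) : ef s.2.1 s.2.2 = BS U δ s 0 1 := by
  have b : BS U δ s 0 1 = bF U δ s 0 1 := by simp [BS, exc]
  rw [b]
  simp only [ef, bF, cmp, fE, kL9_apply]
  simp

theorem SS_frame9 {U : Mat} {δ : ℝ} (hU : Uᴴ * U = 1) (hδ : |δ| ≤ 1/100) (ε lam : ℝ) (s : Fs9) (hs : ON9 U δ s.1) :
    S9 U δ ε lam s.1.1 s.2.1 s.2.2 s.2.1 s.2.2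
      = SG9 (sC U δ s.1) ε lam (fun j i => sU U δ j i s.1) (fun i j => sH U δ i j s.1)
          (fun i k l => sB U δ ε i k l s.1) (c1S U δ ε s) (c2S U δ ε s) (BS U δ s)
        - 2 * (sC U δ s.1)⁻¹ * bF U δ s 1 3 ^ 2 - tauS U δ s ^ 2 * sH U δ 0 0 s.1
        + 2 * tauS U δ s * up (sC U δ s.1) (fun i j => sH U δ i j s.1)
            (fun i k l => sB U δ ε i k l s.1) (BS U δ s) := by
  have hC : sC U δ s.1 ≠ 0 := by
    have := (sC_pos hU hδ hs).1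
    intro h; rw [h] at this; norm_num at this
  have hv : vF U δ s.1 = fF U δ s.1 0 := rfl
  have hq := qq_frame hU hδ s hs
  have hn := nf_frame hU hδ s hs
  have hbb : ∀ i, h0 s.1.1 (BL U δ ε s.1.1 (fF U δ s.1 i) s.2.2.2) s.2.1.2
      = bb (sC U δ s.1) (BS U δ s) (fun k l => sB U δ ε i k l s.1) := fun i =>
    bb_frame hU hδ s hs (BL U δ ε s.1.1 (fF U δ s.1 i)) (fun u v => BL_skew hU δ ε s.1.1 _ u v)
  have h1 : h0 s.1.1 (BL U δ ε s.1.1 (qq s.2.1 s.2.2) s.2.2.2) s.2.1.2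
      = tauS U δ s * bb (sC U δ s.1) (BS U δ s) (fun k l => sB U δ ε 0 k l s.1)
        + ∑ j, qv (sC U δ s.1) (BS U δ s) j
          * bb (sC U δ s.1) (BS U δ s) (fun k l => sB U δ ε j k l s.1) := by
    rw [hq, hv]
    simp only [map_add, map_smul, map_sum, _root_.add_apply, _root_.smul_apply, _root_.sum_apply,
      smul_eq_mul, hbb]
  have hsy : ∀ i j, sH U δ i j s.1 = sH U δ j i s.1 := fun i j => hm_symm hU hδ _ _ _
  have h2 : hm U δ s.1.1 (qq s.2.1 s.2.2) (qq s.2.1 s.2.2)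
      = tauS U δ s ^ 2 * sH U δ 0 0 s.1
        + 2 * tauS U δ s * (∑ j, qv (sC U δ s.1) (BS U δ s) j * sH U δ 0 j s.1)
        + ∑ i, ∑ j, qv (sC U δ s.1) (BS U δ s) i * qv (sC U δ s.1) (BS U δ s) j
            * sH U δ i j s.1 := by
    have hH : ∀ i j, hm U δ s.1.1 (fF U δ s.1 i) (fF U δ s.1 j) = sH U δ i j s.1 := fun _ _ => rfl
    rw [hq, hv]
    simp only [map_add, map_smul, map_sum, _root_.add_apply, _root_.smul_apply, _root_.sum_apply,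
      smul_eq_mul, hH, Fin.sum_univ_four]
    rw [hsy 1 0, hsy 2 0, hsy 3 0]
    ring
  have h3 : h0 s.1.1 (nf s.2.1 s.2.2) (nf s.2.1 s.2.2)
      = (sC U δ s.1)⁻¹ * bF U δ s 1 3 ^ 2 + (sC U δ s.1)⁻¹ * BS U δ s 1 2 ^ 2
        + BS U δ s 1 4 ^ 2 + BS U δ s 1 5 ^ 2 := by
    have g := F7_gram hU hδ s.1 hs
    have b3 : BS U δ s 1 2 = bF U δ s 1 2 := by simp [BS, exc]
    have b4 : BS U δ s 1 4 = bF U δ s 1 4 := by simp [BS, exc]
    have b5 : BS U δ s 1 5 = bF U δ s 1 5 := by simp [BS, exc]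
    have e0 : (Fin.natAdd 2 (0 : Fin 4) : Fin 6) = 2 := rfl
    have e1 : (Fin.natAdd 2 (1 : Fin 4) : Fin 6) = 3 := rfl
    have e2 : (Fin.natAdd 2 (2 : Fin 4) : Fin 6) = 4 := rfl
    have e3 : (Fin.natAdd 2 (3 : Fin 4) : Fin 6) = 5 := rfl
    have n2 : nn6 (sC U δ s.1) 2 = (sC U δ s.1)⁻¹ := rfl
    have n3 : nn6 (sC U δ s.1) 3 = (sC U δ s.1)⁻¹ := rfl
    have n4 : nn6 (sC U δ s.1) 4 = 1 := rfl
    have n5 : nn6 (sC U δ s.1) 5 = 1 := rfl
    have g00 : h0 s.1.1 (fF U δ s.1 0) (fF U δ s.1 0) = sC U δ s.1 := rfl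
    have g11 : h0 s.1.1 (fF U δ s.1 1) (fF U δ s.1 1) = sC U δ s.1 := by
      rw [g, if_pos rfl, e1, n3, inv_inv]
    have g22 : h0 s.1.1 (fF U δ s.1 2) (fF U δ s.1 2) = 1 := by
      rw [g, if_pos rfl, e2, n4, inv_one]
    have g33 : h0 s.1.1 (fF U δ s.1 3) (fF U δ s.1 3) = 1 := by
      rw [g, if_pos rfl, e3, n5, inv_one]
    have gne : ∀ a b : Fin 4, a ≠ b → h0 s.1.1 (fF U δ s.1 a) (fF U δ s.1 b) = 0 := by
      intro a b hab
      rw [g, if_neg hab]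
    rw [hn]
    simp only [map_add, map_sub, map_smul, _root_.add_apply, _root_.sub_apply, _root_.smul_apply,
      smul_eq_mul]
    rw [gne 0 1 (by decide), gne 0 2 (by decide), gne 0 3 (by decide), gne 1 0 (by decide),
      gne 1 2 (by decide), gne 1 3 (by decide), gne 2 0 (by decide), gne 2 1 (by decide),
      gne 2 3 (by decide), gne 3 0 (by decide), gne 3 1 (by decide), gne 3 2 (by decide),
      g00, g11, g22, g33, b3, b4, b5]
    field_simp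
    ring
  have h4 := om_frame hU hδ s hs
  have h5 := F7_ef (U := U) (δ := δ) s
  have h6 := F7_me hU hδ ε s hs
  have h7 := F7_mf hU hδ ε s hs
  have h8 := F7_FF U s.1.1 (be s.2.1 s.2.2) ε
  have h9 := F7_FF U s.1.1 (nf s.2.1 s.2.2) ε
  rw [show (fun i => ε * mu0 U s.1.1 i (be s.2.1 s.2.2)) = _ from funext h6] at h8
  rw [show (fun i => ε * mu0 U s.1.1 i (nf s.2.1 s.2.2)) = _ from funext h7] at h9
  have h66 := h6 6
  have h76 := h7 6
  simp only [S9, SG9, up, smul_eq_mul]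
  rw [h1, h2, h3, h4, h5, ← h8, ← h9, ← h66, ← h76]
  ring

private lemma F7_Lam (z v : V) (y p : Y9) : kL9 z y (LamL z v p) = - h0 z v (qq y p) := by
  have hii : ∀ x : V, iL (iL x) = -x := by
    intro x
    simp only [iL_apply, smul_smul, Complex.I_mul_I, neg_smul, one_smul]
  have h1 : ∀ x : V, h0 z v (iL x) = - h0 z (iL v) x := by
    intro x
    have h := h0_iL z v (iL x)
    rw [hii, map_neg] at h
    rw [← h]
  have h2 : h0 z y.2 v = h0 z v y.2 := h0_symm z _ _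
  have h3 : h0 z y.2 (iL v) = h0 z (iL v) y.2 := h0_symm z _ _
  rw [kL9_apply, LamL_apply]
  simp only [qq, be, nf, map_add, map_sub, map_smul, map_neg, smul_eq_mul, h1, h2, h3]
  ring

theorem up_frame9 {U : Mat} {δ : ℝ} (hU : Uᴴ * U = 1) (hδ : |δ| ≤ 1/100) (ε : ℝ) (s : Fs9) (hs : ON9 U δ s.1) :
    kL9 s.1.1 s.2.1 (UpL U δ ε s.1.1 (s.1.2.1 0) s.2.2)
      = up (sC U δ s.1) (fun i j => sH U δ i j s.1) (fun i k l => sB U δ ε i k l s.1) (BS U δ s)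
        - tauS U δ s * sH U δ 0 0 s.1 := by
  have hv : vF U δ s.1 = fF U δ s.1 0 := rfl
  have hw : hatL U δ s.1.1 (s.1.2.1 0) = fF U δ s.1 0 := rfl
  have hq := qq_frame hU hδ s hs
  have hbb : h0 s.1.1 (BL U δ ε s.1.1 (fF U δ s.1 0) s.2.2.2) s.2.1.2
      = bb (sC U δ s.1) (BS U δ s) (fun k l => sB U δ ε 0 k l s.1) :=
    bb_frame hU hδ s hs (BL U δ ε s.1.1 (fF U δ s.1 0)) (fun u v => BL_skew hU δ ε s.1.1 _ u v)
  have hH : ∀ i j, hm U δ s.1.1 (fF U δ s.1 i) (fF U δ s.1 j) = sH U δ i j s.1 := fun _ _ => rfl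
  have h1 : kL9 s.1.1 s.2.1 ((0, BL U δ ε s.1.1 (fF U δ s.1 0) s.2.2.2) : Y9)
      = bb (sC U δ s.1) (BS U δ s) (fun k l => sB U δ ε 0 k l s.1) := by
    rw [kL9_apply, ← hbb, h0_symm s.1.1 s.2.1.2]
    simp
  rw [UpL, hw, map_add, h1, F7_Lam, h0_hatL hU hδ, hq, hv]
  simp only [map_add, map_smul, map_sum, smul_eq_mul, hH, up]
  ring

end Pool.Agent.Helper81.M9
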