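import Pool.Agent.Helper81.M9.Defs2
import Pool.Agent.Helper46.M8.St.LF

/-!
# M9, piece F9
-/

open Filter Metric Module Set
open scoped Topology ContDiff Matrix Matrix.Norms.Elementwise ComplexConjugate

set_option maxSynthPendingDepth 3

namespace Pool.Agent.Helper81.M9
open Pool.Agent.Helper20.PC Pool.Agent.Helper20.HP Pool.Agent.Helper20.M8 Pool.Agent.Helper20.MB
open Pool.Agent.Helper46.M8

/-! ### F9 : the master identity (pure algebra) -/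
theorem master9 (K u N N1 N2 τ τ1 τ2 υ υ1 υ2 SG2 D2 : ℝ) (v v1 v2 O O1 : Fin 3 → ℝ)
    (hN1 : N1 = 2 * ∑ k, v k * v1 k) (hN2 : N2 = 2 * ∑ k, (v1 k ^ 2 + v k * v2 k))
    (h1 : ∑ k, v k * (O k - 2 * τ * v1 k) = υ1 - τ1 * N - τ * N1)
    (h2 : ∑ k, (v1 k * (O k - 2 * τ * v1 k) + v k * (O1 k - 2 * τ1 * v1 k - 2 * τ * v2 k))
      = υ2 - τ2 * N - 2 * τ1 * N1 - τ * N2) :
    (K * u ^ 2 + 2 * u * τ * v2 0 - τ ^ 2 * ∑ k, v k * v2 k)
      + ∑ k, ((if k = 0 then u else 0) - τ * v k) * (O1 k - 2 * τ1 * v1 k - 2 * τ * v2 k)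
      + (1/4) * ∑ k, (O k - 2 * τ * v1 k) ^ 2
      + (1/2) * (SG2 - D2 - (2 * τ1 ^ 2 * N + 2 * τ * τ2 * N + 4 * τ * τ1 * N1 + τ ^ 2 * N2)
        + 2 * (τ2 * υ + 2 * τ1 * υ1 + τ * υ2))
      = K * u ^ 2 + u * O1 0 + (1/4) * ∑ k, O k ^ 2 - 2 * τ1 * u * v1 0 - τ1 ^ 2 * N
        + 2 * τ1 * υ1 + τ2 * υ + (1/2) * SG2 - (1/2) * D2 := by
  simp only [Fin.sum_univ_three] at *
  have e0 : ((0 : Fin 3) = 0) = True := by simp
  have e1 : ((1 : Fin 3) = 0) = False := by simp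
  have e2 : ((2 : Fin 3) = 0) = False := by simp
  simp only [e0, e1, e2, if_true, if_false]
  subst hN1 hN2
  linear_combination (-τ) * h2

end Pool.Agent.Helper81.M9
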