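import Pool.Agent.Helper81.M9.St.D2
import Pool.Agent.Helper81.M9.St.C2
import Pool.Agent.Helper46.M8.Ns

/-!
# M9, piece E6
-/

open Filter Metric Module Set
open scoped Topology ContDiff Matrix Matrix.Norms.Elementwise ComplexConjugate

set_option maxSynthPendingDepth 3

namespace Pool.Agent.Helper81.M9
open Pool.Agent.Helper20.PC Pool.Agent.Helper20.HP Pool.Agent.Helper20.M8 Pool.Agent.Helper20.MB
open Pool.Agent.Helper46.M8

/-! ### E6 : `Ω(W₀, V)` as a commutator -/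

/-- composition, in the form `fun x => g (f x)`. -/
private lemma E6_cmp {E F G : Type*} [NormedAddCommGroup E] [NormedSpace ℝ E]
    [NormedAddCommGroup F] [NormedSpace ℝ F] [NormedAddCommGroup G] [NormedSpace ℝ G]
    {g : F → G} {f : E → F} {x : E} (hg : ContDiffAt ℝ ∞ g (f x)) (hf : ContDiffAt ℝ ∞ f x) :
    ContDiffAt ℝ ∞ (fun x => g (f x)) x := hg.comp x hf

private lemma E6_cA {U : Mat} {δ : ℝ} (hU : Uᴴ * U = 1) (hδ : |δ| ≤ 1/100) (ε : ℝ) (z : V) :
    ContDiffAt ℝ ∞ (fun z' => AL9 U δ ε z') z :=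
  E6_cmp (g := fun q : Pm × V => AL9 q.1.1 q.1.2.1 q.1.2.2 q.2)
    (f := fun z' : V => (((U, δ, ε) : Pm), z'))
    (contDiffAt_AL9 (q := (((U, δ, ε) : Pm), z)) hU hδ) (contDiffAt_const.prodMk contDiffAt_id)

private lemma E6_cH {U : Mat} {δ : ℝ} (hU : Uᴴ * U = 1) (hδ : |δ| ≤ 1/100) (z : V) :
    ContDiffAt ℝ ∞ (fun z' => hatL U δ z') z :=
  E6_cmp (g := fun q : Pm × V => hatL q.1.1 q.1.2.1 q.2)
    (f := fun z' : V => (((U, δ, 0) : Pm), z'))
    (contDiffAt_hatL (q := (((U, δ, 0) : Pm), z)) hU hδ) (contDiffAt_const.prodMk contDiffAt_id)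

private lemma E6_dA {U : Mat} {δ : ℝ} (hU : Uᴴ * U = 1) (hδ : |δ| ≤ 1/100) (ε : ℝ) (z : V) :
    DifferentiableAt ℝ (AL9 U δ ε) z := (E6_cA hU hδ ε z).differentiableAt (by simp)

private lemma E6_dH {U : Mat} {δ : ℝ} (hU : Uᴴ * U = 1) (hδ : |δ| ≤ 1/100) (z : V) :
    DifferentiableAt ℝ (hatL U δ) z := (E6_cH hU hδ z).differentiableAt (by simp)

/-- the derivative of `(x, w) ↦ A_x(f(x, w)) y`. -/
private lemma E6_fderiv {A : V → V →L[ℝ] Y9 →L[ℝ] Y9} {f : V × V → V} {z w : V} (y : Y9)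
    (hA : DifferentiableAt ℝ A z) (hf : DifferentiableAt ℝ f (z, w)) (t : V × V) :
    fderiv ℝ (fun s : V × V => A s.1 (f s) y) (z, w) t
      = fderiv ℝ A z t.1 (f (z, w)) y + A z (fderiv ℝ f (z, w) t) y := by
  have hA1 : HasFDerivAt (fun s : V × V => A s.1)
      ((fderiv ℝ A z) ∘L (ContinuousLinearMap.fst ℝ V V)) (z, w) := by
    have h1 : HasFDerivAt A (fderiv ℝ A z) ((z, w) : V × V).1 := hA.hasFDerivAt
    exact h1.comp (z, w) (hasFDerivAt_fst)
  have h2 := (hA1.clm_apply hf.hasFDerivAt).clm_apply (hasFDerivAt_const y (z, w))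
  rw [h2.fderiv]
  simp only [ContinuousLinearMap.comp_zero, zero_add, _root_.add_apply,
    ContinuousLinearMap.flip_apply, ContinuousLinearMap.comp_apply, ContinuousLinearMap.coe_fst']
  abel

private lemma E6_gen {A : V → V →L[ℝ] Y9 →L[ℝ] Y9} {L : V → V →L[ℝ] V} {z w : V} (y : Y9)
    (hA : DifferentiableAt ℝ A z) (hL : DifferentiableAt ℝ L z) {X X' : V × V → V × V} {ws : V}
    (h1 : (X (z, w)).1 = w) (h3 : lie X (fun s => L s.1 s.2) (z, w) = ws)
    (h2 : X' (z, w) = (L z w, ws)) :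
    OmV A z w (L z w) y = lie X (fun s => A s.1 (L s.1 s.2) y) (z, w)
        - lie X' (fun s => A s.1 s.2 y) (z, w) + A z w (A z (L z w) y)
        - A z (L z w) (A z w y) := by
  have hHd : DifferentiableAt ℝ (fun s : V × V => L s.1 s.2) (z, w) := by
    have h1 : DifferentiableAt ℝ (fun s : V × V => L s.1) (z, w) := by
      have h2 : DifferentiableAt ℝ L ((z, w) : V × V).1 := hL
      exact h2.comp (z, w) differentiableAt_fst
    exact h1.clm_apply differentiableAt_snd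
  have e1 := E6_fderiv (f := fun s : V × V => L s.1 s.2) y hA hHd (X (z, w))
  have e2 := E6_fderiv (w := w) (f := fun s : V × V => s.2) y hA differentiableAt_snd (X' (z, w))
  unfold lie at h3 ⊢
  rw [e1, e2, h3, h1, h2, fderiv_snd]
  simp only [OmV, _root_.sub_apply, _root_.add_apply, ContinuousLinearMap.comp_apply,
    ContinuousLinearMap.coe_snd']
  abel

theorem OmV_HC {U : Mat} {δ : ℝ} (hU : Uᴴ * U = 1) (hδ : |δ| ≤ 1/100) (ε : ℝ) (z w : V) (y : Y9) :
    OmV (AL9 U δ ε) z w (hatL U δ z w) y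
      = lie (XHt U δ) (fun s => AL9 U δ ε s.1 (hatL U δ s.1 s.2) y) (z, w)
        - lie (XCt U δ) (fun s => AL9 U δ ε s.1 s.2 y) (z, w)
        + AL9 U δ ε z w (AL9 U δ ε z (hatL U δ z w) y)
        - AL9 U δ ε z (hatL U δ z w) (AL9 U δ ε z w y) :=
  E6_gen y (E6_dA hU hδ ε z) (E6_dH hU hδ z) rfl (lie_hat_H hU hδ (z, w)) rfl

end Pool.Agent.Helper81.M9
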