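import Pool.Agent.Helper81.M9.St.D4
import Pool.Agent.Helper81.M9.St.E1
import Pool.Agent.Helper46.M8.Ns

/-!
# M9, piece E7
-/

open Filter Metric Module Set
open scoped Topology ContDiff Matrix Matrix.Norms.Elementwise ComplexConjugate

set_option maxSynthPendingDepth 3

namespace Pool.Agent.Helper81.M9
open Pool.Agent.Helper20.PC Pool.Agent.Helper20.HP Pool.Agent.Helper20.M8 Pool.Agent.Helper20.MB
open Pool.Agent.Helper46.M8

private lemma E7_mom {U : Mat} {δ : ℝ} (hU : Uᴴ * U = 1) (hδ : |δ| ≤ 1/100) (i : Fin 8) (s : V × V) :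
    DifferentiableAt ℝ (fun s : V × V => momL U δ s.1 i s.2) s := by
  have h1 : ContDiffAt ℝ ∞ (fun q : Pm × V => momL q.1.1 q.1.2.1 q.2 i) ((U, δ, 0), s.1) :=
    contDiffAt_momL (q := ((U, δ, 0), s.1)) hU hδ i
  have h2 : ContDiffAt ℝ ∞ (fun s : V × V => (((U, δ, 0), s.1) : Pm × V)) s :=
    contDiffAt_const.prodMk contDiffAt_fst
  have h3 : ContDiffAt ℝ ∞ ((fun q : Pm × V => momL q.1.1 q.1.2.1 q.2 i) ∘
      (fun s : V × V => (((U, δ, 0), s.1) : Pm × V))) s := h1.comp s h2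
  exact (h3.differentiableAt (by simp)).clm_apply differentiableAt_snd

private lemma E7_hat {U : Mat} {δ : ℝ} (hU : Uᴴ * U = 1) (hδ : |δ| ≤ 1/100) (s : V × V) :
    DifferentiableAt ℝ (fun s : V × V => hatL U δ s.1 s.2) s := by
  have h1 : ContDiffAt ℝ ∞ (fun q : Pm × V => hatL q.1.1 q.1.2.1 q.2) ((U, δ, 0), s.1) :=
    contDiffAt_hatL (q := ((U, δ, 0), s.1)) hU hδ
  have h2 : ContDiffAt ℝ ∞ (fun s : V × V => (((U, δ, 0), s.1) : Pm × V)) s :=
    contDiffAt_const.prodMk contDiffAt_fst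
  have h3 : ContDiffAt ℝ ∞ ((fun q : Pm × V => hatL q.1.1 q.1.2.1 q.2) ∘
      (fun s : V × V => (((U, δ, 0), s.1) : Pm × V))) s := h1.comp s h2
  exact (h3.differentiableAt (by simp)).clm_apply differentiableAt_snd

/-- the product rule for one term. -/
private lemma E7_term {U : Mat} {δ : ℝ} (hU : Uᴴ * U = 1) (hδ : |δ| ≤ 1/100) (c : ℝ) (i j : Fin 8)
    (z w y : V) :
    HasFDerivAt (fun s : V × V => (c * momL U δ s.1 j s.2) • DK U i s.1 y)
      ((c * momL U δ z j w) • (((fderiv ℝ (DK U i) z).flip y).comp (ContinuousLinearMap.fst ℝ V V))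
        + (c • fderiv ℝ (fun s : V × V => momL U δ s.1 j s.2) (z, w)).smulRight (DK U i z y))
      (z, w) := by
  have h1 : HasFDerivAt (fun s : V × V => c * momL U δ s.1 j s.2)
      (c • fderiv ℝ (fun s : V × V => momL U δ s.1 j s.2) (z, w)) (z, w) :=
    (E7_mom hU hδ j (z, w)).hasFDerivAt.const_mul c
  have h2 : HasFDerivAt (fun s : V × V => DK U i s.1)
      ((fderiv ℝ (DK U i) z).comp (ContinuousLinearMap.fst ℝ V V)) (z, w) :=
    HasFDerivAt.comp (z, w) (hasFDerivAt_DK U i z) hasFDerivAt_fst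
  have h3 := h2.clm_apply (hasFDerivAt_const y (z, w))
  have h4 := h1.smul h3
  refine h4.congr_fderiv ?_
  ext v <;> simp

/-- the derivative of a sum. -/
private lemma E7_sum {U : Mat} {δ : ℝ} (hU : Uᴴ * U = 1) (hδ : |δ| ≤ 1/100) (c : Fin 8 → Fin 8 → ℝ)
    (X : V × V → V × V) (z w y : V) :
    lie X (fun s => ∑ i, ∑ j, (c i j * momL U δ s.1 j s.2) • DK U i s.1 y) (z, w)
      = ∑ i, ∑ j, ((c i j * momL U δ z j w) • fderiv ℝ (DK U i) z (X (z, w)).1 y
        + (c i j * lie X (fun s : V × V => momL U δ s.1 j s.2) (z, w)) • DK U i z y) := by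
  have h : HasFDerivAt (fun s : V × V => ∑ i, ∑ j, (c i j * momL U δ s.1 j s.2) • DK U i s.1 y)
      (∑ i, ∑ j, ((c i j * momL U δ z j w) • (((fderiv ℝ (DK U i) z).flip y).comp
          (ContinuousLinearMap.fst ℝ V V))
        + (c i j • fderiv ℝ (fun s : V × V => momL U δ s.1 j s.2) (z, w)).smulRight (DK U i z y)))
      (z, w) :=
    HasFDerivAt.fun_sum fun i _ => HasFDerivAt.fun_sum fun j _ => E7_term hU hδ (c i j) i j z w y
  unfold lie
  rw [h.fderiv]
  simp only [_root_.sum_apply, _root_.add_apply, _root_.smul_apply,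
    ContinuousLinearMap.comp_apply, ContinuousLinearMap.flip_apply, ContinuousLinearMap.coe_fst',
    ContinuousLinearMap.smulRight_apply, smul_eq_mul]

private lemma E7_DKc (U : Mat) (δ : ℝ) (z w y : V) :
    DKc U δ z w y = ∑ i, ∑ j, (Cm δ i j * momL U δ z j w) • DK U i z y := by
  simp only [DKc, _root_.sum_apply, _root_.smul_apply]

private lemma E7_DKa (U : Mat) (δ : ℝ) (z w y : V) :
    DKa U δ z w y = ∑ i, (C0 i i * momL U δ z i w) • DK U i z y := by
  simp only [DKa, _root_.sum_apply, _root_.smul_apply]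

private lemma E7_C0 (i j : Fin 8) (h : i ≠ j) : C0 i j = 0 := if_neg h

private lemma E7_sumC0 (f : Fin 8 → Fin 8 → V) (g : Fin 8 → Fin 8 → ℝ) (i : Fin 8) :
    ∑ j, (C0 i j * g i j) • f i j = (C0 i i * g i i) • f i i := by
  rw [Finset.sum_eq_single i]
  · intro j _ hj
    rw [E7_C0 i j (Ne.symm hj), zero_mul, zero_smul]
  · intro h; exact absurd (Finset.mem_univ i) h

/-- the linear map `A ↦ D(K_{UᴴAU})(z) y`. -/
private noncomputable def E7_T (U : Mat) (z y : V) : Mat →ₗ[ℝ] V where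
  toFun A := fderiv ℝ (KA (Uᴴ * A * U)) z y
  map_add' A B := by
    funext i
    rw [Pi.add_apply, A7_fderiv, A7_fderiv, A7_fderiv]
    simp only [Matrix.mul_add, Matrix.add_mul, Matrix.add_apply]
    ring
  map_smul' r A := by
    funext i
    rw [Pi.smul_apply, A7_fderiv, A7_fderiv]
    simp only [Matrix.mul_smul, Matrix.smul_mul, Matrix.smul_apply, Complex.real_smul,
      RingHom.id_apply]
    ring

private noncomputable def E7_l (U : Mat) (z : V) (ξ : V →L[ℝ] ℝ) : Mat →ₗ[ℝ] ℝ where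
  toFun A := ξ (KA (Uᴴ * A * U) z)
  map_add' A B := by
    rw [Matrix.mul_add, Matrix.add_mul, KA_add, map_add]
  map_smul' r A := by
    rw [Matrix.mul_smul, Matrix.smul_mul, KA_smul, map_smul]
    rfl

/-- invariance, for the differentials. -/
private lemma E7_inv (U : Mat) (j : Fin 8) (z y : V) (ξ : V →L[ℝ] ℝ) :
    ∑ i, (C0 i i * ξ (KA (Uᴴ * (Bs i * Bs j - Bs j * Bs i) * U) z)) • DK U i z y
      = - ∑ i, (C0 i i * ξ (Kf U i z)) • E7_T U z y (Bs i * Bs j - Bs j * Bs i) := by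
  have h := congrArg (E7_T U z y) (C0_inv_alg j (E7_l U z ξ))
  rw [map_zero, map_sum] at h
  simp only [map_smul, map_add, smul_add, smul_smul] at h
  rw [Finset.sum_add_distrib] at h
  rw [eq_neg_iff_add_eq_zero, add_comm]
  exact h

/-- the differential of the bracket identity. -/
private lemma E7_dbr {U : Mat} (hU : Uᴴ * U = 1) (i j : Fin 8) (z y : V) :
    fderiv ℝ (DK U i) z y (Kf U j z) + DK U i z (DK U j z y)
      - (fderiv ℝ (DK U j) z y (Kf U i z) + DK U j z (DK U i z y))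
      = E7_T U z y (Bs i * Bs j - Bs j * Bs i) := by
  have h1 := (((hasFDerivAt_DK U i z).clm_apply (hasFDerivAt_Kf U j z)).sub
    ((hasFDerivAt_DK U j z).clm_apply (hasFDerivAt_Kf U i z))).fderiv
  have h2 : ((fun z => DK U i z (Kf U j z)) - (fun z => DK U j z (Kf U i z)))
      = KA (Uᴴ * (Bs i * Bs j - Bs j * Bs i) * U) := funext fun z => Kf_bracket hU i j z
  rw [h2] at h1
  have h4 := congrArg (fun L : V →L[ℝ] V => L y) h1
  change E7_T U z y (Bs i * Bs j - Bs j * Bs i) = _ at h4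
  rw [h4]
  simp only [_root_.sub_apply, _root_.add_apply, ContinuousLinearMap.comp_apply,
    ContinuousLinearMap.flip_apply]
  abel

private lemma E7_T_neg (U : Mat) (z y : V) (i j : Fin 8) :
    E7_T U z y (Bs i * Bs j - Bs j * Bs i) = - E7_T U z y (Bs j * Bs i - Bs i * Bs j) := by
  rw [← map_neg, neg_sub]

/-! ### E7 : the differential of the bracket identity -/
theorem lie_C_DKc {U : Mat} {δ : ℝ} (hU : Uᴴ * U = 1) (hδ : |δ| ≤ 1/100) (z w y : V) :
    lie (XCt U δ) (fun s => DKc U δ s.1 s.2 y) (z, w)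
      = lie (XHt U δ) (fun s => DKa U δ s.1 s.2 y) (z, w)
        - DKc U δ z w (DKa U δ z w y) + DKa U δ z w (DKc U δ z w y) := by
  -- the left-hand side
  have hL : lie (XCt U δ) (fun s => DKc U δ s.1 s.2 y) (z, w)
      = ∑ i, ∑ j, (Cm δ i j * momL U δ z j w) • fderiv ℝ (DK U i) z y (hatL U δ z w) := by
    have e : (fun s : V × V => DKc U δ s.1 s.2 y)
        = fun s => ∑ i, ∑ j, (Cm δ i j * momL U δ s.1 j s.2) • DK U i s.1 y :=
      funext fun s => E7_DKc U δ s.1 s.2 y
    rw [e, E7_sum hU hδ]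
    refine Finset.sum_congr rfl fun i _ => Finset.sum_congr rfl fun j _ => ?_
    rw [lie_C_mom hU hδ, mul_zero, zero_smul, add_zero, D2K_symm]
    rfl
  -- the derivative of `DKa`
  have hR : lie (XHt U δ) (fun s => DKa U δ s.1 s.2 y) (z, w)
      = ∑ k, (C0 k k * momL U δ z k w) • fderiv ℝ (DK U k) z y w
        + ∑ k, (C0 k k * lie (XHt U δ) (fun s : V × V => momL U δ s.1 k s.2) (z, w)) •
            DK U k z y := by
    have e : (fun s : V × V => DKa U δ s.1 s.2 y)
        = fun s => ∑ i, ∑ j, (C0 i j * momL U δ s.1 j s.2) • DK U i s.1 y := by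
      funext s
      rw [E7_DKa]
      refine Finset.sum_congr rfl fun i _ => ?_
      exact (E7_sumC0 (fun i _ => DK U i s.1 y) (fun _ j => momL U δ s.1 j s.2) i).symm
    rw [e, E7_sum hU hδ, ← Finset.sum_add_distrib]
    refine Finset.sum_congr rfl fun i _ => ?_
    rw [Finset.sum_add_distrib]
    congr 1
    · rw [E7_sumC0 (fun i _ => fderiv ℝ (DK U i) z (XHt U δ (z, w)).1 y)
        (fun _ j => momL U δ z j w) i, D2K_symm]
      rfl
    · exact E7_sumC0 (fun i _ => DK U i z y)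
        (fun _ j => lie (XHt U δ) (fun s : V × V => momL U δ s.1 j s.2) (z, w)) i
  -- the derivatives of the momenta
  have hM : ∑ k, (C0 k k * lie (XHt U δ) (fun s : V × V => momL U δ s.1 k s.2) (z, w)) •
            DK U k z y
      = ∑ i, ∑ j, ∑ k, (Cm δ i j * momL U δ z j w * (C0 k k * momL U δ z k w)) •
          E7_T U z y (Bs i * Bs k - Bs k * Bs i) := by
    have h1 : ∀ k, (C0 k k * lie (XHt U δ) (fun s : V × V => momL U δ s.1 k s.2) (z, w)) •
            DK U k z y
        = ∑ i, ∑ j, (Cm δ i j * momL U δ z j w) •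
          (C0 k k * hm U δ z w (KA (Uᴴ * (Bs k * Bs i - Bs i * Bs k) * U) z)) • DK U k z y := by
      intro k
      rw [lie_mom_H hU hδ, Finset.mul_sum, Finset.sum_smul]
      refine Finset.sum_congr rfl fun i _ => ?_
      rw [Finset.mul_sum, Finset.sum_smul]
      refine Finset.sum_congr rfl fun j _ => ?_
      rw [smul_smul]
      congr 1
      ring
    rw [Finset.sum_congr rfl fun k _ => h1 k, Finset.sum_comm]
    refine Finset.sum_congr rfl fun i _ => ?_
    rw [Finset.sum_comm]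
    refine Finset.sum_congr rfl fun j _ => ?_
    rw [← Finset.smul_sum, E7_inv U i z y (hm U δ z w), ← Finset.sum_neg_distrib, Finset.smul_sum]
    refine Finset.sum_congr rfl fun k _ => ?_
    rw [E7_T_neg U z y i k, smul_neg, smul_neg, smul_smul]
    rfl
  -- expansions
  have hV : hatL U δ z w = ∑ k, (C0 k k * momL U δ z k w) • Kf U k z := hatL_eq U δ z w
  have hW : w = ∑ i, ∑ j, (Cm δ i j * momL U δ z j w) • Kf U i z := by
    conv_lhs => rw [← sum_mom hU hδ z w, Finset.sum_comm]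
    refine Finset.sum_congr rfl fun i _ => Finset.sum_congr rfl fun j _ => ?_
    rw [Cm_symm δ j i]
  have e1 : ∑ i, ∑ j, (Cm δ i j * momL U δ z j w) • fderiv ℝ (DK U i) z y (hatL U δ z w)
      = ∑ i, ∑ j, ∑ k, (Cm δ i j * momL U δ z j w * (C0 k k * momL U δ z k w)) •
          fderiv ℝ (DK U i) z y (Kf U k z) := by
    refine Finset.sum_congr rfl fun i _ => Finset.sum_congr rfl fun j _ => ?_
    rw [hV, map_sum, Finset.smul_sum]
    refine Finset.sum_congr rfl fun k _ => ?_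
    rw [map_smul, smul_smul]
  have e2 : ∑ k, (C0 k k * momL U δ z k w) • fderiv ℝ (DK U k) z y w
      = ∑ i, ∑ j, ∑ k, (Cm δ i j * momL U δ z j w * (C0 k k * momL U δ z k w)) •
          fderiv ℝ (DK U k) z y (Kf U i z) := by
    have h1 : ∀ k, (C0 k k * momL U δ z k w) • fderiv ℝ (DK U k) z y w
        = ∑ i, ∑ j, (Cm δ i j * momL U δ z j w * (C0 k k * momL U δ z k w)) •
          fderiv ℝ (DK U k) z y (Kf U i z) := by
      intro k
      have h2 := congrArg (fderiv ℝ (DK U k) z y) hW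
      rw [h2, map_sum, Finset.smul_sum]
      refine Finset.sum_congr rfl fun i _ => ?_
      rw [map_sum, Finset.smul_sum]
      refine Finset.sum_congr rfl fun j _ => ?_
      rw [map_smul, smul_smul, mul_comm]
    rw [Finset.sum_congr rfl fun k _ => h1 k, Finset.sum_comm]
    refine Finset.sum_congr rfl fun i _ => ?_
    rw [Finset.sum_comm]
  have e3 : DKc U δ z w (DKa U δ z w y)
      = ∑ i, ∑ j, ∑ k, (Cm δ i j * momL U δ z j w * (C0 k k * momL U δ z k w)) •
          DK U i z (DK U k z y) := by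
    rw [E7_DKc, E7_DKa]
    refine Finset.sum_congr rfl fun i _ => Finset.sum_congr rfl fun j _ => ?_
    rw [map_sum, Finset.smul_sum]
    refine Finset.sum_congr rfl fun k _ => ?_
    rw [map_smul, smul_smul]
  have e4 : DKa U δ z w (DKc U δ z w y)
      = ∑ i, ∑ j, ∑ k, (Cm δ i j * momL U δ z j w * (C0 k k * momL U δ z k w)) •
          DK U k z (DK U i z y) := by
    have h1 : ∀ k, (C0 k k * momL U δ z k w) • DK U k z (DKc U δ z w y)
        = ∑ i, ∑ j, (Cm δ i j * momL U δ z j w * (C0 k k * momL U δ z k w)) •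
          DK U k z (DK U i z y) := by
      intro k
      rw [E7_DKc, map_sum, Finset.smul_sum]
      refine Finset.sum_congr rfl fun i _ => ?_
      rw [map_sum, Finset.smul_sum]
      refine Finset.sum_congr rfl fun j _ => ?_
      rw [map_smul, smul_smul, mul_comm]
    rw [E7_DKa, Finset.sum_congr rfl fun k _ => h1 k, Finset.sum_comm]
    refine Finset.sum_congr rfl fun i _ => ?_
    rw [Finset.sum_comm]
  rw [hL, hR, hM, e1, e2, e3, e4]
  simp only [← Finset.sum_add_distrib, ← Finset.sum_sub_distrib]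
  refine Finset.sum_congr rfl fun i _ => Finset.sum_congr rfl fun j _ =>
    Finset.sum_congr rfl fun k _ => ?_
  rw [← E7_dbr hU i k z y, ← smul_add, ← smul_sub, ← smul_add]
  congr 1
  abel

/-! ### `LamL` -/

private lemma E7_DKa_iL (U : Mat) (δ : ℝ) (z w v : V) :
    DKa U δ z w (iL v) = iL (DKa U δ z w v) := by
  rw [E7_DKa, E7_DKa, map_sum]
  refine Finset.sum_congr rfl fun i _ => ?_
  rw [DK_iL, map_smul]

private lemma E7_h0d (z w u : V) (f : V × V → V) (hf : DifferentiableAt ℝ f (z, w)) :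
    HasFDerivAt (fun s : V × V => h0 s.1 (f s) u)
      ((((h0 z).comp (fderiv ℝ f (z, w))
        + ((fderiv ℝ h0 z).comp (ContinuousLinearMap.fst ℝ V V)).flip (f (z, w)))).flip u)
      (z, w) := by
  have hh : HasFDerivAt (h0 : V → V →L[ℝ] V →L[ℝ] ℝ) (fderiv ℝ h0 z) (z, w).1 :=
    (contDiff_h0.differentiable (by simp) z).hasFDerivAt
  have h1 : HasFDerivAt (fun s : V × V => h0 s.1)
      ((fderiv ℝ h0 z).comp (ContinuousLinearMap.fst ℝ V V)) (z, w) :=
    hh.comp (z, w) hasFDerivAt_fst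
  have h2 := (h1.clm_apply hf.hasFDerivAt).clm_apply (hasFDerivAt_const u (z, w))
  refine h2.congr_fderiv ?_
  ext v <;> simp

private lemma E7_h0 {U : Mat} {δ : ℝ} (hU : Uᴴ * U = 1) (hδ : |δ| ≤ 1/100) (z w u : V)
    (f : V × V → V) (hf : DifferentiableAt ℝ f (z, w))
    (hf' : lie (XCt U δ) f (z, w) = DKa U δ z w (f (z, w))) :
    lie (XCt U δ) (fun s => h0 s.1 (f s) u) (z, w) = - h0 z (f (z, w)) (DKa U δ z w u) := by
  unfold lie at hf' ⊢
  rw [(E7_h0d z w u f hf).fderiv]
  have h3 := DKa_killing hU hδ z w (f (z, w)) u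
  change h0 z (fderiv ℝ f (z, w) (XCt U δ (z, w))) u
    + fderiv ℝ h0 z (hatL U δ z w) (f (z, w)) u = _
  rw [hf', h3]
  ring

theorem lie_C_Lam {U : Mat} {δ : ℝ} (hU : Uᴴ * U = 1) (hδ : |δ| ≤ 1/100) (z w : V) (y : Y9) :
    lie (XCt U δ) (fun s => LamL s.1 (hatL U δ s.1 s.2) y) (z, w)
      = (0, DKa U δ z w (LamL z (hatL U δ z w) y).2)
        - LamL z (hatL U δ z w) (0, DKa U δ z w y.2) := by
  have hd := E7_hat hU hδ (z, w)
  have hl := lie_C_hat hU hδ (z, w)
  have hdi : DifferentiableAt ℝ (fun s : V × V => iL (hatL U δ s.1 s.2)) (z, w) :=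
    iL.differentiableAt.comp (z, w) hd
  have hli : lie (XCt U δ) (fun s => iL (hatL U δ s.1 s.2)) (z, w)
      = DKa U δ z w (iL (hatL U δ z w)) := by
    rw [E7_DKa_iL]
    have h1 := (iL.hasFDerivAt.comp (z, w) hd.hasFDerivAt).fderiv
    unfold lie at hl ⊢
    change fderiv ℝ (iL ∘ fun s : V × V => hatL U δ s.1 s.2) (z, w) _ = _
    rw [h1, ContinuousLinearMap.comp_apply, hl]
  have hli' : lie (XCt U δ) (fun s : V × V => iL (hatL U δ s.1 s.2)) (z, w)
      = DKa U δ z w (iL (hatL U δ (z, w).1 (z, w).2)) := by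
    dsimp only
    exact hli
  have a1 := E7_h0 hU hδ z w y.2 (fun s : V × V => hatL U δ s.1 s.2) hd hl
  have a2 := E7_h0 hU hδ z w y.2 (fun s : V × V => iL (hatL U δ s.1 s.2)) hdi hli'
  have b1 := E7_h0d z w y.2 _ hd
  have b2 := E7_h0d z w y.2 _ hdi
  have b3 : HasFDerivAt (fun s : V × V => LamL s.1 (hatL U δ s.1 s.2) y) _ (z, w) :=
    (((b1.smul_const (((⟨-(1/2), 0⟩ : ℂ), 0) : Y9)).add
      (b2.smul_const (((⟨0, -(1/4)⟩ : ℂ), 0) : Y9))).add
      (((ContinuousLinearMap.inr ℝ ℂ V).hasFDerivAt.comp (z, w) hd.hasFDerivAt).const_smul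
        (1/2 * y.1.re))).add
      (((ContinuousLinearMap.inr ℝ ℂ V).hasFDerivAt.comp (z, w) hdi.hasFDerivAt).const_smul
        (1/4 * y.1.im)) |>.congr_of_eventuallyEq (Filter.Eventually.of_forall fun s => by
          refine Prod.ext (Complex.ext ?_ ?_) ?_ <;> simp [LamL_apply] <;> ring)
  unfold lie at a1 a2 hl hli ⊢
  rw [b1.fderiv] at a1
  rw [b2.fderiv] at a2
  rw [b3.fderiv]
  rw [_root_.add_apply, _root_.add_apply, _root_.add_apply, ContinuousLinearMap.smulRight_apply,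
    ContinuousLinearMap.smulRight_apply, _root_.smul_apply, _root_.smul_apply,
    ContinuousLinearMap.comp_apply, ContinuousLinearMap.comp_apply, a1, a2, hl, hli]
  simp only [LamL_apply, map_add, map_smul]
  refine Prod.ext (Complex.ext ?_ ?_) ?_
  · simp [mul_comm]
  · simp [mul_comm]
  · simp

end Pool.Agent.Helper81.M9
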