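import Pool.Agent.Helper81.M9.St.D3
import Pool.Agent.Helper81.M9.St.E7
import Pool.Agent.Helper46.M8.Ns

/-!
# M9, piece E8
-/

open Filter Metric Module Set
open scoped Topology ContDiff Matrix Matrix.Norms.Elementwise ComplexConjugate

set_option maxSynthPendingDepth 3

namespace Pool.Agent.Helper81.M9
open Pool.Agent.Helper20.PC Pool.Agent.Helper20.HP Pool.Agent.Helper20.M8 Pool.Agent.Helper20.MB
open Pool.Agent.Helper46.M8

private theorem E8_DKa_iL (U : Mat) (δ : ℝ) (z w v : V) :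
    DKa U δ z w (iL v) = iL (DKa U δ z w v) := by
  simp only [DKa, _root_.sum_apply, _root_.smul_apply, DK_iL, map_sum, map_smul]

private theorem E8_mom {U : Mat} {δ : ℝ} (hU : Uᴴ * U = 1) (hδ : |δ| ≤ 1/100) (z w : V) :
    DifferentiableAt ℝ (fun s : V × V => momL U δ s.1 6 s.2) (z, w) := by
  have h1 := contDiffAt_momL (q := (((U, δ, 0), z) : Pm × V)) hU hδ 6
  have h2 : ContDiffAt ℝ ∞ (fun s : V × V => momL U δ s.1 6) (z, w) :=
    h1.comp (z, w) (f := fun s : V × V => (((U, δ, 0), s.1) : Pm × V))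
      (contDiffAt_const.prodMk contDiffAt_fst)
  exact (h2.clm_apply contDiffAt_snd).differentiableAt (by simp)

private theorem E8_DKc {U : Mat} {δ : ℝ} (hU : Uᴴ * U = 1) (hδ : |δ| ≤ 1/100) (z w y : V) :
    DifferentiableAt ℝ (fun s : V × V => DKc U δ s.1 s.2 y) (z, w) := by
  have h1 := contDiffAt_DKc (q := (((U, δ, 0), z, w) : Pm × V × V)) hU hδ
  have h2 : ContDiffAt ℝ ∞ (fun s : V × V => DKc U δ s.1 s.2) (z, w) :=
    h1.comp (z, w) (f := fun s : V × V => (((U, δ, 0), s.1, s.2) : Pm × V × V))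
      (contDiffAt_const.prodMk (contDiffAt_fst.prodMk contDiffAt_snd))
  exact (h2.clm_apply contDiffAt_const).differentiableAt (by simp)

private theorem E8_DKa {U : Mat} {δ : ℝ} (hU : Uᴴ * U = 1) (hδ : |δ| ≤ 1/100) (z w y : V) :
    DifferentiableAt ℝ (fun s : V × V => DKa U δ s.1 s.2 y) (z, w) := by
  have h1 := contDiffAt_DKa (q := (((U, δ, 0), z, w) : Pm × V × V)) hU hδ
  have h2 : ContDiffAt ℝ ∞ (fun s : V × V => DKa U δ s.1 s.2) (z, w) :=
    h1.comp (z, w) (f := fun s : V × V => (((U, δ, 0), s.1, s.2) : Pm × V × V))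
      (contDiffAt_const.prodMk (contDiffAt_fst.prodMk contDiffAt_snd))
  exact (h2.clm_apply contDiffAt_const).differentiableAt (by simp)

private theorem E8_Lam {U : Mat} {δ : ℝ} (hU : Uᴴ * U = 1) (hδ : |δ| ≤ 1/100) (z w : V) (y : Y9) :
    DifferentiableAt ℝ (fun s : V × V => LamL s.1 (hatL U δ s.1 s.2) y) (z, w) := by
  have h1 := contDiffAt_hatL (q := (((U, δ, 0), z) : Pm × V)) hU hδ
  have h2 : ContDiffAt ℝ ∞ (fun s : V × V => hatL U δ s.1) (z, w) :=
    h1.comp (z, w) (f := fun s : V × V => (((U, δ, 0), s.1) : Pm × V))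
      (contDiffAt_const.prodMk contDiffAt_fst)
  have h3 : ContDiffAt ℝ ∞ (fun s : V × V => LamL s.1) (z, w) :=
    contDiff_LamL.contDiffAt.comp (z, w) contDiffAt_fst
  exact ((h3.clm_apply (h2.clm_apply contDiffAt_snd)).clm_apply
    contDiffAt_const).differentiableAt (by simp)

/-! ### E8 : the connection along the Casimir flow -/
theorem lie_C_A {U : Mat} {δ : ℝ} (hU : Uᴴ * U = 1) (hδ : |δ| ≤ 1/100) (ε : ℝ) (z w : V) (y : Y9) :
    lie (XCt U δ) (fun s => AL9 U δ ε s.1 s.2 y) (z, w)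
      = - (lie (XHt U δ) (fun s => ((0, DKa U δ s.1 s.2 y.2) : Y9)) (z, w)
        + AL9 U δ ε z w (0, DKa U δ z w y.2) - (0, DKa U δ z w (AL9 U δ ε z w y).2)) := by
  have hf : (fun s : V × V => AL9 U δ ε s.1 s.2 y) = fun s => LamL s.1 (hatL U δ s.1 s.2) y +
      (((0 : ℂ), (ε * momL U δ s.1 6 s.2) • iL y.2 - DKc U δ s.1 s.2 y.2) : Y9) := by
    funext s
    exact AL9_W hU hδ ε s.1 s.2 y
  have h1 := (E8_Lam hU hδ z w y).hasFDerivAt
  have h2 := (E8_mom hU hδ z w).hasFDerivAt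
  have h3 := (E8_DKc hU hδ z w y.2).hasFDerivAt
  have h4 := (E8_DKa hU hδ z w y.2).hasFDerivAt
  have h5 := h1.add ((hasFDerivAt_const (0 : ℂ) ((z, w) : V × V)).prodMk
    (((h2.const_mul ε).smul_const (iL y.2)).sub h3))
  have h6 := (hasFDerivAt_const (0 : ℂ) ((z, w) : V × V)).prodMk h4
  have e1 : lie (XCt U δ) (fun s => AL9 U δ ε s.1 s.2 y) (z, w) =
      lie (XCt U δ) (fun s => LamL s.1 (hatL U δ s.1 s.2) y) (z, w) +
      (((0 : ℂ), (ε * lie (XCt U δ) (fun s => momL U δ s.1 6 s.2) (z, w)) • iL y.2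
        - lie (XCt U δ) (fun s => DKc U δ s.1 s.2 y.2) (z, w)) : Y9) := by
    rw [hf]
    unfold lie
    rw [show fderiv ℝ (fun s : V × V => LamL s.1 (hatL U δ s.1 s.2) y +
      (((0 : ℂ), (ε * momL U δ s.1 6 s.2) • iL y.2 - DKc U δ s.1 s.2 y.2) : Y9)) (z, w) = _ from
      h5.fderiv]
    simp
  have e2 : lie (XHt U δ) (fun s => ((0, DKa U δ s.1 s.2 y.2) : Y9)) (z, w) =
      (((0 : ℂ), lie (XHt U δ) (fun s => DKa U δ s.1 s.2 y.2) (z, w)) : Y9) := by
    unfold lie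
    rw [show fderiv ℝ (fun s : V × V => (((0 : ℂ), DKa U δ s.1 s.2 y.2) : Y9)) (z, w) = _ from
      h6.fderiv]
    simp
  rw [e1, e2, lie_C_mom hU hδ, lie_C_Lam hU hδ, lie_C_DKc hU hδ, AL9_W hU hδ ε z w (0, _),
    AL9_W hU hδ ε z w y]
  simp only [Prod.snd_add, map_add, map_sub, map_smul, E8_DKa_iL]
  refine Prod.ext ?_ ?_
  · simp
  · simp only [Prod.snd_add, Prod.snd_sub, Prod.snd_neg, mul_zero, zero_smul]
    abel

end Pool.Agent.Helper81.M9
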