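import Pool.Agent.Helper81.M9.St.B3
import Pool.Agent.Helper81.M9.St.E6
import Pool.Agent.Helper81.M9.St.E8
import Pool.Agent.Helper46.M8.Ns

/-!
# M9, piece E9
-/

open Filter Metric Module Set
open scoped Topology ContDiff Matrix Matrix.Norms.Elementwise ComplexConjugate

set_option maxSynthPendingDepth 3

namespace Pool.Agent.Helper81.M9
open Pool.Agent.Helper20.PC Pool.Agent.Helper20.HP Pool.Agent.Helper20.M8 Pool.Agent.Helper20.MB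
open Pool.Agent.Helper46.M8

/-! ### E9 : `Ω(W₀, V)` is the covariant derivative of `Υ` -/

/-- `Υ` as a continuous linear map. -/
private noncomputable def E9_UL (U : Mat) (δ ε : ℝ) (s : V × V) : Y9 →L[ℝ] Y9 :=
  AL9 U δ ε s.1 (hatL U δ s.1 s.2)
    + (ContinuousLinearMap.inr ℝ ℂ V) ∘L (DKa U δ s.1 s.2) ∘L (ContinuousLinearMap.snd ℝ ℂ V)

private lemma E9_UL_apply {U : Mat} {δ : ℝ} (hU : Uᴴ * U = 1) (hδ : |δ| ≤ 1/100) (ε : ℝ)
    (s : V × V) (y : Y9) : E9_UL U δ ε s y = UpL U δ ε s.1 s.2 y := by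
  rw [UpL_eq hU hδ]
  rfl

private lemma E9_param {F : Type*} [NormedAddCommGroup F] [NormedSpace ℝ F]
    (f : Mat → ℝ → ℝ → V → F) (U : Mat) (δ ε : ℝ) (z : V)
    (h : ContDiffAt ℝ ∞ (fun q : Pm × V => f q.1.1 q.1.2.1 q.1.2.2 q.2)
      (((U, δ, ε) : Pm), z)) : DifferentiableAt ℝ (f U δ ε) z := by
  have h1 := h.differentiableAt (by simp)
  exact h1.comp z (f := fun z : V => (((U, δ, ε) : Pm), z)) (by fun_prop)

private lemma E9_param2 {F : Type*} [NormedAddCommGroup F] [NormedSpace ℝ F]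
    (f : Mat → ℝ → V → V → F) (U : Mat) (δ : ℝ) (s : V × V)
    (h : ContDiffAt ℝ ∞ (fun q : Pm × (V × V) => f q.1.1 q.1.2.1 q.2.1 q.2.2)
      (((U, δ, 0) : Pm), s)) : DifferentiableAt ℝ (fun s : V × V => f U δ s.1 s.2) s := by
  have h1 := h.differentiableAt (by simp)
  exact h1.comp s (f := fun s : V × V => (((U, δ, 0) : Pm), s)) (by fun_prop)

private lemma E9_AL9 {U : Mat} {δ : ℝ} (hU : Uᴴ * U = 1) (hδ : |δ| ≤ 1/100) (ε : ℝ) (z : V) :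
    DifferentiableAt ℝ (AL9 U δ ε) z :=
  E9_param AL9 U δ ε z (contDiffAt_AL9 (q := ((U, δ, ε), z)) hU hδ)

private lemma E9_hatL {U : Mat} {δ : ℝ} (hU : Uᴴ * U = 1) (hδ : |δ| ≤ 1/100) (z : V) :
    DifferentiableAt ℝ (hatL U δ) z :=
  E9_param (fun U δ _ => hatL U δ) U δ 0 z (contDiffAt_hatL (q := ((U, δ, 0), z)) hU hδ)

private lemma E9_DKa {U : Mat} {δ : ℝ} (hU : Uᴴ * U = 1) (hδ : |δ| ≤ 1/100) (s : V × V) :
    DifferentiableAt ℝ (fun s : V × V => DKa U δ s.1 s.2) s :=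
  E9_param2 DKa U δ s (contDiffAt_DKa (q := ((U, δ, 0), s)) hU hδ)

private lemma E9_hat {U : Mat} {δ : ℝ} (hU : Uᴴ * U = 1) (hδ : |δ| ≤ 1/100) (s : V × V) :
    DifferentiableAt ℝ (fun s : V × V => hatL U δ s.1 s.2) s :=
  ((E9_hatL hU hδ s.1).comp s (f := fun s : V × V => s.1) differentiableAt_fst).clm_apply
    differentiableAt_snd

private lemma E9_diffgen (A : V → V →L[ℝ] Y9 →L[ℝ] Y9) (H : V → V → V)
    (D : V → V → V →L[ℝ] V) (s : V × V) (hA : DifferentiableAt ℝ A s.1)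
    (hH : DifferentiableAt ℝ (fun s : V × V => H s.1 s.2) s)
    (hD : DifferentiableAt ℝ (fun s : V × V => D s.1 s.2) s) :
    DifferentiableAt ℝ (fun s : V × V => A s.1 (H s.1 s.2)
      + (ContinuousLinearMap.inr ℝ ℂ V) ∘L (D s.1 s.2) ∘L (ContinuousLinearMap.snd ℝ ℂ V)) s := by
  have h0 : DifferentiableAt ℝ (fun s : V × V => A s.1) s :=
    DifferentiableAt.comp (g := A) s (f := fun s : V × V => s.1) hA differentiableAt_fst
  have h1 : DifferentiableAt ℝ (fun s : V × V => A s.1 (H s.1 s.2)) s := h0.clm_apply hH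
  have h2 : DifferentiableAt ℝ (fun s : V × V => (ContinuousLinearMap.inr ℝ ℂ V) ∘L
      (D s.1 s.2) ∘L (ContinuousLinearMap.snd ℝ ℂ V)) s :=
    (differentiableAt_const _).clm_comp (hD.clm_comp (differentiableAt_const _))
  exact h1.add h2

private lemma E9_diffUL {U : Mat} {δ : ℝ} (hU : Uᴴ * U = 1) (hδ : |δ| ≤ 1/100) (ε : ℝ)
    (s : V × V) : DifferentiableAt ℝ (E9_UL U δ ε) s :=
  E9_diffgen (AL9 U δ ε) (fun z w => hatL U δ z w) (DKa U δ) s (E9_AL9 hU hδ ε s.1)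
    (E9_hat hU hδ s) (E9_DKa hU hδ s)

private lemma E9_lie {U : Mat} {δ : ℝ} (hU : Uᴴ * U = 1) (hδ : |δ| ≤ 1/100) (ε : ℝ)
    (s : V × V) (y : Y9) :
    lie (XHt U δ) (fun s => UpL U δ ε s.1 s.2 y) s
      = fderiv ℝ (E9_UL U δ ε) s (XHt U δ s) y := by
  have e : (fun s : V × V => UpL U δ ε s.1 s.2 y) = fun s => E9_UL U δ ε s y :=
    funext fun s => (E9_UL_apply hU hδ ε s y).symm
  rw [e]
  unfold lie
  rw [((E9_diffUL hU hδ ε s).hasFDerivAt.clm_apply (hasFDerivAt_const y s)).fderiv]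
  simp

private lemma E9_gen (A : V → V →L[ℝ] Y9 →L[ℝ] Y9) (H : V → V → V)
    (D : V → V → V →L[ℝ] V) (X : V × V → V × V) (s : V × V) (y : Y9)
    (Up : V → V → Y9 → Y9) (hUp : ∀ z w y, Up z w y = A z (H z w) y + (0, D z w y.2))
    (hA : DifferentiableAt ℝ A s.1)
    (hH : DifferentiableAt ℝ (fun s : V × V => H s.1 s.2) s)
    (hD : DifferentiableAt ℝ (fun s : V × V => D s.1 s.2) s) :
    lie X (fun s => Up s.1 s.2 y) s
      = lie X (fun s => A s.1 (H s.1 s.2) y) s + lie X (fun s => ((0, D s.1 s.2 y.2) : Y9)) s := by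
  have h0 : DifferentiableAt ℝ (fun s : V × V => A s.1) s :=
    DifferentiableAt.comp (g := A) s (f := fun s : V × V => s.1) hA differentiableAt_fst
  have h1 : DifferentiableAt ℝ (fun s : V × V => A s.1 (H s.1 s.2) y) s :=
    (h0.clm_apply hH).clm_apply (differentiableAt_const y)
  have h2 : DifferentiableAt ℝ (fun s : V × V => ((0, D s.1 s.2 y.2) : Y9)) s :=
    (differentiableAt_const (0 : ℂ)).prodMk (hD.clm_apply (differentiableAt_const y.2))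
  have e : (fun s : V × V => Up s.1 s.2 y)
      = fun s => A s.1 (H s.1 s.2) y + ((0, D s.1 s.2 y.2) : Y9) :=
    funext fun s => hUp s.1 s.2 y
  rw [e]
  unfold lie
  rw [fderiv_fun_add h1 h2]
  rfl

private lemma E9_alg (A : V →L[ℝ] Y9 →L[ℝ] Y9) (h w : V) (D : V →L[ℝ] V) (y Ly L1 L2 L3 O : Y9)
    (Up : Y9 → Y9) (hUp : ∀ y, Up y = A h y + (0, D y.2))
    (hO : O = L1 - L2 + A w (A h y) - A h (A w y))
    (hL2 : L2 = - (L3 + A w (0, D y.2) - (0, D (A w y).2))) (hL : Ly = L1 + L3) :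
    O = Ly + A w (Up y) - Up (A w y) := by
  rw [hO, hL2, hL, hUp, hUp, map_add]
  abel

theorem OmV_WV {U : Mat} {δ : ℝ} (hU : Uᴴ * U = 1) (hδ : |δ| ≤ 1/100) (ε : ℝ) (z w : V) (y : Y9) :
    OmV (AL9 U δ ε) z w (hatL U δ z w) y
      = lie (XHt U δ) (fun s => UpL U δ ε s.1 s.2 y) (z, w)
        + AL9 U δ ε z w (UpL U δ ε z w y) - UpL U δ ε z w (AL9 U δ ε z w y) := by
  have e2 := E9_gen (AL9 U δ ε) (fun z w => hatL U δ z w) (DKa U δ) (XHt U δ) (z, w) y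
    (fun z w => UpL U δ ε z w) (UpL_eq hU hδ ε) (E9_AL9 hU hδ ε z) (E9_hat hU hδ (z, w))
    (E9_DKa hU hδ (z, w))
  exact E9_alg (AL9 U δ ε z) (hatL U δ z w) w (DKa U δ z w) y _ _ _ _ _ (fun y => UpL U δ ε z w y)
    (UpL_eq hU hδ ε z w) (OmV_HC hU hδ ε z w y) (lie_C_A hU hδ ε z w y) e2

private lemma E9_WV' {U : Mat} {δ : ℝ} (hU : Uᴴ * U = 1) (hδ : |δ| ≤ 1/100) (ε : ℝ) (z w : V)
    (y : Y9) :
    OmV (AL9 U δ ε) z w (hatL U δ z w) y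
      = fderiv ℝ (E9_UL U δ ε) (z, w) (w, - Gam (hm U δ) z w w) y
        + AL9 U δ ε z w (E9_UL U δ ε (z, w) y) - E9_UL U δ ε (z, w) (AL9 U δ ε z w y) := by
  have h := OmV_WV hU hδ ε z w y
  have h1 := E9_lie hU hδ ε (z, w) y
  have h2 := E9_UL_apply hU hδ ε (z, w) y
  have h3 := E9_UL_apply hU hδ ε (z, w) (AL9 U δ ε z w y)
  have hX : XHt U δ (z, w) = (w, - Gam (hm U δ) z w w) := rfl
  rw [h, h1, h2, h3, hX]

private lemma E9_fin (k : V → Y9 →L[ℝ] Y9 →L[ℝ] ℝ) (u : V × V → Y9 →L[ℝ] Y9)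
    (A : Y9 →L[ℝ] Y9) (G : V)
    (s v : Fs9) (hk : DifferentiableAt ℝ k s.1.1)
    (hu : DifferentiableAt ℝ u (s.1.1, s.1.2.1 0))
    (hpar : ∀ p q, fderiv ℝ k s.1.1 (s.1.2.1 0) p q = k s.1.1 (A p) q + k s.1.1 p (A q))
    (h1 : v.1.1 = s.1.2.1 0) (h2 : v.1.2.1 0 = G) (h3 : v.2.1 = - A s.2.1)
    (h4 : v.2.2 = - A s.2.2) :
    k s.1.1 s.2.1 (fderiv ℝ u (s.1.1, s.1.2.1 0) (s.1.2.1 0, G) s.2.2
        + A (u (s.1.1, s.1.2.1 0) s.2.2) - u (s.1.1, s.1.2.1 0) (A s.2.2))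
      = fderiv ℝ (fun s : Fs9 => k s.1.1 s.2.1 (u (s.1.1, s.1.2.1 0) s.2.2)) s v := by
  have hx : HasFDerivAt (fun s : Fs9 => s.1.1)
      ((ContinuousLinearMap.fst ℝ V ((Fin 4 → V) × V)) ∘L
        (ContinuousLinearMap.fst ℝ Fr9 (Y9 × Y9))) s := by
    exact ((ContinuousLinearMap.fst ℝ V ((Fin 4 → V) × V)) ∘L
      (ContinuousLinearMap.fst ℝ Fr9 (Y9 × Y9))).hasFDerivAt
  have hw : HasFDerivAt (fun s : Fs9 => s.1.2.1 0)
      ((ContinuousLinearMap.proj (R := ℝ) (φ := fun _ : Fin 4 => V) 0) ∘L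
        (ContinuousLinearMap.fst ℝ (Fin 4 → V) V) ∘L
        (ContinuousLinearMap.snd ℝ V ((Fin 4 → V) × V)) ∘L
        (ContinuousLinearMap.fst ℝ Fr9 (Y9 × Y9))) s :=
    ((ContinuousLinearMap.proj (R := ℝ) (φ := fun _ : Fin 4 => V) 0) ∘L
      (ContinuousLinearMap.fst ℝ (Fin 4 → V) V) ∘L
      (ContinuousLinearMap.snd ℝ V ((Fin 4 → V) × V)) ∘L
      (ContinuousLinearMap.fst ℝ Fr9 (Y9 × Y9))).hasFDerivAt
  have hy : HasFDerivAt (fun s : Fs9 => s.2.1)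
      ((ContinuousLinearMap.fst ℝ Y9 Y9) ∘L (ContinuousLinearMap.snd ℝ Fr9 (Y9 × Y9))) s :=
    ((ContinuousLinearMap.fst ℝ Y9 Y9) ∘L
      (ContinuousLinearMap.snd ℝ Fr9 (Y9 × Y9))).hasFDerivAt
  have hp : HasFDerivAt (fun s : Fs9 => s.2.2)
      ((ContinuousLinearMap.snd ℝ Y9 Y9) ∘L (ContinuousLinearMap.snd ℝ Fr9 (Y9 × Y9))) s :=
    ((ContinuousLinearMap.snd ℝ Y9 Y9) ∘L
      (ContinuousLinearMap.snd ℝ Fr9 (Y9 × Y9))).hasFDerivAt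
  have hk1 := hk.hasFDerivAt.comp s hx
  have hu1 := HasFDerivAt.comp (g := u) (f := fun s : Fs9 => (s.1.1, s.1.2.1 0)) s
    hu.hasFDerivAt (hx.prodMk hw)
  have h := (hk1.clm_apply hy).clm_apply (hu1.clm_apply hp)
  simp only [Function.comp] at h
  rw [h.fderiv]
  simp only [_root_.add_apply, ContinuousLinearMap.comp_apply, ContinuousLinearMap.flip_apply,
    ContinuousLinearMap.prod_apply, map_add, ContinuousLinearMap.coe_fst',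
    ContinuousLinearMap.coe_snd', ContinuousLinearMap.proj_apply, h1, h2, h3, h4, hpar, map_sub,
    map_neg, _root_.neg_apply]
  ring

private lemma E9_gen2 (A : V → V →L[ℝ] Y9 →L[ℝ] Y9) (G : V) (O : Y9) (u : V × V → Y9 →L[ℝ] Y9)
    (Up : V → V → Y9 → Y9) (hUp : ∀ z w y, Up z w y = u (z, w) y) (s : Fs9) (X : Fs9 → Fs9)
    (hk : DifferentiableAt ℝ kL9 s.1.1)
    (hu : DifferentiableAt ℝ u (s.1.1, s.1.2.1 0))
    (hpar : ∀ p q, fderiv ℝ kL9 s.1.1 (s.1.2.1 0) p q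
      = kL9 s.1.1 (A s.1.1 (s.1.2.1 0) p) q + kL9 s.1.1 p (A s.1.1 (s.1.2.1 0) q))
    (h1 : (X s).1.1 = s.1.2.1 0) (h2 : (X s).1.2.1 0 = G)
    (h3 : (X s).2.1 = - A s.1.1 (s.1.2.1 0) s.2.1)
    (h4 : (X s).2.2 = - A s.1.1 (s.1.2.1 0) s.2.2)
    (hO : O = fderiv ℝ u (s.1.1, s.1.2.1 0) (s.1.2.1 0, G) s.2.2
        + A s.1.1 (s.1.2.1 0) (u (s.1.1, s.1.2.1 0) s.2.2)
        - u (s.1.1, s.1.2.1 0) (A s.1.1 (s.1.2.1 0) s.2.2)) :
    kL9 s.1.1 s.2.1 O = lie X (fun s => kL9 s.1.1 s.2.1 (Up s.1.1 (s.1.2.1 0) s.2.2)) s := by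
  have e : (fun s : Fs9 => kL9 s.1.1 s.2.1 (Up s.1.1 (s.1.2.1 0) s.2.2))
      = fun s : Fs9 => kL9 s.1.1 s.2.1 (u (s.1.1, s.1.2.1 0) s.2.2) :=
    funext fun s => congrArg (kL9 s.1.1 s.2.1) (hUp _ _ _)
  have h := E9_fin kL9 u (A s.1.1 (s.1.2.1 0)) G s (X s) hk hu hpar h1 h2 h3 h4
  rw [hO, h, e]
  rfl

theorem OmV_V {U : Mat} {δ : ℝ} (hU : Uᴴ * U = 1) (hδ : |δ| ≤ 1/100) (ε : ℝ) (s : Fs9) :
    kL9 s.1.1 s.2.1 (OmV (AL9 U δ ε) s.1.1 (s.1.2.1 0) (vF U δ s.1) s.2.2)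
      = lie (XB9 U δ ε) (fun s => kL9 s.1.1 s.2.1 (UpL U δ ε s.1.1 (s.1.2.1 0) s.2.2)) s := by
  have hv : vF U δ s.1 = hatL U δ s.1.1 (s.1.2.1 0) := by simp only [vF]
  have hw := E9_WV' hU hδ ε s.1.1 (s.1.2.1 0) s.2.2
  have e1 : (XB9 U δ ε s).1.1 = s.1.2.1 0 := rfl
  have e2 : (XB9 U δ ε s).1.2.1 0 = - Gam (hm U δ) s.1.1 (s.1.2.1 0) (s.1.2.1 0) := rfl
  have e3 : (XB9 U δ ε s).2.1 = - AL9 U δ ε s.1.1 (s.1.2.1 0) s.2.1 := by simp only [XB9]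
  have e4 : (XB9 U δ ε s).2.2 = - AL9 U δ ε s.1.1 (s.1.2.1 0) s.2.2 := by simp only [XB9]
  have hk : DifferentiableAt ℝ kL9 s.1.1 := (contDiff_kL9.differentiable (by simp)) s.1.1
  have hu := E9_diffUL hU hδ ε (s.1.1, s.1.2.1 0)
  have hUp : ∀ z w y, UpL U δ ε z w y = E9_UL U δ ε (z, w) y :=
    fun z w y => (E9_UL_apply hU hδ ε (z, w) y).symm
  have hpar : ∀ p q : Y9, fderiv ℝ kL9 s.1.1 (s.1.2.1 0) p q
      = kL9 s.1.1 (AL9 U δ ε s.1.1 (s.1.2.1 0) p) q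
        + kL9 s.1.1 p (AL9 U δ ε s.1.1 (s.1.2.1 0) q) :=
    fun p q => kL9_par hU δ ε s.1.1 (s.1.2.1 0) p q
  rw [hv]
  generalize AL9 U δ ε = A at *
  generalize E9_UL U δ ε = u at *
  generalize - Gam (hm U δ) s.1.1 (s.1.2.1 0) (s.1.2.1 0) = G at *
  generalize OmV A s.1.1 (s.1.2.1 0) (hatL U δ s.1.1 (s.1.2.1 0)) s.2.2 = O at *
  generalize UpL U δ ε = Up at *
  generalize XB9 U δ ε = X at *
  exact E9_gen2 A G O u (fun z w => Up z w) hUp s X hk hu hpar e1 e2 e3 e4 hw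

end Pool.Agent.Helper81.M9
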