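import Pool.Agent.Helper81.M9.St.B6
import Pool.Agent.Helper81.M9.St.D7
import Pool.Agent.Helper81.M9.St.E3
import Pool.Agent.Helper81.M9.St.E9
import Pool.Agent.Helper46.M8.Ns

/-!
# M9, piece H0
-/

open Filter Metric Module Set
open scoped Topology ContDiff Matrix Matrix.Norms.Elementwise ComplexConjugate

set_option maxSynthPendingDepth 3

namespace Pool.Agent.Helper81.M9
open Pool.Agent.Helper20.PC Pool.Agent.Helper20.HP Pool.Agent.Helper20.M8 Pool.Agent.Helper20.MB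
open Pool.Agent.Helper46.M8

/-! ### H0 : the curvature of the base in the frame -/

/-- the expansion `V = C W₀ + ∑ v_k W_k`. -/
private lemma H0_V {U : Mat} {δ : ℝ} (hU : Uᴴ * U = 1) (hδ : |δ| ≤ 1/100) {s : Fr9} (hs : ON9 U δ s) :
    vF U δ s = sC U δ s • s.2.1 0 + ∑ k : Fin 3, sV U δ k.succ s • s.2.1 k.succ := by
  have h1 := frame_sum hU hδ hs.1 (vF U δ s)
  rw [Fin.sum_univ_succ] at h1
  have h2 := (sC_pos hU hδ hs).2.2
  rw [← h2]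
  exact h1.symm

private lemma H0_add {A : V → V →L[ℝ] Y9 →L[ℝ] Y9} {x : V} (ζ a b : V) (p : Y9) :
    OmV A x ζ (a + b) p = OmV A x ζ a p + OmV A x ζ b p := by
  simp only [OmV, map_add, _root_.add_apply, _root_.sub_apply, ContinuousLinearMap.comp_apply]
  abel

private lemma H0_smul {A : V → V →L[ℝ] Y9 →L[ℝ] Y9} {x : V} (ζ : V) (r : ℝ) (a : V) (p : Y9) :
    OmV A x ζ (r • a) p = r • OmV A x ζ a p := by
  simp only [OmV, map_smul, _root_.add_apply, _root_.sub_apply, _root_.smul_apply,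
    ContinuousLinearMap.comp_apply]
  module

theorem num_frame9 {U : Mat} {δ : ℝ} (hU : Uᴴ * U = 1) (hδ : |δ| ≤ 1/100) {s : Fr9} (hs : ON9 U δ s) (u τ : ℝ) :
    num (hm U δ) s.1 (s.2.1 0) (u • s.2.1 1 - τ • (vF U δ s - sC U δ s • s.2.1 0))
      = num (hm U δ) s.1 (s.2.1 0) (s.2.1 1) * u ^ 2
        + 2 * u * τ * lie (XF9 U δ) (lie (XF9 U δ) (sV U δ 1)) s
        - τ ^ 2 * ∑ k : Fin 3, sV U δ k.succ s * lie (XF9 U δ) (lie (XF9 U δ) (sV U δ k.succ)) s := by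
  have hM := hm_metAt hU hδ s.1
  have hsy := hm_symm hU hδ s.1
  obtain ⟨W0, hW0⟩ : ∃ W0, W0 = s.2.1 0 := ⟨_, rfl⟩
  obtain ⟨V0, hV0⟩ : ∃ V0, V0 = vF U δ s := ⟨_, rfl⟩
  obtain ⟨W1, hW1⟩ : ∃ W1, W1 = s.2.1 1 := ⟨_, rfl⟩
  -- the curvature operator
  have hR0 : Riem (hm U δ) s.1 W0 W0 W0 = 0 := Riem_self _ _
  have hlin : ∀ (a b : V) (r : ℝ), Riem (hm U δ) s.1 (a + r • b) W0 W0
      = Riem (hm U δ) s.1 a W0 W0 + r • Riem (hm U δ) s.1 b W0 W0 := fun a b r => Riem_lin hM W0 a b r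
  have hz : Riem (hm U δ) s.1 0 W0 W0 = 0 := by
    have := hlin 0 0 1
    simpa using this
  have hsm : ∀ (b : V) (r : ℝ), Riem (hm U δ) s.1 (r • b) W0 W0
      = r • Riem (hm U δ) s.1 b W0 W0 := fun b r => by
    have := hlin 0 b r
    rwa [zero_add, hz, zero_add] at this
  have hp : ∀ a b : V, hm U δ s.1 (Riem (hm U δ) s.1 a W0 W0) b
      = hm U δ s.1 (Riem (hm U δ) s.1 b W0 W0) a := fun a b => Riem_pair hM W0 a b
  have hpW : ∀ a : V, hm U δ s.1 (Riem (hm U δ) s.1 a W0 W0) W0 = 0 := fun a => by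
    rw [hp, hR0]; simp
  have hl2 : ∀ k : Fin 4, lie (XF9 U δ) (lie (XF9 U δ) (sV U δ k)) s
      = - hm U δ s.1 (Riem (hm U δ) s.1 V0 W0 W0) (s.2.1 k) := fun k => by
    rw [hW0, hV0]; exact lie2_sV hU hδ k s
  have hx : u • s.2.1 1 - τ • (vF U δ s - sC U δ s • s.2.1 0)
      = (u • W1 + (-τ) • V0) + (τ * sC U δ s) • W0 := by
    rw [hW0, hV0, hW1]; module
  have hVV : hm U δ s.1 (Riem (hm U δ) s.1 V0 W0 W0) V0
      = - ∑ k : Fin 3, sV U δ k.succ s * lie (XF9 U δ) (lie (XF9 U δ) (sV U δ k.succ)) s := by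
    have h1 : V0 = sC U δ s • W0 + ∑ k : Fin 3, sV U δ k.succ s • s.2.1 k.succ := by
      rw [hW0, hV0]; exact H0_V hU hδ hs
    have h2 : hm U δ s.1 (Riem (hm U δ) s.1 V0 W0 W0) V0
      = hm U δ s.1 (Riem (hm U δ) s.1 V0 W0 W0)
        (sC U δ s • W0 + ∑ k : Fin 3, sV U δ k.succ s • s.2.1 k.succ) := by rw [← h1]
    rw [h2, map_add, map_smul, hpW, smul_zero, zero_add, map_sum, ← Finset.sum_neg_distrib]
    refine Finset.sum_congr rfl fun k _ => ?_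
    rw [map_smul, hl2, smul_eq_mul]; ring
  rw [hx, ← hW0, ← hW1, num_symm hM, ← G_Riem hM, num_symm hM W0 W1, ← G_Riem hM, hlin, hR0, smul_zero,
    add_zero, hlin, hsm]
  have e1 := hl2 1
  rw [← hW1] at e1
  rw [e1]
  simp only [map_add, map_smul, _root_.add_apply, _root_.smul_apply, smul_eq_mul, hpW, hVV]
  rw [hp W1 V0]
  ring

/-- `N = ∑ v_k²` and `v₀ = C`. -/
theorem N_frame9 {U : Mat} {δ : ℝ} (hU : Uᴴ * U = 1) (hδ : |δ| ≤ 1/100) {s : Fr9} (hs : ON9 U δ s) :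
    sH U δ 0 0 s = sC U δ s ^ 2 + ∑ k : Fin 3, sV U δ k.succ s ^ 2 := by
  have h1 := H0_V hU hδ hs
  have h2 := (sC_pos hU hδ hs).2.2
  have h3 : sH U δ 0 0 s = hm U δ s.1 (vF U δ s) (vF U δ s) := rfl
  have h4 : hm U δ s.1 (vF U δ s) (vF U δ s) = hm U δ s.1 (vF U δ s)
      (sC U δ s • s.2.1 0 + ∑ k : Fin 3, sV U δ k.succ s • s.2.1 k.succ) := by rw [← h1]
  have h5 : ∀ k : Fin 4, hm U δ s.1 (vF U δ s) (s.2.1 k) = sV U δ k s := fun k => rfl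
  rw [h3, h4, map_add, map_smul, map_sum]
  simp only [map_smul, h5, smul_eq_mul, h2, pow_two]

/-- the identity (I3) in the frame. -/
theorem sum_Psi9 {U : Mat} {δ : ℝ} (hU : Uᴴ * U = 1) (hδ : |δ| ≤ 1/100) (ε : ℝ) (s : Fs9) (hs : ON9 U δ s.1) :
    ∑ k : Fin 3, sV U δ k.succ s.1 * kL9 s.1.1 s.2.1
        (OmV (AL9 U δ ε) s.1.1 (s.1.2.1 0) (s.1.2.1 k.succ) s.2.2)
      = lie (XB9 U δ ε) (fun s => kL9 s.1.1 s.2.1 (UpL U δ ε s.1.1 (s.1.2.1 0) s.2.2)) s := by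
  rw [← OmV_V hU hδ ε s]
  have hself : OmV (AL9 U δ ε) s.1.1 (s.1.2.1 0) (s.1.2.1 0) s.2.2 = 0 := by
    simp [OmV]
  rw [H0_V hU hδ hs, H0_add, H0_smul, hself, smul_zero, zero_add]
  have hsum : ∀ S : Finset (Fin 3), OmV (AL9 U δ ε) s.1.1 (s.1.2.1 0)
      (∑ k ∈ S, sV U δ k.succ s.1 • s.1.2.1 k.succ) s.2.2
      = ∑ k ∈ S, sV U δ k.succ s.1 • OmV (AL9 U δ ε) s.1.1 (s.1.2.1 0) (s.1.2.1 k.succ) s.2.2 := by
    intro S
    induction S using Finset.induction_on with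
    | empty => simp [OmV]
    | insert a S ha ih => rw [Finset.sum_insert ha, Finset.sum_insert ha, H0_add, H0_smul, ih]
  rw [hsum, map_sum]
  refine Finset.sum_congr rfl fun k _ => ?_
  rw [map_smul, smul_eq_mul]

end Pool.Agent.Helper81.M9
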