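import Pool.Agent.Helper46.M8.St.A10
import Pool.Agent.Helper81.M9.St.C7
import Pool.Agent.Helper81.M9.St.D5
import Pool.Agent.Helper81.M9.St.C6
import Pool.Agent.Helper81.M9.St.F2
import Pool.Agent.Helper81.M9.St.F3
import Pool.Agent.Helper81.M9.St.F4
import Pool.Agent.Helper81.M9.St.F5
import Pool.Agent.Helper81.M9.St.F7
import Pool.Agent.Helper81.M9.St.F9
import Pool.Agent.Helper81.M9.St.H0
import Pool.Agent.Helper46.M8.Ns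

/-!
# M9, piece H1
-/

open Filter Metric Module Set
open scoped Topology ContDiff Matrix Matrix.Norms.Elementwise ComplexConjugate

set_option maxSynthPendingDepth 3

namespace Pool.Agent.Helper81.M9
open Pool.Agent.Helper20.PC Pool.Agent.Helper20.HP Pool.Agent.Helper20.M8 Pool.Agent.Helper20.MB
open Pool.Agent.Helper46.M8

/-! ### H1 : the quantity (T) in frames -/

private lemma fixp {E : Type*} [NormedAddCommGroup E] [NormedSpace ℝ E] {g : Pm × Fr9 → E} {U : Mat}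
    {δ ε : ℝ} {s : Fr9} (h : ContDiffAt ℝ ∞ g (((U, δ, ε) : Pm), s)) :
    ContDiffAt ℝ ∞ (fun s' : Fr9 => g (((U, δ, ε) : Pm), s')) s :=
  ContDiffAt.comp (g := g) (f := fun s' : Fr9 => ((((U, δ, ε) : Pm), s') : Pm × Fr9)) s h
    (contDiffAt_const.prodMk contDiffAt_id)

private lemma fixv {E : Type*} [NormedAddCommGroup E] [NormedSpace ℝ E] {g : Pm × V → E} {U : Mat}
    {δ ε : ℝ} {s : V} (h : ContDiffAt ℝ ∞ g (((U, δ, ε) : Pm), s)) :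
    ContDiffAt ℝ ∞ (fun s' : V => g (((U, δ, ε) : Pm), s')) s :=
  ContDiffAt.comp (g := g) (f := fun s' : V => ((((U, δ, ε) : Pm), s') : Pm × V)) s h
    (contDiffAt_const.prodMk contDiffAt_id)

private lemma sXF {U : Mat} {δ : ℝ} (hU : Uᴴ * U = 1) (hδ : |δ| ≤ 1/100) (s : Fr9) :
    ContDiffAt ℝ ∞ (XF9 U δ) s :=
  fixp (g := fun q : Pm × Fr9 => XF9 q.1.1 q.1.2.1 q.2)
    (contDiffAt_XF9 (q := (((U, δ, 0) : Pm), s)) hU hδ)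

private lemma sT' {U : Mat} {δ : ℝ} (hU : Uᴴ * U = 1) (hδ : |δ| ≤ 1/100) (s : Fr9) :
    ContDiffAt ℝ ∞ (sT U δ) s :=
  fixp (g := fun q : Pm × Fr9 => sT q.1.1 q.1.2.1 q.2)
    (contDiffAt_sT (q := (((U, δ, 0) : Pm), s)) hU hδ)

private lemma sU' {U : Mat} {δ : ℝ} (hU : Uᴴ * U = 1) (hδ : |δ| ≤ 1/100) (s : Fr9) (j : Fin 4)
    (i : Fin 8) : ContDiffAt ℝ ∞ (sU U δ j i) s :=
  fixp (g := fun q : Pm × Fr9 => sU q.1.1 q.1.2.1 j i q.2)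
    (contDiffAt_sU (q := (((U, δ, 0) : Pm), s)) hU hδ j i)

private lemma sH' {U : Mat} {δ : ℝ} (hU : Uᴴ * U = 1) (hδ : |δ| ≤ 1/100) (s : Fr9) (i j : Fin 4) :
    ContDiffAt ℝ ∞ (sH U δ i j) s :=
  fixp (g := fun q : Pm × Fr9 => sH q.1.1 q.1.2.1 i j q.2)
    (contDiffAt_sH (q := (((U, δ, 0) : Pm), s)) hU hδ i j)

private lemma sZ' {U : Mat} {δ : ℝ} (hU : Uᴴ * U = 1) (hδ : |δ| ≤ 1/100) (s : Fr9) (k : Fin 4) :
    ContDiffAt ℝ ∞ (sZ U δ k) s :=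
  fixp (g := fun q : Pm × Fr9 => sZ q.1.1 q.1.2.1 k q.2)
    (contDiffAt_sZ (q := (((U, δ, 0) : Pm), s)) hU hδ k)

private lemma sV' {U : Mat} {δ : ℝ} (hU : Uᴴ * U = 1) (hδ : |δ| ≤ 1/100) (s : Fr9) (k : Fin 4) :
    ContDiffAt ℝ ∞ (sV U δ k) s :=
  fixp (g := fun q : Pm × Fr9 => sV q.1.1 q.1.2.1 k q.2)
    (contDiffAt_sV (q := (((U, δ, 0) : Pm), s)) hU hδ k)

private lemma sB' {U : Mat} {δ : ℝ} (hU : Uᴴ * U = 1) (hδ : |δ| ≤ 1/100) (ε : ℝ) (s : Fr9)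
    (i k l : Fin 4) : ContDiffAt ℝ ∞ (sB U δ ε i k l) s :=
  fixp (g := fun q : Pm × Fr9 => sB q.1.1 q.1.2.1 q.1.2.2 i k l q.2)
    (contDiffAt_sB (q := (((U, δ, ε) : Pm), s)) hU hδ i k l)

private lemma sR' {U : Mat} {δ : ℝ} (hU : Uᴴ * U = 1) (hδ : |δ| ≤ 1/100) (ε : ℝ) (s : Fr9)
    (k : Fin 4) (i j : Fin 6) : ContDiffAt ℝ ∞ (sR9 U δ ε k i j) s :=
  fixp (g := fun q : Pm × Fr9 => sR9 q.1.1 q.1.2.1 q.1.2.2 k i j q.2)
    (contDiffAt_sR9 (q := (((U, δ, ε) : Pm), s)) hU hδ k i j)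

private lemma shat0 {U : Mat} {δ : ℝ} (hU : Uᴴ * U = 1) (hδ : |δ| ≤ 1/100) (z : V) :
    ContDiffAt ℝ ∞ (fun z' => hatL U δ z') z :=
  fixv (g := fun q : Pm × V => hatL q.1.1 q.1.2.1 q.2)
    (contDiffAt_hatL (q := (((U, δ, 0) : Pm), z)) hU hδ)

private lemma shat {U : Mat} {δ : ℝ} (hU : Uᴴ * U = 1) (hδ : |δ| ≤ 1/100) (z : V) :
    ContDiffAt ℝ ∞ (hatL U δ) z := shat0 hU hδ z

private lemma sBL0 {U : Mat} {δ : ℝ} (hU : Uᴴ * U = 1) (hδ : |δ| ≤ 1/100) (ε : ℝ) (z : V) :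
    ContDiffAt ℝ ∞ (fun z' => BL U δ ε z') z :=
  fixv (g := fun q : Pm × V => BL q.1.1 q.1.2.1 q.1.2.2 q.2)
    (contDiffAt_BL (q := (((U, δ, ε) : Pm), z)) hU hδ)

private lemma sBL {U : Mat} {δ : ℝ} (hU : Uᴴ * U = 1) (hδ : |δ| ≤ 1/100) (ε : ℝ) (z : V) :
    ContDiffAt ℝ ∞ (BL U δ ε) z := sBL0 hU hδ ε z

private lemma cmpx {E : Type*} [NormedAddCommGroup E] [NormedSpace ℝ E] {g : V → E} {s : Fs9}
    (h : ContDiffAt ℝ ∞ g s.1.1) : ContDiffAt ℝ ∞ (fun s : Fs9 => g s.1.1) s :=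
  ContDiffAt.comp (g := g) (f := fun s : Fs9 => s.1.1) s h contDiff_fst.fst.contDiffAt

/-- the function `⟨y, Υ p⟩`. -/
private noncomputable def fU (U : Mat) (δ ε : ℝ) (s : Fs9) : ℝ :=
  kL9 s.1.1 s.2.1 (UpL U δ ε s.1.1 (s.1.2.1 0) s.2.2)

private lemma fU_eq (U : Mat) (δ ε : ℝ) : fU U δ ε = (fun s : Fs9 => kL9 s.1.1 s.2.1
      (LamL s.1.1 (hatL U δ s.1.1 (hatL U δ s.1.1 (s.1.2.1 0))) s.2.2
        + ((0, BL U δ ε s.1.1 (hatL U δ s.1.1 (s.1.2.1 0)) s.2.2.2) : Y9))) := by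
  funext s
  simp only [fU, UpL]

private lemma sfU {U : Mat} {δ : ℝ} (hU : Uᴴ * U = 1) (hδ : |δ| ≤ 1/100) (ε : ℝ) (s : Fs9) :
    ContDiffAt ℝ ∞ (fU U δ ε) s := by
  have h6 : ContDiffAt ℝ ∞ (fun s : Fs9 => s.1.2.1 0) s := by
    have e1 : ContDiffAt ℝ ∞ (fun s : Fs9 => s.1.2.1) s := contDiff_fst.snd.fst.contDiffAt
    exact contDiffAt_pi.1 e1 0
  have h8 : ContDiffAt ℝ ∞ (fun s : Fs9 => s.2.1) s := contDiff_snd.fst.contDiffAt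
  have h9 : ContDiffAt ℝ ∞ (fun s : Fs9 => s.2.2) s := contDiff_snd.snd.contDiffAt
  have h10 : ContDiffAt ℝ ∞ (fun s : Fs9 => s.2.2.2) s := contDiff_snd.snd.snd.contDiffAt
  have a1 : ContDiffAt ℝ ∞ (fun s : Fs9 => hatL U δ s.1.1) s := cmpx (shat hU hδ s.1.1)
  have a2 : ContDiffAt ℝ ∞ (fun s : Fs9 => BL U δ ε s.1.1) s := cmpx (sBL hU hδ ε s.1.1)
  have a3 : ContDiffAt ℝ ∞ (fun s : Fs9 => LamL s.1.1) s := cmpx contDiff_LamL.contDiffAt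
  have a4 : ContDiffAt ℝ ∞ (fun s : Fs9 => kL9 s.1.1) s := cmpx contDiff_kL9.contDiffAt
  have b1 : ContDiffAt ℝ ∞ (fun s : Fs9 => hatL U δ s.1.1 (s.1.2.1 0)) s := a1.clm_apply h6
  have b2 : ContDiffAt ℝ ∞ (fun s : Fs9 => hatL U δ s.1.1 (hatL U δ s.1.1 (s.1.2.1 0))) s :=
    a1.clm_apply b1
  have b3 : ContDiffAt ℝ ∞
      (fun s : Fs9 => LamL s.1.1 (hatL U δ s.1.1 (hatL U δ s.1.1 (s.1.2.1 0))) s.2.2) s :=
    (a3.clm_apply b2).clm_apply h9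
  have b4 : ContDiffAt ℝ ∞
      (fun s : Fs9 => BL U δ ε s.1.1 (hatL U δ s.1.1 (s.1.2.1 0)) s.2.2.2) s :=
    (a2.clm_apply b1).clm_apply h10
  have b5 : ContDiffAt ℝ ∞ (fun s : Fs9 =>
      ((0, BL U δ ε s.1.1 (hatL U δ s.1.1 (s.1.2.1 0)) s.2.2.2) : Y9)) s :=
    contDiffAt_const.prodMk b4
  have b6 : ContDiffAt ℝ ∞ (fun s : Fs9 => kL9 s.1.1 s.2.1
      (LamL s.1.1 (hatL U δ s.1.1 (hatL U δ s.1.1 (s.1.2.1 0))) s.2.2
        + ((0, BL U δ ε s.1.1 (hatL U δ s.1.1 (s.1.2.1 0)) s.2.2.2) : Y9))) s :=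
    (a4.clm_apply h8).clm_apply (b3.add b5)
  rw [fU_eq]
  exact b6

private lemma hd_fst {E F : Type*} [NormedAddCommGroup E] [NormedSpace ℝ E]
    [NormedAddCommGroup F] [NormedSpace ℝ F] {f : ℝ → E × F} {f' : E × F} {t : ℝ}
    (h : HasDerivAt f f' t) : HasDerivAt (fun t => (f t).1) f'.1 t :=
  (hasFDerivAt_fst (𝕜 := ℝ) (p := f t)).comp_hasDerivAt t h

private lemma hd_snd {E F : Type*} [NormedAddCommGroup E] [NormedSpace ℝ E]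
    [NormedAddCommGroup F] [NormedSpace ℝ F] {f : ℝ → E × F} {f' : E × F} {t : ℝ}
    (h : HasDerivAt f f' t) : HasDerivAt (fun t => (f t).2) f'.2 t :=
  (hasFDerivAt_snd (𝕜 := ℝ) (p := f t)).comp_hasDerivAt t h

private lemma Xs_eq (U : Mat) (δ ε lam : ℝ) (s : St V Y9) : (D9 U δ ε lam).Xs s
    = (s.2.1, - Gam (hm U δ) s.1 s.2.1 s.2.1, - Gam (hm U δ) s.1 s.2.1 s.2.2.1,
      - AL9 U δ ε s.1 s.2.1 s.2.2.2.1, - AL9 U δ ε s.1 s.2.1 s.2.2.2.2.1,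
      - AL9 U δ ε s.1 s.2.1 s.2.2.2.2.2.1, - AL9 U δ ε s.1 s.2.1 s.2.2.2.2.2.2) := rfl

private lemma prod7 {x : ℝ → V} {X Z : ℝ → V} {y p : ℝ → Y9} {x' X' Z' : V} {y' p' : Y9} {t : ℝ}
    (h1 : HasDerivAt x x' t) (h2 : HasDerivAt X X' t) (h3 : HasDerivAt Z Z' t)
    (h4 : HasDerivAt y y' t) (h5 : HasDerivAt p p' t) :
    HasDerivAt (fun t => ((x t, X t, Z t, y t, p t, y t, p t) : St V Y9))
      (x', X', Z', y', p', y', p') t :=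
  h1.prodMk (h2.prodMk (h3.prodMk (h4.prodMk (h5.prodMk (h4.prodMk h5)))))

private lemma XB9_eq (U : Mat) (δ ε : ℝ) (s : Fs9) : XB9 U δ ε s
    = ((s.1.2.1 0, fun a => - Gam (hm U δ) s.1.1 (s.1.2.1 0) (s.1.2.1 a), DKc U δ s.1.1 (s.1.2.1 0) s.1.2.2),
      - AL9 U δ ε s.1.1 (s.1.2.1 0) s.2.1, - AL9 U δ ε s.1.1 (s.1.2.1 0) s.2.2) := by rw [XB9, XF9]

private lemma split9 {γ : ℝ → Fs9} {a b : V} {w : Fin 4 → V} {c d : Y9} {t : ℝ}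
    (h : HasDerivAt γ ((a, w, b), c, d) t) :
    HasDerivAt (fun t => (γ t).1.1) a t ∧ (∀ k, HasDerivAt (fun t => (γ t).1.2.1 k) (w k) t) ∧
    HasDerivAt (fun t => (γ t).2.1) c t ∧ HasDerivAt (fun t => (γ t).2.2) d t :=
  ⟨hd_fst (hd_fst h), hasDerivAt_pi.1 (hd_fst (hd_snd (hd_fst h))), hd_fst (hd_snd h),
    hd_snd (hd_snd h)⟩
/-- integral curves of `XB9` give integral curves of the spray `Xs`. -/
private lemma curve_Xs9 {U : Mat} {δ : ℝ} (hU : Uᴴ * U = 1) (hδ : |δ| ≤ 1/100) (ε lam : ℝ)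
    (a : Fin 3 → ℝ) {γ : ℝ → Fs9} {t : ℝ} (hγ : HasDerivAt γ (XB9 U δ ε (γ t)) t) :
    HasDerivAt (fun t => (((γ t).1.1, (γ t).1.2.1 0, ∑ k : Fin 3, a k • (γ t).1.2.1 k.succ,
        (γ t).2.1, (γ t).2.2, (γ t).2.1, (γ t).2.2) : St V Y9))
      ((D9 U δ ε lam).Xs ((γ t).1.1, (γ t).1.2.1 0, ∑ k : Fin 3, a k • (γ t).1.2.1 k.succ,
        (γ t).2.1, (γ t).2.2, (γ t).2.1, (γ t).2.2)) t := by
  have hG : ∀ u' v, Gam (hm U δ) (γ t).1.1 u' v = GamL (hm U δ) (γ t).1.1 u' v := fun u' v =>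
    (Gam_eq_near (q := (((U, δ, ε) : Pm), (γ t).1.1)) hU hδ).self_of_nhds u' v
  rw [XB9_eq] at hγ
  obtain ⟨hx, hW, hy, hp⟩ := split9 hγ
  have hu : HasDerivAt (fun t => ∑ k : Fin 3, a k • (γ t).1.2.1 k.succ)
      (∑ k : Fin 3, a k • (- Gam (hm U δ) (γ t).1.1 ((γ t).1.2.1 0) ((γ t).1.2.1 k.succ))) t := 
    HasDerivAt.fun_sum (u := Finset.univ) (A := fun (k : Fin 3) (t : ℝ) => a k • (γ t).1.2.1 k.succ)
      (A' := fun k => a k • (- Gam (hm U δ) (γ t).1.1 ((γ t).1.2.1 0) ((γ t).1.2.1 k.succ))) (x := t)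
      (fun k _ => (hW k.succ).const_smul (a k))
  have e1 : ∑ k : Fin 3, a k • (- Gam (hm U δ) (γ t).1.1 ((γ t).1.2.1 0) ((γ t).1.2.1 k.succ))
      = - Gam (hm U δ) (γ t).1.1 ((γ t).1.2.1 0) (∑ k : Fin 3, a k • (γ t).1.2.1 k.succ) := by
    rw [hG, map_sum, ← Finset.sum_neg_distrib]
    refine Finset.sum_congr rfl fun k _ => ?_
    rw [hG, map_smul, smul_neg]
  rw [e1] at hu
  have e2 := Xs_eq U δ ε lam ((γ t).1.1, (γ t).1.2.1 0, ∑ k : Fin 3, a k • (γ t).1.2.1 k.succ,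
        (γ t).2.1, (γ t).2.2, (γ t).2.1, (γ t).2.2)
  dsimp only at e2
  rw [e2]
  exact prod7 hx (hW 0) hu hy hp


section
variable {E : Type*} [NormedAddCommGroup E] [NormedSpace ℝ E]

private lemma hasJet_prim {f g : ℝ → ℝ} {j : J2} (h : ∀ᶠ t in 𝓝 (0 : ℝ), HasDerivAt f (g t) t)
    (hg : HasJet g j) : HasJet f ⟨f 0, j.a, j.b⟩ := by
  obtain ⟨g0, g', g1, g2, g3⟩ := hg
  refine ⟨rfl, g, h, g0, ?_⟩
  have := g1.self_of_nhds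
  rwa [g2] at this

private lemma hasJet_deriv {f : ℝ → ℝ} {j : J2} (h : HasJet f j) : HasDerivAt f j.b 0 := by
  obtain ⟨g0, g', g1, g2, g3⟩ := h
  have := g1.self_of_nhds
  rwa [g2] at this

private lemma lie_smooth {X : E → E} {f : E → ℝ} {s : E} (hX : ContDiffAt ℝ ∞ X s)
    (hf : ContDiffAt ℝ ∞ f s) : ContDiffAt ℝ ∞ (lie X f) s := by
  have h1 : ContDiffAt ℝ ∞ (fderiv ℝ f) s := hf.fderiv_right (by simp)
  exact h1.clm_apply hX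

private lemma deriv_near {X : E → E} {f : E → ℝ} {s : E} (hf : ContDiffAt ℝ ∞ f s) {γ : ℝ → E}
    (h0 : γ 0 = s) (hγ : ∀ᶠ t in 𝓝 (0 : ℝ), HasDerivAt γ (X (γ t)) t) :
    ∀ᶠ t in 𝓝 (0 : ℝ), HasDerivAt (fun t => f (γ t)) (lie X f (γ t)) t := by
  have hc : Tendsto γ (𝓝 0) (𝓝 s) := by
    have := hγ.self_of_nhds.continuousAt.tendsto
    rwa [h0] at this
  have hd : ∀ᶠ x in 𝓝 s, DifferentiableAt ℝ f x := by
    have h1 : ContDiffAt ℝ 1 f s := hf.of_le (by exact_mod_cast le_top)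
    filter_upwards [h1.eventually (by simp)] with x hx
    exact hx.differentiableAt (by simp)
  filter_upwards [hc.eventually hd, hγ] with t h1 h2
  exact h1.hasFDerivAt.comp_hasDerivAt t h2

end

/-! #### the functions and their jets -/
private noncomputable def og (U : Mat) (δ ε cC : ℝ) (k : Fin 4) (s : Fs9) : ℝ :=
  OG9 cC (sT U δ s.1) (sZ U δ k s.1) (fun i j => sR9 U δ ε k i j s.1) (c1S U δ ε s)
    (c2S U δ ε s) (BS U δ s)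

private noncomputable def sg (U : Mat) (δ ε lam cC : ℝ) (s : Fs9) : ℝ :=
  SG9 cC ε lam (fun j i => sU U δ j i s.1) (fun i j => sH U δ i j s.1)
    (fun i k l => sB U δ ε i k l s.1) (c1S U δ ε s) (c2S U δ ε s) (BS U δ s)

private noncomputable def upf (U : Mat) (δ ε cC : ℝ) (s : Fs9) : ℝ :=
  up cC (fun i j => sH U δ i j s.1) (fun i k l => sB U δ ε i k l s.1) (BS U δ s)

private noncomputable def tdf (U : Mat) (δ ε cC : ℝ) (s : Fs9) : ℝ :=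
  td cC ε (sT U δ s.1) (BS U δ s)

private noncomputable def Jth (U : Mat) (δ : ℝ) (s : Fr9) : J2 := jetF (XF9 U δ) (sT U δ) s
private noncomputable def Jmu (U : Mat) (δ : ℝ) (s : Fr9) (j : Fin 4) (i : Fin 8) : J2 :=
  jetF (XF9 U δ) (sU U δ j i) s
private noncomputable def JH (U : Mat) (δ : ℝ) (s : Fr9) (i j : Fin 4) : J2 :=
  jetF (XF9 U δ) (sH U δ i j) s
private noncomputable def JbB (U : Mat) (δ ε : ℝ) (s : Fr9) (i k l : Fin 4) : J2 :=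
  jetF (XF9 U δ) (sB U δ ε i k l) s
private noncomputable def JZ (U : Mat) (δ : ℝ) (s : Fr9) (k : Fin 4) : J2 :=
  jetF (XF9 U δ) (sZ U δ k) s
private noncomputable def Jr (U : Mat) (δ ε : ℝ) (s : Fr9) (k : Fin 4) (i j : Fin 6) : J2 :=
  jetF (XF9 U δ) (sR9 U δ ε k i j) s
private noncomputable def Jv (U : Mat) (δ : ℝ) (s : Fr9) (k : Fin 4) : J2 :=
  jetF (XF9 U δ) (sV U δ k) s

private noncomputable def J1 (U : Mat) (δ ε : ℝ) (s : Fs9) : J2 :=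
  j1 (sC U δ s.1) ε (Jth U δ s.1) (c1S U δ ε s) (c2S U δ ε s) (BS U δ s)
private noncomputable def J2' (U : Mat) (δ ε : ℝ) (s : Fs9) : J2 :=
  j2 (sC U δ s.1) ε (Jth U δ s.1) (c1S U δ ε s) (c2S U δ ε s) (BS U δ s)
private noncomputable def JB (U : Mat) (δ ε : ℝ) (s : Fs9) (i j : Fin 6) : J2 :=
  jB (sC U δ s.1) ε (Jth U δ s.1) (c1S U δ ε s) (c2S U δ ε s) (BS U δ s) i j

private noncomputable def Jog (U : Mat) (δ ε : ℝ) (k : Fin 4) (s : Fs9) : J2 :=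
  OG9 (sC U δ s.1) (Jth U δ s.1) (JZ U δ s.1 k) (Jr U δ ε s.1 k) (J1 U δ ε s) (J2' U δ ε s)
    (JB U δ ε s)
private noncomputable def Jsg (U : Mat) (δ ε lam : ℝ) (s : Fs9) : J2 :=
  SG9 (sC U δ s.1) ε lam (Jmu U δ s.1) (JH U δ s.1) (JbB U δ ε s.1) (J1 U δ ε s) (J2' U δ ε s)
    (JB U δ ε s)
private noncomputable def Jup (U : Mat) (δ ε : ℝ) (s : Fs9) : J2 :=
  up (sC U δ s.1) (JH U δ s.1) (JbB U δ ε s.1) (JB U δ ε s)
private noncomputable def Jtd (U : Mat) (δ ε : ℝ) (s : Fs9) : J2 :=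
  td (sC U δ s.1) ε (Jth U δ s.1) (JB U δ ε s)
private noncomputable def Jtb (U : Mat) (δ ε : ℝ) (s : Fs9) : J2 :=
  Jth U δ s.1 * JB U δ ε s 1 2

private lemma TF_eq9 (U : Mat) (δ ε lam : ℝ) (W : Fin 4 → V) (Y : V) (u : ℝ) (s : Fs9)
    (hs : s.1 = (0, W, Y)) :
    TF9 U δ ε lam W Y u (c1S U δ ε s) (c2S U δ ε s) (BS U δ s)
      = num (hm U δ) 0 (W 0) (W 1) * u ^ 2 + u * (Jog U δ ε 1 s).b
        + (1/4) * ∑ k : Fin 3, (Jog U δ ε k.succ s).a ^ 2 + (1/2) * (Jsg U δ ε lam s).c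
        + 2 * (sC U δ s.1)⁻¹ * (c2S U δ ε s * (Jtb U δ ε s).b - ε ^ 2 * (Jtb U δ ε s).a ^ 2)
        - 2 * (Jtd U δ ε s).a * u * lie (XF9 U δ) (sV U δ 1) s.1
        - (Jtd U δ ε s).a ^ 2 * (JH U δ s.1 0 0).a
        + 2 * (Jtd U δ ε s).a * (Jup U δ ε s).b + (Jtd U δ ε s).b * (Jup U δ ε s).a := by
  have e1 : JB U δ ε s = jB (sC U δ s.1) ε (Jth U δ s.1) (c1S U δ ε s) (c2S U δ ε s) (BS U δ s) := by
    funext i j; rw [JB]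
  unfold TF9
  rw [← hs]
  simp only [Tj9, Jog, Jsg, Jtb, Jtd, Jup, J1, J2', e1]
  rfl


/-- all jets along the curve. -/
private lemma jets9 {U : Mat} {δ : ℝ} (hU : Uᴴ * U = 1) (hδ : |δ| ≤ 1/100) (ε lam : ℝ)
    {γ : ℝ → Fs9} {s : Fs9} (h0 : γ 0 = s)
    (hγ : ∀ᶠ t in 𝓝 (0 : ℝ), HasDerivAt γ (XB9 U δ ε (γ t)) t) (hs : ON9 U δ s.1) :
    (∀ k, HasJet (fun t => og U δ ε (sC U δ s.1) k (γ t)) (Jog U δ ε k s)) ∧
    HasJet (fun t => sg U δ ε lam (sC U δ s.1) (γ t)) (Jsg U δ ε lam s) ∧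
    HasJet (fun t => upf U δ ε (sC U δ s.1) (γ t)) (Jup U δ ε s) ∧
    HasJet (fun t => tdf U δ ε (sC U δ s.1) (γ t)) (Jtd U δ ε s) ∧
    HasJet (fun t => sT U δ (γ t).1 * BS U δ (γ t) 1 2) (Jtb U δ ε s) ∧
    HasJet (fun t => sH U δ 0 0 (γ t).1) (JH U δ s.1 0 0) ∧
    (∀ k, HasJet (fun t => sV U δ k (γ t).1) (Jv U δ s.1 k)) ∧
    HasJet (fun t => tauS U δ (γ t)) ⟨tauS U δ s, (Jtd U δ ε s).a, (Jtd U δ ε s).b⟩ ∧
    HasJet (fun t => bF U δ (γ t) 1 3)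
      ⟨bF U δ s 1 3, -(ε * (Jtb U δ ε s).a), -(ε * (Jtb U δ ε s).b)⟩ := by
  have hγ1 : ∀ᶠ t in 𝓝 (0 : ℝ), HasDerivAt (fun t => (γ t).1) (XF9 U δ (γ t).1) t := by
    filter_upwards [hγ] with t ht using hd_fst ht
  have h01 : (fun t => (γ t).1) 0 = s.1 := by simp [h0]
  have hON := curve_ON9 hU hδ ε hγ (by rw [h0]; exact hs)
  rw [h0] at hON
  have hXF := sXF hU hδ s.1
  have jth : HasJet (fun t => sT U δ (γ t).1) (Jth U δ s.1) :=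
    hasJet_curve hXF (sT' hU hδ s.1) h01 hγ1
  have jmu : ∀ j i, HasJet (fun t => sU U δ j i (γ t).1) (Jmu U δ s.1 j i) := fun j i =>
    hasJet_curve hXF (sU' hU hδ s.1 j i) h01 hγ1
  have jH : ∀ i j, HasJet (fun t => sH U δ i j (γ t).1) (JH U δ s.1 i j) := fun i j =>
    hasJet_curve hXF (sH' hU hδ s.1 i j) h01 hγ1
  have jbB : ∀ i k l, HasJet (fun t => sB U δ ε i k l (γ t).1) (JbB U δ ε s.1 i k l) :=
    fun i k l => hasJet_curve hXF (sB' hU hδ ε s.1 i k l) h01 hγ1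
  have jZ : ∀ k, HasJet (fun t => sZ U δ k (γ t).1) (JZ U δ s.1 k) := fun k =>
    hasJet_curve hXF (sZ' hU hδ s.1 k) h01 hγ1
  have jr : ∀ k i j, HasJet (fun t => sR9 U δ ε k i j (γ t).1) (Jr U δ ε s.1 k i j) :=
    fun k i j => hasJet_curve hXF (sR' hU hδ ε s.1 k i j) h01 hγ1
  have jv : ∀ k, HasJet (fun t => sV U δ k (γ t).1) (Jv U δ s.1 k) := fun k =>
    hasJet_curve hXF (sV' hU hδ s.1 k) h01 hγ1
  obtain ⟨jc1, jc2, jb⟩ := hasJet_cB9 (sC U δ s.1) ε (fun t => sT U δ (γ t).1)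
    (fun t => c1S U δ ε (γ t)) (fun t => c2S U δ ε (γ t)) (fun t => BS U δ (γ t)) (Jth U δ s.1) jth
    (by filter_upwards [hγ, hON] with t h1 h2 using deriv_c1S hU hδ ε h1 h2.1)
    (by filter_upwards [hγ, hON] with t h1 h2 using deriv_c2S hU hδ ε h1 h2.1)
    (by
      filter_upwards [hγ, hON] with t h1 h2 i j
      have := deriv_BS hU hδ ε h1 h2.1 i j
      rw [h2.2] at this
      exact this)
  simp only [h0] at jc1 jc2 jb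
  have jtb : HasJet (fun t => sT U δ (γ t).1 * BS U δ (γ t) 1 2) (Jtb U δ ε s) :=
    jth.mul (jb 1 2)
  have jtd : HasJet (fun t => tdf U δ ε (sC U δ s.1) (γ t)) (Jtd U δ ε s) :=
    hasJet_td (sC U δ s.1) ε jth jb
  have jtau : HasJet (fun t => tauS U δ (γ t)) ⟨tauS U δ s, (Jtd U δ ε s).a, (Jtd U δ ε s).b⟩ := by
    have := hasJet_prim (f := fun t => tauS U δ (γ t)) (g := fun t => tdf U δ ε (sC U δ s.1) (γ t))
      (by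
        filter_upwards [hγ, hON] with t h1 h2
        have := deriv_tauS hU hδ ε h1 h2.1
        rw [h2.2] at this
        exact this) jtd
    rwa [h0] at this
  have jb13 : HasJet (fun t => bF U δ (γ t) 1 3)
      ⟨bF U δ s 1 3, -(ε * (Jtb U δ ε s).a), -(ε * (Jtb U δ ε s).b)⟩ := by
    have := hasJet_prim (f := fun t => bF U δ (γ t) 1 3)
      (g := fun t => -(ε * (sT U δ (γ t).1 * BS U δ (γ t) 1 2)))
      (by filter_upwards [hγ, hON] with t h1 h2 using deriv_b13 hU hδ ε h1 h2.1)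
      (jtb.smul ε).neg
    rw [h0] at this
    exact this
  exact ⟨fun k => hasJet_OG9 (sC U δ s.1) jth (jZ k) (jr k) jc1 jc2 jb,
    hasJet_SG9 (sC U δ s.1) ε lam jmu jH jbB jc1 jc2 jb,
    hasJet_up (sC U δ s.1) jH jbB jb, jtd, jtb, jH 0 0, jv, jtau, jb13⟩


/-- the function `Ψ_k`. -/
private noncomputable def psi (U : Mat) (δ ε cC : ℝ) (k : Fin 4) (s : Fs9) : ℝ :=
  og U δ ε cC k s - 2 * (tauS U δ s * lie (XF9 U δ) (sV U δ k) s.1)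

private lemma psi_eq {U : Mat} {δ : ℝ} (hU : Uᴴ * U = 1) (hδ : |δ| ≤ 1/100) (ε : ℝ) (s : Fs9)
    (hs : ON9 U δ s.1) (cC : ℝ) (hC : sC U δ s.1 = cC) (k : Fin 4) :
    kL9 s.1.1 s.2.1 (OmV (AL9 U δ ε) s.1.1 (s.1.2.1 0) (s.1.2.1 k) s.2.2) = psi U δ ε cC k s := by
  have := OmS_frame9 hU hδ ε s hs k
  rw [hC] at this
  rw [psi, og, ← this]
  ring

private lemma psi_deriv {U : Mat} {δ : ℝ} (hU : Uᴴ * U = 1) (hδ : |δ| ≤ 1/100) (ε : ℝ)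
    {γ : ℝ → Fs9} {s : Fs9} (h0 : γ 0 = s)
    (hγ : ∀ᶠ t in 𝓝 (0 : ℝ), HasDerivAt γ (XB9 U δ ε (γ t)) t) (hs : ON9 U δ s.1) (k : Fin 4) :
    HasDerivAt (fun t => psi U δ ε (sC U δ s.1) k (γ t))
      ((Jog U δ ε k s).b - 2 * (Jtd U δ ε s).a * lie (XF9 U δ) (sV U δ k) s.1
        - 2 * tauS U δ s * lie (XF9 U δ) (lie (XF9 U δ) (sV U δ k)) s.1) 0 := by
  obtain ⟨jO, -, -, -, -, -, -, jt, -⟩ := jets9 hU hδ ε 0 h0 hγ hs
  have hγ1 : ∀ᶠ t in 𝓝 (0 : ℝ), HasDerivAt (fun t => (γ t).1) (XF9 U δ (γ t).1) t := by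
    filter_upwards [hγ] with t ht using hd_fst ht
  have h01 : (fun t => (γ t).1) 0 = s.1 := by simp [h0]
  have hl := lie_smooth (sXF hU hδ s.1) (sV' hU hδ s.1 k)
  have e1 := hasJet_deriv (jO k)
  have e2 := hasJet_deriv jt
  have e3 := (deriv_near hl h01 hγ1).self_of_nhds
  have e4 := e1.sub ((e2.mul e3).const_mul 2)
  refine e4.congr_deriv ?_
  simp only [h0]
  ring

private lemma Z_eq {U : Mat} {δ : ℝ} (hU : Uᴴ * U = 1) (hδ : |δ| ≤ 1/100) {s : Fr9}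
    (hs : ON9 U δ s) (u τ : ℝ) :
    ∑ k : Fin 3, ((if k = 0 then u else 0) - τ * sV U δ k.succ s) • s.2.1 k.succ
      = u • s.2.1 1 - τ • (vF U δ s - sC U δ s • s.2.1 0) := by
  have h1 := frame_sum hU hδ hs.1 (vF U δ s)
  have h2 := (sC_pos hU hδ hs).2.2
  rw [Fin.sum_univ_succ] at h1
  have h3 : vF U δ s - sC U δ s • s.2.1 0 = ∑ k : Fin 3, sV U δ k.succ s • s.2.1 k.succ := by
    rw [← h2, sub_eq_iff_eq_add', sV]
    exact h1.symm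
  rw [h3, Finset.smul_sum]
  simp only [sub_smul, ite_smul, zero_smul, Finset.sum_sub_distrib, mul_smul]
  congr 1
  rw [Fin.sum_univ_three]
  simp

private lemma OmV_sum (U : Mat) (δ ε : ℝ) (x ζ : V) (a : Fin 3 → ℝ) (W : Fin 4 → V) (y p : Y9) :
    kL9 x y (OmV (AL9 U δ ε) x ζ (∑ k : Fin 3, a k • W k.succ) p)
      = ∑ k : Fin 3, a k * kL9 x y (OmV (AL9 U δ ε) x ζ (W k.succ) p) := by
  have h1 : ∀ v v' : V, OmV (AL9 U δ ε) x ζ (v + v') p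
      = OmV (AL9 U δ ε) x ζ v p + OmV (AL9 U δ ε) x ζ v' p := fun v v' => by
    simp only [OmV, map_add, ContinuousLinearMap.comp_add, ContinuousLinearMap.add_comp,
      _root_.add_apply, _root_.sub_apply, ContinuousLinearMap.comp_apply]
    abel
  have h2 : ∀ (r : ℝ) (v : V), OmV (AL9 U δ ε) x ζ (r • v) p
      = r • OmV (AL9 U δ ε) x ζ v p := fun r v => by
    simp only [OmV, map_smul, ContinuousLinearMap.comp_smul, ContinuousLinearMap.smul_comp,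
      _root_.add_apply, _root_.sub_apply, _root_.smul_apply, ContinuousLinearMap.comp_apply,
      smul_sub, smul_add]
  simp only [Fin.sum_univ_three, h1, h2, map_add, map_smul, smul_eq_mul]

private lemma fU_def (U : Mat) (δ ε : ℝ) : fU U δ ε = (fun s : Fs9 =>
    kL9 s.1.1 s.2.1 (UpL U δ ε s.1.1 (s.1.2.1 0) s.2.2)) := by
  funext s
  rw [fU]

/-- `∑ v_k Ψ_k = (υ - τ N)'`, and its derivative. -/
private lemma sumPsi {U : Mat} {δ : ℝ} (hU : Uᴴ * U = 1) (hδ : |δ| ≤ 1/100) (ε : ℝ)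
    {γ : ℝ → Fs9} {s : Fs9} (h0 : γ 0 = s)
    (hγ : ∀ᶠ t in 𝓝 (0 : ℝ), HasDerivAt γ (XB9 U δ ε (γ t)) t) (hs : ON9 U δ s.1) :
    let J : J2 := Jup U δ ε s - (⟨tauS U δ s, (Jtd U δ ε s).a, (Jtd U δ ε s).b⟩ : J2) * JH U δ s.1 0 0
    (∑ k : Fin 3, sV U δ k.succ s.1 * psi U δ ε (sC U δ s.1) k.succ s = J.b) ∧
    HasDerivAt (fun t => ∑ k : Fin 3, sV U δ k.succ (γ t).1 * psi U δ ε (sC U δ s.1) k.succ (γ t))
      J.c 0 := by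
  intro J
  obtain ⟨-, -, jup, -, -, jN, -, jt, -⟩ := jets9 hU hδ ε 0 h0 hγ hs
  have hON := curve_ON9 hU hδ ε hγ (by rw [h0]; exact hs)
  rw [h0] at hON
  have h1 : HasJet (fun t => fU U δ ε (γ t)) J := by
    refine hasJet_congr (jup.sub (jt.mul jN)) ?_
    filter_upwards [hON] with t ht
    have := up_frame9 hU hδ ε (γ t) ht.1
    rw [ht.2] at this
    rw [fU, this, upf]
  have h2 := deriv_near (sfU hU hδ ε s) h0 hγ
  have h3 : ∀ᶠ t in 𝓝 (0 : ℝ), lie (XB9 U δ ε) (fU U δ ε) (γ t)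
      = ∑ k : Fin 3, sV U δ k.succ (γ t).1 * psi U δ ε (sC U δ s.1) k.succ (γ t) := by
    filter_upwards [hON] with t ht
    have sP := sum_Psi9 hU hδ ε (γ t) ht.1
    rw [← fU_def] at sP
    simp only [psi_eq hU hδ ε (γ t) ht.1 _ ht.2] at sP
    exact sP.symm
  have h4 : ∀ᶠ t in 𝓝 (0 : ℝ), HasDerivAt (fun t => fU U δ ε (γ t))
      (∑ k : Fin 3, sV U δ k.succ (γ t).1 * psi U δ ε (sC U δ s.1) k.succ (γ t)) t := by
    filter_upwards [h2, h3] with t a b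
    rwa [b] at a
  obtain ⟨d0, f', d1, d2, d3⟩ := h1
  have h5 : f' =ᶠ[𝓝 0] (fun t => ∑ k : Fin 3, sV U δ k.succ (γ t).1
      * psi U δ ε (sC U δ s.1) k.succ (γ t)) := by
    filter_upwards [h4, d1] with t a b using b.unique a
  refine ⟨?_, d3.congr_of_eventuallyEq h5.symm⟩
  have := h5.self_of_nhds
  simp only [h0] at this
  rw [← this, d2]


/-- the jet of `S`. -/
private lemma jetS {U : Mat} {δ : ℝ} (hU : Uᴴ * U = 1) (hδ : |δ| ≤ 1/100) (ε lam : ℝ)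
    {γ : ℝ → Fs9} {s : Fs9} (h0 : γ 0 = s)
    (hγ : ∀ᶠ t in 𝓝 (0 : ℝ), HasDerivAt γ (XB9 U δ ε (γ t)) t) (hs : ON9 U δ s.1) :
    let T : J2 := ⟨tauS U δ s, (Jtd U δ ε s).a, (Jtd U δ ε s).b⟩
    let b : J2 := ⟨bF U δ s 1 3, -(ε * (Jtb U δ ε s).a), -(ε * (Jtb U δ ε s).b)⟩
    HasJet (fun t => S9 U δ ε lam (γ t).1.1 (γ t).2.1 (γ t).2.2 (γ t).2.1 (γ t).2.2)
      (Jsg U δ ε lam s - (2 * (sC U δ s.1)⁻¹) • (b * b) - T * T * JH U δ s.1 0 0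
        + (2 : ℝ) • (T * Jup U δ ε s)) := by
  intro T b
  obtain ⟨-, jS, jup, -, -, jN, -, jt, jb⟩ := jets9 hU hδ ε lam h0 hγ hs
  have hON := curve_ON9 hU hδ ε hγ (by rw [h0]; exact hs)
  rw [h0] at hON
  refine hasJet_congr (((jS.sub ((jb.mul jb).smul (2 * (sC U δ s.1)⁻¹))).sub
    ((jt.mul jt).mul jN)).add ((jt.mul jup).smul 2)) ?_
  filter_upwards [hON] with t ht
  have := SS_frame9 hU hδ ε lam (γ t) ht.1
  rw [ht.2] at this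
  rw [this, sg, upf]
  ring

/-- the jet of `N`. -/
private lemma jetN {U : Mat} {δ : ℝ} (hU : Uᴴ * U = 1) (hδ : |δ| ≤ 1/100) (ε : ℝ)
    {γ : ℝ → Fs9} {s : Fs9} (h0 : γ 0 = s)
    (hγ : ∀ᶠ t in 𝓝 (0 : ℝ), HasDerivAt γ (XB9 U δ ε (γ t)) t) (hs : ON9 U δ s.1) :
    JH U δ s.1 0 0 = J2.C (sC U δ s.1 ^ 2) + (Jv U δ s.1 1 * Jv U δ s.1 1
      + Jv U δ s.1 2 * Jv U δ s.1 2 + Jv U δ s.1 3 * Jv U δ s.1 3) := by
  obtain ⟨-, -, -, -, -, jN, jv, -, -⟩ := jets9 hU hδ ε 0 h0 hγ hs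
  have hON := curve_ON9 hU hδ ε hγ (by rw [h0]; exact hs)
  rw [h0] at hON
  refine hasJet_unique jN (hasJet_congr ((HasJet.const (sC U δ s.1 ^ 2)).add
    ((((jv 1).mul (jv 1)).add ((jv 2).mul (jv 2))).add ((jv 3).mul (jv 3)))) ?_)
  filter_upwards [hON] with t ht
  have := N_frame9 hU hδ ht.1
  rw [ht.2, Fin.sum_univ_three] at this
  rw [this]
  simp only [Fin.succ_zero_eq_one, Fin.succ_one_eq_two]
  have e : (Fin.succ 2 : Fin 4) = 3 := rfl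
  rw [e]
  ring

/-- the starting state. -/
private noncomputable def st9 (s : Fs9) (Z : V) : St V Y9 :=
  (s.1.1, s.1.2.1 0, Z, s.2.1, s.2.2, s.2.1, s.2.2)

private lemma curveσ {U : Mat} {δ : ℝ} (hU : Uᴴ * U = 1) (hδ : |δ| ≤ 1/100) (ε lam : ℝ)
    (a : Fin 3 → ℝ) {γ : ℝ → Fs9}
    (hγ : ∀ᶠ t in 𝓝 (0 : ℝ), HasDerivAt γ (XB9 U δ ε (γ t)) t) :
    ∀ᶠ t in 𝓝 (0 : ℝ), HasDerivAt
      (fun t => st9 (γ t) (∑ k : Fin 3, a k • (γ t).1.2.1 k.succ))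
      ((D9 U δ ε lam).Xs (st9 (γ t) (∑ k : Fin 3, a k • (γ t).1.2.1 k.succ))) t := by
  filter_upwards [hγ] with t ht using curve_Xs9 hU hδ ε lam a ht

private lemma OmS_def (U : Mat) (δ ε lam : ℝ) (s : Fs9) (Z : V) :
    (D9 U δ ε lam).OmS (st9 s Z)
      = kL9 s.1.1 s.2.1 (OmV (AL9 U δ ε) s.1.1 (s.1.2.1 0) Z s.2.2) := by
  simp only [BD.OmS, D9, st9]

private lemma SS_def (U : Mat) (δ ε lam : ℝ) (s : Fs9) (Z : V) :
    (D9 U δ ε lam).SS (st9 s Z) = S9 U δ ε lam s.1.1 s.2.1 s.2.2 s.2.1 s.2.2 := by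
  simp only [BD.SS, D9, SL9_apply, st9]

private lemma dOm {U : Mat} {δ : ℝ} (hU : Uᴴ * U = 1) (hδ : |δ| ≤ 1/100) (ε lam : ℝ)
    {γ : ℝ → Fs9} {s : Fs9} (h0 : γ 0 = s)
    (hγ : ∀ᶠ t in 𝓝 (0 : ℝ), HasDerivAt γ (XB9 U δ ε (γ t)) t) (hs : ON9 U δ s.1)
    (a : Fin 3 → ℝ) {Z : V} (hZ : ∑ k : Fin 3, a k • s.1.2.1 k.succ = Z) :
    lie (D9 U δ ε lam).Xs (D9 U δ ε lam).OmS (st9 s Z)
      = ∑ k : Fin 3, a k * ((Jog U δ ε k.succ s).b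
        - 2 * (Jtd U δ ε s).a * lie (XF9 U δ) (sV U δ k.succ) s.1
        - 2 * tauS U δ s * lie (XF9 U δ) (lie (XF9 U δ) (sV U δ k.succ)) s.1) := by
  have hON := curve_ON9 hU hδ ε hγ (by rw [h0]; exact hs)
  rw [h0] at hON
  have hσ := curveσ hU hδ ε lam a hγ
  have hσ0 : (fun t => st9 (γ t) (∑ k : Fin 3, a k • (γ t).1.2.1 k.succ)) 0 = st9 s Z := by
    simp only [h0]
    rw [hZ]
  obtain ⟨c1, c2, -⟩ := contDiffAt_Xs9 hU hδ ε lam (st9 s Z)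
  have m1 := hasJet_deriv (hasJet_curve c1 c2 hσ0 hσ)
  have m2 : HasDerivAt (fun t => ∑ k : Fin 3, a k * psi U δ ε (sC U δ s.1) k.succ (γ t))
      (∑ k : Fin 3, a k * ((Jog U δ ε k.succ s).b
      - 2 * (Jtd U δ ε s).a * lie (XF9 U δ) (sV U δ k.succ) s.1
      - 2 * tauS U δ s * lie (XF9 U δ) (lie (XF9 U δ) (sV U δ k.succ)) s.1)) 0 :=
    HasDerivAt.fun_sum fun k _ => (psi_deriv hU hδ ε h0 hγ hs k.succ).const_mul (a k)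
  refine m1.unique (m2.congr_of_eventuallyEq ?_)
  filter_upwards [hON] with t ht
  rw [OmS_def, OmV_sum]
  refine Finset.sum_congr rfl fun k _ => ?_
  rw [psi_eq hU hδ ε (γ t) ht.1 _ ht.2]

private lemma ddS {U : Mat} {δ : ℝ} (hU : Uᴴ * U = 1) (hδ : |δ| ≤ 1/100) (ε lam : ℝ)
    {γ : ℝ → Fs9} {s : Fs9} (h0 : γ 0 = s)
    (hγ : ∀ᶠ t in 𝓝 (0 : ℝ), HasDerivAt γ (XB9 U δ ε (γ t)) t) (hs : ON9 U δ s.1)
    (a : Fin 3 → ℝ) {Z : V} (hZ : ∑ k : Fin 3, a k • s.1.2.1 k.succ = Z) :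
    let T : J2 := ⟨tauS U δ s, (Jtd U δ ε s).a, (Jtd U δ ε s).b⟩
    let b : J2 := ⟨bF U δ s 1 3, -(ε * (Jtb U δ ε s).a), -(ε * (Jtb U δ ε s).b)⟩
    lie (D9 U δ ε lam).Xs (lie (D9 U δ ε lam).Xs (D9 U δ ε lam).SS) (st9 s Z)
      = (Jsg U δ ε lam s - (2 * (sC U δ s.1)⁻¹) • (b * b) - T * T * JH U δ s.1 0 0
        + (2 : ℝ) • (T * Jup U δ ε s)).c := by
  intro T b
  have hσ := curveσ hU hδ ε lam a hγ
  have hσ0 : (fun t => st9 (γ t) (∑ k : Fin 3, a k • (γ t).1.2.1 k.succ)) 0 = st9 s Z := by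
    simp only [h0]
    rw [hZ]
  obtain ⟨c1, -, c3⟩ := contDiffAt_Xs9 hU hδ ε lam (st9 s Z)
  have k2 := hasJet_curve c1 c3 hσ0 hσ
  have e2 := hasJet_unique k2 (hasJet_congr (jetS hU hδ ε lam h0 hγ hs)
    (Eventually.of_forall fun t => (SS_def U δ ε lam (γ t) _).symm))
  exact congrArg J2.c e2

private lemma kOm {U : Mat} {δ : ℝ} (hU : Uᴴ * U = 1) (hδ : |δ| ≤ 1/100) (ε : ℝ)
    {γ : ℝ → Fs9} {s : Fs9} (h0 : γ 0 = s)
    (hγ : ∀ᶠ t in 𝓝 (0 : ℝ), HasDerivAt γ (XB9 U δ ε (γ t)) t) (hs : ON9 U δ s.1) (k : Fin 4) :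
    psi U δ ε (sC U δ s.1) k s
      = (Jog U δ ε k s).a - 2 * tauS U δ s * lie (XF9 U δ) (sV U δ k) s.1 := by
  obtain ⟨jO, -⟩ := jets9 hU hδ ε 0 h0 hγ hs
  have q2 := (jO k).1
  simp only [h0] at q2
  rw [psi, q2]
  ring

/-- the identity at a general point. -/
private lemma TT_gen {U : Mat} {δ : ℝ} (hU : Uᴴ * U = 1) (hδ : |δ| ≤ 1/100) (ε lam : ℝ)
    {s : Fs9} (hs : ON9 U δ s.1) (u : ℝ) {Z : V}
    (hZ : Z = u • s.1.2.1 1 - tauS U δ s • (vF U δ s.1 - sC U δ s.1 • s.1.2.1 0)) :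
    num (hm U δ) s.1.1 (s.1.2.1 0) Z
      + lie (D9 U δ ε lam).Xs (D9 U δ ε lam).OmS (st9 s Z)
      + (1/4) * ∑ k : Fin 3, (kL9 s.1.1 s.2.1 (OmV (AL9 U δ ε) s.1.1 (s.1.2.1 0)
          (s.1.2.1 k.succ) s.2.2)) ^ 2
      + (1/2) * lie (D9 U δ ε lam).Xs (lie (D9 U δ ε lam).Xs (D9 U δ ε lam).SS) (st9 s Z)
    = num (hm U δ) s.1.1 (s.1.2.1 0) (s.1.2.1 1) * u ^ 2 + u * (Jog U δ ε 1 s).b
        + (1/4) * ∑ k : Fin 3, (Jog U δ ε k.succ s).a ^ 2 + (1/2) * (Jsg U δ ε lam s).c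
        + 2 * (sC U δ s.1)⁻¹ * (c2S U δ ε s * (Jtb U δ ε s).b - ε ^ 2 * (Jtb U δ ε s).a ^ 2)
        - 2 * (Jtd U δ ε s).a * u * lie (XF9 U δ) (sV U δ 1) s.1
        - (Jtd U δ ε s).a ^ 2 * (JH U δ s.1 0 0).a
        + 2 * (Jtd U δ ε s).a * (Jup U δ ε s).b + (Jtd U δ ε s).b * (Jup U δ ε s).a := by
  obtain ⟨γ, h0, hγ⟩ := exists_curve (contDiffAt_XB9 hU hδ ε s)
  have hZ' := (Z_eq hU hδ hs u (tauS U δ s)).trans hZ.symm
  have e1 := dOm hU hδ ε lam h0 hγ hs _ hZ'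
  have e2 := ddS hU hδ ε lam h0 hγ hs _ hZ'
  have e3 := kOm hU hδ ε h0 hγ hs
  obtain ⟨p1, p2⟩ := sumPsi hU hδ ε h0 hγ hs
  have eN := jetN hU hδ ε h0 hγ hs
  have en := num_frame9 hU hδ hs u (tauS U δ s)
  obtain ⟨-, -, -, -, -, -, jv, -, -⟩ := jets9 hU hδ ε lam h0 hγ hs
  have p3 : HasDerivAt (fun t => ∑ k : Fin 3, sV U δ k.succ (γ t).1
      * psi U δ ε (sC U δ s.1) k.succ (γ t))
      (∑ k : Fin 3, (lie (XF9 U δ) (sV U δ k.succ) s.1 * psi U δ ε (sC U δ s.1) k.succ (γ 0)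
        + sV U δ k.succ (γ 0).1 * ((Jog U δ ε k.succ s).b
        - 2 * (Jtd U δ ε s).a * lie (XF9 U δ) (sV U δ k.succ) s.1
        - 2 * tauS U δ s * lie (XF9 U δ) (lie (XF9 U δ) (sV U δ k.succ)) s.1))) 0 :=
    HasDerivAt.fun_sum fun k _ => (hasJet_deriv (jv k.succ)).mul (psi_deriv hU hδ ε h0 hγ hs k.succ)
  have p4 := p3.unique p2
  have eNb := congrArg J2.b eN
  have eNc := congrArg J2.c eN
  simp only [psi_eq hU hδ ε s hs _ rfl]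
  rw [e1, e2, hZ, en]
  simp only [h0] at p4
  simp only [e3] at p1 p4 ⊢
  simp only [J2.sub_b, J2.sub_c, J2.add_b, J2.add_c, J2.mul_b, J2.mul_c, J2.mul_a, J2.smul_c,
    J2.C_b, J2.C_c] at p1 p4 eNb eNc ⊢
  have jva : ∀ k, (Jv U δ s.1 k).a = sV U δ k s.1 := fun k => rfl
  have jvb : ∀ k, (Jv U δ s.1 k).b = lie (XF9 U δ) (sV U δ k) s.1 := fun k => rfl
  have jvc : ∀ k, (Jv U δ s.1 k).c = lie (XF9 U δ) (lie (XF9 U δ) (sV U δ k)) s.1 := fun k => rfl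
  simp only [jva, jvb, jvc] at eNb eNc
  have hc2 : c2S U δ ε s = ε * bF U δ s 1 3 := rfl
  have m := master9 (num (hm U δ) s.1.1 (s.1.2.1 0) (s.1.2.1 1)) u (JH U δ s.1 0 0).a
    (JH U δ s.1 0 0).b (JH U δ s.1 0 0).c (tauS U δ s) (Jtd U δ ε s).a (Jtd U δ ε s).b
    (Jup U δ ε s).a (Jup U δ ε s).b (Jup U δ ε s).c (Jsg U δ ε lam s).c
    (2 * (sC U δ s.1)⁻¹ * (bF U δ s 1 3 * -(ε * (Jtb U δ ε s).b)
      + 2 * (-(ε * (Jtb U δ ε s).a) * -(ε * (Jtb U δ ε s).a))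
      + -(ε * (Jtb U δ ε s).b) * bF U δ s 1 3))
    (fun k => sV U δ k.succ s.1) (fun k => lie (XF9 U δ) (sV U δ k.succ) s.1)
    (fun k => lie (XF9 U δ) (lie (XF9 U δ) (sV U δ k.succ)) s.1)
    (fun k => (Jog U δ ε k.succ s).a) (fun k => (Jog U δ ε k.succ s).b)
    (by
      rw [eNb, Fin.sum_univ_three]
      simp only [Fin.succ_zero_eq_one, Fin.succ_one_eq_two]
      have e : (Fin.succ 2 : Fin 4) = 3 := rfl
      rw [e]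
      ring)
    (by
      rw [eNc, Fin.sum_univ_three]
      simp only [Fin.succ_zero_eq_one, Fin.succ_one_eq_two]
      have e : (Fin.succ 2 : Fin 4) = 3 := rfl
      rw [e]
      ring)
    (by rw [p1]; ring)
    (by rw [p4]; ring)
  rw [hc2]
  have e01 : ((0 : Fin 3).succ : Fin 4) = 1 := rfl
  rw [e01] at m
  linear_combination m

private lemma st9_mk (x : V) (W : Fin 4 → V) (Y : V) (y p : Y9) (Z : V) :
    st9 ((x, W, Y), y, p) Z = (x, W 0, Z, y, p, y, p) := rfl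

private lemma TT_pre {U : Mat} {δ : ℝ} (hU : Uᴴ * U = 1) (hδ : |δ| ≤ 1/100) (ε lam : ℝ)
    {W : Fin 4 → V} {Y : V} (hW : ON9 U δ (0, W, Y)) (u : ℝ) (y p : Y9) (Z : V)
    (hZ : Z = u • W 1 - tauS U δ ((0, W, Y), y, p) • (vF U δ (0, W, Y)
      - sC U δ (0, W, Y) • W 0)) :
    num (hm U δ) 0 (W 0) Z
      + lie (D9 U δ ε lam).Xs (D9 U δ ε lam).OmS (0, W 0, Z, y, p, y, p)
      + (1/4) * ∑ k : Fin 3, (kL9 0 y (OmV (AL9 U δ ε) 0 (W 0) (W k.succ) p)) ^ 2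
      + (1/2) * lie (D9 U δ ε lam).Xs (lie (D9 U δ ε lam).Xs (D9 U δ ε lam).SS)
          (0, W 0, Z, y, p, y, p)
    = TF9 U δ ε lam W Y u (c1S U δ ε ((0, W, Y), y, p)) (c2S U δ ε ((0, W, Y), y, p))
        (BS U δ ((0, W, Y), y, p)) := by
  have h1 := TT_gen hU hδ ε lam (s := ((0, W, Y), y, p)) hW u (Z := Z) hZ
  have h2 := TF_eq9 U δ ε lam W Y u ((0, W, Y), y, p) rfl
  have h3 := st9_mk 0 W Y y p Z
  rw [h2, ← h3]
  dsimp only at h1 ⊢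
  exact h1

theorem TT_eq9 {U : Mat} {δ : ℝ} (hU : Uᴴ * U = 1) (hδ : |δ| ≤ 1/100) (ε lam : ℝ) {W : Fin 4 → V} {Y : V}
    (hW : ON9 U δ (0, W, Y)) (u : ℝ) (y p : Y9) :
    let s : Fs9 := ((0, W, Y), y, p)
    let Z : V := u • W 1 - tauS U δ s • (vF U δ s.1 - sC U δ s.1 • W 0)
    num (hm U δ) 0 (W 0) Z
      + lie (D9 U δ ε lam).Xs (D9 U δ ε lam).OmS (0, W 0, Z, y, p, y, p)
      + (1/4) * ∑ k : Fin 3, (kL9 0 y (OmV (AL9 U δ ε) 0 (W 0) (W k.succ) p)) ^ 2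
      + (1/2) * lie (D9 U δ ε lam).Xs (lie (D9 U δ ε lam).Xs (D9 U δ ε lam).SS)
          (0, W 0, Z, y, p, y, p)
    = TF9 U δ ε lam W Y u (c1S U δ ε s) (c2S U δ ε s) (BS U δ s) :=
  TT_pre hU hδ ε lam hW u y p _ rfl

end Pool.Agent.Helper81.M9
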