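import Pool.Agent.Helper46.M8.Basic
import Pool.Agent.Helper46.M8.Ns

/-!
# M9, piece A1
-/

open Filter Metric Module Set
open scoped Topology ContDiff Matrix Matrix.Norms.Elementwise ComplexConjugate

set_option maxSynthPendingDepth 3

namespace Pool.Agent.Helper81.M9
open Pool.Agent.Helper20.PC Pool.Agent.Helper20.HP Pool.Agent.Helper20.M8 Pool.Agent.Helper20.MB
open Pool.Agent.Helper46.M8

/-! ### A1 : upper bound of the cometric -/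
theorem Cm_le {δ : ℝ} (hδ : |δ| ≤ 1/100) (x : Fin 8 → ℝ) :
    ∑ i, ∑ j, Cm δ i j * x i * x j ≤ 2 * ∑ i, C0 i i * x i ^ 2 := by
  have e : ∑ i, ∑ j, Cm δ i j * x i * x j = ∑ i, C0 i i * x i ^ 2 +
      δ * (2 * (-3 * x 0 * x 1 + 2 * x 0 * x 3 - 3 * x 0 * x 5 - 3 * x 1 * x 4 - 3 * x 1 * x 6
        + x 1 * x 7 - x 2 * x 5 - 2 * x 3 * x 6)) := by
    simp [Fin.sum_univ_succ, Cm, C0, Ii, Fin.succ]
    ring
  have e0 : ∑ i, C0 i i * x i ^ 2 = x 0 ^ 2 + x 1 ^ 2 + x 2 ^ 2 + x 3 ^ 2 + x 4 ^ 2 + x 5 ^ 2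
      + x 6 ^ 2 + (1/3) * x 7 ^ 2 := by
    simp [Fin.sum_univ_succ, C0, Fin.succ]
    ring
  set Q : ℝ := 2 * (-3 * x 0 * x 1 + 2 * x 0 * x 3 - 3 * x 0 * x 5 - 3 * x 1 * x 4 - 3 * x 1 * x 6
        + x 1 * x 7 - x 2 * x 5 - 2 * x 3 * x 6) with hQ
  set S : ℝ := 8 * x 0 ^ 2 + 10 * x 1 ^ 2 + x 2 ^ 2 + 4 * x 3 ^ 2 + 3 * x 4 ^ 2 + 4 * x 5 ^ 2
      + 5 * x 6 ^ 2 + x 7 ^ 2 with hS
  have hQ1 : Q ≤ S := by
    rw [hQ, hS]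
    nlinarith [sq_nonneg (x 0 + x 1), sq_nonneg (x 0 - x 3), sq_nonneg (x 0 + x 5),
      sq_nonneg (x 1 + x 4), sq_nonneg (x 1 + x 6), sq_nonneg (x 1 - x 7), sq_nonneg (x 2 + x 5),
      sq_nonneg (x 3 + x 6)]
  have hQ2 : -S ≤ Q := by
    rw [hQ, hS]
    nlinarith [sq_nonneg (x 0 - x 1), sq_nonneg (x 0 + x 3), sq_nonneg (x 0 - x 5),
      sq_nonneg (x 1 - x 4), sq_nonneg (x 1 - x 6), sq_nonneg (x 1 + x 7), sq_nonneg (x 2 - x 5),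
      sq_nonneg (x 3 - x 6)]
  have hS0 : 0 ≤ S := by rw [hS]; positivity
  have h3 : |δ * Q| ≤ (1/100) * S := by
    rw [abs_mul]
    exact mul_le_mul hδ (abs_le.mpr ⟨hQ2, hQ1⟩) (abs_nonneg _) (by norm_num)
  have h4 := (abs_le.mp h3).2
  rw [e, e0]
  rw [hS] at h4
  nlinarith [sq_nonneg (x 0), sq_nonneg (x 1), sq_nonneg (x 2), sq_nonneg (x 3), sq_nonneg (x 4),
    sq_nonneg (x 5), sq_nonneg (x 6), sq_nonneg (x 7)]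

end Pool.Agent.Helper81.M9
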