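import Pool.Agent.Helper81.M9.Basic
import Pool.Agent.Helper46.M8.St.A6
import Pool.Agent.Helper46.M8.St.A7
import Pool.Agent.Helper46.M8.Ns

/-!
# M9, piece A4
-/

open Filter Metric Module Set
open scoped Topology ContDiff Matrix Matrix.Norms.Elementwise ComplexConjugate

set_option maxSynthPendingDepth 3

namespace Pool.Agent.Helper81.M9
open Pool.Agent.Helper20.PC Pool.Agent.Helper20.HP Pool.Agent.Helper20.M8 Pool.Agent.Helper20.MB
open Pool.Agent.Helper46.M8

/-- derivative of the Fubini-Study metric through its connection -/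
private lemma A4_fderiv (z t u v : V) :
    fderiv ℝ h0 z t u v = h0 z (Gam h0 z t u) v + h0 z u (Gam h0 z t v) := by
  have hM := h0_metAt z
  have e : fderiv ℝ h0 z t u v = dG h0 z t u v := by
    have h1 := (((hM.smooth.differentiableAt (by norm_num)).hasFDerivAt.clm_apply
      (hasFDerivAt_const u z)).clm_apply (hasFDerivAt_const v z)).fderiv
    rw [dG, h1]
    simp
  rw [e, dG_eq_chr hM, h0_symm z u, G_Gam hM, G_Gam hM]

/-- the hermitian form, without the denominator -/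
private noncomputable def A4_H (z u v : V) : ℂ := (nz z : ℂ) * hip u v - hip u z * hip z v

private lemma A4_h0 (z u v : V) : h0 z u v = (A4_H z u v).re / nz z ^ 2 := by
  rw [h0_apply, h0f, A4_H, Complex.sub_re, Complex.re_ofReal_mul]

private lemma A4_H_add_left (z u u' v : V) : A4_H z (u + u') v = A4_H z u v + A4_H z u' v := by
  simp only [A4_H, hip, Fin.sum_univ_two, Pi.add_apply, map_add]
  ring

private lemma A4_H_neg_left (z u v : V) : A4_H z (-u) v = - A4_H z u v := by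
  simp only [A4_H, hip, Fin.sum_univ_two, Pi.neg_apply, map_neg]
  ring

private lemma A4_H_smul_left (c : ℂ) (z u v : V) : A4_H z (c • u) v = conj c * A4_H z u v := by
  simp only [A4_H, hip, Fin.sum_univ_two, Pi.smul_apply, smul_eq_mul, map_mul]
  ring

private lemma A4_H_add_right (z u v v' : V) : A4_H z u (v + v') = A4_H z u v + A4_H z u v' := by
  simp only [A4_H, hip, Fin.sum_univ_two, Pi.add_apply]
  ring

private lemma A4_H_neg_right (z u v : V) : A4_H z u (-v) = - A4_H z u v := by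
  simp only [A4_H, hip, Fin.sum_univ_two, Pi.neg_apply]
  ring

private lemma A4_H_smul_right (c : ℂ) (z u v : V) : A4_H z u (c • v) = c * A4_H z u v := by
  simp only [A4_H, hip, Fin.sum_univ_two, Pi.smul_apply, smul_eq_mul]
  ring

/-- the polynomial identity -/
private lemma A4_poly (z0 z1 y0 y1 u0 u1 v0 v1 r0 r1 q0 q1 s00 s01 s10 s11 a : ℂ)
    (n p p' K0 K1 L0 L1 E0 E1 D0 D1 : ℂ)
    (hn : n = 1 + y0 * z0 + y1 * z1)
    (hp : p = a + (r0 * z0 + r1 * z1)) (hp' : p' = - a + (q0 * y0 + q1 * y1))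
    (hK0 : K0 = - q0 + (s00 * z0 + s01 * z1) - z0 * p)
    (hK1 : K1 = - q1 + (s10 * z0 + s11 * z1) - z1 * p)
    (hL0 : L0 = - r0 + (- s00 * y0 + - s10 * y1) - y0 * p')
    (hL1 : L1 = - r1 + (- s01 * y0 + - s11 * y1) - y1 * p')
    (hE0 : E0 = (s00 * v0 + s01 * v1) - (z0 * (r0 * v0 + r1 * v1) + p * v0))
    (hE1 : E1 = (s10 * v0 + s11 * v1) - (z1 * (r0 * v0 + r1 * v1) + p * v1))
    (hD0 : D0 = (- s00 * u0 + - s10 * u1) - (y0 * (q0 * u0 + q1 * u1) + p' * u0))
    (hD1 : D1 = (- s01 * u0 + - s11 * u1) - (y1 * (q0 * u0 + q1 * u1) + p' * u1)) :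
    n * ((n * (D0 * v0 + D1 * v1) - (D0 * z0 + D1 * z1) * (y0 * v0 + y1 * v1)) +
      (n * (u0 * E0 + u1 * E1) - (u0 * z0 + u1 * z1) * (y0 * E0 + y1 * E1))) =
    ((z0 * L0 + z1 * L1) + (y0 * K0 + y1 * K1)) *
      (n * (u0 * v0 + u1 * v1) - (u0 * z0 + u1 * z1) * (y0 * v0 + y1 * v1)) +
    (z0 * u0 + z1 * u1) *
      (n * (L0 * v0 + L1 * v1) - (L0 * z0 + L1 * z1) * (y0 * v0 + y1 * v1)) +
    (y0 * v0 + y1 * v1) *
      (n * (u0 * K0 + u1 * K1) - (u0 * z0 + u1 * z1) * (y0 * K0 + y1 * K1)) := by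
  subst hn hp hp'
  subst hK0 hK1 hL0 hL1 hE0 hE1 hD0 hD1
  ring

/-- the hermitian identity -/
private lemma A4_key {A : Mat} (hA : Aᴴ = -A) (z u v : V) :
    (nz z : ℂ) * (A4_H z (fderiv ℝ (KA A) z u) v + A4_H z u (fderiv ℝ (KA A) z v)) =
      (conj (hip z (KA A z)) + hip z (KA A z)) * A4_H z u v +
      conj (hip z u) * A4_H z (KA A z) v + hip z v * A4_H z u (KA A z) := by
  have hc : ∀ i j, conj (A i j) = - A j i := by
    intro i j
    have := congrFun (congrFun hA j) i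
    simpa [Matrix.conjTranspose_apply] using this
  have hr : ∀ i j, A j i = - conj (A i j) := fun i j => by rw [hc, neg_neg]
  have hn : (nz z : ℂ) = 1 + conj (z 0) * z 0 + conj (z 1) * z 1 := by
    rw [nz, Fin.sum_univ_two]
    push_cast
    rw [← Complex.normSq_eq_conj_mul_self, ← Complex.normSq_eq_conj_mul_self]
    ring
  have hcc : ∀ w : ℂ, conj (conj w) = w := fun w => Complex.conj_conj w
  have := A4_poly (z 0) (z 1) (conj (z 0)) (conj (z 1)) (conj (u 0)) (conj (u 1)) (v 0) (v 1)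
    (A 0 1) (A 0 2) (conj (A 0 1)) (conj (A 0 2)) (A 1 1) (A 1 2) (A 2 1) (A 2 2) (A 0 0)
    (nz z) (A 0 0 + (A 0 1 * z 0 + A 0 2 * z 1))
    (- A 0 0 + (conj (A 0 1) * conj (z 0) + conj (A 0 2) * conj (z 1)))
    (KA A z 0) (KA A z 1) (conj (KA A z 0)) (conj (KA A z 1))
    (fderiv ℝ (KA A) z v 0) (fderiv ℝ (KA A) z v 1)
    (conj (fderiv ℝ (KA A) z u 0)) (conj (fderiv ℝ (KA A) z u 1)) hn rfl rfl
    (by rw [A7_KA]; simp only [Fin.succ_zero_eq_one]; rw [hr 0 1])
    (by rw [A7_KA]; simp only [Fin.succ_one_eq_two]; rw [hr 0 2])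
    (by
      rw [A7_KA]; simp only [Fin.succ_zero_eq_one, map_sub, map_add, map_mul]
      rw [hc 1 0, hc 1 1, hc 1 2, hc 0 0])
    (by
      rw [A7_KA]; simp only [Fin.succ_one_eq_two, map_sub, map_add, map_mul]
      rw [hc 2 0, hc 2 1, hc 2 2, hc 0 0])
    (by rw [A7_fderiv]; simp only [Fin.succ_zero_eq_one])
    (by rw [A7_fderiv]; simp only [Fin.succ_one_eq_two])
    (by
      rw [A7_fderiv]; simp only [Fin.succ_zero_eq_one, map_sub, map_add, map_mul]
      rw [hc 1 1, hc 1 2, hc 0 0])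
    (by
      rw [A7_fderiv]; simp only [Fin.succ_one_eq_two, map_sub, map_add, map_mul]
      rw [hc 2 1, hc 2 2, hc 0 0])
  simp only [A4_H, hip, Fin.sum_univ_two, map_add, map_mul, hcc]
  exact this

private lemma A4_skew (A : Mat) (hA : Aᴴ = -A) (z u v : V) :
    fderiv ℝ h0 z (KA A z) u v
      = - h0 z (fderiv ℝ (KA A) z u) v - h0 z u (fderiv ℝ (KA A) z v) := by
  have hn : (nz z : ℂ) ≠ 0 := by
    exact_mod_cast (nz_pos z).ne'
  have key := A4_key hA z u v
  have e : A4_H z (Gam h0 z (KA A z) u) v + A4_H z u (Gam h0 z (KA A z) v) =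
      - (A4_H z (fderiv ℝ (KA A) z u) v + A4_H z u (fderiv ℝ (KA A) z v)) := by
    rw [Gam_h0, Gam_h0, A4_H_neg_left, A4_H_neg_right, A4_H_smul_left, A4_H_smul_right,
      A4_H_add_left, A4_H_add_right, A4_H_smul_left, A4_H_smul_left, A4_H_smul_right,
      A4_H_smul_right, map_inv₀, Complex.conj_ofReal]
    refine mul_left_cancel₀ hn ?_
    rw [mul_neg, key]
    field_simp
    ring
  have e' := congrArg Complex.re e
  rw [Complex.add_re, Complex.neg_re, Complex.add_re] at e'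
  rw [A4_fderiv, A4_h0, A4_h0, A4_h0, A4_h0, ← add_div, e']
  ring

/-! ### A4 : the fields `K_i` are Killing fields of the Fubini-Study metric -/
theorem h0_killing {U : Mat} (hU : Uᴴ * U = 1) (i : Fin 8) (z u v : V) :
    fderiv ℝ h0 z (Kf U i z) u v = - h0 z (DK U i z u) v - h0 z u (DK U i z v) := by
  have hB : ∀ i : Fin 8, (Bs i)ᴴ = - Bs i := by
    intro i
    ext a b
    fin_cases i <;> fin_cases a <;> fin_cases b <;>
      simp [Bs, Matrix.conjTranspose_apply]
  have hA : (Uᴴ * Bs i * U)ᴴ = - (Uᴴ * Bs i * U) := by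
    rw [Matrix.conjTranspose_mul, Matrix.conjTranspose_mul, Matrix.conjTranspose_conjTranspose,
      hB i]
    simp [Matrix.mul_assoc]
  exact A4_skew (Uᴴ * Bs i * U) hA z u v

end Pool.Agent.Helper81.M9
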