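import Pool.Agent.Helper81.M9.St.A2
import Pool.Agent.Helper81.M9.St.A4
import Pool.Agent.Helper81.M9.St.A5

/-!
# M9, piece A6
-/

open Filter Metric Module Set
open scoped Topology ContDiff Matrix Matrix.Norms.Elementwise ComplexConjugate

set_option maxSynthPendingDepth 3

namespace Pool.Agent.Helper81.M9
open Pool.Agent.Helper20.PC Pool.Agent.Helper20.HP Pool.Agent.Helper20.M8 Pool.Agent.Helper20.MB
open Pool.Agent.Helper46.M8

/-! ### A6 : covariant derivatives of the Killing fields -/
theorem MK_iL (U : Mat) (i : Fin 8) (z v : V) : MK U i z (iL v) = iL (MK U i z v) := by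
  rw [MK_apply, MK_apply, DK_iL, GamL_h0_symm z (iL v) (Kf U i z), GamL_h0_iL,
    GamL_h0_symm z v (Kf U i z), map_add]

theorem MK_skew {U : Mat} (hU : Uᴴ * U = 1) (i : Fin 8) (z u v : V) :
    h0 z (MK U i z u) v = - h0 z u (MK U i z v) := by
  have h1 := h0_killing hU i z u v
  have h2 := fderiv_h0 z (Kf U i z) u v
  rw [MK_apply, MK_apply, map_add, map_add, ContinuousLinearMap.add_apply,
    GamL_h0_symm z u (Kf U i z), GamL_h0_symm z v (Kf U i z)]
  linarith

end Pool.Agent.Helper81.M9
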