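import Pool.Agent.Helper20.PC.Curv
import Pool.Agent.Helper46.M8.Ns

/-!
# M9, piece B6
-/

open Filter Metric Module Set
open scoped Topology ContDiff Matrix Matrix.Norms.Elementwise ComplexConjugate

set_option maxSynthPendingDepth 3

namespace Pool.Agent.Helper81.M9
open Pool.Agent.Helper20.PC Pool.Agent.Helper20.HP Pool.Agent.Helper20.M8 Pool.Agent.Helper20.MB
open Pool.Agent.Helper46.M8

private lemma B6_dG_add {F : Type*} [NormedAddCommGroup F] [NormedSpace ℝ F]
    {G : F → F →L[ℝ] F →L[ℝ] ℝ} {x : F} (h : MetAt G x) (s u v w' : F) :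
    dG G x s (u + v) w' = dG G x s u w' + dG G x s v w' := by
  rw [← fderiv_one_apply h.smooth, ← fderiv_one_apply h.smooth, ← fderiv_one_apply h.smooth]
  have : (fun z' => G z' (u + v)) = (fun z' => G z' u + G z' v) := by funext z'; rw [map_add]
  have h1 := ((smooth1 h.smooth u).differentiableAt (by norm_num)).hasFDerivAt.add
    ((smooth1 h.smooth v).differentiableAt (by norm_num)).hasFDerivAt
  have h2 : HasFDerivAt (fun z' => G z' u + G z' v) _ x := h1
  rw [this, h2.fderiv]
  simp

private lemma B6_dG_smul {F : Type*} [NormedAddCommGroup F] [NormedSpace ℝ F]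
    {G : F → F →L[ℝ] F →L[ℝ] ℝ} {x : F} (h : MetAt G x) (s u w' : F) (t : ℝ) :
    dG G x s (t • u) w' = t * dG G x s u w' := by
  rw [← fderiv_one_apply h.smooth, ← fderiv_one_apply h.smooth]
  have : (fun z' => G z' (t • u)) = (fun z' => t • G z' u) := by funext z'; rw [map_smul]
  have h1 := ((smooth1 h.smooth u).differentiableAt (by norm_num)).hasFDerivAt.const_smul t
  have h2 : HasFDerivAt (fun z' => t • G z' u) _ x := h1
  rw [this, h2.fderiv]
  simp

private lemma B6_Gam_lin {F : Type*} [NormedAddCommGroup F] [NormedSpace ℝ F]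
    [FiniteDimensional ℝ F] {G : F → F →L[ℝ] F →L[ℝ] ℝ} {x : F} (h : MetAt G x) (u v w : F)
    (t : ℝ) : Gam G x (u + t • v) w = Gam G x u w + t • Gam G x v w := by
  refine Gam_unique h (fun w' => ?_)
  have e3 : dG G x (t • v) w w' = t * dG G x v w w' := by simp [dG]
  rw [map_add, map_smul, _root_.add_apply, _root_.smul_apply, G_Gam h, G_Gam h,
    chr_apply h.smooth, chr_apply h.smooth,
    chr_apply h.smooth, dG_add, e3, B6_dG_add h, B6_dG_add h, B6_dG_smul h, B6_dG_smul h,
    smul_eq_mul]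
  ring

/-! ### B6 : symmetries of the curvature -/
theorem num_symm {F : Type*} [NormedAddCommGroup F] [NormedSpace ℝ F] [FiniteDimensional ℝ F]
    {G : F → F →L[ℝ] F →L[ℝ] ℝ} {z : F} (h : MetAt G z) (u v : F) : num G z u v = num G z v u := by
  unfold num
  have e1 : ddG G z v u v u = ddG G z u v u v := by
    rw [ddG_swap h.smooth, ddG_symm h]
  have e2 : chr G z v v (Gam G z u u) = chr G z u u (Gam G z v v) := by
    rw [← G_Gam h, ← G_Gam h]
    exact h.symm.self_of_nhds _ _
  rw [e1, e2, chr_symm h v u, Gam_symm h v u]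
  ring

theorem Riem_pair {F : Type*} [NormedAddCommGroup F] [NormedSpace ℝ F] [FiniteDimensional ℝ F]
    {G : F → F →L[ℝ] F →L[ℝ] ℝ} {z : F} (h : MetAt G z) (w a b : F) :
    G z (Riem G z a w w) b = G z (Riem G z b w w) a := by
  have key : ∀ a b : F, G z (Riem G z a w w) b
      = 1 / 2 * (ddG G z a w w b + ddG G z b w w a - ddG G z a b w w - ddG G z w w a b)
        - chr G z a b (Gam G z w w) + G z (Gam G z w b) (Gam G z w a) := by
    intro a b
    have h1 : G z (Riem G z a w w) b = G z (fderiv ℝ (fun z' => Gam G z' w w) z a) b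
        - G z (fderiv ℝ (fun z' => Gam G z' a w) z w) b
        + G z (Gam G z a (Gam G z w w)) b - G z (Gam G z w (Gam G z a w)) b := by
      simp [Riem]
    have h2 : G z (Gam G z w b) (Gam G z w a) = chr G z w b (Gam G z a w) := by
      rw [G_Gam h, Gam_symm h w a]
    rw [h1, G_fderiv_Gam h, G_fderiv_Gam h, G_Gam h, G_Gam h, dG_eq_chr h a (Gam G z w w) b,
      dG_eq_chr h w (Gam G z a w) b, fderiv_chr_apply h, fderiv_chr_apply h, h2,
      ddG_swap h.smooth w a w b, ddG_swap h.smooth w b a w, ddG_symm h b w a w]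
    ring
  rw [key a b, key b a, chr_symm h b a, h.symm.self_of_nhds (Gam G z w b) (Gam G z w a),
    ddG_swap h.smooth b a w w, ddG_symm h w w b a]
  ring

theorem Riem_lin {F : Type*} [NormedAddCommGroup F] [NormedSpace ℝ F] [FiniteDimensional ℝ F]
    {G : F → F →L[ℝ] F →L[ℝ] ℝ} {z : F} (h : MetAt G z) (w a b : F) (r : ℝ) :
    Riem G z (a + r • b) w w = Riem G z a w w + r • Riem G z b w w := by
  have e1 : fderiv ℝ (fun z' => Gam G z' (a + r • b) w) z w
      = fderiv ℝ (fun z' => Gam G z' a w) z w + r • fderiv ℝ (fun z' => Gam G z' b w) z w := by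
    have h1 : (fun z' => Gam G z' (a + r • b) w) =ᶠ[𝓝 z]
        (fun z' => Gam G z' a w + r • Gam G z' b w) :=
      h.eventually.mono fun z' hz' => B6_Gam_lin hz' a b w r
    have h2 := (differentiableAt_Gam h a w).hasFDerivAt.add
      ((differentiableAt_Gam h b w).hasFDerivAt.const_smul r)
    have h3 : HasFDerivAt (fun z' => Gam G z' a w + r • Gam G z' b w) _ z := h2
    rw [h1.fderiv_eq, h3.fderiv]
    simp
  have e2 : Gam G z w (Gam G z (a + r • b) w)
      = Gam G z w (Gam G z a w) + r • Gam G z w (Gam G z b w) := by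
    rw [B6_Gam_lin h, Gam_symm h w, B6_Gam_lin h, Gam_symm h (Gam G z a w) w,
      Gam_symm h (Gam G z b w) w]
  unfold Riem
  rw [e1, e2, B6_Gam_lin h, map_add, map_smul]
  module

theorem Riem_self {F : Type*} [NormedAddCommGroup F] [NormedSpace ℝ F] [FiniteDimensional ℝ F]
    {G : F → F →L[ℝ] F →L[ℝ] ℝ} (z w : F) : Riem G z w w w = 0 := by
  unfold Riem
  rw [sub_self, zero_add, sub_self]

end Pool.Agent.Helper81.M9
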