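import Pool.Agent.Helper81.M9.St.C4

/-!
# M9, piece C5
-/

open Filter Metric Module Set
open scoped Topology ContDiff Matrix Matrix.Norms.Elementwise ComplexConjugate

set_option maxSynthPendingDepth 3

namespace Pool.Agent.Helper81.M9
open Pool.Agent.Helper20.PC Pool.Agent.Helper20.HP Pool.Agent.Helper20.M8 Pool.Agent.Helper20.MB
open Pool.Agent.Helper46.M8

private lemma C5_base : ContDiff ℝ ∞ (fun q : Pm × Fr9 => (q.1, q.2.1)) :=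
  contDiff_fst.prodMk (contDiff_fst.comp contDiff_snd)

private lemma C5_comp (a : Fin 4) : ContDiff ℝ ∞ (fun q : Pm × Fr9 => q.2.2.1 a) :=
  contDiff_pi.1 (contDiff_fst.comp (contDiff_snd.comp contDiff_snd)) a

private lemma C5_h0 {q : Pm × Fr9} : ContDiffAt ℝ ∞ (fun q : Pm × Fr9 => h0 q.2.1) q :=
  (contDiff_h0.comp (contDiff_fst.comp contDiff_snd)).contDiffAt

private lemma C5_hm {q : Pm × Fr9} (hU : q.1.1ᴴ * q.1.1 = 1) (hδ : |q.1.2.1| ≤ 1/100) :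
    ContDiffAt ℝ ∞ (fun q : Pm × Fr9 => hm q.1.1 q.1.2.1 q.2.1) q := by
  have h := contDiffAt_hm (q := (q.1, q.2.1)) hU hδ
  exact ContDiffAt.comp (g := fun q : Pm × V => hm q.1.1 q.1.2.1 q.2)
    (f := fun q : Pm × Fr9 => (q.1, q.2.1)) q h C5_base.contDiffAt

private lemma C5_mom {q : Pm × Fr9} (hU : q.1.1ᴴ * q.1.1 = 1) (hδ : |q.1.2.1| ≤ 1/100)
    (i : Fin 8) : ContDiffAt ℝ ∞ (fun q : Pm × Fr9 => momL q.1.1 q.1.2.1 q.2.1 i) q := by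
  have h := contDiffAt_momL (q := (q.1, q.2.1)) hU hδ i
  exact h.comp q C5_base.contDiffAt

private lemma C5_BL {q : Pm × Fr9} (hU : q.1.1ᴴ * q.1.1 = 1) (hδ : |q.1.2.1| ≤ 1/100) :
    ContDiffAt ℝ ∞ (fun q : Pm × Fr9 => BL q.1.1 q.1.2.1 q.1.2.2 q.2.1) q := by
  have h := contDiffAt_BL (q := (q.1, q.2.1)) hU hδ
  exact h.comp q C5_base.contDiffAt

private lemma C5_Kf {q : Pm × Fr9} (i : Fin 8) :
    ContDiffAt ℝ ∞ (fun q : Pm × Fr9 => Kf q.1.1 i q.2.1) q :=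
  ((contDiff_Kf i).comp C5_base).contDiffAt

/-! ### C5 : smoothness of the functions on frames, first part -/
theorem contDiffAt_sC {q : Pm × Fr9} (hU : q.1.1ᴴ * q.1.1 = 1) (hδ : |q.1.2.1| ≤ 1/100) :
    ContDiffAt ℝ ∞ (fun q : Pm × Fr9 => sC q.1.1 q.1.2.1 q.2) q := by
  unfold sC
  exact (C5_h0.clm_apply (contDiffAt_vF hU hδ)).clm_apply (contDiffAt_vF hU hδ)

theorem contDiffAt_sT {q : Pm × Fr9} (hU : q.1.1ᴴ * q.1.1 = 1) (hδ : |q.1.2.1| ≤ 1/100) :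
    ContDiffAt ℝ ∞ (fun q : Pm × Fr9 => sT q.1.1 q.1.2.1 q.2) q := by
  unfold sT
  exact (C5_mom hU hδ 6).clm_apply (C5_comp 0).contDiffAt

theorem contDiffAt_sU {q : Pm × Fr9} (hU : q.1.1ᴴ * q.1.1 = 1) (hδ : |q.1.2.1| ≤ 1/100)
    (j : Fin 4) (i : Fin 8) :
    ContDiffAt ℝ ∞ (fun q : Pm × Fr9 => sU q.1.1 q.1.2.1 j i q.2) q := by
  unfold sU mu0
  exact (C5_h0.clm_apply (C5_Kf i)).clm_apply (contDiffAt_fF hU hδ j)

theorem contDiffAt_sH {q : Pm × Fr9} (hU : q.1.1ᴴ * q.1.1 = 1) (hδ : |q.1.2.1| ≤ 1/100)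
    (i j : Fin 4) : ContDiffAt ℝ ∞ (fun q : Pm × Fr9 => sH q.1.1 q.1.2.1 i j q.2) q := by
  unfold sH
  exact ((C5_hm hU hδ).clm_apply (contDiffAt_fF hU hδ i)).clm_apply (contDiffAt_fF hU hδ j)

theorem contDiffAt_sZ {q : Pm × Fr9} (hU : q.1.1ᴴ * q.1.1 = 1) (hδ : |q.1.2.1| ≤ 1/100)
    (k : Fin 4) : ContDiffAt ℝ ∞ (fun q : Pm × Fr9 => sZ q.1.1 q.1.2.1 k q.2) q := by
  unfold sZ
  refine ((C5_hm hU hδ).clm_apply (C5_comp k).contDiffAt).clm_apply ?_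
  exact iL.contDiff.contDiffAt.comp q (contDiffAt_vF hU hδ)

theorem contDiffAt_sV {q : Pm × Fr9} (hU : q.1.1ᴴ * q.1.1 = 1) (hδ : |q.1.2.1| ≤ 1/100)
    (k : Fin 4) : ContDiffAt ℝ ∞ (fun q : Pm × Fr9 => sV q.1.1 q.1.2.1 k q.2) q := by
  unfold sV
  exact ((C5_hm hU hδ).clm_apply (contDiffAt_vF hU hδ)).clm_apply (C5_comp k).contDiffAt

theorem contDiffAt_sB {q : Pm × Fr9} (hU : q.1.1ᴴ * q.1.1 = 1) (hδ : |q.1.2.1| ≤ 1/100)
    (i k l : Fin 4) :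
    ContDiffAt ℝ ∞ (fun q : Pm × Fr9 => sB q.1.1 q.1.2.1 q.1.2.2 i k l q.2) q := by
  unfold sB
  refine (C5_h0.clm_apply ?_).clm_apply (contDiffAt_fF hU hδ k)
  exact ((C5_BL hU hδ).clm_apply (contDiffAt_fF hU hδ i)).clm_apply (contDiffAt_fF hU hδ l)

end Pool.Agent.Helper81.M9
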