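import Pool.Agent.Helper46.M8.St.F1
import Pool.Agent.Helper81.M9.St.B1
import Pool.Agent.Helper81.M9.St.D1
import Pool.Agent.Helper46.M8.Ns

/-!
# M9, piece D6
-/

open Filter Metric Module Set
open scoped Topology ContDiff Matrix Matrix.Norms.Elementwise ComplexConjugate

set_option maxSynthPendingDepth 3

namespace Pool.Agent.Helper81.M9
open Pool.Agent.Helper20.PC Pool.Agent.Helper20.HP Pool.Agent.Helper20.M8 Pool.Agent.Helper20.MB
open Pool.Agent.Helper46.M8

/-! ### D6 : the form `F` along the flow -/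

private lemma D6_diff_Em (i : Fin 8) : Differentiable ℝ (fun x : Fin 8 → ℝ => Em x i) := by
  have hx : ∀ j : Fin 8, Differentiable ℝ (fun x : Fin 8 → ℝ => xc x j) := by
    intro j
    by_cases hj : j = 7
    · have : (fun x : Fin 8 → ℝ => xc x j) = fun x => (1/3 : ℝ) • x 7 := by
        funext x; simp only [xc, if_pos hj]
      rw [this]
      fun_prop
    · have : (fun x : Fin 8 → ℝ => xc x j) = fun x => x j := by
        funext x; simp only [xc, if_neg hj]
      rw [this]
      fun_prop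
  have hx0 := hx 0
  have hx1 := hx 1
  have hx2 := hx 2
  have hx3 := hx 3
  have hx4 := hx 4
  have hx5 := hx 5
  have hx6 := hx 6
  have hx7 := hx 7
  unfold Em
  refine Differentiable.const_mul ?_ _
  fin_cases i <;> simp only [Ex] <;> simp <;> fun_prop

theorem F_jet9 {U : Mat} {δ : ℝ} (hU : Uᴴ * U = 1) (hδ : |δ| ≤ 1/100) (s : Fr9) :
    (Fx (R := J2) (xc (fun i => jetF (XF9 U δ) (sU U δ 0 i) s))).c
      = δ ^ 2 * PhiDD (xc (fun i => momL U δ s.1 i (s.2.1 0))) := by
  have hdiff : ∀ i t, DifferentiableAt ℝ (sM U δ 0 i) t := by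
    intro i t
    have h1 : ContDiffAt ℝ ∞ (fun q : Pm × Fr => sM q.1.1 q.1.2.1 0 i q.2) ((U, δ, 0), t) :=
      contDiffAt_sM (q := ((U, δ, 0), t)) hU hδ 0 i
    have h2 : DifferentiableAt ℝ (fun q : Pm × Fr => sM q.1.1 q.1.2.1 0 i q.2) ((U, δ, 0), t) :=
      h1.differentiableAt (by simp)
    have h3 : DifferentiableAt ℝ (fun t : Fr => (((U, δ, 0), t) : Pm × Fr)) t :=
      (differentiableAt_const _).prodMk differentiableAt_id
    exact DifferentiableAt.comp t (f := fun t : Fr => (((U, δ, 0), t) : Pm × Fr)) h2 h3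
  have heul : ∀ i, lie (XF U δ) (sM U δ 0 i) = fun t => δ * Em (fun j => sM U δ 0 j t) i :=
    fun i => by
      funext t
      exact euler hU hδ i t
  have hdiff2 : ∀ i t, DifferentiableAt ℝ (lie (XF U δ) (sM U δ 0 i)) t := by
    intro i t
    rw [heul i]
    refine DifferentiableAt.const_mul ?_ _
    have h1 : DifferentiableAt ℝ (fun t => (fun j => sM U δ 0 j t : Fin 8 → ℝ)) t :=
      differentiableAt_pi.2 fun j => hdiff j t
    exact DifferentiableAt.comp t (g := fun x : Fin 8 → ℝ => Em x i) (D6_diff_Em i _) h1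
  have hsU : ∀ i, sU U δ 0 i = fun s : Fr9 => sM U δ 0 i (frB s) := by
    intro i
    funext s
    exact mu0_hatL hU hδ s.1 (s.2.1 0) i
  have hlie1 : ∀ i, lie (XF9 U δ) (sU U δ 0 i)
      = fun s : Fr9 => lie (XF U δ) (sM U δ 0 i) (frB s) := by
    intro i
    funext s
    rw [hsU i]
    exact lie_frB U δ (hdiff i (frB s))
  have hlie2 : ∀ i, lie (XF9 U δ) (lie (XF9 U δ) (sU U δ 0 i)) s
      = lie (XF U δ) (lie (XF U δ) (sM U δ 0 i)) (frB s) := by
    intro i
    rw [hlie1 i]
    exact lie_frB U δ (hdiff2 i (frB s))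
  have hjet : (fun i => jetF (XF9 U δ) (sU U δ 0 i) s)
      = fun i => jetF (XF U δ) (sM U δ 0 i) (frB s) := by
    funext i
    simp only [jetF]
    rw [hlie2 i, hlie1 i, hsU i]
  rw [hjet]
  exact F_jet hU hδ (frB s)

end Pool.Agent.Helper81.M9
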