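import Pool.Agent.Helper81.M9.St.D7
import Pool.Agent.Helper46.M8.Ns

/-!
# M9, piece F8
-/

open Filter Metric Module Set
open scoped Topology ContDiff Matrix Matrix.Norms.Elementwise ComplexConjugate

set_option maxSynthPendingDepth 3

namespace Pool.Agent.Helper81.M9
open Pool.Agent.Helper20.PC Pool.Agent.Helper20.HP Pool.Agent.Helper20.M8 Pool.Agent.Helper20.MB
open Pool.Agent.Helper46.M8

/-! ### F8 : the constraints, and vanishing -/
theorem Cns_S9 (U : Mat) (δ ε : ℝ) (s : Fs9) :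
    Cns9 ε (c1S U δ ε s) (c2S U δ ε s) (BS U δ s) := by
  unfold Cns9 c1S c2S
  have hB : ∀ i j, BS U δ s i j = if exc i j then 0 else bF U δ s i j := fun i j => rfl
  simp only [hB]
  unfold bF
  generalize cmp U δ s.1 s.2.1 = a
  generalize cmp U δ s.1 s.2.2 = b
  refine ⟨?_, ?_, ?_, ?_, ?_, ?_, ?_, ?_⟩
  · intro i j
    have hs : exc i j = exc j i := by revert i j; decide
    rw [hs]
    by_cases h : exc j i = true
    · rw [if_pos h, if_pos h, neg_zero]
    · rw [if_neg h, if_neg h]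
      ring
  · exact if_pos (by decide)
  · exact if_pos (by decide)
  · rw [if_neg (by decide), if_neg (by decide), if_neg (by decide), if_neg (by decide)]
    ring
  · intro k l hk0 hk2 hl0 hl2 he
    have h1 : ∀ k : Fin 6, k ≠ 2 → exc 0 k = false := by decide
    have h2 : ∀ k : Fin 6, k ≠ 0 → exc 2 k = false := by decide
    rw [he, h1 k hk2, h1 l hl2, h2 k hk0, h2 l hl0]
    simp only [Bool.false_eq_true, if_false]
    ring
  · intro k l hk0 hk2 hl0 hl2 he
    have h1 : ∀ k : Fin 6, k ≠ 3 → exc 1 k = false := by decide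
    have h2 : ∀ k : Fin 6, k ≠ 1 → exc 3 k = false := by decide
    rw [he, h1 k hk2, h1 l hl2, h2 k hk0, h2 l hl0]
    simp only [Bool.false_eq_true, if_false]
    ring
  · rw [if_neg (by decide), if_neg (by decide), if_neg (by decide), if_neg (by decide),
      if_neg (by decide), if_neg (by decide)]
    ring
  · rw [if_neg (by decide), if_neg (by decide), if_neg (by decide), if_neg (by decide),
      if_neg (by decide), if_neg (by decide)]
    ring

/-- if the bivector `y ∧ p` vanishes then `p = 0`. -/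
theorem p_zero9 {U : Mat} {δ : ℝ} (hU : Uᴴ * U = 1) (hδ : |δ| ≤ 1/100) {ε : ℝ} (hε : ε ≠ 0) (s : Fs9) (hs : ON9 U δ s.1)
    (hy : kL9 s.1.1 s.2.1 s.2.1 = 1) (hyp : kL9 s.1.1 s.2.1 s.2.2 = 0) (h1 : c1S U δ ε s = 0)
    (h2 : c2S U δ ε s = 0) (h3 : ∀ i j, BS U δ s i j = 0) : s.2.2 = 0 := by
  have h02 : bF U δ s 0 2 = 0 := (mul_eq_zero.mp h1).resolve_left hε
  have h13 : bF U δ s 1 3 = 0 := (mul_eq_zero.mp h2).resolve_left hε
  have hanti : ∀ i j, bF U δ s i j = - bF U δ s j i := fun i j => by unfold bF; ring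
  have hb : ∀ i j, bF U δ s i j = 0 := by
    intro i j
    by_cases h : exc i j = true
    · have h' : (i = 0 ∧ j = 2) ∨ (i = 2 ∧ j = 0) ∨ (i = 1 ∧ j = 3) ∨ (i = 3 ∧ j = 1) := by
        revert i j; decide
      rcases h' with ⟨rfl, rfl⟩ | ⟨rfl, rfl⟩ | ⟨rfl, rfl⟩ | ⟨rfl, rfl⟩
      · exact h02
      · rw [hanti, h02, neg_zero]
      · exact h13
      · rw [hanti, h13, neg_zero]
    · have h4 := h3 i j
      unfold BS at h4
      rwa [if_neg h] at h4
  have hexp : ∀ q : Y9, kL9 s.1.1 s.2.1 q =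
      ∑ i, nn6 (sC U δ s.1) i * cmp U δ s.1 s.2.1 i * cmp U δ s.1 q i := by
    intro q
    conv_lhs => rw [fE_sum hU hδ hs s.2.1]
    rw [map_sum, _root_.sum_apply]
    refine Finset.sum_congr rfl fun i _ => ?_
    rw [map_smul, _root_.smul_apply, smul_eq_mul]
    rfl
  have hcmp : ∀ j, cmp U δ s.1 s.2.2 j = 0 := by
    intro j
    have e1 := hexp s.2.1
    have e2 := hexp s.2.2
    rw [hy] at e1
    rw [hyp] at e2
    have e3 : cmp U δ s.1 s.2.2 j * 1 = cmp U δ s.1 s.2.1 j * 0 := by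
      rw [e1, e2, Finset.mul_sum, Finset.mul_sum]
      refine Finset.sum_congr rfl fun i _ => ?_
      have h5 := hb i j
      unfold bF at h5
      linear_combination (nn6 (sC U δ s.1) i * cmp U δ s.1 s.2.1 i) * h5
    rw [mul_one, mul_zero] at e3
    exact e3
  rw [fE_sum hU hδ hs s.2.2]
  refine Finset.sum_eq_zero fun i _ => ?_
  rw [hcmp, mul_zero, zero_smul]

end Pool.Agent.Helper81.M9
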