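import Pool.Agent.Helper81.M9.Defs2
import Pool.Agent.Helper46.M8.Ns

/-!
# M9, piece G1
-/

open Filter Metric Module Set
open scoped Topology ContDiff Matrix Matrix.Norms.Elementwise ComplexConjugate

set_option maxSynthPendingDepth 3

namespace Pool.Agent.Helper81.M9
open Pool.Agent.Helper20.PC Pool.Agent.Helper20.HP Pool.Agent.Helper20.M8 Pool.Agent.Helper20.MB
open Pool.Agent.Helper46.M8

/-! ### G1 : positivity of the limit form -/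
theorem TlimF9_pos1 (u : Fin 3 → ℝ) (a₁ : ℝ) (B : Fin 6 → Fin 6 → ℝ) (h14 : B 1 4 = 0)
    (h15 : B 1 5 = 0) (h34 : B 3 4 = 0) (h35 : B 3 5 = 0) (h45 : B 4 5 = 0) :
    (371/80) * a₁ ^ 2 + (1/100) * (u 0 ^ 2 + u 1 ^ 2 + u 2 ^ 2 + B 0 1 ^ 2 + B 0 3 ^ 2 + B 0 4 ^ 2
      + B 0 5 ^ 2 + B 1 2 ^ 2 + B 2 3 ^ 2 + B 2 4 ^ 2 + B 2 5 ^ 2) ≤ TlimF9 u a₁ 0 B := by
  have key : TlimF9 u a₁ 0 B = (371/80) * a₁ ^ 2 + (1/100) * (u 0 ^ 2 + u 1 ^ 2 + u 2 ^ 2 + B 0 1 ^ 2 + B 0 3 ^ 2 + B 0 4 ^ 2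
      + B 0 5 ^ 2 + B 1 2 ^ 2 + B 2 3 ^ 2 + B 2 4 ^ 2 + B 2 5 ^ 2) + (
      (959/1600) * (B 0 1 + (3275/3836) * (B 2 3) + (-10450/2877) * a₁) ^ 2
      + (11260973/12275200) * (B 2 3 + (-90650600/33782919) * a₁) ^ 2
      + (192299166673/8107900560) * (a₁) ^ 2
      + (2109/1600) * (B 0 3 + (-150/703) * (B 1 2) + (-25/37) * (u 0)) ^ 2
      + (194683/4499200) * (B 1 2 + (937650/194683) * (u 0)) ^ 2
      + (371376261/155746400) * (u 0) ^ 2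
      + (21/400) * (B 0 4 + (-25/7) * (u 1)) ^ 2
      + (897/2800) * (u 1) ^ 2
      + (21/400) * (B 0 5 + (-25/7) * (u 2)) ^ 2
      + (897/2800) * (u 2) ^ 2
      + (109/1600) * (B 2 4) ^ 2
      + (109/1600) * (B 2 5) ^ 2) := by
    rw [TlimF9, h14, h15, h34, h35, h45]
    ring
  rw [key]
  have : 0 ≤ (959/1600) * (B 0 1 + (3275/3836) * (B 2 3) + (-10450/2877) * a₁) ^ 2
      + (11260973/12275200) * (B 2 3 + (-90650600/33782919) * a₁) ^ 2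
      + (192299166673/8107900560) * (a₁) ^ 2
      + (2109/1600) * (B 0 3 + (-150/703) * (B 1 2) + (-25/37) * (u 0)) ^ 2
      + (194683/4499200) * (B 1 2 + (937650/194683) * (u 0)) ^ 2
      + (371376261/155746400) * (u 0) ^ 2
      + (21/400) * (B 0 4 + (-25/7) * (u 1)) ^ 2
      + (897/2800) * (u 1) ^ 2
      + (21/400) * (B 0 5 + (-25/7) * (u 2)) ^ 2
      + (897/2800) * (u 2) ^ 2
      + (109/1600) * (B 2 4) ^ 2
      + (109/1600) * (B 2 5) ^ 2 := by positivity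
  linarith

theorem TlimF9_pos2 (u : Fin 3 → ℝ) (a₂ : ℝ) (B : Fin 6 → Fin 6 → ℝ) (h04 : B 0 4 = 0)
    (h05 : B 0 5 = 0) (h24 : B 2 4 = 0) (h25 : B 2 5 = 0) (h45 : B 4 5 = 0) :
    (371/80) * a₂ ^ 2 + (1/100) * (u 0 ^ 2 + u 1 ^ 2 + u 2 ^ 2 + B 0 1 ^ 2 + B 0 3 ^ 2 + B 1 2 ^ 2
      + B 1 4 ^ 2 + B 1 5 ^ 2 + B 2 3 ^ 2 + B 3 4 ^ 2 + B 3 5 ^ 2) ≤ TlimF9 u 0 a₂ B := by
  have key : TlimF9 u 0 a₂ B = (371/80) * a₂ ^ 2 + (1/100) * (u 0 ^ 2 + u 1 ^ 2 + u 2 ^ 2 + B 0 1 ^ 2 + B 0 3 ^ 2 + B 1 2 ^ 2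
      + B 1 4 ^ 2 + B 1 5 ^ 2 + B 2 3 ^ 2 + B 3 4 ^ 2 + B 3 5 ^ 2) + (
      (959/1600) * (B 0 1 + (3275/3836) * (B 2 3) + (11075/2877) * a₂) ^ 2
      + (11260973/12275200) * (B 2 3 + (44696500/33782919) * a₂) ^ 2
      + (19324684753/8107900560) * (a₂) ^ 2
      + (2109/1600) * (B 0 3 + (-150/703) * (B 1 2) + (-25/37) * (u 0)) ^ 2
      + (194683/4499200) * (B 1 2 + (937650/194683) * (u 0)) ^ 2
      + (371376261/155746400) * (u 0) ^ 2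
      + (761/6400) * (B 1 4 + (750/761) * (u 2)) ^ 2
      + (1064799/1217600) * (u 2) ^ 2
      + (761/6400) * (B 1 5 + (-750/761) * (u 1)) ^ 2
      + (1064799/1217600) * (u 1) ^ 2
      + (2069/25600) * (B 3 4) ^ 2
      + (2069/25600) * (B 3 5) ^ 2) := by
    rw [TlimF9, h04, h05, h24, h25, h45]
    ring
  rw [key]
  have : 0 ≤ (959/1600) * (B 0 1 + (3275/3836) * (B 2 3) + (11075/2877) * a₂) ^ 2
      + (11260973/12275200) * (B 2 3 + (44696500/33782919) * a₂) ^ 2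
      + (19324684753/8107900560) * (a₂) ^ 2
      + (2109/1600) * (B 0 3 + (-150/703) * (B 1 2) + (-25/37) * (u 0)) ^ 2
      + (194683/4499200) * (B 1 2 + (937650/194683) * (u 0)) ^ 2
      + (371376261/155746400) * (u 0) ^ 2
      + (761/6400) * (B 1 4 + (750/761) * (u 2)) ^ 2
      + (1064799/1217600) * (u 2) ^ 2
      + (761/6400) * (B 1 5 + (-750/761) * (u 1)) ^ 2
      + (1064799/1217600) * (u 1) ^ 2
      + (2069/25600) * (B 3 4) ^ 2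
      + (2069/25600) * (B 3 5) ^ 2 := by positivity
  linarith

theorem TlimF9_pos3 (u : Fin 3 → ℝ) (B : Fin 6 → Fin 6 → ℝ)
    (h1 : B 0 1 * B 4 5 - B 0 4 * B 1 5 + B 0 5 * B 1 4 = 0)
    (h2 : B 2 3 * B 4 5 - B 2 4 * B 3 5 + B 2 5 * B 3 4 = 0) :
    (1/100) * (u 0 ^ 2 + u 1 ^ 2 + u 2 ^ 2 + B 0 1 ^ 2 + B 0 3 ^ 2 + B 0 4 ^ 2 + B 0 5 ^ 2
      + B 1 2 ^ 2 + B 1 4 ^ 2 + B 1 5 ^ 2 + B 2 3 ^ 2 + B 2 4 ^ 2 + B 2 5 ^ 2 + B 3 4 ^ 2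
      + B 3 5 ^ 2 + B 4 5 ^ 2) ≤ TlimF9 u 0 0 B := by
  have key : TlimF9 u 0 0 B = (1/100) * (u 0 ^ 2 + u 1 ^ 2 + u 2 ^ 2 + B 0 1 ^ 2 + B 0 3 ^ 2 + B 0 4 ^ 2 + B 0 5 ^ 2
      + B 1 2 ^ 2 + B 1 4 ^ 2 + B 1 5 ^ 2 + B 2 3 ^ 2 + B 2 4 ^ 2 + B 2 5 ^ 2 + B 3 4 ^ 2
      + B 3 5 ^ 2 + B 4 5 ^ 2) + (
      (959/1600) * (B 0 1 + (3275/3836) * (B 2 3) + (2125/1918) * (B 4 5)) ^ 2
      + (11260973/12275200) * (B 2 3 + (5699425/11260973) * (B 4 5)) ^ 2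
      + (2778186731/144140454400) * (B 4 5) ^ 2
      + (2109/1600) * (B 0 3 + (-150/703) * (B 1 2) + (-25/37) * (u 0)) ^ 2
      + (194683/4499200) * (B 1 2 + (937650/194683) * (u 0)) ^ 2
      + (371376261/155746400) * (u 0) ^ 2
      + (21/400) * (B 0 4 + (325/336) * (B 1 5) + (-25/7) * (u 1)) ^ 2
      + (150071/2150400) * (B 1 5 + (138000/150071) * (u 1)) ^ 2
      + (3922029/15007100) * (u 1) ^ 2
      + (21/400) * (B 0 5 + (-325/336) * (B 1 4) + (-25/7) * (u 2)) ^ 2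
      + (150071/2150400) * (B 1 4 + (-138000/150071) * (u 2)) ^ 2
      + (3922029/15007100) * (u 2) ^ 2
      + (109/1600) * (B 2 4 + (425/436) * (B 3 5)) ^ 2
      + (1403/87200) * (B 3 5) ^ 2
      + (109/1600) * (B 2 5 + (-425/436) * (B 3 4)) ^ 2
      + (1403/87200) * (B 3 4) ^ 2) := by
    rw [TlimF9]
    linear_combination (1/16) * h1 - (3/16) * h2
  rw [key]
  have : 0 ≤ (959/1600) * (B 0 1 + (3275/3836) * (B 2 3) + (2125/1918) * (B 4 5)) ^ 2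
      + (11260973/12275200) * (B 2 3 + (5699425/11260973) * (B 4 5)) ^ 2
      + (2778186731/144140454400) * (B 4 5) ^ 2
      + (2109/1600) * (B 0 3 + (-150/703) * (B 1 2) + (-25/37) * (u 0)) ^ 2
      + (194683/4499200) * (B 1 2 + (937650/194683) * (u 0)) ^ 2
      + (371376261/155746400) * (u 0) ^ 2
      + (21/400) * (B 0 4 + (325/336) * (B 1 5) + (-25/7) * (u 1)) ^ 2
      + (150071/2150400) * (B 1 5 + (138000/150071) * (u 1)) ^ 2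
      + (3922029/15007100) * (u 1) ^ 2
      + (21/400) * (B 0 5 + (-325/336) * (B 1 4) + (-25/7) * (u 2)) ^ 2
      + (150071/2150400) * (B 1 4 + (-138000/150071) * (u 2)) ^ 2
      + (3922029/15007100) * (u 2) ^ 2
      + (109/1600) * (B 2 4 + (425/436) * (B 3 5)) ^ 2
      + (1403/87200) * (B 3 5) ^ 2
      + (109/1600) * (B 2 5 + (-425/436) * (B 3 4)) ^ 2
      + (1403/87200) * (B 3 4) ^ 2 := by positivity
  linarith

end Pool.Agent.Helper81.M9
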