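import Pool.Agent.Helper81.M9.Frame
import Pool.Agent.Helper46.M8.Ns

/-!
# M9, piece G2
-/

open Filter Metric Module Set
open scoped Topology ContDiff Matrix Matrix.Norms.Elementwise ComplexConjugate

set_option maxSynthPendingDepth 3

namespace Pool.Agent.Helper81.M9
open Pool.Agent.Helper20.PC Pool.Agent.Helper20.HP Pool.Agent.Helper20.M8 Pool.Agent.Helper20.MB
open Pool.Agent.Helper46.M8

/-! ### G2 : dependence of `Tj9` on `lam`, homogeneity -/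

section G2aux
variable {R : Type*} [CommRing R] [Algebra ℝ R]

omit [Algebra ℝ R] in
private lemma G2_Fx_mul (s : R) (x : Fin 8 → R) : Fx (fun i => s * x i) = s ^ 2 * Fx x := by
  unfold Fx
  ring

private lemma G2_xc_mul (s : R) (m : Fin 8 → R) : xc (fun i => s * m i) = fun i => s * xc m i := by
  funext i
  unfold xc
  split_ifs
  · rw [mul_smul_comm]
  · rfl

private lemma G2_d1 (ε : ℝ) (th s : R) (B : Fin 6 → Fin 6 → R) :
    d1 ε th (fun i j => s * B i j) = s * d1 ε th B := by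
  unfold d1
  simp only [Algebra.smul_def]
  ring

private lemma G2_d2 (ε : ℝ) (th s : R) (B : Fin 6 → Fin 6 → R) :
    d2 ε th (fun i j => s * B i j) = s * d2 ε th B := by
  unfold d2
  simp only [Algebra.smul_def]
  ring

private lemma G2_dB (cC ε : ℝ) (th s c₁ c₂ : R) (B : Fin 6 → Fin 6 → R) (i j : Fin 6) :
    dB cC ε th (s * c₁) (s * c₂) (fun i j => s * B i j) i j = s * dB cC ε th c₁ c₂ B i j := by
  unfold dB
  have h1 : ∑ k, (N0 cC i k • (s * B k j) + N0 cC j k • (s * B i k)) =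
      s * ∑ k, (N0 cC i k • B k j + N0 cC j k • B i k) := by
    rw [Finset.mul_sum]
    refine Finset.sum_congr rfl fun k _ => ?_
    rw [mul_add, mul_smul_comm, mul_smul_comm]
  have h2 : ∑ k, (J6 i k • (s * B k j) + J6 j k • (s * B i k)) =
      s * ∑ k, (J6 i k • B k j + J6 j k • B i k) := by
    rw [Finset.mul_sum]
    refine Finset.sum_congr rfl fun k _ => ?_
    rw [mul_add, mul_smul_comm, mul_smul_comm]
  rw [h1, h2]
  by_cases he : exc i j = true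
  · rw [if_pos he, if_pos he, mul_zero]
  · rw [if_neg he, if_neg he]
    simp only [Algebra.smul_def]
    split_ifs <;> ring

private lemma G2_qv (cC : ℝ) (s : R) (B : Fin 6 → Fin 6 → R) (i : Fin 4) :
    qv cC (fun i j => s * B i j) i = s * qv cC B i := by
  unfold qv
  fin_cases i
  · simp
  · simp [Algebra.smul_def]
    ring
  · simp [Algebra.smul_def]
    ring
  · simp [Algebra.smul_def]
    ring

private lemma G2_con (cC : ℝ) (s : R) (B : Fin 6 → Fin 6 → R) (r : Fin 6 → Fin 6 → R) :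
    con cC (fun i j => s * B i j) r = s * con cC B r := by
  unfold con
  rw [mul_smul_comm]
  congr 1
  simp only [Finset.mul_sum]
  refine Finset.sum_congr rfl fun i _ => Finset.sum_congr rfl fun j _ => ?_
  rw [mul_smul_comm, mul_assoc]

private lemma G2_bb (cC : ℝ) (s : R) (B : Fin 6 → Fin 6 → R) (r : Fin 4 → Fin 4 → R) :
    bb cC (fun i j => s * B i j) r = s * bb cC B r := by
  unfold bb
  rw [mul_smul_comm]
  congr 1
  simp only [Finset.mul_sum]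
  refine Finset.sum_congr rfl fun i _ => Finset.sum_congr rfl fun j _ => ?_
  rw [mul_smul_comm, mul_assoc]

private lemma G2_omb (cC : ℝ) (s : R) (B : Fin 6 → Fin 6 → R) :
    omb cC (fun i j => s * B i j) = s * omb cC B := by
  unfold omb
  simp only [Algebra.smul_def]
  ring

private lemma G2_me (cC ε : ℝ) (μ : Fin 4 → Fin 8 → R) (s c₁ : R) (B : Fin 6 → Fin 6 → R) :
    me cC ε μ (s * c₁) (fun i j => s * B i j) = fun i => s * me cC ε μ c₁ B i := by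
  funext i
  unfold me
  simp only [Algebra.smul_def]
  ring

private lemma G2_mf (cC ε : ℝ) (μ : Fin 4 → Fin 8 → R) (s c₂ : R) (B : Fin 6 → Fin 6 → R) :
    mf cC ε μ (s * c₂) (fun i j => s * B i j) = fun i => s * mf cC ε μ c₂ B i := by
  funext i
  unfold mf
  simp only [Algebra.smul_def]
  ring

private lemma G2_SG (cC ε lam : ℝ) (μ : Fin 4 → Fin 8 → R) (H : Fin 4 → Fin 4 → R)
    (bB : Fin 4 → Fin 4 → Fin 4 → R) (s c₁ c₂ : R) (B : Fin 6 → Fin 6 → R) :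
    SG9 cC ε lam μ H bB (s * c₁) (s * c₂) (fun i j => s * B i j) =
      s ^ 2 * SG9 cC ε lam μ H bB c₁ c₂ B := by
  unfold SG9
  have h1 : ∑ i, qv cC (fun i j => s * B i j) i * bb cC (fun i j => s * B i j) (bB i) =
      s ^ 2 * ∑ i, qv cC B i * bb cC B (bB i) := by
    rw [Finset.mul_sum]
    refine Finset.sum_congr rfl fun i _ => ?_
    rw [G2_qv, G2_bb]
    ring
  have h2 : ∑ i, ∑ j, qv cC (fun i j => s * B i j) i * qv cC (fun i j => s * B i j) j * H i j =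
      s ^ 2 * ∑ i, ∑ j, qv cC B i * qv cC B j * H i j := by
    simp only [Finset.mul_sum]
    refine Finset.sum_congr rfl fun i _ => Finset.sum_congr rfl fun j _ => ?_
    rw [G2_qv, G2_qv]
    ring
  rw [h1, h2, G2_omb, G2_me, G2_mf, G2_xc_mul, G2_xc_mul, G2_Fx_mul, G2_Fx_mul]
  simp only [Algebra.smul_def]
  ring

private lemma G2_up (cC : ℝ) (H : Fin 4 → Fin 4 → R) (bB : Fin 4 → Fin 4 → Fin 4 → R) (s : R)
    (B : Fin 6 → Fin 6 → R) : up cC H bB (fun i j => s * B i j) = s * up cC H bB B := by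
  unfold up
  have h1 : ∑ j, qv cC (fun i j => s * B i j) j * H 0 j = s * ∑ j, qv cC B j * H 0 j := by
    rw [Finset.mul_sum]
    refine Finset.sum_congr rfl fun i _ => ?_
    rw [G2_qv]
    ring
  rw [h1, G2_bb]
  ring

private lemma G2_td (cC ε : ℝ) (th s : R) (B : Fin 6 → Fin 6 → R) :
    td cC ε th (fun i j => s * B i j) = s * td cC ε th B := by
  unfold td
  rw [G2_qv]
  simp only [Algebra.smul_def]
  ring

private lemma G2_OG (cC : ℝ) (th Z : R) (ρ : Fin 6 → Fin 6 → R) (s c₁ c₂ : R)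
    (B : Fin 6 → Fin 6 → R) :
    OG9 cC th Z ρ (s * c₁) (s * c₂) (fun i j => s * B i j) = s * OG9 cC th Z ρ c₁ c₂ B := by
  unfold OG9
  rw [G2_con]
  simp only [Algebra.smul_def]
  ring

private lemma G2_SG_lam (cC lam : ℝ) (μ : Fin 4 → Fin 8 → R) (H : Fin 4 → Fin 4 → R)
    (bB : Fin 4 → Fin 4 → Fin 4 → R) (c₁ c₂ : R) (B : Fin 6 → Fin 6 → R) :
    SG9 cC 0 lam μ H bB c₁ c₂ B = SG9 cC 0 0 μ H bB c₁ c₂ B +
      lam • ((c₁ ^ 2 + c₂ ^ 2) * (algebraMap ℝ R (cC⁻¹ ^ 2) * Fx (xc (fun i => μ 0 i)))) := by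
  have h1 : me cC 0 μ c₁ B = fun i => (algebraMap ℝ R cC⁻¹ * c₁) * μ 0 i := by
    funext i
    unfold me
    rw [zero_smul, add_zero, Algebra.smul_def, mul_assoc]
  have h2 : mf cC 0 μ c₂ B = fun i => (algebraMap ℝ R cC⁻¹ * c₂) * μ 0 i := by
    funext i
    unfold mf
    rw [zero_smul, add_zero, Algebra.smul_def, mul_assoc]
  unfold SG9
  rw [h1, h2, G2_xc_mul, G2_xc_mul, G2_Fx_mul, G2_Fx_mul, zero_smul, add_zero]
  congr 1
  rw [map_pow]
  congr 1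
  ring

end G2aux

private lemma G2_C_mk (r a b c : ℝ) : J2.C r * ⟨a, b, c⟩ = (⟨r * a, r * b, r * c⟩ : J2) := by
  ext <;> simp

private lemma G2_C_a (r : ℝ) (x : J2) : (J2.C r * x).a = r * x.a := by simp

private lemma G2_C_b (r : ℝ) (x : J2) : (J2.C r * x).b = r * x.b := by simp

private lemma G2_C_c (r : ℝ) (x : J2) : (J2.C r * x).c = r * x.c := by simp

private lemma G2_jet (cC ε : ℝ) (th r c₁ c₂ : ℝ) (B : Fin 6 → Fin 6 → ℝ) :
    (fun i j => (⟨r * B i j, dB cC ε th (r * c₁) (r * c₂) (fun i j => r * B i j) i j, 0⟩ : J2)) =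
      fun i j => J2.C r * ⟨B i j, dB cC ε th c₁ c₂ B i j, 0⟩ := by
  funext i j
  rw [G2_dB, G2_C_mk, mul_zero]

private lemma G2_j1 (cC ε : ℝ) (th : J2) (r c₁ c₂ : ℝ) (B : Fin 6 → Fin 6 → ℝ) :
    j1 cC ε th (r * c₁) (r * c₂) (fun i j => r * B i j) = J2.C r * j1 cC ε th c₁ c₂ B := by
  unfold j1
  rw [G2_jet, G2_d1, G2_d1, G2_C_b, G2_C_mk]

private lemma G2_j2 (cC ε : ℝ) (th : J2) (r c₁ c₂ : ℝ) (B : Fin 6 → Fin 6 → ℝ) :
    j2 cC ε th (r * c₁) (r * c₂) (fun i j => r * B i j) = J2.C r * j2 cC ε th c₁ c₂ B := by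
  unfold j2
  rw [G2_jet, G2_d2, G2_d2, G2_C_b, G2_C_mk]

private lemma G2_jB (cC ε : ℝ) (th : J2) (r c₁ c₂ : ℝ) (B : Fin 6 → Fin 6 → ℝ) (i j : Fin 6) :
    jB cC ε th (r * c₁) (r * c₂) (fun i j => r * B i j) i j = J2.C r * jB cC ε th c₁ c₂ B i j := by
  unfold jB
  have h1 : (⟨r * c₁, r * d1 ε th.a B, 0⟩ : J2) = J2.C r * ⟨c₁, d1 ε th.a B, 0⟩ := by
    rw [G2_C_mk, mul_zero]
  have h2 : (⟨r * c₂, r * d2 ε th.a B, 0⟩ : J2) = J2.C r * ⟨c₂, d2 ε th.a B, 0⟩ := by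
    rw [G2_C_mk, mul_zero]
  rw [G2_jet, G2_d1, G2_d2, h1, h2, G2_dB, G2_dB, G2_C_b, G2_C_mk]

private lemma G2_j1_zero (cC : ℝ) (th : J2) (c₁ c₂ : ℝ) (B : Fin 6 → Fin 6 → ℝ) :
    j1 cC 0 th c₁ c₂ B = J2.C c₁ := by
  ext <;> simp [j1, d1]

private lemma G2_j2_zero (cC : ℝ) (th : J2) (c₁ c₂ : ℝ) (B : Fin 6 → Fin 6 → ℝ) :
    j2 cC 0 th c₁ c₂ B = J2.C c₂ := by
  ext <;> simp [j2, d2]

private lemma G2_mul_a (x : J2) (r : ℝ) (y : J2) : (x * (J2.C r * y)).a = r * (x * y).a := by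
  rw [mul_left_comm, G2_C_a]

private lemma G2_mul_b (x : J2) (r : ℝ) (y : J2) : (x * (J2.C r * y)).b = r * (x * y).b := by
  rw [mul_left_comm, G2_C_b]


theorem Tj9_lam (cC lam K v1 : ℝ) (th : J2) (μ : Fin 4 → Fin 8 → J2)
    (H : Fin 4 → Fin 4 → J2) (bB : Fin 4 → Fin 4 → Fin 4 → J2) (Z : Fin 4 → J2)
    (ρ : Fin 4 → Fin 6 → Fin 6 → J2) (u c₁ c₂ : ℝ) (B : Fin 6 → Fin 6 → ℝ) :
    Tj9 cC 0 lam K v1 th μ H bB Z ρ u c₁ c₂ B = Tj9 cC 0 0 K v1 th μ H bB Z ρ u c₁ c₂ B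
      + (1/2) * lam * (c₁ ^ 2 + c₂ ^ 2) * cC⁻¹ ^ 2 * (Fx (R := J2) (xc (fun i => μ 0 i))).c := by
  unfold Tj9
  simp only [G2_j1_zero, G2_j2_zero]
  rw [G2_SG_lam cC lam]
  have h4 : (lam • (((J2.C c₁) ^ 2 + (J2.C c₂) ^ 2) * (algebraMap ℝ J2 (cC⁻¹ ^ 2) *
      Fx (R := J2) (xc (fun i => μ 0 i)))) : J2).c =
      lam * ((c₁ ^ 2 + c₂ ^ 2) * (cC⁻¹ ^ 2 * (Fx (R := J2) (xc (fun i => μ 0 i))).c)) := by
    have e : ((J2.C c₁) ^ 2 + (J2.C c₂) ^ 2) * (algebraMap ℝ J2 (cC⁻¹ ^ 2) *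
        Fx (R := J2) (xc (fun i => μ 0 i))) =
        J2.C (c₁ ^ 2 + c₂ ^ 2) * (J2.C (cC⁻¹ ^ 2) * Fx (R := J2) (xc (fun i => μ 0 i))) := by
      have ha : (algebraMap ℝ J2) (cC⁻¹ ^ 2) = J2.C (cC⁻¹ ^ 2) := rfl
      rw [ha]
      simp only [map_add, map_pow]
    rw [e, J2.smul_c, G2_C_c, G2_C_c]
  rw [J2.add_c, h4]
  ring

theorem Tj9_homog (cC ε lam K v1 : ℝ) (th : J2) (μ : Fin 4 → Fin 8 → J2)
    (H : Fin 4 → Fin 4 → J2) (bB : Fin 4 → Fin 4 → Fin 4 → J2) (Z : Fin 4 → J2)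
    (ρ : Fin 4 → Fin 6 → Fin 6 → J2) (r u c₁ c₂ : ℝ) (B : Fin 6 → Fin 6 → ℝ) :
    Tj9 cC ε lam K v1 th μ H bB Z ρ (r * u) (r * c₁) (r * c₂) (fun i j => r * B i j)
      = r ^ 2 * Tj9 cC ε lam K v1 th μ H bB Z ρ u c₁ c₂ B := by
  have hB : jB cC ε th (r * c₁) (r * c₂) (fun i j => r * B i j) =
      fun i j => J2.C r * jB cC ε th c₁ c₂ B i j :=
    funext fun i => funext fun j => G2_jB cC ε th r c₁ c₂ B i j
  unfold Tj9
  simp only [G2_j1, G2_j2, hB, G2_OG, G2_SG, G2_td, G2_up, G2_mul_a, G2_mul_b]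
  rw [← map_pow]
  simp only [G2_C_a, G2_C_b, G2_C_c, mul_pow]
  rw [← Finset.mul_sum]
  ring

end Pool.Agent.Helper81.M9
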