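import Pool.Agent.Helper81.M9.Defs2
import Pool.Agent.Helper46.M8.St.F7
import Pool.Agent.Helper81.M9.St.C4
import Pool.Agent.Helper46.M8.Ns

/-!
# M9, piece G3
-/

open Filter Metric Module Set
open scoped Topology ContDiff Matrix Matrix.Norms.Elementwise ComplexConjugate

set_option maxSynthPendingDepth 3

namespace Pool.Agent.Helper81.M9
open Pool.Agent.Helper20.PC Pool.Agent.Helper20.HP Pool.Agent.Helper20.M8 Pool.Agent.Helper20.MB
open Pool.Agent.Helper46.M8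

/-! ### G3 : compactness -/

namespace G3

/-- a large compact set. -/
def Big (R : ℝ) : Set Cf9 :=
  ({U : Mat | Uᴴ * U = 1} ×ˢ (Icc (0 : ℝ) (1/100) ×ˢ Icc (0 : ℝ) 1)) ×ˢ
    ((closedBall (0 : Fin 4 → V) R ×ˢ closedBall (0 : V) R) ×ˢ
      (closedBall (0 : ℝ) 1 ×ˢ (closedBall (0 : ℝ) 1 ×ˢ
        (closedBall (0 : ℝ) 1 ×ˢ closedBall (0 : Fin 6 → Fin 6 → ℝ) 1))))

theorem isCompact_Big (R : ℝ) : IsCompact (Big R) :=
  (isCompact_unitary.prod (isCompact_Icc.prod isCompact_Icc)).prod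
    (((isCompact_closedBall _ _).prod (isCompact_closedBall _ _)).prod
      ((isCompact_closedBall _ _).prod ((isCompact_closedBall _ _).prod
        ((isCompact_closedBall _ _).prod (isCompact_closedBall _ _)))))

/-- the constrained quantities. -/
noncomputable def Gr (q : Cf9) : (Fin 4 → Fin 4 → ℝ) × ℝ × ℝ × ℝ :=
  (fun a b => hm q.1.1 q.1.2.1 0 (q.2.1.1 a) (q.2.1.1 b), h0 0 q.2.1.2 q.2.1.2,
    h0 0 (vF q.1.1 q.1.2.1 (0, q.2.1.1, q.2.1.2)) q.2.1.2,
    h0 0 (iL (vF q.1.1 q.1.2.1 (0, q.2.1.1, q.2.1.2))) q.2.1.2)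

theorem contOn_vF (R : ℝ) :
    ContinuousOn (fun q : Cf9 => vF q.1.1 q.1.2.1 (0, q.2.1.1, q.2.1.2)) (Big R) := by
  intro q hq
  apply ContinuousAt.continuousWithinAt
  have hδ : |q.1.2.1| ≤ 1/100 := by
    rw [abs_of_nonneg hq.1.2.1.1]
    exact hq.1.2.1.2
  have h1 : ContDiffAt ℝ ∞ (fun q : Pm × Fr9 => vF q.1.1 q.1.2.1 q.2)
      ((q.1, ((0 : V), q.2.1.1, q.2.1.2)) : Pm × Fr9) := contDiffAt_vF hq.1.1 hδ
  have h2 : ContinuousAt (fun q : Cf9 => ((q.1, ((0 : V), q.2.1.1, q.2.1.2)) : Pm × Fr9)) q := by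
    fun_prop
  exact ContinuousAt.comp (f := fun q : Cf9 => ((q.1, ((0 : V), q.2.1.1, q.2.1.2)) : Pm × Fr9))
    (g := fun q : Pm × Fr9 => vF q.1.1 q.1.2.1 q.2) h1.continuousAt h2

theorem contOn_Gr (R : ℝ) : ContinuousOn Gr (Big R) := by
  have h1 : ContinuousOn (fun q : Cf9 => hm q.1.1 q.1.2.1 0) (Big R) :=
    F7.contOn_hm.comp (f := fun q : Cf9 => ((q.1.1, q.1.2.1) : Mat × ℝ)) (by fun_prop)
      fun q hq => ⟨hq.1.1, hq.1.2.1⟩
  have h2 := contOn_vF R
  have h3 : ContinuousOn (fun q : Cf9 => q.2.1.2) (Big R) := by fun_prop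
  refine ContinuousOn.prodMk ?_ (ContinuousOn.prodMk ?_ (ContinuousOn.prodMk ?_ ?_))
  · refine continuousOn_pi.2 fun a => continuousOn_pi.2 fun b => ?_
    exact (h1.clm_apply (by fun_prop)).clm_apply (by fun_prop)
  · exact ((h0 0).continuous.comp_continuousOn h3).clm_apply h3
  · exact ((h0 0).continuous.comp_continuousOn h2).clm_apply h3
  · exact ((h0 0).continuous.comp_continuousOn (iL.continuous.comp_continuousOn h2)).clm_apply h3

/-- the constraints which do not involve the metric. -/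
def Rest : Set Cf9 := {q | Cns9 q.1.2.2 q.2.2.2.1 q.2.2.2.2.1 q.2.2.2.2.2 ∧
  nrm9 q.2.2.1 q.2.2.2.1 q.2.2.2.2.1 q.2.2.2.2.2 = 1}

theorem isClosed_Rest : IsClosed Rest := by
  unfold Rest Cns9 nrm9
  refine IsClosed.inter (IsClosed.inter ?_ (IsClosed.inter ?_ (IsClosed.inter ?_
    (IsClosed.inter ?_ (IsClosed.inter ?_ (IsClosed.inter ?_ (IsClosed.inter ?_ ?_))))))) ?_
  · exact F7.closed_forall fun a => F7.closed_forall fun b => isClosed_eq (by fun_prop) (by fun_prop)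
  · exact isClosed_eq (by fun_prop) continuous_const
  · exact isClosed_eq (by fun_prop) continuous_const
  · exact isClosed_eq (by fun_prop) (by fun_prop)
  · exact F7.closed_forall fun a => F7.closed_forall fun b => F7.closed_imp (F7.closed_imp
      (F7.closed_imp (F7.closed_imp (F7.closed_imp (isClosed_eq (by fun_prop) (by fun_prop))))))
  · exact F7.closed_forall fun a => F7.closed_forall fun b => F7.closed_imp (F7.closed_imp
      (F7.closed_imp (F7.closed_imp (F7.closed_imp (isClosed_eq (by fun_prop) (by fun_prop))))))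
  · exact isClosed_eq (by fun_prop) continuous_const
  · exact isClosed_eq (by fun_prop) continuous_const
  · exact isClosed_eq (by fun_prop) continuous_const

theorem Kc_eq {R : ℝ} (hR : ∀ p ∈ F7.PU, ∀ v : V, hm p.1 p.2 0 v v = 1 → ‖v‖ ≤ R) :
    Kc9 = (Big R ∩ Gr ⁻¹' {((fun a b => if a = b then 1 else 0), 1, 0, 0)}) ∩ Rest := by
  have hY : ∀ v : V, h0 0 v v = 1 → ‖v‖ ≤ R := by
    intro v hv
    have h1 : ((1 : Mat), (0 : ℝ)) ∈ F7.PU := ⟨by simp, by norm_num, by norm_num⟩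
    refine hR _ h1 v ?_
    rw [hm_zero (by simp)]
    exact hv
  ext q
  constructor
  · rintro ⟨h1, h2, h3, h4, h5, ⟨h6, h6a, h6b, h6c⟩, h7, h8⟩
    have hR' : 0 ≤ R := (norm_nonneg _).trans (hY _ h6a)
    have h8' := h8
    unfold nrm9 at h8'
    have hb0 : 0 ≤ ∑ a, ∑ b, q.2.2.2.2.2 a b ^ 2 :=
      Finset.sum_nonneg fun a _ => Finset.sum_nonneg fun b _ => sq_nonneg _
    have n1 := sq_nonneg q.2.2.1
    have n2 := sq_nonneg q.2.2.2.1
    have n3 := sq_nonneg q.2.2.2.2.1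
    refine ⟨⟨⟨⟨h1, ⟨h2, h3⟩, h4, h5⟩, ⟨?_, ?_⟩, ?_, ?_, ?_, ?_⟩, ?_⟩, h7, h8⟩
    · rw [mem_closedBall_zero_iff, pi_norm_le_iff_of_nonneg hR']
      intro a
      have h6a := h6 a a
      rw [if_pos rfl] at h6a
      exact hR (q.1.1, q.1.2.1) ⟨h1, h2, h3⟩ (q.2.1.1 a) h6a
    · rw [mem_closedBall_zero_iff]
      exact hY _ h6a
    · rw [mem_closedBall_zero_iff]
      apply F7.abs_le_one_of_sq
      linarith
    · rw [mem_closedBall_zero_iff]
      apply F7.abs_le_one_of_sq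
      linarith
    · rw [mem_closedBall_zero_iff]
      apply F7.abs_le_one_of_sq
      linarith
    · rw [mem_closedBall_zero_iff, pi_norm_le_iff_of_nonneg zero_le_one]
      intro a
      rw [pi_norm_le_iff_of_nonneg zero_le_one]
      intro b
      apply F7.abs_le_one_of_sq
      have e1 : q.2.2.2.2.2 a b ^ 2 ≤ ∑ b, q.2.2.2.2.2 a b ^ 2 :=
        Finset.single_le_sum (f := fun b => q.2.2.2.2.2 a b ^ 2) (fun i _ => sq_nonneg _)
          (Finset.mem_univ b)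
      have e2 : ∑ b, q.2.2.2.2.2 a b ^ 2 ≤ ∑ a, ∑ b, q.2.2.2.2.2 a b ^ 2 :=
        Finset.single_le_sum (f := fun a => ∑ b, q.2.2.2.2.2 a b ^ 2)
          (fun i _ => Finset.sum_nonneg fun b _ => sq_nonneg _) (Finset.mem_univ a)
      linarith
    · simp only [mem_preimage, mem_singleton_iff]
      refine Prod.ext ?_ (Prod.ext ?_ (Prod.ext ?_ ?_))
      · funext a b
        exact h6 a b
      · exact h6a
      · exact h6b
      · exact h6c
  · rintro ⟨⟨⟨⟨h1, ⟨h2, h3⟩, h4, h5⟩, -⟩, h6⟩, h7, h8⟩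
    refine ⟨h1, h2, h3, h4, h5, ⟨?_, ?_, ?_, ?_⟩, h7, h8⟩
    · intro a b
      exact congrFun (congrFun (congrArg Prod.fst h6) a) b
    · exact congrArg (fun x : (Fin 4 → Fin 4 → ℝ) × ℝ × ℝ × ℝ => x.2.1) h6
    · exact congrArg (fun x : (Fin 4 → Fin 4 → ℝ) × ℝ × ℝ × ℝ => x.2.2.1) h6
    · exact congrArg (fun x : (Fin 4 → Fin 4 → ℝ) × ℝ × ℝ × ℝ => x.2.2.2) h6

end G3

open G3 in
theorem isCompact_Kc9 : IsCompact Kc9 := by
  obtain ⟨R, hR⟩ := F7.exists_radius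
  rw [Kc_eq hR]
  have hB := isCompact_Big R
  have h1 : IsClosed (Big R ∩ Gr ⁻¹' {((fun a b => if a = b then 1 else 0), 1, 0, 0)}) :=
    (contOn_Gr R).preimage_isClosed_of_isClosed hB.isClosed isClosed_singleton
  exact hB.of_isClosed_subset (h1.inter isClosed_Rest) fun q hq => hq.1.1

end Pool.Agent.Helper81.M9
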