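import Pool.Agent.Helper81.M9.Frame
import Pool.Agent.Helper46.M8.St.A14
import Pool.Agent.Helper46.M8.Ns

/-!
# M9, piece G4
-/

open Filter Metric Module Set
open scoped Topology ContDiff Matrix Matrix.Norms.Elementwise ComplexConjugate

set_option maxSynthPendingDepth 3

namespace Pool.Agent.Helper81.M9
open Pool.Agent.Helper20.PC Pool.Agent.Helper20.HP Pool.Agent.Helper20.M8 Pool.Agent.Helper20.MB
open Pool.Agent.Helper46.M8

section generic
variable {R : Type*} [CommRing R] [Algebra ℝ R] [TopologicalSpace R] [IsTopologicalRing R]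
  [ContinuousSMul ℝ R] {X : Type*} [TopologicalSpace X] {S : Set X}

private lemma G4_N0 {cC : X → ℝ} (h : ContinuousOn cC S) (i j : Fin 6) :
    ContinuousOn (fun x => N0 (cC x) i j) S := by
  have e1 : ContinuousOn (fun x => -(1/2) * cC x) S := continuousOn_const.mul h
  have e2 : ContinuousOn (fun x => -(1/4) * cC x) S := continuousOn_const.mul h
  fin_cases i <;> fin_cases j <;>
    first
    | exact continuousOn_const
    | exact e1
    | exact e2

private lemma G4_nn6 {cC : X → ℝ} (h : ContinuousOn (fun x => (cC x)⁻¹) S) (i : Fin 6) :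
    ContinuousOn (fun x => nn6 (cC x) i) S := by
  fin_cases i <;>
    first
    | exact continuousOn_const
    | exact h

private lemma G4_d1 {ε : X → ℝ} {th : X → R} {B : X → Fin 6 → Fin 6 → R}
    (h1 : ContinuousOn ε S) (h2 : ContinuousOn th S)
    (h3 : ∀ i j, ContinuousOn (fun x => B x i j) S) :
    ContinuousOn (fun x => d1 (ε x) (th x) (B x)) S := by
  unfold d1
  exact (h1.pow 2).smul (h2.mul (h3 0 3))

private lemma G4_d2 {ε : X → ℝ} {th : X → R} {B : X → Fin 6 → Fin 6 → R}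
    (h1 : ContinuousOn ε S) (h2 : ContinuousOn th S)
    (h3 : ∀ i j, ContinuousOn (fun x => B x i j) S) :
    ContinuousOn (fun x => d2 (ε x) (th x) (B x)) S := by
  unfold d2
  exact ((h1.pow 2).smul (h2.mul (h3 1 2))).neg

private lemma G4_dB {cC ε : X → ℝ} {th c₁ c₂ : X → R} {B : X → Fin 6 → Fin 6 → R}
    (h0 : ContinuousOn cC S) (h1 : ContinuousOn ε S) (h2 : ContinuousOn th S)
    (h3 : ContinuousOn c₁ S) (h4 : ContinuousOn c₂ S)
    (h5 : ∀ i j, ContinuousOn (fun x => B x i j) S) (i j : Fin 6) :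
    ContinuousOn (fun x => dB (cC x) (ε x) (th x) (c₁ x) (c₂ x) (B x) i j) S := by
  unfold dB
  refine A14.ite' continuousOn_const ?_
  refine ((continuousOn_finsetSum _ fun k _ => ((G4_N0 h0 i k).smul (h5 k j)).add
    ((G4_N0 h0 j k).smul (h5 i k))).add (h1.smul (h2.mul (continuousOn_finsetSum _ fun k _ =>
      ((h5 k j).const_smul (J6 i k)).add ((h5 i k).const_smul (J6 j k)))))).add ?_
  exact A14.ite' (h2.mul h3).neg (A14.ite' (h2.mul h3) (A14.ite' (h2.mul h4)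
    (A14.ite' (h2.mul h4).neg continuousOn_const)))

private lemma G4_qv {cC : X → ℝ} {B : X → Fin 6 → Fin 6 → R}
    (h0 : ContinuousOn (fun x => (cC x)⁻¹) S)
    (h5 : ∀ i j, ContinuousOn (fun x => B x i j) S) (i : Fin 4) :
    ContinuousOn (fun x => qv (cC x) (B x) i) S := by
  have e1 : ContinuousOn (fun x => (cC x)⁻¹ • ((1/2 : ℝ) • B x 0 3 - (1/4 : ℝ) • B x 1 2)) S :=
    h0.smul (((h5 0 3).const_smul _).sub ((h5 1 2).const_smul _))
  have e2 : ContinuousOn (fun x => (1/2 : ℝ) • B x 0 4 + (1/4 : ℝ) • B x 1 5) S :=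
    ((h5 0 4).const_smul _).add ((h5 1 5).const_smul _)
  have e3 : ContinuousOn (fun x => (1/2 : ℝ) • B x 0 5 - (1/4 : ℝ) • B x 1 4) S :=
    ((h5 0 5).const_smul _).sub ((h5 1 4).const_smul _)
  fin_cases i
  · exact continuousOn_const
  · exact e1
  · exact e2
  · exact e3

private lemma G4_con {cC : X → ℝ} {B r : X → Fin 6 → Fin 6 → R}
    (h0 : ContinuousOn (fun x => (cC x)⁻¹) S)
    (h5 : ∀ i j, ContinuousOn (fun x => B x i j) S)
    (h6 : ∀ i j, ContinuousOn (fun x => r x i j) S) :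
    ContinuousOn (fun x => con (cC x) (B x) (r x)) S := by
  unfold con
  exact (continuousOn_finsetSum _ fun i _ => continuousOn_finsetSum _ fun j _ =>
    ((G4_nn6 h0 i).mul (G4_nn6 h0 j)).smul ((h5 i j).mul (h6 i j))).const_smul _

private lemma G4_bb {cC : X → ℝ} {B : X → Fin 6 → Fin 6 → R} {r : X → Fin 4 → Fin 4 → R}
    (h0 : ContinuousOn (fun x => (cC x)⁻¹) S)
    (h5 : ∀ i j, ContinuousOn (fun x => B x i j) S)
    (h6 : ∀ i j, ContinuousOn (fun x => r x i j) S) :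
    ContinuousOn (fun x => bb (cC x) (B x) (r x)) S := by
  unfold bb
  exact (continuousOn_finsetSum _ fun i _ => continuousOn_finsetSum _ fun j _ =>
    ((G4_nn6 h0 _).mul (G4_nn6 h0 _)).smul ((h5 _ _).mul (h6 i j))).const_smul _

private lemma G4_omb {cC : X → ℝ} {B : X → Fin 6 → Fin 6 → R}
    (h0 : ContinuousOn (fun x => (cC x)⁻¹) S)
    (h5 : ∀ i j, ContinuousOn (fun x => B x i j) S) :
    ContinuousOn (fun x => omb (cC x) (B x)) S := by
  unfold omb
  exact (h0.smul (h5 2 3)).add (h5 4 5)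

private lemma G4_me {cC ε : X → ℝ} {μ : X → Fin 4 → Fin 8 → R} {c₁ : X → R}
    {B : X → Fin 6 → Fin 6 → R}
    (h0 : ContinuousOn (fun x => (cC x)⁻¹) S) (h1 : ContinuousOn ε S)
    (h2 : ∀ j i, ContinuousOn (fun x => μ x j i) S) (h3 : ContinuousOn c₁ S)
    (h5 : ∀ i j, ContinuousOn (fun x => B x i j) S) (i : Fin 8) :
    ContinuousOn (fun x => me (cC x) (ε x) (μ x) (c₁ x) (B x) i) S := by
  unfold me
  exact (h0.smul (h3.mul (h2 0 i))).add (h1.smul (((h0.smul ((h5 0 3).mul (h2 1 i))).add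
    ((h5 0 4).mul (h2 2 i))).add ((h5 0 5).mul (h2 3 i))))

private lemma G4_mf {cC ε : X → ℝ} {μ : X → Fin 4 → Fin 8 → R} {c₁ : X → R}
    {B : X → Fin 6 → Fin 6 → R}
    (h0 : ContinuousOn (fun x => (cC x)⁻¹) S) (h1 : ContinuousOn ε S)
    (h2 : ∀ j i, ContinuousOn (fun x => μ x j i) S) (h3 : ContinuousOn c₁ S)
    (h5 : ∀ i j, ContinuousOn (fun x => B x i j) S) (i : Fin 8) :
    ContinuousOn (fun x => mf (cC x) (ε x) (μ x) (c₁ x) (B x) i) S := by
  unfold mf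
  exact (h0.smul (h3.mul (h2 0 i))).add (h1.smul (((h0.smul ((h5 1 2).mul (h2 1 i))).neg.add
    ((h5 1 5).mul (h2 2 i))).sub ((h5 1 4).mul (h2 3 i))))

private lemma G4_SG9 (lam : ℝ) {cC ε : X → ℝ} {μ : X → Fin 4 → Fin 8 → R}
    {H : X → Fin 4 → Fin 4 → R} {bB : X → Fin 4 → Fin 4 → Fin 4 → R} {c₁ c₂ : X → R}
    {B : X → Fin 6 → Fin 6 → R}
    (h0 : ContinuousOn (fun x => (cC x)⁻¹) S) (h1 : ContinuousOn ε S)
    (h2 : ∀ j i, ContinuousOn (fun x => μ x j i) S) (h3 : ContinuousOn c₁ S)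
    (h4 : ContinuousOn c₂ S) (h5 : ∀ i j, ContinuousOn (fun x => B x i j) S)
    (h6 : ∀ i j, ContinuousOn (fun x => H x i j) S)
    (h7 : ∀ i j k, ContinuousOn (fun x => bB x i j k) S) :
    ContinuousOn (fun x => SG9 (cC x) (ε x) lam (μ x) (H x) (bB x) (c₁ x) (c₂ x) (B x)) S := by
  have q := G4_qv h0 h5
  have o := G4_omb h0 h5
  have e := G4_me h0 h1 h2 h3 h5
  have f := G4_mf h0 h1 h2 h4 h5
  unfold SG9
  refine (((((((?_ : ContinuousOn _ S).sub ?_).sub ?_).add ?_).sub ?_).add ?_).add ?_ |>.sub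
    ?_).add ?_
  · exact (continuousOn_finsetSum _ fun i _ => (q i).mul (G4_bb h0 h5 (h7 i))).const_smul (2 : ℝ)
  · exact continuousOn_finsetSum _ fun i _ => continuousOn_finsetSum _ fun j _ =>
      ((q i).mul (q j)).mul (h6 i j)
  · exact (((h0.smul ((h5 1 2).pow 2)).add ((h5 1 4).pow 2)).add ((h5 1 5).pow 2)).const_smul
      (2 : ℝ)
  · exact (o.pow 2).const_smul (8 : ℝ)
  · exact ((h5 0 1).pow 2).const_smul (3/2 : ℝ)
  · exact ((h5 0 1).mul o).const_smul (11/2 : ℝ)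
  · exact ((e 6).mul (((h5 0 1).const_smul (3952/27 : ℝ)).add
      (o.const_smul (4301/27 : ℝ)))).const_smul (2 : ℝ)
  · exact ((f 6).mul (((h5 0 1).const_smul (1913/27 : ℝ)).add
      (o.const_smul (1930/27 : ℝ)))).const_smul (2 : ℝ)
  · exact ((A14.Fx' (A14.xc' e)).add (A14.Fx' (A14.xc' f))).const_smul lam

private lemma G4_up {cC : X → ℝ} {H : X → Fin 4 → Fin 4 → R}
    {bB : X → Fin 4 → Fin 4 → Fin 4 → R} {B : X → Fin 6 → Fin 6 → R}
    (h0 : ContinuousOn (fun x => (cC x)⁻¹) S) (h5 : ∀ i j, ContinuousOn (fun x => B x i j) S)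
    (h6 : ∀ i j, ContinuousOn (fun x => H x i j) S)
    (h7 : ∀ i j k, ContinuousOn (fun x => bB x i j k) S) :
    ContinuousOn (fun x => up (cC x) (H x) (bB x) (B x)) S := by
  unfold up
  exact (G4_bb h0 h5 (h7 0)).sub (continuousOn_finsetSum _ fun j _ => (G4_qv h0 h5 j).mul (h6 0 j))

private lemma G4_td {cC ε : X → ℝ} {th : X → R} {B : X → Fin 6 → Fin 6 → R}
    (h0 : ContinuousOn (fun x => (cC x)⁻¹) S) (h1 : ContinuousOn ε S) (h2 : ContinuousOn th S)
    (h5 : ∀ i j, ContinuousOn (fun x => B x i j) S) :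
    ContinuousOn (fun x => td (cC x) (ε x) (th x) (B x)) S := by
  unfold td
  exact h1.smul (h2.mul (G4_qv h0 h5 1))

private lemma G4_OG9 {cC : X → ℝ} {th Z : X → R} {ρ : X → Fin 6 → Fin 6 → R} {c₁ c₂ : X → R}
    {B : X → Fin 6 → Fin 6 → R}
    (h0 : ContinuousOn (fun x => (cC x)⁻¹) S) (h2 : ContinuousOn th S) (h8 : ContinuousOn Z S)
    (h9 : ∀ i j, ContinuousOn (fun x => ρ x i j) S) (h3 : ContinuousOn c₁ S)
    (h4 : ContinuousOn c₂ S) (h5 : ∀ i j, ContinuousOn (fun x => B x i j) S) :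
    ContinuousOn (fun x => OG9 (cC x) (th x) (Z x) (ρ x) (c₁ x) (c₂ x) (B x)) S := by
  unfold OG9
  exact (h0.smul (((h3.const_smul (1/2 : ℝ)).add (h4.const_smul (1/4 : ℝ))).mul
    (h2.mul h8))).add (G4_con h0 h5 h9)

end generic

/-! ### G4 : continuity of `Tj9` -/
theorem continuousOn_Tj9 {X : Type*} [TopologicalSpace X] {S : Set X} (lam : ℝ)
    {cC ε K v1 u c₁ c₂ : X → ℝ} {th : X → J2} {μ : X → Fin 4 → Fin 8 → J2}
    {H : X → Fin 4 → Fin 4 → J2} {bB : X → Fin 4 → Fin 4 → Fin 4 → J2} {Z : X → Fin 4 → J2}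
    {ρ : X → Fin 4 → Fin 6 → Fin 6 → J2} {B : X → Fin 6 → Fin 6 → ℝ}
    (h0 : ContinuousOn cC S) (h0' : ∀ x ∈ S, cC x ≠ 0) (h1 : ContinuousOn ε S)
    (h2 : ContinuousOn K S) (h3 : ContinuousOn v1 S) (h4 : ContinuousOn u S)
    (h5 : ContinuousOn c₁ S) (h6 : ContinuousOn c₂ S) (h7 : ContJ S th)
    (h8 : ∀ j i, ContJ S (fun x => μ x j i)) (h9 : ∀ i j, ContJ S (fun x => H x i j))
    (h10 : ∀ i k l, ContJ S (fun x => bB x i k l)) (h11 : ∀ k, ContJ S (fun x => Z x k))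
    (h12 : ∀ k i j, ContJ S (fun x => ρ x k i j)) (h13 : ∀ i j, ContinuousOn (fun x => B x i j) S) :
    ContinuousOn (fun x => Tj9 (cC x) (ε x) lam (K x) (v1 x) (th x) (μ x) (H x) (bB x) (Z x) (ρ x)
      (u x) (c₁ x) (c₂ x) (B x)) S := by
  let _ : TopologicalSpace J2 := A14.topJ
  have hi : ContinuousOn (fun x => (cC x)⁻¹) S := h0.inv₀ h0'
  have g7 : ContinuousOn th S := A14.contJ_iff.1 h7
  have g8 : ∀ j i, ContinuousOn (fun x => μ x j i) S := fun j i => A14.contJ_iff.1 (h8 j i)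
  have g9 : ∀ i j, ContinuousOn (fun x => H x i j) S := fun j i => A14.contJ_iff.1 (h9 j i)
  have g10 : ∀ i k l, ContinuousOn (fun x => bB x i k l) S :=
    fun i k l => A14.contJ_iff.1 (h10 i k l)
  have g11 : ∀ k, ContinuousOn (fun x => Z x k) S := fun k => A14.contJ_iff.1 (h11 k)
  have g12 : ∀ k i j, ContinuousOn (fun x => ρ x k i j) S :=
    fun i k l => A14.contJ_iff.1 (h12 i k l)
  have t0 : ContinuousOn (fun x => (th x).a) S := h7.1
  have e1 : ContinuousOn (fun x => d1 (ε x) (th x).a (B x)) S := G4_d1 h1 t0 h13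
  have e2 : ContinuousOn (fun x => d2 (ε x) (th x).a (B x)) S := G4_d2 h1 t0 h13
  have eB : ∀ i j, ContinuousOn (fun x => dB (cC x) (ε x) (th x).a (c₁ x) (c₂ x) (B x) i j) S :=
    G4_dB h0 h1 t0 h5 h6 h13
  have b1 : ∀ i j, ContinuousOn (fun x => (⟨B x i j, dB (cC x) (ε x) (th x).a (c₁ x) (c₂ x) (B x)
      i j, 0⟩ : J2)) S := fun i j => A14.mk' (h13 i j) (eB i j) continuousOn_const
  have c1 : ContinuousOn (fun x => (⟨c₁ x, d1 (ε x) (th x).a (B x), 0⟩ : J2)) S :=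
    A14.mk' h5 e1 continuousOn_const
  have c2 : ContinuousOn (fun x => (⟨c₂ x, d2 (ε x) (th x).a (B x), 0⟩ : J2)) S :=
    A14.mk' h6 e2 continuousOn_const
  have hC1 : ContinuousOn (fun x => j1 (cC x) (ε x) (th x) (c₁ x) (c₂ x) (B x)) S := by
    unfold j1
    exact A14.mk' h5 e1 (A14.continuous_b.comp_continuousOn (G4_d1 h1 g7 b1))
  have hC2 : ContinuousOn (fun x => j2 (cC x) (ε x) (th x) (c₁ x) (c₂ x) (B x)) S := by
    unfold j2
    exact A14.mk' h6 e2 (A14.continuous_b.comp_continuousOn (G4_d2 h1 g7 b1))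
  have hB : ∀ i j, ContinuousOn (fun x => jB (cC x) (ε x) (th x) (c₁ x) (c₂ x) (B x) i j) S := by
    intro i j
    unfold jB
    exact A14.mk' (h13 i j) (eB i j)
      (A14.continuous_b.comp_continuousOn (G4_dB h0 h1 g7 c1 c2 b1 i j))
  have hO : ∀ k, ContinuousOn (fun x => OG9 (cC x) (th x) (Z x k) (ρ x k)
      (j1 (cC x) (ε x) (th x) (c₁ x) (c₂ x) (B x)) (j2 (cC x) (ε x) (th x) (c₁ x) (c₂ x) (B x))
      (jB (cC x) (ε x) (th x) (c₁ x) (c₂ x) (B x))) S :=
    fun k => G4_OG9 hi g7 (g11 k) (g12 k) hC1 hC2 hB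
  have hS := G4_SG9 lam hi h1 g8 hC1 hC2 hB g9 g10
  have hT := G4_td hi h1 g7 hB
  have hU := G4_up hi hB g9 g10
  have hp := g7.mul (hB 1 2)
  have ca := fun {f : X → J2} (h : ContinuousOn f S) => A14.continuous_a.comp_continuousOn h
  have cb := fun {f : X → J2} (h : ContinuousOn f S) => A14.continuous_b.comp_continuousOn h
  have cc := fun {f : X → J2} (h : ContinuousOn f S) => A14.continuous_c.comp_continuousOn h
  unfold Tj9
  refine ((((((((h2.mul (h4.pow 2)).add (h4.mul (cb (hO 1)))).add ?_).add ?_).add ?_).sub ?_).sub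
    ?_).add ?_).add ?_
  · exact continuousOn_const.mul (continuousOn_finsetSum _ fun k _ => (ca (hO k.succ)).pow 2)
  · exact continuousOn_const.mul (cc hS)
  · exact (continuousOn_const.mul hi).mul ((h6.mul (cb hp)).sub ((h1.pow 2).mul ((ca hp).pow 2)))
  · exact ((continuousOn_const.mul (ca hT)).mul h4).mul h3
  · exact ((ca hT).pow 2).mul (ca (g9 0 0))
  · exact (continuousOn_const.mul (ca hT)).mul (cb hU)
  · exact (cb hT).mul (ca hU)

end Pool.Agent.Helper81.M9
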