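import Pool.Agent.Helper81.M9.Defs2
import Pool.Agent.Helper46.M8.St.E2b
import Pool.Agent.Helper81.M9.St.B5
import Pool.Agent.Helper81.M9.St.C5
import Pool.Agent.Helper81.M9.St.C6
import Pool.Agent.Helper81.M9.St.G4
import Pool.Agent.Helper46.M8.Ns

/-!
# M9, piece G5
-/

open Filter Metric Module Set
open scoped Topology ContDiff Matrix Matrix.Norms.Elementwise ComplexConjugate

set_option maxSynthPendingDepth 3

namespace Pool.Agent.Helper81.M9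
open Pool.Agent.Helper20.PC Pool.Agent.Helper20.HP Pool.Agent.Helper20.M8 Pool.Agent.Helper20.MB
open Pool.Agent.Helper46.M8

/-! ### G5 : continuity of `TFp9` -/
theorem contJ_jet9 {F : Pm × Fr9 → ℝ}
    (hF : ∀ q : Pm × Fr9, q.1.1ᴴ * q.1.1 = 1 → |q.1.2.1| ≤ 1/100 → ContDiffAt ℝ ∞ F q) :
    ContJ {q : Cf9 | q.1.1ᴴ * q.1.1 = 1 ∧ |q.1.2.1| ≤ 1/100}
      (fun q : Cf9 => jetF (XF9 q.1.1 q.1.2.1) (fun s => F (q.1, s)) (0, q.2.1.1, q.2.1.2)) := by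
  have key := fun (q : Cf9) (hq : q.1.1ᴴ * q.1.1 = 1 ∧ |q.1.2.1| ≤ 1/100) =>
    contDiffAt_jet_param (X := fun q : Pm × Fr9 => XF9 q.1.1 q.1.2.1 q.2) (f := F) (p := q.1)
      (z := ((0, q.2.1.1, q.2.1.2) : Fr9)) (contDiffAt_XF9 hq.1 hq.2) (hF _ hq.1 hq.2)
  have hc : Continuous (fun q : Cf9 => ((q.1, (0, q.2.1.1, q.2.1.2)) : Pm × Fr9)) := by fun_prop
  exact ⟨fun q hq => (ContinuousAt.comp
      (f := fun q : Cf9 => ((q.1, (0, q.2.1.1, q.2.1.2)) : Pm × Fr9))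
      (key q hq).1.continuousAt hc.continuousAt).continuousWithinAt,
    fun q hq => (ContinuousAt.comp
      (f := fun q : Cf9 => ((q.1, (0, q.2.1.1, q.2.1.2)) : Pm × Fr9))
      (key q hq).2.1.continuousAt hc.continuousAt).continuousWithinAt,
    fun q hq => (ContinuousAt.comp
      (f := fun q : Cf9 => ((q.1, (0, q.2.1.1, q.2.1.2)) : Pm × Fr9))
      (key q hq).2.2.continuousAt hc.continuousAt).continuousWithinAt⟩

private lemma G5_sub : Kc9 ⊆ {q : Cf9 | q.1.1ᴴ * q.1.1 = 1 ∧ |q.1.2.1| ≤ 1/100} := by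
  rintro q ⟨h1, h2, h3, -⟩
  exact ⟨h1, abs_le.2 ⟨by linarith, h3⟩⟩

private lemma G5_contJ {F : Pm × Fr9 → ℝ}
    (hF : ∀ q : Pm × Fr9, q.1.1ᴴ * q.1.1 = 1 → |q.1.2.1| ≤ 1/100 → ContDiffAt ℝ ∞ F q) :
    ContJ Kc9
      (fun q : Cf9 => jetF (XF9 q.1.1 q.1.2.1) (fun s => F (q.1, s)) (0, q.2.1.1, q.2.1.2)) :=
  ⟨(contJ_jet9 hF).1.mono G5_sub, (contJ_jet9 hF).2.1.mono G5_sub,
    (contJ_jet9 hF).2.2.mono G5_sub⟩

theorem continuousOn_TFp9 (lam : ℝ) : ContinuousOn (TFp9 lam) Kc9 := by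
  have hK : ContinuousOn (fun q : Cf9 => num (hm q.1.1 q.1.2.1) 0 (q.2.1.1 0) (q.2.1.1 1)) Kc9 := by
    have hc : Continuous (fun q : Cf9 => ((q.1, (0, q.2.1.1)) : Pm × Fr)) := by fun_prop
    have h1 : ContinuousOn
        (fun q : Cf9 => sR q.1.1 q.1.2.1 1 0 1 ((0, q.2.1.1) : Fr)) Kc9 := fun q hq =>
      (ContinuousAt.comp (f := fun q : Cf9 => ((q.1, (0, q.2.1.1)) : Pm × Fr))
        (contDiffAt_sR (q := ((q.1, (0, q.2.1.1)) : Pm × Fr)) (G5_sub hq).1 (G5_sub hq).2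
          1 0 1).continuousAt hc.continuousAt).continuousWithinAt
    refine ContinuousOn.congr h1 (fun q hq => ?_)
    rw [← G_Riem (hm_metAt (G5_sub hq).1 (G5_sub hq).2 0), hm_symm (G5_sub hq).1 (G5_sub hq).2]
    rfl
  refine continuousOn_Tj9 (X := Cf9) lam
    (cC := fun q => sC q.1.1 q.1.2.1 (0, q.2.1.1, q.2.1.2)) (ε := fun q => q.1.2.2)
    (K := fun q => num (hm q.1.1 q.1.2.1) 0 (q.2.1.1 0) (q.2.1.1 1))
    (v1 := fun q => lie (XF9 q.1.1 q.1.2.1) (sV q.1.1 q.1.2.1 1) (0, q.2.1.1, q.2.1.2))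
    (u := fun q => q.2.2.1) (c₁ := fun q => q.2.2.2.1) (c₂ := fun q => q.2.2.2.2.1)
    (th := fun q => jetF (XF9 q.1.1 q.1.2.1) (sT q.1.1 q.1.2.1) (0, q.2.1.1, q.2.1.2))
    (μ := fun q j i => jetF (XF9 q.1.1 q.1.2.1) (sU q.1.1 q.1.2.1 j i) (0, q.2.1.1, q.2.1.2))
    (H := fun q i j => jetF (XF9 q.1.1 q.1.2.1) (sH q.1.1 q.1.2.1 i j) (0, q.2.1.1, q.2.1.2))
    (bB := fun q i k l => jetF (XF9 q.1.1 q.1.2.1) (sB q.1.1 q.1.2.1 q.1.2.2 i k l)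
      (0, q.2.1.1, q.2.1.2))
    (Z := fun q k => jetF (XF9 q.1.1 q.1.2.1) (sZ q.1.1 q.1.2.1 k) (0, q.2.1.1, q.2.1.2))
    (ρ := fun q k i j => jetF (XF9 q.1.1 q.1.2.1) (sR9 q.1.1 q.1.2.1 q.1.2.2 k i j)
      (0, q.2.1.1, q.2.1.2))
    (B := fun q => q.2.2.2.2.2) ?_ ?_ ?_ hK ?_ ?_ ?_ ?_ ?_ ?_ ?_ ?_ ?_ ?_ ?_
  · exact (G5_contJ (F := fun q : Pm × Fr9 => sC q.1.1 q.1.2.1 q.2)
      (fun q h1 h2 => contDiffAt_sC h1 h2)).1
  · intro q hq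
    have hON : ON9 q.1.1 q.1.2.1 (0, q.2.1.1, q.2.1.2) := hq.2.2.2.2.2.1
    have h1 : hm q.1.1 q.1.2.1 0 (q.2.1.1 0) (q.2.1.1 0) = 1 := by
      have := hON.1 0 0
      rwa [if_pos rfl] at this
    have h2 := le_hatL (G5_sub hq).1 (G5_sub hq).2 0 (q.2.1.1 0)
    rw [h1] at h2
    have h3 : (0 : ℝ) < sC q.1.1 q.1.2.1 (0, q.2.1.1, q.2.1.2) :=
      lt_of_lt_of_le (by norm_num) h2
    exact h3.ne'
  · fun_prop
  · exact (G5_contJ (F := fun q : Pm × Fr9 => sV q.1.1 q.1.2.1 1 q.2)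
      (fun q h1 h2 => contDiffAt_sV h1 h2 1)).2.1
  · fun_prop
  · fun_prop
  · fun_prop
  · exact G5_contJ (F := fun q : Pm × Fr9 => sT q.1.1 q.1.2.1 q.2)
      (fun q h1 h2 => contDiffAt_sT h1 h2)
  · exact fun j i => G5_contJ (F := fun q : Pm × Fr9 => sU q.1.1 q.1.2.1 j i q.2)
      (fun q h1 h2 => contDiffAt_sU h1 h2 j i)
  · exact fun i j => G5_contJ (F := fun q : Pm × Fr9 => sH q.1.1 q.1.2.1 i j q.2)
      (fun q h1 h2 => contDiffAt_sH h1 h2 i j)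
  · exact fun i k l => G5_contJ
      (F := fun q : Pm × Fr9 => sB q.1.1 q.1.2.1 q.1.2.2 i k l q.2)
      (fun q h1 h2 => contDiffAt_sB h1 h2 i k l)
  · exact fun k => G5_contJ (F := fun q : Pm × Fr9 => sZ q.1.1 q.1.2.1 k q.2)
      (fun q h1 h2 => contDiffAt_sZ h1 h2 k)
  · exact fun k i j => G5_contJ
      (F := fun q : Pm × Fr9 => sR9 q.1.1 q.1.2.1 q.1.2.2 k i j q.2)
      (fun q h1 h2 => contDiffAt_sR9 h1 h2 k i j)
  · intro i j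
    fun_prop

end Pool.Agent.Helper81.M9
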