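import Pool.Agent.Helper81.M9.Defs2
import Pool.Agent.Helper46.M8.Ns

/-!
# M9, piece G60
-/

open Filter Metric Module Set
open scoped Topology ContDiff Matrix Matrix.Norms.Elementwise ComplexConjugate

set_option maxSynthPendingDepth 3

namespace Pool.Agent.Helper81.M9
open Pool.Agent.Helper20.PC Pool.Agent.Helper20.HP Pool.Agent.Helper20.M8 Pool.Agent.Helper20.MB
open Pool.Agent.Helper46.M8

/-- `g k j = h₀(W_k, F_j)`; the values of `ρ_k`. -/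
noncomputable def rho9 (g : Fin 4 → Fin 4 → ℝ) (k : Fin 4) : Fin 6 → Fin 6 → ℝ := ![
  ![0, 1/4 * g k 1, 0, 0, 0, 0],
  ![-(1/4 * g k 1), 0, 0, 0, 0, 0],
  ![0, 0, 0, (3/4 + 15/16 + 2) * g k 1, 3/4 * g k 2, 3/4 * g k 3],
  ![0, 0, -((3/4 + 15/16 + 2) * g k 1), 0, -(15/16 * g k 3), 15/16 * g k 2],
  ![0, 0, -(3/4 * g k 2), 15/16 * g k 3, 0, 2 * g k 1],
  ![0, 0, -(3/4 * g k 3), -(15/16 * g k 2), -(2 * g k 1), 0]]

end Pool.Agent.Helper81.M9
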