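import Pool.Agent.Helper46.M8.St.B2
import Pool.Agent.Helper81.M9.St.B2
import Pool.Agent.Helper81.M9.St.D3
import Pool.Agent.Helper81.M9.St.D4
import Pool.Agent.Helper81.M9.St.C2
import Pool.Agent.Helper46.M8.Ns

/-!
# M9, piece G6a, sT
-/

open Filter Metric Module Set
open scoped Topology ContDiff Matrix Matrix.Norms.Elementwise ComplexConjugate

set_option maxSynthPendingDepth 3

namespace Pool.Agent.Helper81.M9
open Pool.Agent.Helper20.PC Pool.Agent.Helper20.HP Pool.Agent.Helper20.M8 Pool.Agent.Helper20.MB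
open Pool.Agent.Helper46.M8

/-! ### G6a : the data at `δ = ε = 0` -/

private lemma G6a_zero : |(0 : ℝ)| ≤ 1/100 := by norm_num

/-- `sT` is parallel at `δ = 0`. -/
theorem lie_zero9_a {U : Mat} (hU : Uᴴ * U = 1) (s : Fr9) :
    lie (XF9 U 0) (sT U 0) s = 0 := by
  have hd : DifferentiableAt ℝ (fun p : V × V => momL U 0 p.1 6 p.2) (s.1, s.2.1 0) := by
    have h1 : ContDiffAt ℝ ∞ (fun q : Pm × V => momL q.1.1 q.1.2.1 q.2 6)
        (((U, 0, 0) : Pm), (s.1, s.2.1 0).1) := 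
      contDiffAt_momL (q := (((U, 0, 0) : Pm), (s.1, s.2.1 0).1)) hU G6a_zero 6
    have h2 : ContDiffAt ℝ ∞ (fun p : V × V => ((((U, 0, 0) : Pm), p.1) : Pm × V))
        (s.1, s.2.1 0) := contDiffAt_const.prodMk contDiffAt_fst
    have h3 := ContDiffAt.comp (g := fun q : Pm × V => momL q.1.1 q.1.2.1 q.2 6)
      (f := fun p : V × V => ((((U, 0, 0) : Pm), p.1) : Pm × V)) (s.1, s.2.1 0) h1 h2
    have e : ((fun q : Pm × V => momL q.1.1 q.1.2.1 q.2 6) ∘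
        fun p : V × V => ((((U, 0, 0) : Pm), p.1) : Pm × V))
        = fun p : V × V => momL U 0 p.1 6 := by
      funext p
      simp only [Function.comp_apply]
    rw [e] at h3
    exact (h3.clm_apply contDiffAt_snd).differentiableAt (by simp)
  have h := lie_TV U 0 (f := fun p : V × V => momL U 0 p.1 6 p.2) (s := s) hd
  have e : sT U 0 = fun s : Fr9 => momL U 0 s.1 6 (s.2.1 0) := rfl
  rw [e, h, lie_mom_H hU G6a_zero]
  have inv := congrArg (hm U 0 s.1 (s.2.1 0)) (C0_inv U 6 s.1 (hm U 0 s.1 (s.2.1 0)))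
  simp only [map_sum, map_smul, map_add, map_zero, smul_eq_mul] at inv
  have key : ∀ j : Fin 8, KA (Uᴴ * (Bs 6 * Bs j - Bs j * Bs 6) * U) s.1
      = - KA (Uᴴ * (Bs j * Bs 6 - Bs 6 * Bs j) * U) s.1 := by
    intro j
    have e1 : Uᴴ * (Bs 6 * Bs j - Bs j * Bs 6) * U
        = (-1 : ℝ) • (Uᴴ * (Bs j * Bs 6 - Bs 6 * Bs j) * U) := by
      rw [← neg_sub (Bs j * Bs 6) (Bs 6 * Bs j), Matrix.mul_neg, Matrix.neg_mul, neg_one_smul]
    rw [e1, KA_smul, neg_one_smul]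
  have hC : ∀ j k : Fin 8, Cm 0 j k = if j = k then C0 j j else 0 := by
    intro j k
    unfold Cm C0
    by_cases h : j = k <;> simp [h]
  have hmom : ∀ k : Fin 8, momL U 0 s.1 k (s.2.1 0) = hm U 0 s.1 (s.2.1 0) (Kf U k s.1) :=
    fun k => rfl
  simp only [hC, key, hmom, map_neg, ite_mul, zero_mul, Finset.sum_ite_eq, Finset.mem_univ,
    if_true]
  have h2 : (-2 : ℝ) * ∑ x, (C0 x x * (hm U 0 s.1 (s.2.1 0)) (Kf U x s.1) *
      -(hm U 0 s.1 (s.2.1 0)) (KA (Uᴴ * (Bs x * Bs 6 - Bs 6 * Bs x) * U) s.1)) =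
      ∑ x, C0 x x * ((hm U 0 s.1 (s.2.1 0)) (Kf U x s.1) *
          (hm U 0 s.1 (s.2.1 0)) (KA (Uᴴ * (Bs x * Bs 6 - Bs 6 * Bs x) * U) s.1) +
        (hm U 0 s.1 (s.2.1 0)) (KA (Uᴴ * (Bs x * Bs 6 - Bs 6 * Bs x) * U) s.1) *
          (hm U 0 s.1 (s.2.1 0)) (Kf U x s.1)) := by
    rw [Finset.mul_sum]
    refine Finset.sum_congr rfl fun x _ => ?_
    ring
  linarith
end Pool.Agent.Helper81.M9
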