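import Pool.Agent.Helper46.M8.St.B2
import Pool.Agent.Helper81.M9.St.B2
import Pool.Agent.Helper81.M9.St.D3
import Pool.Agent.Helper81.M9.St.D4
import Pool.Agent.Helper81.M9.St.C2
import Pool.Agent.Helper46.M8.Ns

/-!
# M9, piece G6a, sH
-/

open Filter Metric Module Set
open scoped Topology ContDiff Matrix Matrix.Norms.Elementwise ComplexConjugate

set_option maxSynthPendingDepth 3

namespace Pool.Agent.Helper81.M9
open Pool.Agent.Helper20.PC Pool.Agent.Helper20.HP Pool.Agent.Helper20.M8 Pool.Agent.Helper20.MB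
open Pool.Agent.Helper46.M8

/-! ### G6a : the data at `δ = ε = 0` -/

private lemma G6a_zero : |(0 : ℝ)| ≤ 1/100 := by norm_num

/-- `sH` is parallel at `δ = 0`. -/
theorem lie_zero9_b {U : Mat} (hU : Uᴴ * U = 1) (s : Fr9) (i j : Fin 4) :
    lie (XF9 U 0) (sH U 0 i j) s = 0 := by
  have e : sH U 0 i j = fun s : Fr9 => h0 s.1 (fF U 0 s i) (fF U 0 s j) := by
    funext s
    rw [sH, hm_zero hU]
  rw [e]
  exact lie_h0_fF hU G6a_zero s i j

end Pool.Agent.Helper81.M9
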