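import Pool.Agent.Helper46.M8.St.B2
import Pool.Agent.Helper81.M9.St.B2
import Pool.Agent.Helper81.M9.St.D3
import Pool.Agent.Helper81.M9.St.D4
import Pool.Agent.Helper81.M9.St.C2
import Pool.Agent.Helper46.M8.Ns

/-!
# M9, piece G6a, fF
-/

open Filter Metric Module Set
open scoped Topology ContDiff Matrix Matrix.Norms.Elementwise ComplexConjugate

set_option maxSynthPendingDepth 3

namespace Pool.Agent.Helper81.M9
open Pool.Agent.Helper20.PC Pool.Agent.Helper20.HP Pool.Agent.Helper20.M8 Pool.Agent.Helper20.MB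
open Pool.Agent.Helper46.M8

/-! ### G6a : the data at `δ = ε = 0` -/

private lemma G6a_zero : |(0 : ℝ)| ≤ 1/100 := by norm_num

private lemma G6a_hash0 (z : V) : HasFDerivAt h0 (fderiv ℝ h0 z) z :=
  (contDiff_h0.contDiffAt.differentiableAt (by simp)).hasFDerivAt

/-- the frames are parallel at `δ = 0`. -/
theorem lie_zero9_c {U : Mat} (hU : Uᴴ * U = 1) (s : Fr9) (k j : Fin 4) :
    lie (XF9 U 0) (fun s => h0 s.1 (s.2.1 k) (fF U 0 s j)) s = 0 := by
  have h1 : HasFDerivAt (fun s : Fr9 => h0 s.1)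
      ((fderiv ℝ h0 s.1).comp (ContinuousLinearMap.fst ℝ V ((Fin 4 → V) × V))) s :=
    (G6a_hash0 s.1).comp s hasFDerivAt_fst
  have h2 : HasFDerivAt (fun s : Fr9 => s.2.1 k)
      ((ContinuousLinearMap.proj (R := ℝ) (φ := fun _ : Fin 4 => V) k).comp
        ((ContinuousLinearMap.fst ℝ (Fin 4 → V) V).comp
          (ContinuousLinearMap.snd ℝ V ((Fin 4 → V) × V)))) s :=
    ((ContinuousLinearMap.proj (R := ℝ) (φ := fun _ : Fin 4 => V) k).comp
        ((ContinuousLinearMap.fst ℝ (Fin 4 → V) V).comp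
          (ContinuousLinearMap.snd ℝ V ((Fin 4 → V) × V)))).hasFDerivAt
  have h3 : HasFDerivAt (fun s : Fr9 => fF U 0 s j) (fderiv ℝ (fun s : Fr9 => fF U 0 s j) s) s := by
    have a1 : ContDiffAt ℝ ∞ (fun q : Pm × Fr9 => fF q.1.1 q.1.2.1 q.2 j)
        (((U, 0, 0) : Pm), s) := contDiffAt_fF (q := (((U, 0, 0) : Pm), s)) hU G6a_zero j
    have a2 : ContDiffAt ℝ ∞ (fun s' : Fr9 => ((((U, 0, 0) : Pm), s') : Pm × Fr9)) s :=
      contDiffAt_const.prodMk contDiffAt_id
    have a3 := ContDiffAt.comp (g := fun q : Pm × Fr9 => fF q.1.1 q.1.2.1 q.2 j)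
        (f := fun s' : Fr9 => ((((U, 0, 0) : Pm), s') : Pm × Fr9)) s a1 a2
    have e : ((fun q : Pm × Fr9 => fF q.1.1 q.1.2.1 q.2 j) ∘
        fun s' : Fr9 => ((((U, 0, 0) : Pm), s') : Pm × Fr9))
        = fun s : Fr9 => fF U 0 s j := by
      funext s'
      simp only [Function.comp_apply]
    rw [e] at a3
    exact (a3.differentiableAt (by simp)).hasFDerivAt
  have h4 := (h1.clm_apply h2).clm_apply h3
  have h5 := lie_fF hU G6a_zero s j
  unfold lie at h5 ⊢
  rw [h4.fderiv]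
  have hG := GamB_W hU G6a_zero 0 s.1 (s.2.1 0) (fF U 0 s j)
  rw [BL_zero, add_zero, zero_mul, zero_smul, zero_sub] at hG
  have hh : hm U 0 = h0 := funext (hm_zero hU)
  have e1 : (XF9 U 0 s).1 = s.2.1 0 := rfl
  have e2 : (XF9 U 0 s).2.1 k = - Gam (hm U 0) s.1 (s.2.1 0) (s.2.1 k) := rfl
  simp only [_root_.add_apply, ContinuousLinearMap.comp_apply,
    ContinuousLinearMap.flip_apply, ContinuousLinearMap.coe_fst', ContinuousLinearMap.coe_snd',
    ContinuousLinearMap.proj_apply, e1, e2, h5, hh]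
  rw [fderiv_h0, hG, ← GamL_eq (h0_metAt s.1).smooth]
  simp only [map_neg, _root_.neg_apply]
  ring

end Pool.Agent.Helper81.M9
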