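import Pool.Agent.Helper81.M9.St.G6a1
import Pool.Agent.Helper81.M9.St.G6a2
import Pool.Agent.Helper81.M9.St.G6a3
import Pool.Agent.Helper81.M9.St.G6a4
import Pool.Agent.Helper46.M8.St.B2
import Pool.Agent.Helper81.M9.St.B2
import Pool.Agent.Helper81.M9.St.D3
import Pool.Agent.Helper81.M9.St.D4
import Pool.Agent.Helper81.M9.St.C2
import Pool.Agent.Helper46.M8.Ns

/-!
# M9, piece G6a (the parts)
-/

open Filter Metric Module Set
open scoped Topology ContDiff Matrix Matrix.Norms.Elementwise ComplexConjugate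

namespace Pool.Agent.Helper81.M9
open Pool.Agent.Helper20.PC Pool.Agent.Helper20.HP Pool.Agent.Helper20.M8 Pool.Agent.Helper20.MB
open Pool.Agent.Helper46.M8

/-- the frames are parallel at `δ = 0`. -/
theorem lie_zero9 {U : Mat} (hU : Uᴴ * U = 1) (s : Fr9) (k : Fin 4) (i j : Fin 4) :
    lie (XF9 U 0) (sT U 0) s = 0 ∧ lie (XF9 U 0) (sH U 0 i j) s = 0 ∧
      lie (XF9 U 0) (fun s => h0 s.1 (s.2.1 k) (fF U 0 s j)) s = 0 :=
  ⟨lie_zero9_a hU s, lie_zero9_b hU s i j, lie_zero9_c hU s k j⟩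

end Pool.Agent.Helper81.M9
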