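import Pool.Agent.Helper46.M8.St.B2
import Pool.Agent.Helper81.M9.St.B2
import Pool.Agent.Helper81.M9.St.D3
import Pool.Agent.Helper81.M9.St.D4
import Pool.Agent.Helper81.M9.St.C2
import Pool.Agent.Helper46.M8.Ns

/-!
# M9, piece G6a, first half
-/

open Filter Metric Module Set
open scoped Topology ContDiff Matrix Matrix.Norms.Elementwise ComplexConjugate

set_option maxSynthPendingDepth 3

namespace Pool.Agent.Helper81.M9
open Pool.Agent.Helper20.PC Pool.Agent.Helper20.HP Pool.Agent.Helper20.M8 Pool.Agent.Helper20.MB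
open Pool.Agent.Helper46.M8

/-! ### G6a : the data at `δ = ε = 0` -/

private lemma G6a_zero : |(0 : ℝ)| ≤ 1/100 := by norm_num

/-- the connection at `δ = ε = 0`. -/
private lemma G6a_AL9 {U : Mat} (hU : Uᴴ * U = 1) (z b : V) (w : Y9) :
    AL9 U 0 0 z b w = ((⟨-(1/2) * h0 z b w.2, -(1/4) * h0 z (iL b) w.2⟩ : ℂ),
      (1/2 * w.1.re) • b + (1/4 * w.1.im) • iL b + GamL h0 z b w.2) := by
  rw [AL9_apply, hatL_zero hU, BL_zero, add_zero, LamL_apply, Prod.mk_add_mk, add_zero]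

/-- composition, in the form `fun x => g (f x)`. -/
private lemma G6a_cmp {E F G : Type*} [NormedAddCommGroup E] [NormedSpace ℝ E]
    [NormedAddCommGroup F] [NormedSpace ℝ F] [NormedAddCommGroup G] [NormedSpace ℝ G]
    {g : F → G} {f : E → F} {x : E} (hg : ContDiffAt ℝ ∞ g (f x)) (hf : ContDiffAt ℝ ∞ f x) :
    ContDiffAt ℝ ∞ (fun x => g (f x)) x := hg.comp x hf

private lemma G6a_cdAL9 {U : Mat} (hU : Uᴴ * U = 1) (z : V) :
    ContDiffAt ℝ ∞ (fun z' : V => AL9 U 0 0 z') z :=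
  G6a_cmp (g := fun q : Pm × V => AL9 q.1.1 q.1.2.1 q.1.2.2 q.2)
    (f := fun z' : V => ((((U, 0, 0) : Pm), z') : Pm × V))
    (contDiffAt_AL9 (q := (((U, 0, 0) : Pm), z)) hU G6a_zero)
    (contDiffAt_const.prodMk contDiffAt_id)

private lemma G6a_hasAL9 {U : Mat} (hU : Uᴴ * U = 1) (z : V) :
    HasFDerivAt (AL9 U 0 0) (fderiv ℝ (AL9 U 0 0) z) z :=
  ((G6a_cdAL9 hU z).differentiableAt (by simp)).hasFDerivAt

private lemma G6a_hash0 (z : V) : HasFDerivAt h0 (fderiv ℝ h0 z) z :=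
  (contDiff_h0.contDiffAt.differentiableAt (by simp)).hasFDerivAt

private lemma G6a_hash0' (z u v : V) :
    HasFDerivAt (fun z' => h0 z' u v) (((fderiv ℝ h0 z).flip u).flip v) z := by
  have := ((G6a_hash0 z).clm_apply (hasFDerivAt_const u z)).clm_apply (hasFDerivAt_const v z)
  refine this.congr_fderiv ?_
  ext
  simp

private lemma G6a_fd {U : Mat} (hU : Uᴴ * U = 1) (z a b : V) (w : Y9) :
    fderiv ℝ (AL9 U 0 0) z a b w
      = ((⟨-(1/2) * fderiv ℝ h0 z a b w.2, -(1/4) * fderiv ℝ h0 z a (iL b) w.2⟩ : ℂ),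
        fderiv ℝ (fun z' => Gam h0 z' b w.2) z a) := by
  have hA := G6a_hasAL9 hU z
  have hAbw : HasFDerivAt (fun z' => AL9 U 0 0 z' b w)
      (((fderiv ℝ (AL9 U 0 0) z).flip b).flip w) z := by
    have := (hA.clm_apply (hasFDerivAt_const b z)).clm_apply (hasFDerivAt_const w z)
    refine this.congr_fderiv ?_
    refine ContinuousLinearMap.ext fun v => ?_
    simp
  refine Prod.ext (Complex.ext ?_ ?_) ?_
  · have h1 := (Complex.reCLM ∘L ContinuousLinearMap.fst ℝ ℂ V).hasFDerivAt.comp z hAbw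
    have h2 := (G6a_hash0' z b w.2).const_mul (-(1/2) : ℝ)
    have h3 : ((Complex.reCLM ∘L ContinuousLinearMap.fst ℝ ℂ V) ∘ fun z' => AL9 U 0 0 z' b w)
        = fun z' => -(1/2) * h0 z' b w.2 := by
      funext z'
      rw [Function.comp_apply, G6a_AL9 hU]
      rfl
    rw [h3] at h1
    have h4 := congrArg (fun L : V →L[ℝ] ℝ => L a) (h1.unique h2)
    simpa using h4
  · have h1 := (Complex.imCLM ∘L ContinuousLinearMap.fst ℝ ℂ V).hasFDerivAt.comp z hAbw
    have h2 := (G6a_hash0' z (iL b) w.2).const_mul (-(1/4) : ℝ)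
    have h3 : ((Complex.imCLM ∘L ContinuousLinearMap.fst ℝ ℂ V) ∘ fun z' => AL9 U 0 0 z' b w)
        = fun z' => -(1/4) * h0 z' (iL b) w.2 := by
      funext z'
      rw [Function.comp_apply, G6a_AL9 hU]
      rfl
    rw [h3] at h1
    have h4 := congrArg (fun L : V →L[ℝ] ℝ => L a) (h1.unique h2)
    simpa using h4
  · have h1 := (ContinuousLinearMap.snd ℝ ℂ V).hasFDerivAt.comp z hAbw
    have h2 := (differentiableAt_Gam (h0_metAt z) b w.2).hasFDerivAt.const_add
      ((1/2 * w.1.re) • b + (1/4 * w.1.im) • iL b)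
    have h3 : ((ContinuousLinearMap.snd ℝ ℂ V) ∘ fun z' => AL9 U 0 0 z' b w)
        = fun z' => (1/2 * w.1.re) • b + (1/4 * w.1.im) • iL b + Gam h0 z' b w.2 := by
      funext z'
      rw [Function.comp_apply, G6a_AL9 hU, GamL_eq (h0_metAt z').smooth]
      rfl
    rw [h3] at h1
    have h4 := congrArg (fun L : V →L[ℝ] V => L a) (h1.unique h2)
    simpa using h4

private lemma G6a_OmV (A : V → V →L[ℝ] Y9 →L[ℝ] Y9) (z a b : V) (w : Y9) :
    OmV A z a b w = fderiv ℝ A z a b w - fderiv ℝ A z b a w + A z a (A z b w)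
      - A z b (A z a w) := rfl

/-- the curvature of the connection at `δ = ε = 0`. -/
theorem OmV_zero9 {U : Mat} (hU : Uᴴ * U = 1) (z a b : V) (w : Y9) :
    OmV (AL9 U 0 0) z a b w
      = ((1/4 * omL z a b) • (⟨w.1.im, - w.1.re⟩ : ℂ),
        (3/4 : ℝ) • (h0 z b w.2 • a - h0 z a w.2 • b)
          + (15/16 : ℝ) • (h0 z (iL b) w.2 • iL a - h0 z (iL a) w.2 • iL b)
          - (2 * omL z a b) • iL w.2) := by
  rw [G6a_OmV, G6a_fd hU, G6a_fd hU, G6a_AL9 hU z b w, G6a_AL9 hU z a w, G6a_AL9 hU z a, G6a_AL9 hU z b]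
  have hom : ∀ u v : V, h0 z (iL u) v = omL z u v := fun u v => rfl
  have hom' : ∀ u v : V, h0 z u (iL v) = omL z v u := fun u v => by rw [h0_symm]; rfl
  have hGs : GamL h0 z b a = GamL h0 z a b := GamL_h0_symm z b a
  have hGi : GamL h0 z a (iL b) = iL (GamL h0 z a b) := GamL_h0_iL z a b
  have hGi' : GamL h0 z b (iL a) = iL (GamL h0 z a b) := by rw [GamL_h0_iL, hGs]
  have hGj : GamL h0 z (iL b) = fun v => GamL h0 z (iL b) v := rfl
  refine Prod.ext (Complex.ext ?_ ?_) ?_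
  · simp only [Prod.fst_add, Prod.fst_sub, Complex.add_re, Complex.sub_re, fderiv_h0, map_add,
      map_smul, smul_eq_mul, hGs, Complex.real_smul, Complex.mul_re, Complex.ofReal_re,
      Complex.ofReal_im, zero_mul, sub_zero, hom']
    rw [omL_skew z b a, h0_symm z b a]
    ring
  · simp only [Prod.fst_add, Prod.fst_sub, Complex.add_im, Complex.sub_im, fderiv_h0, map_add,
      map_smul, smul_eq_mul, hGi, hGi', Complex.real_smul, Complex.mul_im, Complex.ofReal_re,
      Complex.ofReal_im, zero_mul, add_zero]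
    rw [h0_iL, h0_iL, h0_symm z b a]
    simp only [hom]
    rw [omL_skew z b a]
    ring
  · have e1 := Riem_h0 z a b w.2
    rw [Riem, ← GamL_eq (h0_metAt z).smooth, ← GamL_eq (h0_metAt z).smooth,
      ← GamL_eq (h0_metAt z).smooth, ← GamL_eq (h0_metAt z).smooth] at e1
    simp only [Prod.snd_add, Prod.snd_sub, map_add, map_smul, hGs, hGi, hGi', hom]
    simp only [← hom] at e1 ⊢
    linear_combination (norm := module) e1

end Pool.Agent.Helper81.M9
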