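import Pool.Agent.Helper81.M9.St.G6a
import Pool.Agent.Helper81.M9.St.G60
import Pool.Agent.Helper46.M8.Ns

/-!
# M9, piece G6b
-/

open Filter Metric Module Set
open scoped Topology ContDiff Matrix Matrix.Norms.Elementwise ComplexConjugate

set_option maxSynthPendingDepth 3

namespace Pool.Agent.Helper81.M9
open Pool.Agent.Helper20.PC Pool.Agent.Helper20.HP Pool.Agent.Helper20.M8 Pool.Agent.Helper20.MB
open Pool.Agent.Helper46.M8

/-! ### G6b : the curvature functions at `δ = ε = 0` -/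
section G6baux
variable {E : Type*} [NormedAddCommGroup E] [NormedSpace ℝ E]

/-- `f` is differentiable and constant along `X`. -/
private structure G6b_Cst (X : E → E) (f : E → ℝ) : Prop where
  d : Differentiable ℝ f
  l : ∀ s, lie X f s = 0

private lemma G6b_Cst.mul {X : E → E} {f g : E → ℝ} (hf : G6b_Cst X f) (hg : G6b_Cst X g) :
    G6b_Cst X (fun s => f s * g s) := by
  refine ⟨hf.d.mul hg.d, fun s => ?_⟩
  have h1 := hf.l s
  have h2 := hg.l s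
  unfold lie at h1 h2 ⊢
  have h := ((hf.d s).hasFDerivAt.mul (hg.d s).hasFDerivAt).fderiv
  have e : (fun s => f s * g s) = f * g := rfl
  rw [e, h]
  simp [h1, h2]

private lemma G6b_Cst.add {X : E → E} {f g : E → ℝ} (hf : G6b_Cst X f) (hg : G6b_Cst X g) :
    G6b_Cst X (fun s => f s + g s) := by
  refine ⟨hf.d.add hg.d, fun s => ?_⟩
  have h1 := hf.l s
  have h2 := hg.l s
  unfold lie at h1 h2 ⊢
  have h := ((hf.d s).hasFDerivAt.add (hg.d s).hasFDerivAt).fderiv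
  have e : (fun s => f s + g s) = f + g := rfl
  rw [e, h]
  simp [h1, h2]

private lemma G6b_Cst.sub {X : E → E} {f g : E → ℝ} (hf : G6b_Cst X f) (hg : G6b_Cst X g) :
    G6b_Cst X (fun s => f s - g s) := by
  refine ⟨hf.d.sub hg.d, fun s => ?_⟩
  have h1 := hf.l s
  have h2 := hg.l s
  unfold lie at h1 h2 ⊢
  have h := ((hf.d s).hasFDerivAt.sub (hg.d s).hasFDerivAt).fderiv
  have e : (fun s => f s - g s) = f - g := rfl
  rw [e, h]
  simp [h1, h2]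

private lemma G6b_Cst.neg {X : E → E} {f : E → ℝ} (hf : G6b_Cst X f) :
    G6b_Cst X (fun s => - f s) := by
  refine ⟨hf.d.neg, fun s => ?_⟩
  have h1 := hf.l s
  unfold lie at h1 ⊢
  have h := ((hf.d s).hasFDerivAt.neg).fderiv
  have e : (fun s => - f s) = - f := rfl
  rw [e, h]
  simp [h1]

private lemma G6b_Cst.const (X : E → E) (r : ℝ) : G6b_Cst X (fun _ => r) := by
  refine ⟨differentiable_const r, fun s => ?_⟩
  unfold lie
  simp

private lemma G6b_jet {X : E → E} {f : E → ℝ} (h : ∀ s, lie X f s = 0) (s : E) :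
    jetF X f s = J2.C (f s) := by
  have e : lie X f = fun _ => (0 : ℝ) := funext h
  ext
  · rfl
  · simp [jetF, h]
  · simp only [jetF, J2.C_c]
    rw [e]
    simp [lie]

end G6baux

/-- `h₀(W_k, iF_j)`. -/
private def G6b_i (g : Fin 4 → ℝ) : Fin 4 → ℝ := ![g 1, - g 0, g 3, - g 2]

/-- the `T`-part of the curvature. -/
private noncomputable def G6b_P (g : Fin 4 → ℝ) (H : Fin 4 → Fin 4 → ℝ) (i j : Fin 4) : ℝ :=
  3/4 * (g j * H i 0 - H 0 j * g i) + 15/16 * (H 1 j * G6b_i g i - G6b_i g j * H i 1)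
    - 2 * g 1 * G6b_i (H i) j

private noncomputable def G6b_R (g : Fin 4 → ℝ) (H : Fin 4 → Fin 4 → ℝ) : Fin 6 → Fin 6 → ℝ := ![
  ![0, 1/4 * g 1, 0, 0, 0, 0],
  ![-(1/4 * g 1), 0, 0, 0, 0, 0],
  ![0, 0, G6b_P g H 0 0, G6b_P g H 0 1, G6b_P g H 0 2, G6b_P g H 0 3],
  ![0, 0, G6b_P g H 1 0, G6b_P g H 1 1, G6b_P g H 1 2, G6b_P g H 1 3],
  ![0, 0, G6b_P g H 2 0, G6b_P g H 2 1, G6b_P g H 2 2, G6b_P g H 2 3],
  ![0, 0, G6b_P g H 3 0, G6b_P g H 3 1, G6b_P g H 3 2, G6b_P g H 3 3]]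

private lemma G6b_vF {U : Mat} (hU : Uᴴ * U = 1) (s : Fr9) : vF U 0 s = s.2.1 0 :=
  hatL_zero hU _ _

private lemma G6b_fF {U : Mat} (hU : Uᴴ * U = 1) (s : Fr9) :
    fF U 0 s = ![s.2.1 0, iL (s.2.1 0), s.2.2, iL s.2.2] := by
  simp only [fF, G6b_vF hU]

private lemma G6b_T {U : Mat} (hU : Uᴴ * U = 1) (s : Fr9) (b : V) (i j : Fin 4) :
    h0 s.1 (fF U 0 s i) ((3/4 : ℝ) • (h0 s.1 b (fF U 0 s j) • s.2.1 0
        - h0 s.1 (s.2.1 0) (fF U 0 s j) • b)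
      + (15/16 : ℝ) • (h0 s.1 (iL b) (fF U 0 s j) • iL (s.2.1 0)
        - h0 s.1 (iL (s.2.1 0)) (fF U 0 s j) • iL b)
      - (2 * omL s.1 (s.2.1 0) b) • iL (fF U 0 s j))
    = G6b_P (fun j => h0 s.1 b (fF U 0 s j)) (fun i j => h0 s.1 (fF U 0 s i) (fF U 0 s j)) i j := by
  have h1 : ∀ (u : V) (q : Fin 4),
      h0 s.1 u (iL (fF U 0 s q)) = G6b_i (fun j => h0 s.1 u (fF U 0 s j)) q := by
    intro u q
    have hJ : ∀ v : V, iL (iL v) = - v := fun v => by simp [smul_smul]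
    rw [G6b_fF hU]
    fin_cases q
    · rfl
    · exact (congrArg (h0 s.1 u) (hJ _)).trans (map_neg _ _)
    · rfl
    · exact (congrArg (h0 s.1 u) (hJ _)).trans (map_neg _ _)
  have h3 : ∀ u v : V, h0 s.1 (iL u) v = - h0 s.1 (iL v) u := fun u v => omL_skew s.1 u v
  have e0 : s.2.1 0 = fF U 0 s 0 := by rw [G6b_fF hU]; rfl
  have e1 : iL (fF U 0 s 0) = fF U 0 s 1 := by rw [G6b_fF hU]; rfl
  have e2 : omL s.1 (fF U 0 s 0) b = h0 s.1 b (fF U 0 s 1) := by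
    rw [← e1]
    exact h0_symm _ _ _
  have e3 : ∀ q, h0 s.1 (iL b) (fF U 0 s q) = - G6b_i (fun j => h0 s.1 b (fF U 0 s j)) q := by
    intro q
    rw [h3, h0_symm, h1]
  have e4 : ∀ q, h0 s.1 (fF U 0 s q) (iL b) = - G6b_i (fun j => h0 s.1 b (fF U 0 s j)) q := by
    intro q
    rw [h0_symm, e3]
  rw [e0, e1, e2]
  simp only [map_add, map_sub, map_smul, smul_eq_mul]
  rw [h1, e3, e4, h0_symm s.1 (fF U 0 s i) b]
  unfold G6b_P
  ring

private lemma G6b_R00 (g : Fin 4 → ℝ) (H : Fin 4 → Fin 4 → ℝ) (i j : Fin 2) :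
    G6b_R g H (i.castAdd 4) (j.castAdd 4) = 1/4 * g 1 * ((![1, Complex.I] i).re * (![1, Complex.I] j).im
      - (![1, Complex.I] i).im * (![1, Complex.I] j).re) := by
  fin_cases i <;> fin_cases j <;> simp [G6b_R]

private lemma G6b_R01 (g : Fin 4 → ℝ) (H : Fin 4 → Fin 4 → ℝ) (i : Fin 2) (j : Fin 4) :
    G6b_R g H (i.castAdd 4) (j.natAdd 2) = 0 := by
  fin_cases i <;> fin_cases j <;> rfl

private lemma G6b_R10 (g : Fin 4 → ℝ) (H : Fin 4 → Fin 4 → ℝ) (i : Fin 4) (j : Fin 2) :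
    G6b_R g H (i.natAdd 2) (j.castAdd 4) = 0 := by
  fin_cases i <;> fin_cases j <;> rfl

private lemma G6b_R11 (g : Fin 4 → ℝ) (H : Fin 4 → Fin 4 → ℝ) (i j : Fin 4) :
    G6b_R g H (i.natAdd 2) (j.natAdd 2) = G6b_P g H i j := by
  fin_cases i <;> fin_cases j <;> rfl

private lemma G6b_E0 (U : Mat) (s : Fr9) (i : Fin 2) :
    fE U 0 s (i.castAdd 4) = (![1, Complex.I] i, 0) := by
  fin_cases i <;> rfl

private lemma G6b_E1 (U : Mat) (s : Fr9) (i : Fin 4) :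
    fE U 0 s (i.natAdd 2) = (0, fF U 0 s i) := by
  fin_cases i <;> rfl

private lemma G6b_val {U : Mat} (hU : Uᴴ * U = 1) (k : Fin 4) (i j : Fin 6) (s : Fr9) :
    sR9 U 0 0 k i j s = G6b_R (fun j => h0 s.1 (s.2.1 k) (fF U 0 s j))
      (fun i j => h0 s.1 (fF U 0 s i) (fF U 0 s j)) i j := by
  have e1 : omL s.1 (s.2.1 0) (s.2.1 k) = h0 s.1 (s.2.1 k) (fF U 0 s 1) := by
    rw [G6b_fF hU]
    exact h0_symm _ _ _
  unfold sR9
  rw [OmV_zero9 hU, kL9_apply]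
  refine Fin.addCases (m := 2) (n := 4) (fun i => ?_) (fun i => ?_) i <;>
    refine Fin.addCases (m := 2) (n := 4) (fun j => ?_) (fun j => ?_) j
  · rw [G6b_E0, G6b_E0, G6b_R00, e1]
    simp
    ring
  · rw [G6b_E0, G6b_E1, G6b_R01]
    simp
  · rw [G6b_E1, G6b_E0, G6b_R10]
    simp only [map_zero, zero_smul, sub_self, smul_zero, add_zero, Complex.zero_re,
      Complex.zero_im, zero_mul]
  · rw [G6b_E1, G6b_E1, G6b_R11, ← G6b_T hU s (s.2.1 k) i j]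
    simp only [Complex.zero_re, Complex.zero_im, zero_mul, zero_add]

private lemma G6b_lin {U : Mat} (hU : Uᴴ * U = 1) (q : Fin 4) :
    ∃ l : Fr9 →L[ℝ] V, ∀ s, fF U 0 s q = l s := by
  let l0 : Fr9 →L[ℝ] V := (ContinuousLinearMap.proj (R := ℝ) (φ := fun _ : Fin 4 => V) 0).comp
    ((ContinuousLinearMap.fst ℝ (Fin 4 → V) V).comp (ContinuousLinearMap.snd ℝ V ((Fin 4 → V) × V)))
  let l2 : Fr9 →L[ℝ] V :=
    (ContinuousLinearMap.snd ℝ (Fin 4 → V) V).comp (ContinuousLinearMap.snd ℝ V ((Fin 4 → V) × V))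
  have h : ∀ s, fF U 0 s q = (![l0 s, iL (l0 s), l2 s, iL (l2 s)] : Fin 4 → V) q := fun s => by
    rw [G6b_fF hU]
    rfl
  refine ⟨(![l0, iL.comp l0, l2, iL.comp l2] : Fin 4 → Fr9 →L[ℝ] V) q, fun s => ?_⟩
  rw [h]
  fin_cases q <;> rfl

private lemma G6b_diff (l m : Fr9 →L[ℝ] V) : Differentiable ℝ (fun s : Fr9 => h0 s.1 (l s) (m s)) :=
  (((contDiff_h0.comp contDiff_fst).clm_apply l.contDiff).clm_apply m.contDiff).differentiable
    (by simp)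

private lemma G6b_cg {U : Mat} (hU : Uᴴ * U = 1) (k q : Fin 4) :
    G6b_Cst (XF9 U 0) (fun s => h0 s.1 (s.2.1 k) (fF U 0 s q)) := by
  obtain ⟨l, hl⟩ := G6b_lin hU q
  let lk : Fr9 →L[ℝ] V := (ContinuousLinearMap.proj (R := ℝ) (φ := fun _ : Fin 4 => V) k).comp
    ((ContinuousLinearMap.fst ℝ (Fin 4 → V) V).comp (ContinuousLinearMap.snd ℝ V ((Fin 4 → V) × V)))
  refine ⟨?_, fun s => (lie_zero9 hU s k q q).2.2⟩
  have e : (fun s : Fr9 => h0 s.1 (s.2.1 k) (fF U 0 s q)) = fun s => h0 s.1 (lk s) (l s) := by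
    funext s
    rw [hl]
    rfl
  rw [e]
  exact G6b_diff lk l

private lemma G6b_cH {U : Mat} (hU : Uᴴ * U = 1) (p q : Fin 4) :
    G6b_Cst (XF9 U 0) (fun s => h0 s.1 (fF U 0 s p) (fF U 0 s q)) := by
  obtain ⟨l, hl⟩ := G6b_lin hU p
  obtain ⟨m, hm⟩ := G6b_lin hU q
  have e0 : (fun s : Fr9 => h0 s.1 (fF U 0 s p) (fF U 0 s q)) = sH U 0 p q := by
    funext s
    unfold sH
    rw [hm_zero hU]
  refine ⟨?_, fun s => by rw [e0]; exact (lie_zero9 hU s 0 p q).2.1⟩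
  have e : (fun s : Fr9 => h0 s.1 (fF U 0 s p) (fF U 0 s q)) = fun s => h0 s.1 (l s) (m s) := by
    funext s
    rw [hl, hm]
  rw [e]
  exact G6b_diff l m

private lemma G6b_ci {X : Fr9 → Fr9} {f : Fin 4 → Fr9 → ℝ} (hf : ∀ q, G6b_Cst X (f q)) (q : Fin 4) :
    G6b_Cst X (fun s => G6b_i (fun j => f j s) q) := by
  fin_cases q
  · exact hf 1
  · exact (hf 0).neg
  · exact hf 3
  · exact (hf 2).neg

private lemma G6b_cP {X : Fr9 → Fr9} {g : Fin 4 → Fr9 → ℝ} {H : Fin 4 → Fin 4 → Fr9 → ℝ}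
    (hg : ∀ q, G6b_Cst X (g q)) (hH : ∀ p q, G6b_Cst X (H p q)) (i j : Fin 4) :
    G6b_Cst X (fun s => G6b_P (fun j => g j s) (fun i j => H i j s) i j) := by
  unfold G6b_P
  exact (((G6b_Cst.const X _).mul (((hg j).mul (hH i 0)).sub ((hH 0 j).mul (hg i)))).add
    ((G6b_Cst.const X _).mul (((hH 1 j).mul (G6b_ci hg i)).sub ((G6b_ci hg j).mul (hH i 1))))).sub
    (((G6b_Cst.const X _).mul (hg 1)).mul (G6b_ci (hH i) j))

private lemma G6b_cR {X : Fr9 → Fr9} {g : Fin 4 → Fr9 → ℝ} {H : Fin 4 → Fin 4 → Fr9 → ℝ}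
    (hg : ∀ q, G6b_Cst X (g q)) (hH : ∀ p q, G6b_Cst X (H p q)) (i j : Fin 6) :
    G6b_Cst X (fun s => G6b_R (fun j => g j s) (fun i j => H i j s) i j) := by
  fin_cases i <;> fin_cases j <;>
    first
    | exact G6b_Cst.const X 0
    | exact (G6b_Cst.const X (1/4)).mul (hg 1)
    | exact ((G6b_Cst.const X (1/4)).mul (hg 1)).neg
    | exact G6b_cP hg hH _ _

theorem sR9_zero {U : Mat} (hU : Uᴴ * U = 1) {s : Fr9} (hs : ON9 U 0 s) (k : Fin 4) (i j : Fin 6) :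
    jetF (XF9 U 0) (sR9 U 0 0 k i j) s
      = J2.C (rho9 (fun k j => h0 s.1 (s.2.1 k) (fF U 0 s j)) k i j) := by
  have hc := G6b_cR (X := XF9 U 0) (g := fun j s => h0 s.1 (s.2.1 k) (fF U 0 s j))
    (H := fun i j s => h0 s.1 (fF U 0 s i) (fF U 0 s j)) (G6b_cg hU k) (G6b_cH hU) i j
  have e : sR9 U 0 0 k i j = fun s => G6b_R (fun j => h0 s.1 (s.2.1 k) (fF U 0 s j))
      (fun i j => h0 s.1 (fF U 0 s i) (fF U 0 s j)) i j := funext fun s => G6b_val hU k i j s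
  rw [e, G6b_jet hc.l]
  congr 1
  obtain ⟨ho, hy, h1, h2⟩ := hs
  rw [G6b_vF hU] at h1 h2
  have hw : h0 s.1 (s.2.1 0) (s.2.1 0) = 1 := by
    have := ho 0 0
    rw [hm_zero hU] at this
    simpa using this
  have hsk : ∀ u v : V, h0 s.1 (iL u) v = - h0 s.1 (iL v) u := fun u v => omL_skew s.1 u v
  have hz : ∀ u : V, h0 s.1 (iL u) u = 0 := fun u => by
    have := hsk u u
    linarith
  have hii : ∀ u v : V, h0 s.1 (iL u) (iL v) = h0 s.1 u v := fun u v => h0_iL s.1 u v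
  have hH : (fun i j => h0 s.1 (fF U 0 s i) (fF U 0 s j))
      = fun i j : Fin 4 => if i = j then (1 : ℝ) else 0 := by
    funext i j
    rw [G6b_fF hU]
    have a1 := hz (s.2.1 0)
    have a2 := hz s.2.2
    have a3 : h0 s.1 (s.2.1 0) (iL (s.2.1 0)) = 0 := by rw [h0_symm]; exact a1
    have a4 : h0 s.1 s.2.2 (iL s.2.2) = 0 := by rw [h0_symm]; exact a2
    have a5 : h0 s.1 s.2.2 (s.2.1 0) = 0 := by rw [h0_symm]; exact h1
    have a6 : h0 s.1 s.2.2 (iL (s.2.1 0)) = 0 := by rw [h0_symm]; exact h2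
    have a7 : h0 s.1 (iL s.2.2) (s.2.1 0) = 0 := by rw [hsk, h2, neg_zero]
    have a8 : h0 s.1 (s.2.1 0) (iL s.2.2) = 0 := by rw [h0_symm]; exact a7
    fin_cases i <;> fin_cases j <;>
      simp [-iL_apply, hii, hw, hy, h1, h2, a1, a2, a3, a4, a5, a6, a7, a8]
  rw [hH]
  fin_cases i <;> fin_cases j <;> simp [rho9, G6b_R, G6b_P, G6b_i, -iL_apply] <;> ring

end Pool.Agent.Helper81.M9
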