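import Pool.Agent.Helper81.M9.Defs2
import Pool.Agent.Helper81.M9.St.G60
import Pool.Agent.Helper46.M8.Ns

/-!
# M9, piece G6c
-/

open Filter Metric Module Set
open scoped Topology ContDiff Matrix Matrix.Norms.Elementwise ComplexConjugate

set_option maxSynthPendingDepth 3

namespace Pool.Agent.Helper81.M9
open Pool.Agent.Helper20.PC Pool.Agent.Helper20.HP Pool.Agent.Helper20.M8 Pool.Agent.Helper20.MB
open Pool.Agent.Helper46.M8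

/-! ### G6c : the limit form -/
/-- antisymmetric matrix with vanishing entries `02`, `13`. -/
private def G6c_bM {R : Type*} [CommRing R] (x01 x03 x04 x05 x12 x14 x15 x23 x24 x25 x34 x35 x45 : R) :
    Fin 6 → Fin 6 → R := ![
  ![0, x01, 0, x03, x04, x05],
  ![-x01, 0, x12, 0, x14, x15],
  ![0, -x12, 0, x23, x24, x25],
  ![-x03, 0, -x23, 0, x34, x35],
  ![-x04, -x14, -x24, -x34, 0, x45],
  ![-x05, -x15, -x25, -x35, -x45, 0]]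

private lemma G6c_bM_eq {B : Fin 6 → Fin 6 → ℝ} (hB : ∀ i j, B i j = - B j i) (h02 : B 0 2 = 0)
    (h13 : B 1 3 = 0) :
    B = G6c_bM (B 0 1) (B 0 3) (B 0 4) (B 0 5) (B 1 2) (B 1 4) (B 1 5) (B 2 3) (B 2 4) (B 2 5)
      (B 3 4) (B 3 5) (B 4 5) := by
  have b0 : ∀ a, B a a = 0 := fun a => by have := hB a a; linarith
  funext a b
  fin_cases a <;> fin_cases b <;>
    simp [G6c_bM, b0, hB 1 0, hB 2 0, hB 3 0, hB 4 0, hB 5 0, hB 2 1, hB 3 1, hB 4 1, hB 5 1, hB 3 2,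
      hB 4 2, hB 5 2, hB 4 3, hB 5 3, hB 5 4, h02, h13]

private lemma G6c_dB_bM {R : Type*} [CommRing R] [Algebra ℝ R] (th c₁ c₂ : R)
    (x01 x03 x04 x05 x12 x14 x15 x23 x24 x25 x34 x35 x45 : R) :
    dB (R := R) 1 0 th c₁ c₂ (G6c_bM x01 x03 x04 x05 x12 x14 x15 x23 x24 x25 x34 x35 x45)
      = G6c_bM ((1/4 : ℝ) • x03 - (1/2 : ℝ) • x12) ((1/2 : ℝ) • x23 - (1/4 : ℝ) • x01 - th * c₁)
          ((1/2 : ℝ) • x24) ((1/2 : ℝ) • x25)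
          ((1/2 : ℝ) • x01 - (1/4 : ℝ) • x23 + th * c₂) ((1/4 : ℝ) • x34) ((1/4 : ℝ) • x35)
          ((1/4 : ℝ) • x12 - (1/2 : ℝ) • x03) (-((1/2 : ℝ) • x04)) (-((1/2 : ℝ) • x05))
          (-((1/4 : ℝ) • x14)) (-((1/4 : ℝ) • x15)) 0 := by
  funext a b
  fin_cases a <;> fin_cases b <;>
    simp [dB, exc, G6c_bM, N0, J6, Fin.sum_univ_six] <;> (try module)


private lemma G6c_bM_a (x01 x03 x04 x05 x12 x14 x15 x23 x24 x25 x34 x35 x45 : J2) (i j : Fin 6) :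
    (G6c_bM x01 x03 x04 x05 x12 x14 x15 x23 x24 x25 x34 x35 x45 i j).a
      = G6c_bM x01.a x03.a x04.a x05.a x12.a x14.a x15.a x23.a x24.a x25.a x34.a x35.a x45.a i j := by
  fin_cases i <;> fin_cases j <;> simp [G6c_bM]

private lemma G6c_bM_b (x01 x03 x04 x05 x12 x14 x15 x23 x24 x25 x34 x35 x45 : J2) (i j : Fin 6) :
    (G6c_bM x01 x03 x04 x05 x12 x14 x15 x23 x24 x25 x34 x35 x45 i j).b
      = G6c_bM x01.b x03.b x04.b x05.b x12.b x14.b x15.b x23.b x24.b x25.b x34.b x35.b x45.b i j := by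
  fin_cases i <;> fin_cases j <;> simp [G6c_bM]

private lemma G6c_bM_c (x01 x03 x04 x05 x12 x14 x15 x23 x24 x25 x34 x35 x45 : J2) (i j : Fin 6) :
    (G6c_bM x01 x03 x04 x05 x12 x14 x15 x23 x24 x25 x34 x35 x45 i j).c
      = G6c_bM x01.c x03.c x04.c x05.c x12.c x14.c x15.c x23.c x24.c x25.c x34.c x35.c x45.c i j := by
  fin_cases i <;> fin_cases j <;> simp [G6c_bM]

private lemma G6c_bM_zero (i j : Fin 6) : G6c_bM (R := ℝ) 0 0 0 0 0 0 0 0 0 0 0 0 0 i j = 0 := by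
  fin_cases i <;> fin_cases j <;> simp [G6c_bM]

private lemma G6c_jB_bM (th c₁ c₂ : ℝ) (x01 x03 x04 x05 x12 x14 x15 x23 x24 x25 x34 x35 x45 : ℝ) :
    jB 1 0 (J2.C th) c₁ c₂ (G6c_bM x01 x03 x04 x05 x12 x14 x15 x23 x24 x25 x34 x35 x45)
      = G6c_bM (R := J2)
        ⟨x01, 1/4 * x03 - 1/2 * x12,
          1/4 * (1/2 * x23 - 1/4 * x01 - th * c₁) - 1/2 * (1/2 * x01 - 1/4 * x23 + th * c₂)⟩
        ⟨x03, 1/2 * x23 - 1/4 * x01 - th * c₁,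
          1/2 * (1/4 * x12 - 1/2 * x03) - 1/4 * (1/4 * x03 - 1/2 * x12)⟩
        ⟨x04, 1/2 * x24, -(1/4 * x04)⟩
        ⟨x05, 1/2 * x25, -(1/4 * x05)⟩
        ⟨x12, 1/2 * x01 - 1/4 * x23 + th * c₂,
          1/2 * (1/4 * x03 - 1/2 * x12) - 1/4 * (1/4 * x12 - 1/2 * x03)⟩
        ⟨x14, 1/4 * x34, -(1/16 * x14)⟩
        ⟨x15, 1/4 * x35, -(1/16 * x15)⟩
        ⟨x23, 1/4 * x12 - 1/2 * x03,
          1/4 * (1/2 * x01 - 1/4 * x23 + th * c₂) - 1/2 * (1/2 * x23 - 1/4 * x01 - th * c₁)⟩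
        ⟨x24, -(1/2 * x04), -(1/4 * x24)⟩
        ⟨x25, -(1/2 * x05), -(1/4 * x25)⟩
        ⟨x34, -(1/4 * x14), -(1/16 * x34)⟩
        ⟨x35, -(1/4 * x15), -(1/16 * x35)⟩
        ⟨x45, 0, 0⟩ := by
  funext i j
  unfold jB
  have e0 : (fun i j => (⟨G6c_bM x01 x03 x04 x05 x12 x14 x15 x23 x24 x25 x34 x35 x45 i j,
      dB (R := ℝ) 1 0 (J2.C th).a c₁ c₂ (G6c_bM x01 x03 x04 x05 x12 x14 x15 x23 x24 x25 x34 x35 x45) i j,
      0⟩ : J2)) = G6c_bM (R := J2) ⟨x01, 1/4 * x03 - 1/2 * x12, 0⟩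
        ⟨x03, 1/2 * x23 - 1/4 * x01 - th * c₁, 0⟩
        ⟨x04, 1/2 * x24, 0⟩
        ⟨x05, 1/2 * x25, 0⟩
        ⟨x12, 1/2 * x01 - 1/4 * x23 + th * c₂, 0⟩
        ⟨x14, 1/4 * x34, 0⟩
        ⟨x15, 1/4 * x35, 0⟩
        ⟨x23, 1/4 * x12 - 1/2 * x03, 0⟩
        ⟨x24, -(1/2 * x04), 0⟩
        ⟨x25, -(1/2 * x05), 0⟩
        ⟨x34, -(1/4 * x14), 0⟩
        ⟨x35, -(1/4 * x15), 0⟩
        ⟨x45, 0, 0⟩ := by
    funext i j
    ext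
    · rw [G6c_bM_a]
    · rw [G6c_bM_b, G6c_dB_bM]
      simp only [smul_eq_mul, J2.C_a]
    · rw [G6c_bM_c]
      exact (G6c_bM_zero i j).symm
  ext
  · rw [G6c_bM_a]
  · rw [G6c_bM_b, G6c_dB_bM]
    simp only [smul_eq_mul, J2.C_a]
  · rw [G6c_bM_c]
    dsimp only
    rw [e0, G6c_dB_bM (R := J2), G6c_bM_b]
    simp only [J2.smul_b, J2.sub_b, J2.add_b, J2.mul_b, J2.C_a, J2.C_b, J2.neg_b, J2.zero_b, d1, d2]
    congr 1 <;> (try simp) <;> (try ring)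


private lemma G6c_con_bM (x01 x03 x04 x05 x12 x14 x15 x23 x24 x25 x34 x35 x45 : J2)
    (g : Fin 4 → Fin 4 → ℝ) (k : Fin 4) :
    con 1 (G6c_bM x01 x03 x04 x05 x12 x14 x15 x23 x24 x25 x34 x35 x45)
        (fun i j => J2.C (rho9 g k i j))
      = (g k 1) • ((1/4 : ℝ) • x01 + (59/16 : ℝ) • x23 + (2 : ℝ) • x45)
        + (g k 2) • ((3/4 : ℝ) • x24 + (15/16 : ℝ) • x35)
        + (g k 3) • ((3/4 : ℝ) • x25 - (15/16 : ℝ) • x34) := by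
  simp only [con, Fin.sum_univ_six, nn6, G6c_bM, rho9]
  ext <;> simp <;> ring

private lemma G6c_SG_bM (μ : Fin 4 → Fin 8 → J2) (th : ℝ) (hμ : μ 0 6 = J2.C th) (c₁ c₂ : ℝ)
    (x01 x03 x04 x05 x12 x14 x15 x23 x24 x25 x34 x35 x45 : J2) :
    SG9 1 0 0 μ (fun i j => J2.C (if i = j then 1 else 0)) (fun _ _ _ => 0) (J2.C c₁) (J2.C c₂)
        (G6c_bM x01 x03 x04 x05 x12 x14 x15 x23 x24 x25 x34 x35 x45)
      = -(((1/2 : ℝ) • x03 - (1/4 : ℝ) • x12) ^ 2 + ((1/2 : ℝ) • x04 + (1/4 : ℝ) • x15) ^ 2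
          + ((1/2 : ℝ) • x05 - (1/4 : ℝ) • x14) ^ 2)
        - (2 : ℝ) • (x12 ^ 2 + x14 ^ 2 + x15 ^ 2) + (8 : ℝ) • (x23 + x45) ^ 2
        - (3/2 : ℝ) • x01 ^ 2 + (11/2 : ℝ) • (x01 * (x23 + x45))
        + (2 * (c₁ * th)) • ((3952/27 : ℝ) • x01 + (4301/27 : ℝ) • (x23 + x45))
        - (2 * (c₂ * th)) • ((1913/27 : ℝ) • x01 + (1930/27 : ℝ) • (x23 + x45)) := by
  have h1 : me 1 0 μ (J2.C c₁) (G6c_bM x01 x03 x04 x05 x12 x14 x15 x23 x24 x25 x34 x35 x45) 6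
      = J2.C (c₁ * th) := by
    simp [me, hμ]
  have h2 : mf 1 0 μ (J2.C c₂) (G6c_bM x01 x03 x04 x05 x12 x14 x15 x23 x24 x25 x34 x35 x45) 6
      = J2.C (c₂ * th) := by
    simp [mf, hμ]
  have h3 : qv 1 (G6c_bM x01 x03 x04 x05 x12 x14 x15 x23 x24 x25 x34 x35 x45)
      = ![0, (1/2 : ℝ) • x03 - (1/4 : ℝ) • x12, (1/2 : ℝ) • x04 + (1/4 : ℝ) • x15,
          (1/2 : ℝ) • x05 - (1/4 : ℝ) • x14] := by
    simp [qv, G6c_bM]
  have h4 : omb 1 (G6c_bM x01 x03 x04 x05 x12 x14 x15 x23 x24 x25 x34 x35 x45) = x23 + x45 := by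
    simp [omb, G6c_bM]
  unfold SG9
  rw [h1, h2, h3, h4]
  simp [Fin.sum_univ_four, bb, G6c_bM]
  ext <;> simp [pow_two] <;> ring


/-- the algebra of the limit. -/
theorem Tj9_limit (g : Fin 4 → Fin 4 → ℝ) (hg : ∀ k : Fin 4, k ≠ 0 → g k 0 = 0)
    (ho : ∀ i j : Fin 3, ∑ k : Fin 3, g k.succ i.succ * g k.succ j.succ = if i = j then 1 else 0)
    (ho' : ∀ k l : Fin 3, ∑ j : Fin 3, g k.succ j.succ * g l.succ j.succ = if k = l then 1 else 0)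
    (v1 : ℝ) (th : ℝ) (μ : Fin 4 → Fin 8 → J2) (hμ : μ 0 6 = J2.C th) (u c₁ c₂ : ℝ)
    (B : Fin 6 → Fin 6 → ℝ) (hB : ∀ i j, B i j = - B j i) (h02 : B 0 2 = 0) (h13 : B 1 3 = 0) :
    Tj9 1 0 0 (1 + 3 * g 1 1 ^ 2) v1 (J2.C th) μ (fun i j => J2.C (if i = j then 1 else 0))
      (fun _ _ _ => 0) (fun k => J2.C (g k 1)) (fun k i j => J2.C (rho9 g k i j)) u c₁ c₂ B
      = TlimF9 (fun j => u * g 1 j.succ) (c₁ * th) (c₂ * th) B := by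
  have e1 : j1 1 0 (J2.C th) c₁ c₂ B = J2.C c₁ := by
    ext <;> simp [j1, d1]
  have e2 : j2 1 0 (J2.C th) c₁ c₂ B = J2.C c₂ := by
    ext <;> simp [j2, d2]
  have o11 : g 1 1 * g 1 1 + g 2 1 * g 2 1 + g 3 1 * g 3 1 = 1 := by
    simpa [Fin.sum_univ_three] using ho 0 0
  have o22 : g 1 2 * g 1 2 + g 2 2 * g 2 2 + g 3 2 * g 3 2 = 1 := by
    simpa [Fin.sum_univ_three] using ho 1 1
  have o33 : g 1 3 * g 1 3 + g 2 3 * g 2 3 + g 3 3 * g 3 3 = 1 := by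
    simpa [Fin.sum_univ_three] using ho 2 2
  have o12 : g 1 1 * g 1 2 + g 2 1 * g 2 2 + g 3 1 * g 3 2 = 0 := by
    simpa [Fin.sum_univ_three] using ho 0 1
  have o13 : g 1 1 * g 1 3 + g 2 1 * g 2 3 + g 3 1 * g 3 3 = 0 := by
    simpa [Fin.sum_univ_three] using ho 0 2
  have o23 : g 1 2 * g 1 3 + g 2 2 * g 2 3 + g 3 2 * g 3 3 = 0 := by
    simpa [Fin.sum_univ_three] using ho 1 2
  have p11 : g 1 1 * g 1 1 + g 1 2 * g 1 2 + g 1 3 * g 1 3 = 1 := by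
    simpa [Fin.sum_univ_three] using ho' 0 0
  have hb := G6c_bM_eq hB h02 h13
  unfold Tj9
  rw [e1, e2]
  clear e1 e2 hB h02 h13 ho ho' hg
  rw [hb]
  generalize B 0 1 = x01
  generalize B 0 3 = x03
  generalize B 0 4 = x04
  generalize B 0 5 = x05
  generalize B 1 2 = x12
  generalize B 1 4 = x14
  generalize B 1 5 = x15
  generalize B 2 3 = x23
  generalize B 2 4 = x24
  generalize B 2 5 = x25
  generalize B 3 4 = x34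
  generalize B 3 5 = x35
  generalize B 4 5 = x45
  clear hb B
  rw [G6c_jB_bM]
  simp only [G6c_SG_bM μ th hμ, OG9, G6c_con_bM, td]
  simp only [TlimF9, Fin.sum_univ_three, G6c_bM, pow_two, J2.add_a, J2.add_b, J2.add_c, J2.sub_a, J2.sub_b,
    J2.sub_c, J2.neg_c, J2.mul_a, J2.mul_b, J2.mul_c, J2.smul_a, J2.smul_b,
    J2.smul_c, J2.C_a, J2.C_b]
  simp
  have hA : ∀ A P Q : ℝ, (g 1 1 * A + g 1 2 * P + g 1 3 * Q) ^ 2 + (g 2 1 * A + g 2 2 * P + g 2 3 * Q) ^ 2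
      + (g 3 1 * A + g 3 2 * P + g 3 3 * Q) ^ 2 = A ^ 2 + P ^ 2 + Q ^ 2 := by
    intro A P Q
    linear_combination A ^ 2 * o11 + P ^ 2 * o22 + Q ^ 2 * o33 + 2 * A * P * o12
      + 2 * A * Q * o13 + 2 * P * Q * o23
  linear_combination (1/4) * hA ((1/2 * c₁ + 1/4 * c₂) * th + 1/4 * x01 + 59/16 * x23 + 2 * x45)
    (3/4 * x24 + 15/16 * x35) (3/4 * x25 - 15/16 * x34) - u ^ 2 * p11

end Pool.Agent.Helper81.M9
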