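import Pool.Agent.Helper81.M9.St.D7
import Pool.Agent.Helper81.M9.St.G6b
import Pool.Agent.Helper81.M9.St.G6c
import Pool.Agent.Helper46.M8.Ns

/-!
# M9, piece G6d
-/

open Filter Metric Module Set
open scoped Topology ContDiff Matrix Matrix.Norms.Elementwise ComplexConjugate

set_option maxSynthPendingDepth 3

namespace Pool.Agent.Helper81.M9
open Pool.Agent.Helper20.PC Pool.Agent.Helper20.HP Pool.Agent.Helper20.M8 Pool.Agent.Helper20.MB
open Pool.Agent.Helper46.M8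

private lemma G6d_0 : |(0 : ℝ)| ≤ 1/100 := by norm_num

private lemma G6d_jet {X : Fr9 → Fr9} {f : Fr9 → ℝ} (h : ∀ s, lie X f s = 0) (s : Fr9) :
    jetF X f s = J2.C (f s) := by
  have e : lie X f = fun _ => (0 : ℝ) := funext h
  ext
  · rfl
  · simp [jetF, h]
  · simp only [jetF, J2.C_c]
    rw [e]
    simp [lie]

private lemma G6d_jet0 {X : Fr9 → Fr9} {f : Fr9 → ℝ} (h : ∀ s, f s = 0) (s : Fr9) :
    jetF X f s = 0 := by
  have e : f = fun _ => (0 : ℝ) := funext h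
  have e2 : lie X f = fun _ => (0 : ℝ) := by
    funext t
    rw [e]
    simp [lie]
  ext
  · simp [jetF, h]
  · simp [jetF, e2]
  · simp only [jetF, J2.zero_c]
    rw [e2]
    simp [lie]

private lemma G6d_vF {U : Mat} (hU : Uᴴ * U = 1) (s : Fr9) : vF U 0 s = s.2.1 0 :=
  hatL_zero hU _ _

private lemma G6d_fF {U : Mat} (hU : Uᴴ * U = 1) (s : Fr9) :
    fF U 0 s = ![s.2.1 0, iL (s.2.1 0), s.2.2, iL s.2.2] := by
  simp only [fF, G6d_vF hU]

private lemma G6d_gram {U : Mat} (hU : Uᴴ * U = 1) {s : Fr9} (hs : ON9 U 0 s) (i j : Fin 4) :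
    h0 s.1 (fF U 0 s i) (fF U 0 s j) = if i = j then (1 : ℝ) else 0 := by
  obtain ⟨ho, hy, h1, h2⟩ := hs
  rw [G6d_vF hU] at h1 h2
  have hw : h0 s.1 (s.2.1 0) (s.2.1 0) = 1 := by
    have := ho 0 0
    rw [hm_zero hU] at this
    simpa using this
  have hsk : ∀ u v : V, h0 s.1 (iL u) v = - h0 s.1 (iL v) u := fun u v => omL_skew s.1 u v
  have hz : ∀ u : V, h0 s.1 (iL u) u = 0 := fun u => by
    have := hsk u u
    linarith
  have hii : ∀ u v : V, h0 s.1 (iL u) (iL v) = h0 s.1 u v := fun u v => h0_iL s.1 u v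
  rw [G6d_fF hU]
  have a1 := hz (s.2.1 0)
  have a2 := hz s.2.2
  have a3 : h0 s.1 (s.2.1 0) (iL (s.2.1 0)) = 0 := by rw [h0_symm]; exact a1
  have a4 : h0 s.1 s.2.2 (iL s.2.2) = 0 := by rw [h0_symm]; exact a2
  have a5 : h0 s.1 s.2.2 (s.2.1 0) = 0 := by rw [h0_symm]; exact h1
  have a6 : h0 s.1 s.2.2 (iL (s.2.1 0)) = 0 := by rw [h0_symm]; exact h2
  have a7 : h0 s.1 (iL s.2.2) (s.2.1 0) = 0 := by rw [hsk, h2, neg_zero]
  have a8 : h0 s.1 (s.2.1 0) (iL s.2.2) = 0 := by rw [h0_symm]; exact a7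
  fin_cases i <;> fin_cases j <;>
    simp [-iL_apply, hii, hw, hy, h1, h2, a1, a2, a3, a4, a5, a6, a7, a8]

private lemma G6d_sC {U : Mat} (hU : Uᴴ * U = 1) {s : Fr9} (hs : ON9 U 0 s) : sC U 0 s = 1 := by
  have h := G6d_gram hU hs 0 0
  rw [if_pos rfl] at h
  exact h

private lemma G6d_nn (j : Fin 4) : nn6 1 (j.natAdd 2) = 1 := by
  fin_cases j <;> simp [nn6]

/-! ### G6d : (T) at `δ = ε = 0` -/
theorem TF9_zero {U : Mat} (hU : Uᴴ * U = 1) {W : Fin 4 → V} {Y : V} (hW : ON9 U 0 (0, W, Y))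
    (u c₁ c₂ : ℝ) (B : Fin 6 → Fin 6 → ℝ) (hB : ∀ i j, B i j = - B j i) (h02 : B 0 2 = 0)
    (h13 : B 1 3 = 0) :
    TF9 U 0 0 0 W Y u c₁ c₂ B
      = TlimF9 (fun j => u * h0 0 (W 1) (fF U 0 (0, W, Y) j.succ)) (c₁ * momL U 0 0 6 (W 0))
          (c₂ * momL U 0 0 6 (W 0)) B ∧
    ∑ j : Fin 3, h0 0 (W 1) (fF U 0 (0, W, Y) j.succ) ^ 2 = 1 := by
  have hm0 : hm U 0 = h0 := funext fun z => hm_zero hU z
  have hON : ∀ a b, h0 (0 : V) (W a) (W b) = if a = b then 1 else 0 := fun a b => by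
    have := hW.1 a b
    rw [hm_zero hU] at this
    exact this
  have hF0 : fF U 0 ((0, W, Y) : Fr9) 0 = W 0 := by
    rw [G6d_fF hU]
    rfl
  have hg : ∀ k : Fin 4, k ≠ 0 → h0 0 (W k) (fF U 0 (0, W, Y) 0) = 0 := fun k hk => by
    rw [hF0, hON, if_neg hk]
  have hg' : ∀ j : Fin 3, h0 0 (W 0) (fF U 0 (0, W, Y) j.succ) = 0 := fun j => by
    rw [← hF0, G6d_gram hU hW, if_neg (Fin.succ_ne_zero j).symm]
  have ho' : ∀ k l : Fin 3, ∑ j : Fin 3, h0 0 (W k.succ) (fF U 0 (0, W, Y) j.succ)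
      * h0 0 (W l.succ) (fF U 0 (0, W, Y) j.succ) = if k = l then 1 else 0 := by
    intro k l
    have h1 := fF_sum hU G6d_0 hW (W l.succ)
    rw [G6d_sC hU hW] at h1
    have h2 : h0 0 (W k.succ) (W l.succ) = ∑ j : Fin 4, h0 0 (W k.succ) (fF U 0 (0, W, Y) j)
        * h0 0 (W l.succ) (fF U 0 (0, W, Y) j) := by
      conv_lhs => rw [h1]
      rw [map_sum]
      refine Finset.sum_congr rfl fun j _ => ?_
      rw [map_smul, G6d_nn, one_mul, smul_eq_mul, mul_comm, h0_symm 0 (fF U 0 (0, W, Y) j)]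
    rw [Fin.sum_univ_succ, hg _ (Fin.succ_ne_zero k), zero_mul, zero_add, hON] at h2
    rw [← h2]
    simp
  have ho : ∀ i j : Fin 3, ∑ k : Fin 3, h0 0 (W k.succ) (fF U 0 (0, W, Y) i.succ)
      * h0 0 (W k.succ) (fF U 0 (0, W, Y) j.succ) = if i = j then 1 else 0 := by
    intro i j
    have h1 := frame_sum hU G6d_0 hW.1 (fF U 0 (0, W, Y) j.succ)
    have h2 : h0 0 (fF U 0 (0, W, Y) i.succ) (fF U 0 (0, W, Y) j.succ)
        = ∑ k : Fin 4, h0 0 (W k) (fF U 0 (0, W, Y) i.succ)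
          * h0 0 (W k) (fF U 0 (0, W, Y) j.succ) := by
      conv_lhs => rw [← h1]
      rw [map_sum]
      refine Finset.sum_congr rfl fun k _ => ?_
      rw [map_smul, smul_eq_mul, hm0, mul_comm]
      congr 1
      · exact h0_symm _ _ _
      · exact h0_symm _ _ _
    rw [Fin.sum_univ_succ, hg' i, zero_mul, zero_add] at h2
    have h3 := G6d_gram hU hW i.succ j.succ
    rw [← h2]
    refine h3.trans ?_
    simp
  refine ⟨?_, ?_⟩
  · have eC : sC U 0 ((0, W, Y) : Fr9) = 1 := G6d_sC hU hW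
    have eK : num (hm U 0) 0 (W 0) (W 1) = 1 + 3 * h0 0 (W 1) (fF U 0 (0, W, Y) 1) ^ 2 := by
      have e : omL 0 (W 0) (W 1) = h0 0 (W 1) (fF U 0 (0, W, Y) 1) := by
        rw [G6d_fF hU]
        exact h0_symm _ _ _
      rw [hm0, num_h0, hON, hON, hON, ← e]
      norm_num
    have eT : jetF (XF9 U 0) (sT U 0) ((0, W, Y) : Fr9) = J2.C (momL U 0 0 6 (W 0)) := by
      rw [G6d_jet (fun s => (lie_zero9 hU s 0 0 0).1)]
      rfl
    have eU : jetF (XF9 U 0) (sU U 0 0 6) ((0, W, Y) : Fr9) = J2.C (momL U 0 0 6 (W 0)) := by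
      have e : sU U 0 0 6 = sT U 0 := by
        funext s
        exact mu0_hatL hU G6d_0 _ _ _
      rw [e, eT]
    have eH : (fun i j => jetF (XF9 U 0) (sH U 0 i j) ((0, W, Y) : Fr9))
        = fun i j : Fin 4 => J2.C (if i = j then 1 else 0) := by
      funext i j
      rw [G6d_jet (fun s => (lie_zero9 hU s 0 i j).2.1)]
      congr 1
      unfold sH
      rw [hm0]
      exact G6d_gram hU hW i j
    have eB : (fun i k l => jetF (XF9 U 0) (sB U 0 0 i k l) ((0, W, Y) : Fr9))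
        = fun _ _ _ : Fin 4 => (0 : J2) := by
      funext i k l
      refine G6d_jet0 (fun s => ?_) _
      unfold sB
      rw [BL_zero]
      simp only [map_zero, _root_.zero_apply]
    have eZ : (fun k => jetF (XF9 U 0) (sZ U 0 k) ((0, W, Y) : Fr9))
        = fun k => J2.C (h0 0 (W k) (fF U 0 (0, W, Y) 1)) := by
      funext k
      have e : sZ U 0 k = fun s => h0 s.1 (s.2.1 k) (fF U 0 s 1) := by
        funext s
        unfold sZ
        rw [hm0]
        rfl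
      rw [e, G6d_jet (fun s => (lie_zero9 hU s k 0 1).2.2)]
    have eR : (fun k i j => jetF (XF9 U 0) (sR9 U 0 0 k i j) ((0, W, Y) : Fr9))
        = fun k i j => J2.C (rho9 (fun k j => h0 0 (W k) (fF U 0 (0, W, Y) j)) k i j) := by
      funext k i j
      exact sR9_zero hU hW k i j
    have key := Tj9_limit (fun k j => h0 0 (W k) (fF U 0 (0, W, Y) j)) hg ho ho'
      (lie (XF9 U 0) (sV U 0 1) ((0, W, Y) : Fr9)) (momL U 0 0 6 (W 0))
      (fun j i => jetF (XF9 U 0) (sU U 0 j i) ((0, W, Y) : Fr9)) eU u c₁ c₂ B hB h02 h13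
    unfold TF9
    dsimp only
    rw [eC, eK, eT, eH, eB, eZ, eR]
    exact key
  · have h := ho' 0 0
    rw [if_pos rfl] at h
    rw [← h]
    refine Finset.sum_congr rfl fun j _ => ?_
    rw [pow_two]
    rfl

end Pool.Agent.Helper81.M9
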