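import Pool.Agent.Helper46.M8.St.A8
import Pool.Agent.Helper81.M9.St.G1
import Pool.Agent.Helper81.M9.St.G6d
import Pool.Agent.Helper46.M8.Ns

/-!
# M9, piece G7
-/

open Filter Metric Module Set
open scoped Topology ContDiff Matrix Matrix.Norms.Elementwise ComplexConjugate

set_option maxSynthPendingDepth 3

namespace Pool.Agent.Helper81.M9
open Pool.Agent.Helper20.PC Pool.Agent.Helper20.HP Pool.Agent.Helper20.M8 Pool.Agent.Helper20.MB
open Pool.Agent.Helper46.M8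

/-! ### G7 : positivity of the limit -/

/-- the square norm of a skew matrix with two vanishing entries. -/
private lemma G7_nrm (B : Fin 6 → Fin 6 → ℝ) (hB : ∀ i j, B i j = - B j i) (h02 : B 0 2 = 0)
    (h13 : B 1 3 = 0) :
    ∑ i, ∑ j, B i j ^ 2 = 2 * (B 0 1 ^ 2 + B 0 3 ^ 2 + B 0 4 ^ 2 + B 0 5 ^ 2
      + B 1 2 ^ 2 + B 1 4 ^ 2 + B 1 5 ^ 2 + B 2 3 ^ 2 + B 2 4 ^ 2 + B 2 5 ^ 2 + B 3 4 ^ 2
      + B 3 5 ^ 2 + B 4 5 ^ 2) := by
  have hd : ∀ i, B i i = 0 := fun i => by have := hB i i; linarith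
  have h20 : B 2 0 = 0 := by rw [hB, h02, neg_zero]
  have h31 : B 3 1 = 0 := by rw [hB, h13, neg_zero]
  simp only [Fin.sum_univ_six, hd, h02, h13, h20, h31, hB 1 0, hB 3 0, hB 4 0, hB 5 0, hB 2 1, hB 4 1,
    hB 5 1, hB 3 2, hB 4 2, hB 5 2, hB 4 3, hB 5 3, hB 5 4]
  ring

theorem limit_pos9 {κ : ℝ} (hκ : ∀ x ∈ Orb, 0 < (371/80) * x 6 ^ 2 + (κ/2) * PhiDD x) {U : Mat}
    (hU : Uᴴ * U = 1) {W : Fin 4 → V} {Y : V} (hW : ON9 U 0 (0, W, Y)) {u c₁ c₂ : ℝ}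
    {B : Fin 6 → Fin 6 → ℝ} (hC : Cns9 0 c₁ c₂ B) (hn : nrm9 u c₁ c₂ B ≠ 0) :
    0 < TF9 U 0 0 0 W Y u c₁ c₂ B
      + (κ/2) * (c₁ ^ 2 + c₂ ^ 2) * (sC U 0 (0, W, Y))⁻¹ ^ 2
        * PhiDD (xc (fun i => momL U 0 0 i (W 0))) := by
  obtain ⟨hB, h02, h13, hcc, hc1, hc2, hp1, hp2⟩ := hC
  have hz : hm U 0 0 = h0 0 := hm_zero hU 0
  obtain ⟨hT, hg⟩ := TF9_zero hU hW u c₁ c₂ B hB h02 h13
  rw [hT]
  have hW0 : h0 0 (W 0) (W 0) = 1 := by
    have := hW.1 0 0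
    simp only [if_true] at this
    rw [← hz]; exact this
  have hsC : sC U 0 (0, W, Y) = 1 := by
    have : vF U 0 (0, W, Y) = W 0 := by
      show hatL U 0 0 (W 0) = W 0
      rw [hatL_zero hU]
    rw [sC, this]; exact hW0
  rw [hsC, inv_one, one_pow, mul_one]
  have hmom : (fun i => momL U 0 0 i (W 0)) = fun i => h0 0 (W 0) (Kf U i 0) := by
    funext i
    rw [momL_apply, hz]
  have hx : xc (fun i => momL U 0 0 i (W 0)) ∈ Orb := by
    rw [hmom]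
    exact orbit_mem hU (W 0) hW0
  have hx6 : xc (fun i => momL U 0 0 i (W 0)) 6 = momL U 0 0 6 (W 0) := by
    simp [xc]
  have hk := hκ _ hx
  rw [hx6] at hk
  obtain ⟨P, hP⟩ : ∃ P, P = PhiDD (xc (fun i => momL U 0 0 i (W 0))) := ⟨_, rfl⟩
  obtain ⟨th, hth⟩ : ∃ th, th = momL U 0 0 6 (W 0) := ⟨_, rfl⟩
  rw [← hP, ← hth] at hk ⊢
  obtain ⟨g, hgd⟩ : ∃ g : Fin 3 → ℝ, g = fun j => h0 0 (W 1) (fF U 0 (0, W, Y) j.succ) := ⟨_, rfl⟩
  have hgs : ∑ j : Fin 3, g j ^ 2 = 1 := by rw [hgd]; exact hg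
  have hTe : (fun j : Fin 3 => u * h0 0 (W 1) (fF U 0 (0, W, Y) j.succ)) = fun j => u * g j := by
    rw [hgd]
  rw [hTe]
  rw [zero_pow (by norm_num), zero_mul] at hcc
  rw [Fin.sum_univ_three] at hgs
  have hu2 := sq_nonneg u
  have hub : (u * g 0) ^ 2 + (u * g 1) ^ 2 + (u * g 2) ^ 2 = u ^ 2 := by
    have : (u * g 0) ^ 2 + (u * g 1) ^ 2 + (u * g 2) ^ 2 = u ^ 2 * (g 0 ^ 2 + g 1 ^ 2 + g 2 ^ 2) := by ring
    rw [this, hgs, mul_one]
  by_cases hz1 : c₁ = 0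
  · by_cases hz2 : c₂ = 0
    · subst hz1; subst hz2
      have h1 := TlimF9_pos3 (fun j => u * g j) B hp1 hp2
      simp only [zero_mul]
      have h2 : nrm9 u 0 0 B = u ^ 2 + ∑ i, ∑ j, B i j ^ 2 := by unfold nrm9; ring
      have h3 := G7_nrm B hB h02 h13
      have h4 : 0 < u ^ 2 + ∑ i, ∑ j, B i j ^ 2 := by
        rw [← h2]
        refine lt_of_le_of_ne ?_ (Ne.symm hn)
        rw [h2]
        have : 0 ≤ ∑ i, ∑ j, B i j ^ 2 :=
          Finset.sum_nonneg fun i _ => Finset.sum_nonneg fun j _ => sq_nonneg _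
        linarith
      rw [h3] at h4
      have h5 : 0 < (1/100) * (u ^ 2 + B 0 1 ^ 2 + B 0 3 ^ 2 + B 0 4 ^ 2 + B 0 5 ^ 2
        + B 1 2 ^ 2 + B 1 4 ^ 2 + B 1 5 ^ 2 + B 2 3 ^ 2 + B 2 4 ^ 2 + B 2 5 ^ 2 + B 3 4 ^ 2
        + B 3 5 ^ 2 + B 4 5 ^ 2) := by linarith
      have h6 : κ / 2 * ((0 : ℝ) ^ 2 + 0 ^ 2) * P = 0 := by ring
      rw [h6]
      linarith
    · subst hz1
      have hz0 : ∀ k l, k ≠ 1 → k ≠ 3 → l ≠ 1 → l ≠ 3 → exc k l = false → B k l = 0 := by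
        intro k l a b c d e
        have := hc2 k l a b c d e
        rw [zero_mul] at this
        exact (mul_eq_zero.mp this).resolve_left hz2
      have b04 := hz0 0 4 (by decide) (by decide) (by decide) (by decide) (by decide)
      have b05 := hz0 0 5 (by decide) (by decide) (by decide) (by decide) (by decide)
      have b24 := hz0 2 4 (by decide) (by decide) (by decide) (by decide) (by decide)
      have b25 := hz0 2 5 (by decide) (by decide) (by decide) (by decide) (by decide)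
      have b45 := hz0 4 5 (by decide) (by decide) (by decide) (by decide) (by decide)
      have h1 := TlimF9_pos2 (fun j => u * g j) (c₂ * th) B b04 b05 b24 b25 b45
      rw [zero_mul]
      have hpos := mul_pos (show 0 < c₂ ^ 2 by positivity) hk
      have h3 : c₂ ^ 2 * (371 / 80 * th ^ 2 + κ / 2 * P)
        = 371 / 80 * (c₂ * th) ^ 2 + κ / 2 * (0 ^ 2 + c₂ ^ 2) * P := by ring
      rw [h3] at hpos
      have h4 : 0 ≤ (1/100) * ((u * g 0) ^ 2 + (u * g 1) ^ 2 + (u * g 2) ^ 2 + B 0 1 ^ 2 + B 0 3 ^ 2 + B 1 2 ^ 2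
        + B 1 4 ^ 2 + B 1 5 ^ 2 + B 2 3 ^ 2 + B 3 4 ^ 2 + B 3 5 ^ 2) := by positivity
      linarith
  · have hz2 : c₂ = 0 := (mul_eq_zero.mp hcc).resolve_left hz1
    subst hz2
    have hz0 : ∀ k l, k ≠ 0 → k ≠ 2 → l ≠ 0 → l ≠ 2 → exc k l = false → B k l = 0 := by
      intro k l a b c d e
      have := hc1 k l a b c d e
      rw [zero_mul] at this
      exact (mul_eq_zero.mp this).resolve_left hz1
    have b14 := hz0 1 4 (by decide) (by decide) (by decide) (by decide) (by decide)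
    have b15 := hz0 1 5 (by decide) (by decide) (by decide) (by decide) (by decide)
    have b34 := hz0 3 4 (by decide) (by decide) (by decide) (by decide) (by decide)
    have b35 := hz0 3 5 (by decide) (by decide) (by decide) (by decide) (by decide)
    have b45 := hz0 4 5 (by decide) (by decide) (by decide) (by decide) (by decide)
    have h1 := TlimF9_pos1 (fun j => u * g j) (c₁ * th) B b14 b15 b34 b35 b45
    rw [zero_mul]
    have hpos := mul_pos (show 0 < c₁ ^ 2 by positivity) hk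
    have h3 : c₁ ^ 2 * (371 / 80 * th ^ 2 + κ / 2 * P)
      = 371 / 80 * (c₁ * th) ^ 2 + κ / 2 * (c₁ ^ 2 + 0 ^ 2) * P := by ring
    rw [h3] at hpos
    have h4 : 0 ≤ (1/100) * ((u * g 0) ^ 2 + (u * g 1) ^ 2 + (u * g 2) ^ 2 + B 0 1 ^ 2 + B 0 3 ^ 2 + B 0 4 ^ 2
      + B 0 5 ^ 2 + B 1 2 ^ 2 + B 2 3 ^ 2 + B 2 4 ^ 2 + B 2 5 ^ 2) := by positivity
    linarith

end Pool.Agent.Helper81.M9
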