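import Pool.Agent.Helper46.M8.St.B3
import Pool.Agent.Helper81.M9.St.D6
import Pool.Agent.Helper81.M9.St.G3
import Pool.Agent.Helper81.M9.St.G5
import Pool.Agent.Helper81.M9.St.G2
import Pool.Agent.Helper81.M9.St.G7
import Pool.Agent.Helper46.M8.Ns

/-!
# M9, piece G8
-/

open Filter Metric Module Set
open scoped Topology ContDiff Matrix Matrix.Norms.Elementwise ComplexConjugate

set_option maxSynthPendingDepth 3

namespace Pool.Agent.Helper81.M9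
open Pool.Agent.Helper20.PC Pool.Agent.Helper20.HP Pool.Agent.Helper20.M8 Pool.Agent.Helper20.MB
open Pool.Agent.Helper46.M8

private def G8_CJ {X : Type*} [TopologicalSpace X] (j : X → J2) : Prop :=
  Continuous (fun x => (j x).a) ∧ Continuous (fun x => (j x).b) ∧ Continuous (fun x => (j x).c)

section
variable {X : Type*} [TopologicalSpace X] {j k : X → J2}

private lemma G8_add (hj : G8_CJ j) (hk : G8_CJ k) : G8_CJ (fun x => j x + k x) :=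
  ⟨hj.1.add hk.1, hj.2.1.add hk.2.1, hj.2.2.add hk.2.2⟩
private lemma G8_sub (hj : G8_CJ j) (hk : G8_CJ k) : G8_CJ (fun x => j x - k x) :=
  ⟨hj.1.sub hk.1, hj.2.1.sub hk.2.1, hj.2.2.sub hk.2.2⟩
private lemma G8_neg (hj : G8_CJ j) : G8_CJ (fun x => - j x) :=
  ⟨hj.1.neg, hj.2.1.neg, hj.2.2.neg⟩
private lemma G8_mul (hj : G8_CJ j) (hk : G8_CJ k) : G8_CJ (fun x => j x * k x) :=
  ⟨hj.1.mul hk.1, (hj.1.mul hk.2.1).add (hj.2.1.mul hk.1),
    ((hj.1.mul hk.2.2).add (continuous_const.mul (hj.2.1.mul hk.2.1))).add (hj.2.2.mul hk.1)⟩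
private lemma G8_sq (hj : G8_CJ j) : G8_CJ (fun x => j x ^ 2) := by
  simp only [pow_two]; exact G8_mul hj hj
private lemma G8_const (r : J2) : G8_CJ (fun _ : X => r) :=
  ⟨continuous_const, continuous_const, continuous_const⟩

private lemma G8_Ex {y : X → Fin 8 → J2} (h : ∀ i, G8_CJ (fun x => y x i)) (i : Fin 8) :
    G8_CJ (fun x => Ex (y x) i) := by
  fin_cases i <;> simp [Ex] <;>
    repeat' first | exact h _ | apply G8_add | apply G8_sub | apply G8_neg | apply G8_mul |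
      apply G8_sq | exact G8_const _

private lemma G8_Fx {y : X → Fin 8 → J2} (h : ∀ i, G8_CJ (fun x => y x i)) :
    G8_CJ (fun x => Fx (y x)) := by
  unfold Fx
  repeat' first | exact h _ | apply G8_add | apply G8_sub | apply G8_neg | apply G8_mul |
      apply G8_sq | exact G8_const _
end

private lemma G8_Exr (i : Fin 8) : Continuous (fun x : Fin 8 → ℝ => Ex x i) := by
  fin_cases i <;> simp [Ex] <;> fun_prop

private lemma G8_PhiDD : Continuous PhiDD := by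
  unfold PhiDD
  refine (G8_Fx (X := Fin 8 → ℝ) (y := fun x i => ⟨x i, Ex x i,
    (Ex (R := J2) (fun j => ⟨x j, Ex x j, 0⟩) i).b⟩) fun i => ⟨continuous_apply i, G8_Exr i, ?_⟩).2.2
  exact (G8_Ex (X := Fin 8 → ℝ) (y := fun x j => ⟨x j, Ex x j, 0⟩)
    (fun j => ⟨continuous_apply j, G8_Exr j, continuous_const⟩) i).2.1

private lemma G8_xc : Continuous (fun m : Fin 8 → ℝ => xc m) := by
  refine continuous_pi fun i => ?_
  by_cases h : i = 7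
  · simp only [xc, h, if_true]
    fun_prop
  · simp only [xc, h, if_false]
    fun_prop

private lemma G8_mom (i : Fin 8) :
    ContinuousOn (fun q : Cf9 => momL q.1.1 q.1.2.1 0 i (q.2.1.1 0))
      {q : Cf9 | q.1.1ᴴ * q.1.1 = 1 ∧ |q.1.2.1| ≤ 1/100} := by
  intro q hq
  refine ContinuousAt.continuousWithinAt ?_
  have h1 : ContinuousAt (fun p : Pm × V => momL p.1.1 p.1.2.1 p.2 i) (q.1, 0) :=
    (contDiffAt_momL (q := (q.1, (0 : V))) hq.1 hq.2 i).continuousAt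
  have h2 : ContinuousAt (fun q : Cf9 => ((q.1, (0 : V)) : Pm × V)) q := by fun_prop
  have h3 : ContinuousAt (fun q : Cf9 => momL q.1.1 q.1.2.1 0 i) q :=
    ContinuousAt.comp (f := fun q : Cf9 => ((q.1, (0 : V)) : Pm × V))
      (g := fun p : Pm × V => momL p.1.1 p.1.2.1 p.2 i) h1 h2
  exact h3.clm_apply (by fun_prop)

private lemma G8_sC :
    ContinuousOn (fun q : Cf9 => sC q.1.1 q.1.2.1 (0, q.2.1.1, q.2.1.2))
      {q : Cf9 | q.1.1ᴴ * q.1.1 = 1 ∧ |q.1.2.1| ≤ 1/100} := by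
  intro q hq
  refine ContinuousAt.continuousWithinAt ?_
  have h1 : ContinuousAt (fun q : Pm × Fr9 => sC q.1.1 q.1.2.1 q.2)
      ((q.1, ((0 : V), q.2.1.1, q.2.1.2)) : Pm × Fr9) :=
    (contDiffAt_sC (q := ((q.1, ((0 : V), q.2.1.1, q.2.1.2)) : Pm × Fr9)) hq.1 hq.2).continuousAt
  have h2 : ContinuousAt (fun q : Cf9 => ((q.1, ((0 : V), q.2.1.1, q.2.1.2)) : Pm × Fr9)) q := by
    fun_prop
  exact ContinuousAt.comp (f := fun q : Cf9 => ((q.1, ((0 : V), q.2.1.1, q.2.1.2)) : Pm × Fr9))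
      (g := fun q : Pm × Fr9 => sC q.1.1 q.1.2.1 q.2) h1 h2

private noncomputable def G8_ff (κ : ℝ) (q : Cf9) : ℝ :=
  TFp9 0 q + (κ/2) * (q.2.2.2.1 ^ 2 + q.2.2.2.2.1 ^ 2)
    * (sC q.1.1 q.1.2.1 (0, q.2.1.1, q.2.1.2))⁻¹ ^ 2
    * PhiDD (xc (fun i => momL q.1.1 q.1.2.1 0 i (q.2.1.1 0)))

private lemma G8_Kc_sub : Kc9 ⊆ {q : Cf9 | q.1.1ᴴ * q.1.1 = 1 ∧ |q.1.2.1| ≤ 1/100} := by
  intro q hq
  obtain ⟨h1, h2, h3, -⟩ := hq
  refine ⟨h1, ?_⟩
  rw [abs_of_nonneg h2]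
  exact h3

private lemma G8_sC_ne {q : Cf9} (hq : q ∈ Kc9) : sC q.1.1 q.1.2.1 (0, q.2.1.1, q.2.1.2) ≠ 0 := by
  have h := G8_Kc_sub hq
  have h1 := (sC_pos h.1 h.2 hq.2.2.2.2.2.1).1
  intro h0
  rw [h0] at h1
  norm_num at h1

private lemma G8_contOn_ff (κ : ℝ) : ContinuousOn (G8_ff κ) Kc9 := by
  have h1 : ContinuousOn (fun q : Cf9 => fun i => momL q.1.1 q.1.2.1 0 i (q.2.1.1 0)) Kc9 :=
    (continuousOn_pi.2 G8_mom).mono G8_Kc_sub
  have h2 := (G8_PhiDD.comp G8_xc).comp_continuousOn h1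
  have h3 : ContinuousOn (fun q : Cf9 => (sC q.1.1 q.1.2.1 (0, q.2.1.1, q.2.1.2))⁻¹ ^ 2) Kc9 :=
    ((G8_sC.mono G8_Kc_sub).inv₀ fun q hq => G8_sC_ne hq).pow 2
  refine (continuousOn_TFp9 0).add (ContinuousOn.mul (ContinuousOn.mul ?_ h3) h2)
  exact Continuous.continuousOn (by fun_prop)

/-! ### G8 : the choice of `δ` and `ε` -/
theorem exists_delta9 : ∃ δ lam : ℝ, 0 < δ ∧ δ ≤ 1/100 ∧
    ∀ q ∈ Kc9, q.1.2.1 = δ → q.1.2.2 = 0 → 0 < TFp9 lam q := by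
  obtain ⟨κ, hκ, hκ'⟩ := exists_kappa
  set K : Set Cf9 := Kc9 ∩ {q | q.1.2.2 = 0} with hK
  have hKc : IsCompact K :=
    isCompact_Kc9.inter_right (isClosed_eq (by fun_prop) continuous_const)
  obtain ⟨t, ht, h⟩ := compact_param hKc ((G8_contOn_ff κ).mono inter_subset_left)
    (g := fun q : Cf9 => q.1.2.1) (Continuous.continuousOn (by fun_prop))
    (fun q hq => hq.1.2.1) (by
      rintro ⟨⟨U, δ, ε⟩, ⟨W, Y⟩, u, c₁, c₂, B⟩ ⟨⟨h1, h2, h3, h4, h5, h6, h7, h8⟩, h9⟩ h10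
      have h9' : ε = 0 := h9
      have h10' : δ = 0 := h10
      subst h9' h10'
      have hn : nrm9 u c₁ c₂ B ≠ 0 := by
        have : nrm9 u c₁ c₂ B = 1 := h8
        rw [this]; exact one_ne_zero
      exact limit_pos9 hκ' h1 h6 h7 hn)
  have hδ : 0 < min t (1/100) := lt_min ht (by norm_num)
  refine ⟨min t (1/100), κ / (min t (1/100)) ^ 2, hδ, min_le_right _ _, ?_⟩
  rintro ⟨⟨U, δ, ε⟩, ⟨W, Y⟩, u, c₁, c₂, B⟩ hq h9 h10
  have h9' : δ = min t (1/100) := h9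
  have hpos := h ⟨⟨U, δ, ε⟩, ⟨W, Y⟩, u, c₁, c₂, B⟩ ⟨hq, h10⟩ (h9'.le.trans (min_le_left _ _))
  simp only at h9 h10
  rw [← h9] at hδ ⊢
  subst h10
  obtain ⟨h1, h2, h3, -⟩ := hq
  have hδ' : |δ| ≤ 1/100 := by
    rw [abs_of_nonneg h2]; exact h3
  have e : TFp9 (κ / δ ^ 2) ⟨⟨U, δ, 0⟩, ⟨W, Y⟩, u, c₁, c₂, B⟩
      = G8_ff κ ⟨⟨U, δ, 0⟩, ⟨W, Y⟩, u, c₁, c₂, B⟩ := by
    simp only [TFp9, TF9, G8_ff]
    rw [Tj9_lam, F_jet9 h1 hδ']
    field_simp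
  rw [e]
  exact hpos

theorem exists_eps9 : ∃ δ ε lam : ℝ, 0 < δ ∧ δ ≤ 1/100 ∧ 0 < ε ∧ ε ≤ 1 ∧
    ∀ q ∈ Kc9, q.1.2.1 = δ → q.1.2.2 = ε → 0 < TFp9 lam q := by
  obtain ⟨δ, lam, hδ, hδ', hq⟩ := exists_delta9
  set K : Set Cf9 := Kc9 ∩ {q | q.1.2.1 = δ} with hK
  have hKc : IsCompact K :=
    isCompact_Kc9.inter_right (isClosed_eq (by fun_prop) continuous_const)
  obtain ⟨t, ht, h⟩ := compact_param hKc ((continuousOn_TFp9 lam).mono inter_subset_left)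
    (g := fun q : Cf9 => q.1.2.2) (Continuous.continuousOn (by fun_prop))
    (fun q hq => hq.1.2.2.2.1) (fun q hK h0 => hq q hK.1 hK.2 h0)
  refine ⟨δ, min t 1, lam, hδ, hδ', lt_min ht one_pos, min_le_right _ _, fun q hK h1 h2 => ?_⟩
  exact h q ⟨hK, h1⟩ (by rw [h2]; exact min_le_left _ _)

end Pool.Agent.Helper81.M9
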