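import Pool.Agent.Helper81.M9.St.H2a
import Pool.Agent.Helper81.M9.St.F8
import Pool.Agent.Helper81.M9.St.H1
import Pool.Agent.Helper81.M9.St.G8
import Pool.Agent.Helper46.M9.Gen.Cpt
import Pool.Agent.Helper46.M8.Ns

/-!
# M9, piece H2: positivity of the expression in (T)
-/

open Filter Metric Module Set
open scoped Topology ContDiff Matrix Matrix.Norms.Elementwise ComplexConjugate

set_option maxSynthPendingDepth 3

namespace Pool.Agent.Helper81.M9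
open Pool.Agent.Helper20.PC Pool.Agent.Helper20.HP Pool.Agent.Helper20.M8 Pool.Agent.Helper20.MB
open Pool.Agent.Helper46.M8 Pool.Agent.Helper46

/-- positivity of (T) at the origin. -/
theorem TE_pos9 : ∃ δ ε lam : ℝ, |δ| ≤ 1/100 ∧ ∀ U : Mat, Uᴴ * U = 1 → ∀ (X Z : V) (y w : Y9),
    hm U δ 0 X X = 1 → hm U δ 0 X Z = 0 → kL9 0 y y = 1 → kL9 0 y w = 0 → (Z ≠ 0 ∨ w ≠ 0) →
    0 < Gen.TE (D9 U δ ε lam) 0 X Z y w := by
  obtain ⟨δ, ε, lam, hδ0, hδ1, hε0, hε1, H⟩ := exists_eps9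
  have hδ : |δ| ≤ 1/100 := by rw [abs_of_pos hδ0]; exact hδ1
  refine ⟨δ, ε, lam, hδ, ?_⟩
  intro U hU X Z y w hX hXZ hy hyw hne
  obtain ⟨τ, hτ⟩ : ∃ τ, τ = tauS U δ (((0 : V), (fun _ => X : Fin 4 → V), (0 : V)), y, w) := ⟨_, rfl⟩
  have hv : hm U δ 0 X (hatL U δ 0 X) = h0 0 (hatL U δ 0 X) (hatL U δ 0 X) :=
    (h0_hatL hU hδ 0 X _).symm
  have hXZ' : hm U δ 0 X (Z + τ • (hatL U δ 0 X - h0 0 (hatL U δ 0 X) (hatL U δ 0 X) • X)) = 0 := by
    simp only [map_add, map_sub, map_smul, smul_eq_mul, hXZ, hX, hv]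
    ring
  obtain ⟨W, Y, u, hW, hW0, hZ'⟩ := exists_frame9 hU hδ X _ hX hXZ'
  subst hW0
  have hτ' : tauS U δ ((0, W, Y), y, w) = τ := by
    rw [hτ]
    exact H2_tauS_congr U δ rfl _ _ y w
  have hZ : Z = u • W 1 - tauS U δ ((0, W, Y), y, w) • (vF U δ (0, W, Y)
      - sC U δ (0, W, Y) • W 0) := by
    rw [hτ', ← hZ']
    have e1 : vF U δ (0, W, Y) = hatL U δ 0 (W 0) := rfl
    have e2 : sC U δ (0, W, Y) = h0 0 (hatL U δ 0 (W 0)) (hatL U δ 0 (W 0)) := rfl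
    rw [e1, e2]
    abel
  have key := TT_eq9 hU hδ ε lam hW u y w
  simp only at key
  rw [← hZ] at key
  rw [H2_TE_eq hU hδ ε lam hW, key]
  have hC := Cns_S9 U δ ε ((0, W, Y), y, w)
  refine TF9_pos hδ0 hδ1 hε0 hε1 H hU hW u _ _ _ hC ?_
  intro h0
  obtain ⟨hu, h1, h2, h3⟩ := H2_nrm9_zero h0
  have hw : w = 0 := p_zero9 hU hδ hε0.ne' ((0, W, Y), y, w) hW hy hyw h1 h2 h3
  have hbF : ∀ i j, bF U δ ((0, W, Y), y, w) i j = 0 := fun i j => by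
    simp only [bF, cmp, hw, map_zero, mul_zero, sub_zero]
  have ht : tauS U δ ((0, W, Y), y, w) = 0 := by
    rw [tauS, hbF, hbF]
    ring
  have hZ0 : Z = 0 := by
    rw [hZ, ht, hu]
    simp
  rcases hne with h | h
  · exact h hZ0
  · exact h hw

end Pool.Agent.Helper81.M9
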