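import Pool.Agent.Helper46.M8.St.E7
import Pool.Agent.Helper81.M9.St.C3
import Pool.Agent.Helper81.M9.St.C2
import Pool.Agent.Helper81.M9.St.B3
import Pool.Agent.Helper81.M9.St.G2
import Pool.Agent.Helper81.M9.Defs2
import Pool.Agent.Helper46.M9.Gen.Cpt
import Pool.Agent.Helper46.M8.Ns

/-!
# M9, piece H2a: auxiliary statements for H2
-/

open Filter Metric Module Set
open scoped Topology ContDiff Matrix Matrix.Norms.Elementwise ComplexConjugate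

set_option maxSynthPendingDepth 3

namespace Pool.Agent.Helper81.M9
open Pool.Agent.Helper20.PC Pool.Agent.Helper20.HP Pool.Agent.Helper20.M8 Pool.Agent.Helper20.MB
open Pool.Agent.Helper46.M8 Pool.Agent.Helper46

private lemma H2_OmV_self (A : V → V →L[ℝ] Y9 →L[ℝ] Y9) (x ζ : V) : OmV A x ζ ζ = 0 := by
  simp [OmV]

/-- the square norm in a frame. -/
private lemma H2_sq {U : Mat} {δ : ℝ} (hU : Uᴴ * U = 1) (hδ : |δ| ≤ 1/100) {z : V} {W : Fin 4 → V}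
    (hW : ON (hm U δ z) W) (v : V) :
    hm U δ z v v = ∑ a, hm U δ z v (W a) ^ 2 := by
  have h1 := frame_sum hU hδ hW v
  have h2 : hm U δ z v v = hm U δ z v (∑ a, hm U δ z v (W a) • W a) := by rw [h1]
  rw [h2, map_sum]
  refine Finset.sum_congr rfl fun a _ => ?_
  rw [map_smul, smul_eq_mul, sq]

/-- (T) for arbitrary `(u, c₁, c₂, B)`, by homogeneity. -/
theorem TF9_pos {δ ε lam : ℝ} (hδ : 0 < δ) (hδ' : δ ≤ 1/100) (hε : 0 < ε) (hε' : ε ≤ 1)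
    (H : ∀ q ∈ Kc9, q.1.2.1 = δ → q.1.2.2 = ε → 0 < TFp9 lam q)
    {U : Mat} (hU : Uᴴ * U = 1) {W : Fin 4 → V} {Y : V} (hW : ON9 U δ (0, W, Y))
    (u c₁ c₂ : ℝ) (B : Fin 6 → Fin 6 → ℝ) (hC : Cns9 ε c₁ c₂ B) (hn : nrm9 u c₁ c₂ B ≠ 0) :
    0 < TF9 U δ ε lam W Y u c₁ c₂ B := by
  have hn0 : 0 ≤ nrm9 u c₁ c₂ B := by
    unfold nrm9; positivity
  have hnp : 0 < nrm9 u c₁ c₂ B := lt_of_le_of_ne hn0 (Ne.symm hn)
  set r : ℝ := (Real.sqrt (nrm9 u c₁ c₂ B))⁻¹ with hr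
  have hr0 : 0 < r := by positivity
  have hr2 : r ^ 2 * nrm9 u c₁ c₂ B = 1 := by
    rw [hr, inv_pow, Real.sq_sqrt hn0]
    exact inv_mul_cancel₀ hn
  obtain ⟨b1, b2, b3, b4, b5, b6, b7, b8⟩ := hC
  have hC' : Cns9 ε (r * c₁) (r * c₂) (fun i j => r * B i j) := by
    refine ⟨fun i j => by simp only [b1 i j]; ring, by simp [b2], by simp [b3], ?_, ?_, ?_, ?_, ?_⟩
    · linear_combination r ^ 2 * b4
    · intro k l h1 h2 h3 h4 h5
      linear_combination r ^ 2 * b5 k l h1 h2 h3 h4 h5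
    · intro k l h1 h2 h3 h4 h5
      linear_combination r ^ 2 * b6 k l h1 h2 h3 h4 h5
    · linear_combination r ^ 2 * b7
    · linear_combination r ^ 2 * b8
  have hN : nrm9 (r * u) (r * c₁) (r * c₂) (fun i j => r * B i j) = 1 := by
    rw [← hr2]
    simp only [nrm9, mul_pow, ← Finset.mul_sum]
    ring
  have h1 := H ((U, δ, ε), (W, Y), r * u, r * c₁, r * c₂, fun i j => r * B i j)
    ⟨hU, hδ.le, hδ', hε.le, hε', hW, hC', hN⟩ rfl rfl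
  have h2 : TFp9 lam ((U, δ, ε), (W, Y), r * u, r * c₁, r * c₂, fun i j => r * B i j)
      = r ^ 2 * TF9 U δ ε lam W Y u c₁ c₂ B := by
    simp only [TFp9, TF9]
    exact Tj9_homog _ _ _ _ _ _ _ _ _ _ _ _ _ _ _ _
  rw [h2] at h1
  exact (mul_pos_iff_of_pos_left (by positivity)).1 h1

private lemma fE0 (U : Mat) (δ : ℝ) (s : Fr9) : fE U δ s 0 = (1, 0) := rfl
private lemma fE1 (U : Mat) (δ : ℝ) (s : Fr9) : fE U δ s 1 = (Complex.I, 0) := rfl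
private lemma fE2 (U : Mat) (δ : ℝ) (s : Fr9) : fE U δ s 2 = (0, vF U δ s) := rfl
private lemma fE3 (U : Mat) (δ : ℝ) (s : Fr9) : fE U δ s 3 = (0, iL (vF U δ s)) := rfl

private lemma vF_congr (U : Mat) (δ : ℝ) {x : V} {W W' : Fin 4 → V} (h : W 0 = W' 0) (Y Y' : V) :
    vF U δ (x, W, Y) = vF U δ (x, W', Y') := by
  simp only [vF, h]

/-- `τ` depends only on the first vector of the frame. -/
theorem H2_tauS_congr (U : Mat) (δ : ℝ) {x : V} {W W' : Fin 4 → V} (h : W 0 = W' 0) (Y Y' : V)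
    (y p : Y9) : tauS U δ ((x, W, Y), y, p) = tauS U δ ((x, W', Y'), y, p) := by
  have e := vF_congr U δ (x := x) h Y Y'
  simp only [tauS, sC, bF, cmp, fE0, fE1, fE2, fE3, e]


/-! ### smoothness in `U` -/
private lemma slice {E : Type*} [NormedAddCommGroup E] [NormedSpace ℝ E] {g : Pm × V → E} {U : Mat}
    {δ ε : ℝ} (h : ContDiffAt ℝ ∞ g (((U, δ, ε) : Pm), (0 : V))) :
    ContDiffAt ℝ ∞ (fun q : Mat × V => g (((q.1, δ, ε) : Pm), q.2)) (U, 0) := by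
  refine ContDiffAt.comp (g := g) (f := fun q : Mat × V => ((((q.1, δ, ε) : Pm), q.2) : Pm × V))
    (U, (0 : V)) h ?_
  exact (contDiffAt_fst.prodMk (contDiffAt_const (c := ((δ, ε) : ℝ × ℝ)))).prodMk contDiffAt_snd

theorem SmF9 {U : Mat} {δ : ℝ} (hU : Uᴴ * U = 1) (hδ : |δ| ≤ 1/100) (ε lam : ℝ) :
    Gen.SmF (fun U : Mat => D9 U δ ε lam) U 0 where
  h := by
    have h1 := slice (g := fun q : Pm × V => hm q.1.1 q.1.2.1 q.2)
      (contDiffAt_hm (q := (((U, δ, ε) : Pm), (0 : V))) hU hδ)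
    dsimp only at h1
    simp only [D9]
    exact h1
  A := by
    have h1 := slice (g := fun q : Pm × V => AL9 q.1.1 q.1.2.1 q.1.2.2 q.2)
      (contDiffAt_AL9 (q := (((U, δ, ε) : Pm), (0 : V))) hU hδ)
    dsimp only at h1
    simp only [D9]
    exact h1
  k := by
    have h1 : ContDiff ℝ ∞ (fun q : Mat × V => kL9 q.2) := contDiff_kL9.comp contDiff_snd
    exact h1.contDiffAt
  S := by
    have h1 := slice (g := fun q : Pm × V => SL9 q.1.1 q.1.2.1 q.1.2.2 lam q.2)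
      (contDiffAt_SL9 lam (q := (((U, δ, ε) : Pm), (0 : V))) hU hδ)
    dsimp only at h1
    simp only [D9]
    exact h1
  good := D9_good hU hδ ε lam 0


/-! ### the expression in (T) -/
theorem H2_TE_eq {U : Mat} {δ : ℝ} (hU : Uᴴ * U = 1) (hδ : |δ| ≤ 1/100) (ε lam : ℝ)
    {W : Fin 4 → V} {Y : V} (hW : ON9 U δ (0, W, Y)) (Z : V) (y w : Y9) :
    Gen.TE (D9 U δ ε lam) 0 (W 0) Z y w = num (hm U δ) 0 (W 0) Z
      + lie (D9 U δ ε lam).Xs (D9 U δ ε lam).OmS (0, W 0, Z, y, w, y, w)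
      + (1/4) * ∑ k : Fin 3, (kL9 0 y (OmV (AL9 U δ ε) 0 (W 0) (W k.succ) w)) ^ 2
      + (1/2) * lie (D9 U δ ε lam).Xs (lie (D9 U δ ε lam).Xs (D9 U δ ε lam).SS)
          (0, W 0, Z, y, w, y, w) := by
  have h1 : ∀ ξ, hm U δ 0 (Gen.tv (D9 U δ ε lam) 0 (W 0) y w) ξ
      = kL9 0 y (OmV (AL9 U δ ε) 0 (W 0) ξ w) := fun ξ =>
    Gen.tv_spec (D := fun U : Mat => D9 U δ ε lam) (p := U) (x := 0) (SmF9 hU hδ ε lam) (W 0) y w ξ
  have h2 : hm U δ 0 (Gen.tv (D9 U δ ε lam) 0 (W 0) y w) (Gen.tv (D9 U δ ε lam) 0 (W 0) y w)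
      = ∑ k : Fin 3, (kL9 0 y (OmV (AL9 U δ ε) 0 (W 0) (W k.succ) w)) ^ 2 := by
    rw [H2_sq hU hδ hW.1, Fin.sum_univ_succ]
    simp only [h1]
    rw [H2_OmV_self]
    simp
  have h3 : Gen.TE (D9 U δ ε lam) 0 (W 0) Z y w = num (hm U δ) 0 (W 0) Z
      + lie (D9 U δ ε lam).Xs (D9 U δ ε lam).OmS (0, W 0, Z, y, w, y, w)
      + (1/4) * hm U δ 0 (Gen.tv (D9 U δ ε lam) 0 (W 0) y w) (Gen.tv (D9 U δ ε lam) 0 (W 0) y w)
      + (1/2) * lie (D9 U δ ε lam).Xs (lie (D9 U δ ε lam).Xs (D9 U δ ε lam).SS)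
          (0, W 0, Z, y, w, y, w) := by
    unfold Gen.TE
    rfl
  rw [h3, h2]

theorem H2_nrm9_zero {u c₁ c₂ : ℝ} {B : Fin 6 → Fin 6 → ℝ} (h : nrm9 u c₁ c₂ B = 0) :
    u = 0 ∧ c₁ = 0 ∧ c₂ = 0 ∧ ∀ i j, B i j = 0 := by
  unfold nrm9 at h
  have hB : 0 ≤ ∑ i, ∑ j, B i j ^ 2 :=
    Finset.sum_nonneg fun i _ => Finset.sum_nonneg fun j _ => sq_nonneg _
  have h1 : u ^ 2 = 0 := by nlinarith [sq_nonneg u, sq_nonneg c₁, sq_nonneg c₂]
  have h2 : c₁ ^ 2 = 0 := by nlinarith [sq_nonneg u, sq_nonneg c₁, sq_nonneg c₂]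
  have h3 : c₂ ^ 2 = 0 := by nlinarith [sq_nonneg u, sq_nonneg c₁, sq_nonneg c₂]
  have h4 : ∑ i, ∑ j, B i j ^ 2 = 0 := by nlinarith
  refine ⟨by simpa using h1, by simpa using h2, by simpa using h3, fun i j => ?_⟩
  have h5 := (Finset.sum_eq_zero_iff_of_nonneg
    (fun i _ => Finset.sum_nonneg fun j _ => sq_nonneg (B i j))).1 h4 i (Finset.mem_univ i)
  have h6 := (Finset.sum_eq_zero_iff_of_nonneg (fun j _ => sq_nonneg (B i j))).1 h5 j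
    (Finset.mem_univ j)
  simpa using h6

end Pool.Agent.Helper81.M9
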