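import Pool.Agent.Helper81.M9.St.C1
import Pool.Agent.Helper81.M9.St.C2
import Pool.Agent.Helper81.M9.St.C3
import Pool.Agent.Helper81.M9.St.C4
import Pool.Agent.Helper81.M9.St.C5
import Pool.Agent.Helper81.M9.St.C6
import Pool.Agent.Helper81.M9.St.C7
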