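import Pool.Agent.Helper81.M9.St.E1
import Pool.Agent.Helper81.M9.St.E2
import Pool.Agent.Helper81.M9.St.E3
import Pool.Agent.Helper81.M9.St.E4
import Pool.Agent.Helper81.M9.St.E5
import Pool.Agent.Helper81.M9.St.E6
import Pool.Agent.Helper81.M9.St.E7
import Pool.Agent.Helper81.M9.St.E8
import Pool.Agent.Helper81.M9.St.E9
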